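import Pool.Agent.P.MP_785924_gt.A.IfaceA

/-! Toolbox: uniqueness and existence for small linear systems. -/

namespace Pool.Agent.P.MP_785924_gt

open scoped ContDiff
open Set Filter Topology

/-- Uniqueness from a linear bound, on a closed interval, both directions. -/
theorem uq_bound {E : Type*} [NormedAddCommGroup E] [NormedSpace ℝ E] {y y' : ℝ → E}
    {a b t0 K : ℝ} (h0 : t0 ∈ Icc a b) (hd : ∀ t ∈ Icc a b, HasDerivAt y (y' t) t)
    (hb : ∀ t ∈ Icc a b, ‖y' t‖ ≤ K * ‖y t‖) (hz : y t0 = 0) : ∀ t ∈ Icc a b, y t = 0 := by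
  intro t ht
  rcases le_total t0 t with h | h
  · refine eq_zero_of_abs_deriv_le_mul_abs_self_of_eq_zero_right (f := y) (f' := y') (K := K)
      (a := t0) (b := b) ?_ ?_ hz ?_ t ⟨h, ht.2⟩
    · exact fun s hs => (hd s ⟨h0.1.trans hs.1, hs.2⟩).continuousAt.continuousWithinAt
    · exact fun s hs => (hd s ⟨h0.1.trans hs.1, hs.2.le⟩).hasDerivWithinAt
    · exact fun s hs => hb s ⟨h0.1.trans hs.1, hs.2.le⟩
  · have key := eq_zero_of_abs_deriv_le_mul_abs_self_of_eq_zero_right (f := fun s => y (-s))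
      (f' := fun s => -y' (-s)) (K := K) (a := -t0) (b := -a) ?_ ?_ (by simpa using hz) ?_ (-t)
      ⟨by linarith, by linarith [ht.1]⟩
    · simpa using key
    · intro s hs
      have := (hd (-s) ⟨by linarith [hs.2], by linarith [hs.1, h0.2]⟩).continuousAt
      exact (this.comp (f := fun s : ℝ => -s) continuous_neg.continuousAt).continuousWithinAt
    · intro s hs
      have := (hd (-s) ⟨by linarith [hs.2], by linarith [hs.1, h0.2]⟩).scomp s (hasDerivAt_neg s)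
      simpa [Function.comp_def] using this.hasDerivWithinAt
    · intro s hs
      simpa using hb (-s) ⟨by linarith [hs.2], by linarith [hs.1, h0.2]⟩

/-- Uniqueness for a linear equation with coefficients continuous on a closed interval. -/
theorem uq_lin_Icc {E : Type*} [NormedAddCommGroup E] [NormedSpace ℝ E] {y : ℝ → E}
    {A : ℝ → E →L[ℝ] E} {a b t0 : ℝ} (h0 : t0 ∈ Icc a b) (hA : ContinuousOn A (Icc a b))
    (hd : ∀ t ∈ Icc a b, HasDerivAt y (A t (y t)) t) (hz : y t0 = 0) :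
    ∀ t ∈ Icc a b, y t = 0 := by
  obtain ⟨K, hK⟩ := isCompact_Icc.exists_bound_of_continuousOn hA
  exact uq_bound h0 hd (fun t ht => ((A t).le_opNorm _).trans
    (mul_le_mul_of_nonneg_right (hK t ht) (norm_nonneg _))) hz

/-- Uniqueness for a linear equation on the line. -/
theorem uq_lin {E : Type*} [NormedAddCommGroup E] [NormedSpace ℝ E] {y : ℝ → E}
    {A : ℝ → E →L[ℝ] E} {t0 : ℝ} (hA : Continuous A)
    (hd : ∀ t, HasDerivAt y (A t (y t)) t) (hz : y t0 = 0) : ∀ t, y t = 0 := fun t =>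
  uq_lin_Icc (a := min t t0) (b := max t t0) ⟨min_le_right _ _, le_max_right _ _⟩ hA.continuousOn
    (fun s _ => hd s) hz t ⟨min_le_left _ _, le_max_left _ _⟩

/-- Uniqueness for a system of `n` scalar equations on a closed interval. -/
theorem uqn_Icc {𝕜 : Type*} [RCLike 𝕜] {n : ℕ} {y : Fin n → ℝ → 𝕜} {A : Fin n → Fin n → ℝ → 𝕜}
    {a b t0 : ℝ} (h0 : t0 ∈ Icc a b) (hA : ∀ i j, ContinuousOn (A i j) (Icc a b))
    (hd : ∀ i, ∀ t ∈ Icc a b, HasDerivAt (y i) (∑ j, A i j t * y j t) t) (hz : ∀ i, y i t0 = 0) :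
    ∀ i, ∀ t ∈ Icc a b, y i t = 0 := by
  have hb : ∀ i j, ∃ K, ∀ t ∈ Icc a b, ‖A i j t‖ ≤ K := fun i j =>
    isCompact_Icc.exists_bound_of_continuousOn (hA i j)
  choose K hK using hb
  have key := uq_bound (E := Fin n → 𝕜) (y := fun t i => y i t)
    (y' := fun t i => ∑ j, A i j t * y j t) (K := ∑ i, ∑ j, |K i j|) h0
    (fun t ht => hasDerivAt_pi.2 fun i => hd i t ht) ?_ (funext hz)
  · exact fun i t ht => congrFun (key t ht) i
  · intro t ht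
    refine (pi_norm_le_iff_of_nonneg (by positivity)).2 fun i => ?_
    calc ‖∑ j, A i j t * y j t‖ ≤ ∑ j, |K i j| * ‖fun i => y i t‖ := by
          refine (norm_sum_le _ _).trans (Finset.sum_le_sum fun j _ => ?_)
          rw [norm_mul]
          exact mul_le_mul ((hK i j t ht).trans (le_abs_self _))
            (norm_le_pi_norm (fun i => y i t) j) (norm_nonneg _) (abs_nonneg _)
      _ = (∑ j, |K i j|) * ‖fun i => y i t‖ := by rw [Finset.sum_mul]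
      _ ≤ _ := mul_le_mul_of_nonneg_right
          (Finset.single_le_sum (f := fun i => ∑ j, |K i j|) (fun i _ => by positivity)
            (Finset.mem_univ i)) (norm_nonneg _)

/-- Uniqueness for a system of `n` scalar equations on the line. -/
theorem uqn {𝕜 : Type*} [RCLike 𝕜] {n : ℕ} {y : Fin n → ℝ → 𝕜} {A : Fin n → Fin n → ℝ → 𝕜}
    {t0 : ℝ} (hA : ∀ i j, Continuous (A i j))
    (hd : ∀ i t, HasDerivAt (y i) (∑ j, A i j t * y j t) t) (hz : ∀ i, y i t0 = 0) :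
    ∀ i t, y i t = 0 := fun i t =>
  uqn_Icc (a := min t t0) (b := max t t0) ⟨min_le_right _ _, le_max_right _ _⟩
    (fun i j => (hA i j).continuousOn) (fun i s _ => hd i s) hz i t ⟨min_le_left _ _, le_max_left _ _⟩

/-- Uniqueness, one equation. -/
theorem uq1_Icc {𝕜 : Type*} [RCLike 𝕜] {y a11 : ℝ → 𝕜} {a b t0 : ℝ} (h0 : t0 ∈ Icc a b)
    (h11 : ContinuousOn a11 (Icc a b)) (hd : ∀ t ∈ Icc a b, HasDerivAt y (a11 t * y t) t)
    (hz : y t0 = 0) : ∀ t ∈ Icc a b, y t = 0 :=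
  uqn_Icc (n := 1) (y := fun _ => y) (A := fun _ _ => a11) h0 (fun _ _ => h11)
    (fun _ t ht => by simpa using hd t ht) (fun _ => hz) 0

/-- Uniqueness, two equations. -/
theorem uq2 {𝕜 : Type*} [RCLike 𝕜] {y1 y2 a11 a12 a21 a22 : ℝ → 𝕜} {t0 : ℝ}
    (h11 : Continuous a11) (h12 : Continuous a12) (h21 : Continuous a21) (h22 : Continuous a22)
    (hd1 : ∀ t, HasDerivAt y1 (a11 t * y1 t + a12 t * y2 t) t)
    (hd2 : ∀ t, HasDerivAt y2 (a21 t * y1 t + a22 t * y2 t) t) (hz1 : y1 t0 = 0) (hz2 : y2 t0 = 0) :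
    ∀ t, y1 t = 0 ∧ y2 t = 0 := by
  have key := uqn (n := 2) (y := ![y1, y2]) (A := ![![a11, a12], ![a21, a22]]) (t0 := t0)
    (by intro i j; fin_cases i <;> fin_cases j <;> simpa)
    (by intro i t; fin_cases i <;> simp [Fin.sum_univ_two, hd1, hd2])
    (by intro i; fin_cases i <;> simpa)
  exact fun t => ⟨by simpa using key 0 t, by simpa using key 1 t⟩

/-- Existence for a system of `n` scalar equations. -/
theorem exn (hEX : S_ODEEX) {𝕜 : Type} [RCLike 𝕜] {n : ℕ} {A : Fin n → Fin n → ℝ → 𝕜}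
    (hA : ∀ i j, Continuous (A i j)) (t0 : ℝ) (y0 : Fin n → 𝕜) :
    ∃ y : Fin n → ℝ → 𝕜, (∀ i, y i t0 = y0 i) ∧
      ∀ i t, HasDerivAt (y i) (∑ j, A i j t * y j t) t := by
  let L : Fin n → Fin n → 𝕜 →L[ℝ] ((Fin n → 𝕜) →L[ℝ] (Fin n → 𝕜)) := fun i j =>
    ((ContinuousLinearMap.compL ℝ (Fin n → 𝕜) 𝕜 (Fin n → 𝕜))
      (ContinuousLinearMap.single ℝ (fun _ : Fin n => 𝕜) i)).comp
      (((ContinuousLinearMap.compL ℝ (Fin n → 𝕜) 𝕜 𝕜).flip
        (ContinuousLinearMap.proj (R := ℝ) (φ := fun _ : Fin n => 𝕜) j)).comp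
        (ContinuousLinearMap.mul ℝ 𝕜))
  obtain ⟨y, hy0, hy⟩ := hEX (Fin n → 𝕜) (fun t => ∑ i, ∑ j, L i j (A i j t))
    (continuous_finsetSum _ fun i _ => continuous_finsetSum _ fun j _ =>
      (L i j).continuous.comp (hA i j)) t0 y0
  refine ⟨fun i t => y t i, fun i => by simp [hy0], fun i t => ?_⟩
  have := hasDerivAt_pi.1 (hy t) i
  refine this.congr_deriv ?_
  simp [L, Finset.sum_apply, Pi.single_apply]

/-- Existence, two equations. -/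
theorem ex2 (hEX : S_ODEEX) {𝕜 : Type} [RCLike 𝕜] {a11 a12 a21 a22 : ℝ → 𝕜}
    (h11 : Continuous a11) (h12 : Continuous a12) (h21 : Continuous a21) (h22 : Continuous a22)
    (t0 : ℝ) (c1 c2 : 𝕜) : ∃ y1 y2 : ℝ → 𝕜, y1 t0 = c1 ∧ y2 t0 = c2 ∧
      (∀ t, HasDerivAt y1 (a11 t * y1 t + a12 t * y2 t) t) ∧
      ∀ t, HasDerivAt y2 (a21 t * y1 t + a22 t * y2 t) t := by
  obtain ⟨y, h0, hy⟩ := exn hEX (n := 2) (A := ![![a11, a12], ![a21, a22]])
    (by intro i j; fin_cases i <;> fin_cases j <;> simpa) t0 ![c1, c2]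
  exact ⟨y 0, y 1, by simpa using h0 0, by simpa using h0 1,
    fun t => by simpa [Fin.sum_univ_two] using hy 0 t,
    fun t => by simpa [Fin.sum_univ_two] using hy 1 t⟩

theorem Sm1.cont {P : ℝ} {w : ℝ → ℝ} (h : Sm1 P w) : Continuous w := h.1.continuous

theorem Sm1.hd {P : ℝ} {w : ℝ → ℝ} (h : Sm1 P w) (θ : ℝ) : HasDerivAt w (deriv w θ) θ :=
  (h.1.differentiable (by simp) θ).hasDerivAt

theorem Sm1.deriv {P : ℝ} {w : ℝ → ℝ} (h : Sm1 P w) : Sm1 P (deriv w) := by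
  refine ⟨(contDiff_infty_iff_deriv.1 h.1).2, fun θ => ?_⟩
  have h1 : (fun s => w (s + P)) = w := funext h.2
  rw [← deriv_comp_add_const, h1]

/-! ### The real spectral system -/

section real
variable {ρ κ : ℝ} {w φ1 φ2 ψ1 ψ2 : ℝ → ℝ}

theorem Sys2R.lin (h : Sys2R ρ w κ φ1 φ2) (h' : Sys2R ρ w κ ψ1 ψ2) (a b : ℝ) :
    Sys2R ρ w κ (fun θ => a * φ1 θ + b * ψ1 θ) (fun θ => a * φ2 θ + b * ψ2 θ) := fun θ =>
  ⟨(((h θ).1.const_mul a).fun_add ((h' θ).1.const_mul b)).congr_deriv (by ring),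
   (((h θ).2.const_mul a).fun_add ((h' θ).2.const_mul b)).congr_deriv (by ring)⟩

theorem Sys2R.shift {P : ℝ} (hw : Function.Periodic w P) (h : Sys2R ρ w κ φ1 φ2) :
    Sys2R ρ w κ (fun θ => φ1 (θ + P)) (fun θ => φ2 (θ + P)) := fun θ =>
  ⟨by simpa [hw θ] using (h (θ + P)).1.comp_add_const θ P,
   by simpa [hw θ] using (h (θ + P)).2.comp_add_const θ P⟩

theorem Sys2R.zero (hw : Continuous w) (hκ : κ ≠ 0) (h : Sys2R ρ w κ φ1 φ2) {t0 : ℝ}
    (h1 : φ1 t0 = 0) (h2 : φ2 t0 = 0) : ∀ θ, φ1 θ = 0 ∧ φ2 θ = 0 :=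
  uq2 (a11 := fun _ => 0) (a22 := fun _ => 0)
    (a12 := fun θ => -((κ * Real.exp (w θ) / ρ + 1 / (κ * Real.exp (w θ))) / 2))
    (a21 := fun θ => (κ / Real.exp (w θ) + Real.exp (w θ) / (κ * ρ)) / 2)
    continuous_const (by fun_prop (disch := intro θ; positivity))
    (by fun_prop (disch := intro θ; positivity)) continuous_const
    (fun t => ((h t).1).congr_deriv (by ring)) (fun t => ((h t).2).congr_deriv (by ring)) h1 h2

theorem Sys2R.uniq (hw : Continuous w) (hκ : κ ≠ 0) (h : Sys2R ρ w κ φ1 φ2)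
    (h' : Sys2R ρ w κ ψ1 ψ2) {t0 : ℝ} (h1 : φ1 t0 = ψ1 t0) (h2 : φ2 t0 = ψ2 t0) :
    ∀ θ, φ1 θ = ψ1 θ ∧ φ2 θ = ψ2 θ := fun θ => by
  have := (h.lin h' 1 (-1)).zero hw hκ (t0 := t0) (by simp [h1]) (by simp [h2]) θ
  constructor <;> linarith [this.1, this.2]

theorem Sys2R.ex (hEX : S_ODEEX) (hw : Continuous w) (hκ : κ ≠ 0) (ρ t0 c1 c2 : ℝ) :
    ∃ φ1 φ2, Sys2R ρ w κ φ1 φ2 ∧ φ1 t0 = c1 ∧ φ2 t0 = c2 := by
  obtain ⟨y1, y2, h1, h2, d1, d2⟩ := ex2 hEX (a11 := fun _ => (0 : ℝ)) (a22 := fun _ => 0)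
    (a12 := fun θ => -((κ * Real.exp (w θ) / ρ + 1 / (κ * Real.exp (w θ))) / 2))
    (a21 := fun θ => (κ / Real.exp (w θ) + Real.exp (w θ) / (κ * ρ)) / 2)
    continuous_const (by fun_prop (disch := intro θ; positivity))
    (by fun_prop (disch := intro θ; positivity)) continuous_const t0 c1 c2
  exact ⟨y1, y2, fun θ => ⟨(d1 θ).congr_deriv (by ring), (d2 θ).congr_deriv (by ring)⟩, h1, h2⟩

/-- The Wronskian is constant. -/
theorem Sys2R.wr (h : Sys2R ρ w κ φ1 φ2) (h' : Sys2R ρ w κ ψ1 ψ2) (s t : ℝ) :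
    φ1 s * ψ2 s - φ2 s * ψ1 s = φ1 t * ψ2 t - φ2 t * ψ1 t := by
  have hd : ∀ θ, HasDerivAt (fun θ => φ1 θ * ψ2 θ - φ2 θ * ψ1 θ) 0 θ := fun θ =>
    (((h θ).1.fun_mul (h' θ).2).fun_sub ((h θ).2.fun_mul (h' θ).1)).congr_deriv (by ring)
  exact is_const_of_deriv_eq_zero (fun θ => (hd θ).differentiableAt) (fun θ => (hd θ).deriv) s t

theorem Sol.ne (hw : Continuous w) (hκ : κ ≠ 0) (h : Sol ρ w κ φ1 φ2) (θ : ℝ) :
    φ1 θ ^ 2 + φ2 θ ^ 2 ≠ 0 := by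
  intro h0
  have h1 : φ1 θ = 0 := by nlinarith [sq_nonneg (φ1 θ), sq_nonneg (φ2 θ)]
  have h2 : φ2 θ = 0 := by nlinarith [sq_nonneg (φ1 θ), sq_nonneg (φ2 θ)]
  have := h.1.zero hw hκ h1 h2 0
  rcases h.2 with h | h
  · exact h this.1
  · exact h this.2

theorem Sys2R.toC (h : Sys2R ρ w κ φ1 φ2) :
    Sys2 ρ w (κ : ℂ) (fun θ => (φ1 θ : ℂ)) (fun θ => (φ2 θ : ℂ)) := fun θ =>
  ⟨((h θ).1.ofReal_comp).congr_deriv (by push_cast; ring),
   ((h θ).2.ofReal_comp).congr_deriv (by push_cast; ring)⟩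

end real

/-! ### The complex spectral system -/

section complex
variable {ρ : ℝ} {κ : ℂ} {w : ℝ → ℝ} {φ1 φ2 ψ1 ψ2 : ℝ → ℂ}

theorem Sys2.lin (h : Sys2 ρ w κ φ1 φ2) (h' : Sys2 ρ w κ ψ1 ψ2) (a b : ℂ) :
    Sys2 ρ w κ (fun θ => a * φ1 θ + b * ψ1 θ) (fun θ => a * φ2 θ + b * ψ2 θ) := fun θ =>
  ⟨(((h θ).1.const_mul a).fun_add ((h' θ).1.const_mul b)).congr_deriv (by ring),
   (((h θ).2.const_mul a).fun_add ((h' θ).2.const_mul b)).congr_deriv (by ring)⟩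

theorem Sys2.shift {P : ℝ} (hw : Function.Periodic w P) (h : Sys2 ρ w κ φ1 φ2) :
    Sys2 ρ w κ (fun θ => φ1 (θ + P)) (fun θ => φ2 (θ + P)) := fun θ =>
  ⟨by simpa [hw θ] using (h (θ + P)).1.comp_add_const θ P,
   by simpa [hw θ] using (h (θ + P)).2.comp_add_const θ P⟩

theorem expC_ne (r : ℝ) : ((Real.exp r : ℝ) : ℂ) ≠ 0 := by exact_mod_cast (Real.exp_pos r).ne'

theorem Sys2.c12 (hw : Continuous w) (hκ : κ ≠ 0) (ρ : ℝ) : Continuous fun θ =>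
    -((κ * (Real.exp (w θ) : ℂ) / ρ + 1 / (κ * (Real.exp (w θ) : ℂ))) / 2) := by
  fun_prop (disch := intro θ; exact mul_ne_zero hκ (expC_ne _))

theorem Sys2.c21 (hw : Continuous w) (κ : ℂ) (ρ : ℝ) : Continuous fun θ =>
    (κ / (Real.exp (w θ) : ℂ) + (Real.exp (w θ) : ℂ) / (κ * ρ)) / 2 := by
  fun_prop (disch := intro θ; exact expC_ne _)

theorem Sys2.zero (hw : Continuous w) (hκ : κ ≠ 0) (h : Sys2 ρ w κ φ1 φ2) {t0 : ℝ}
    (h1 : φ1 t0 = 0) (h2 : φ2 t0 = 0) : ∀ θ, φ1 θ = 0 ∧ φ2 θ = 0 :=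
  uq2 (a11 := fun _ => 0) (a22 := fun _ => 0) continuous_const (Sys2.c12 hw hκ ρ)
    (Sys2.c21 hw κ ρ) continuous_const
    (fun t => ((h t).1).congr_deriv (by ring)) (fun t => ((h t).2).congr_deriv (by ring)) h1 h2

theorem Sys2.uniq (hw : Continuous w) (hκ : κ ≠ 0) (h : Sys2 ρ w κ φ1 φ2)
    (h' : Sys2 ρ w κ ψ1 ψ2) {t0 : ℝ} (h1 : φ1 t0 = ψ1 t0) (h2 : φ2 t0 = ψ2 t0) :
    ∀ θ, φ1 θ = ψ1 θ ∧ φ2 θ = ψ2 θ := fun θ => by
  have := (h.lin h' 1 (-1)).zero hw hκ (t0 := t0) (by simp [h1]) (by simp [h2]) θ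
  constructor
  · linear_combination this.1
  · linear_combination this.2

theorem Sys2.ex (hEX : S_ODEEX) (hw : Continuous w) (hκ : κ ≠ 0) (ρ t0 : ℝ) (c1 c2 : ℂ) :
    ∃ φ1 φ2, Sys2 ρ w κ φ1 φ2 ∧ φ1 t0 = c1 ∧ φ2 t0 = c2 := by
  obtain ⟨y1, y2, h1, h2, d1, d2⟩ := ex2 hEX (a11 := fun _ => (0 : ℂ)) (a22 := fun _ => 0)
    continuous_const (Sys2.c12 hw hκ ρ) (Sys2.c21 hw κ ρ) continuous_const t0 c1 c2
  exact ⟨y1, y2, fun θ => ⟨(d1 θ).congr_deriv (by ring), (d2 θ).congr_deriv (by ring)⟩, h1, h2⟩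

/-- Real scalar monodromy gives complex scalar monodromy. -/
theorem ScalR.toC (hEX : S_ODEEX) {P k : ℝ} (hw : Continuous w) (hk : k ≠ 0)
    (h : ScalR ρ P w k) : Scal ρ P w (k : ℂ) := by
  obtain ⟨σ, hσ⟩ := h
  obtain ⟨p1, p2, hp, hp1, hp2⟩ := Sys2R.ex hEX hw hk ρ 0 1 0
  obtain ⟨q1, q2, hq, hq1, hq2⟩ := Sys2R.ex hEX hw hk ρ 0 0 1
  refine ⟨σ, fun φ1 φ2 hφ θ => ?_⟩
  have hk' : (k : ℂ) ≠ 0 := by exact_mod_cast hk
  have e := hφ.uniq hw hk' (hp.toC.lin hq.toC (φ1 0) (φ2 0)) (t0 := 0)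
    (by simp [hp1, hq1]) (by simp [hp2, hq2])
  rw [(e (θ + P)).1, (e (θ + P)).2, (e θ).1, (e θ).2, (hσ _ _ hp θ).1, (hσ _ _ hp θ).2,
    (hσ _ _ hq θ).1, (hσ _ _ hq θ).2]
  push_cast
  constructor <;> ring

end complex

/-! ### The three-dimensional system -/

section three
variable {ρ μ : ℝ} {w f g u f' g' u' : ℝ → ℝ}

theorem Sys3.lin (h : Sys3 ρ w μ f g u) (h' : Sys3 ρ w μ f' g' u') (a b : ℝ) :
    Sys3 ρ w μ (fun θ => a * f θ + b * f' θ) (fun θ => a * g θ + b * g' θ)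
      (fun θ => a * u θ + b * u' θ) := fun θ =>
  ⟨(((h θ).1.const_mul a).fun_add ((h' θ).1.const_mul b)).congr_deriv (by ring),
   (((h θ).2.1.const_mul a).fun_add ((h' θ).2.1.const_mul b)).congr_deriv (by ring),
   (((h θ).2.2.const_mul a).fun_add ((h' θ).2.2.const_mul b)).congr_deriv (by ring)⟩

theorem Sys3.shift {P : ℝ} (hw : Function.Periodic w P) (h : Sys3 ρ w μ f g u) :
    Sys3 ρ w μ (fun θ => f (θ + P)) (fun θ => g (θ + P)) (fun θ => u (θ + P)) := fun θ =>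
  ⟨by simpa [hw θ] using (h (θ + P)).1.comp_add_const θ P,
   by simpa [hw θ] using (h (θ + P)).2.1.comp_add_const θ P,
   by simpa [hw θ] using (h (θ + P)).2.2.comp_add_const θ P⟩

/-- Coefficient matrix of the three-dimensional system. -/
noncomputable def m3 (ρ μ : ℝ) (w : ℝ → ℝ) : Fin 3 → Fin 3 → ℝ → ℝ :=
  ![![fun _ => 0, fun _ => 0, fun θ => Real.exp (w θ)],
    ![fun _ => 0, fun _ => 0, fun θ => 1 / Real.exp (w θ)],
    ![fun θ => -(Real.exp (w θ) / ρ ^ 2) + μ / Real.exp (w θ),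
      fun θ => μ * Real.exp (w θ) - 1 / Real.exp (w θ), fun _ => 0]]

theorem m3_cont (hw : Continuous w) (ρ μ : ℝ) (i j : Fin 3) : Continuous (m3 ρ μ w i j) := by
  fin_cases i <;> fin_cases j <;> simp only [m3] <;> simp <;>
    fun_prop (disch := intro θ; positivity)

theorem Sys3.zero (hw : Continuous w) (h : Sys3 ρ w μ f g u) {t0 : ℝ}
    (h1 : f t0 = 0) (h2 : g t0 = 0) (h3 : u t0 = 0) : ∀ θ, f θ = 0 ∧ g θ = 0 ∧ u θ = 0 := by
  have key := uqn (n := 3) (y := ![f, g, u]) (A := m3 ρ μ w) (t0 := t0) (m3_cont hw ρ μ)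
    (by
      intro i t
      fin_cases i
      · exact (h t).1.congr_deriv (by simp [m3, Fin.sum_univ_three])
      · exact (h t).2.1.congr_deriv (by simp [m3, Fin.sum_univ_three, div_eq_mul_inv, mul_comm])
      · exact (h t).2.2.congr_deriv (by simp [m3, Fin.sum_univ_three]; ring))
    (by intro i; fin_cases i <;> simpa)
  exact fun t => ⟨by simpa using key 0 t, by simpa using key 1 t, by simpa using key 2 t⟩

theorem Sys3.uniq (hw : Continuous w) (h : Sys3 ρ w μ f g u) (h' : Sys3 ρ w μ f' g' u') {t0 : ℝ}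
    (h1 : f t0 = f' t0) (h2 : g t0 = g' t0) (h3 : u t0 = u' t0) :
    ∀ θ, f θ = f' θ ∧ g θ = g' θ ∧ u θ = u' θ := fun θ => by
  have := (h.lin h' 1 (-1)).zero hw (t0 := t0) (by simp [h1]) (by simp [h2]) (by simp [h3]) θ
  refine ⟨?_, ?_, ?_⟩ <;> linarith [this.1, this.2.1, this.2.2]

theorem Sys3.ex (hEX : S_ODEEX) (hw : Continuous w) (ρ μ t0 c1 c2 c3 : ℝ) :
    ∃ f g u, Sys3 ρ w μ f g u ∧ f t0 = c1 ∧ g t0 = c2 ∧ u t0 = c3 := by
  obtain ⟨y, h0, hy⟩ := exn hEX (n := 3) (A := m3 ρ μ w) (m3_cont hw ρ μ) t0 ![c1, c2, c3]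
  refine ⟨y 0, y 1, y 2, fun θ => ⟨?_, ?_, ?_⟩, by simpa using h0 0, by simpa using h0 1,
    by simpa using h0 2⟩
  · exact (hy 0 θ).congr_deriv (by simp [m3, Fin.sum_univ_three])
  · exact (hy 1 θ).congr_deriv (by simp [m3, Fin.sum_univ_three, div_eq_mul_inv, mul_comm])
  · exact (hy 2 θ).congr_deriv (by simp [m3, Fin.sum_univ_three]; ring)

/-- The components of a fixed vector in the frame of a curve solve the system with `μ = 0`. -/
theorem Curve.sys3 {P : ℝ} {x ν e : Fin 3 → ℝ → ℝ} (h : Curve ρ P w x ν e) (a : Fin 3 → ℝ) :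
    Sys3 ρ w 0 (cmp a x) (cmp a ν) (cmp a e) := fun θ =>
  ⟨((((h.dx 0 θ).const_mul (a 0)).fun_add ((h.dx 1 θ).const_mul (a 1))).fun_add
      ((h.dx 2 θ).const_mul (a 2))).congr_deriv (by simp only [cmp]; ring),
   ((((h.dν 0 θ).const_mul (a 0)).fun_add ((h.dν 1 θ).const_mul (a 1))).fun_add
      ((h.dν 2 θ).const_mul (a 2))).congr_deriv (by simp only [cmp]; ring),
   ((((h.de 0 θ).const_mul (a 0)).fun_add ((h.de 1 θ).const_mul (a 1))).fun_add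
      ((h.de 2 θ).const_mul (a 2))).congr_deriv (by simp only [cmp]; ring)⟩

end three

end Pool.Agent.P.MP_785924_gt
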