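import Pool.Agent.P.MP_785924_gt.A.IfaceA
import Pool.Agent.P.MP_785924_gt.A.Tb

/-! Step ALT of the free boundary annulus project. -/

namespace Pool.Agent.P.MP_785924_gt

open scoped ContDiff
open Set Filter Topology

theorem p_ALT (hANG : S_ANG) :
    S_ALT := by
  intro ρ P κ w φ1 φ2 hρ hP hκ hw hs hpm hd
  have hwc := hw.cont
  have hne := hs.ne hwc hκ.ne'
  have c1 : Continuous φ1 := continuous_iff_continuousAt.2 fun θ => (hs.1 θ).1.continuousAt
  have c2 : Continuous φ2 := continuous_iff_continuousAt.2 fun θ => (hs.1 θ).2.continuousAt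
  have hA : ∀ θ, 0 < κ * Real.exp (w θ) / ρ + 1 / (κ * Real.exp (w θ)) := fun θ => by positivity
  have hB : ∀ θ, 0 < κ / Real.exp (w θ) + Real.exp (w θ) / (κ * ρ) := fun θ => by positivity
  have hN : ∀ θ, 0 < φ1 θ ^ 2 + φ2 θ ^ 2 := fun θ =>
    lt_of_le_of_ne (by positivity) (hne θ).symm
  have ca : Continuous (ang ρ w κ φ1 φ2) := by
    unfold ang
    fun_prop (disch := intro θ; first | positivity | exact mul_ne_zero two_ne_zero (hne θ))
  have pa : ∀ θ, 0 < ang ρ w κ φ1 φ2 θ := by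
    intro θ
    refine div_pos ?_ (mul_pos two_pos (hN θ))
    have h1 := mul_nonneg (hB θ).le (sq_nonneg (φ1 θ))
    have h2 := mul_nonneg (hA θ).le (sq_nonneg (φ2 θ))
    by_cases h : φ1 θ = 0
    · have h3 : 0 < φ2 θ ^ 2 := by simpa [h] using hN θ
      have := mul_pos (hA θ) h3
      linarith
    · have := mul_pos (hB θ) (sq_pos_of_ne_zero h)
      linarith
  have per : Function.Periodic (ang ρ w κ φ1 φ2) P := by
    obtain ⟨σ, hσ, h⟩ := hpm
    intro θ
    unfold ang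
    rw [hw.2 θ, (h θ).1, (h θ).2]
    rcases hσ with rfl | rfl <;> simp
  set a0 : ℝ := Complex.arg ((φ1 0 : ℂ) + (φ2 0 : ℂ) * Complex.I) with ha0
  have key := hANG φ1 φ2
    (fun θ => -((κ * Real.exp (w θ) / ρ + 1 / (κ * Real.exp (w θ))) / 2 * φ2 θ))
    (fun θ => (κ / Real.exp (w θ) + Real.exp (w θ) / (κ * ρ)) / 2 * φ1 θ) a0
    (by fun_prop (disch := intro θ; positivity)) (by fun_prop (disch := intro θ; positivity))
    (fun θ => (hs.1 θ).1) (fun θ => (hs.1 θ).2) hne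
    (by
      rw [← Complex.norm_add_mul_I, ha0, Complex.norm_mul_cos_arg]
      simp)
    (by
      rw [← Complex.norm_add_mul_I, ha0, Complex.norm_mul_sin_arg]
      simp)
  have hfun : (fun s => (φ1 s * ((κ / Real.exp (w s) + Real.exp (w s) / (κ * ρ)) / 2 * φ1 s) -
      φ2 s * -((κ * Real.exp (w s) / ρ + 1 / (κ * Real.exp (w s))) / 2 * φ2 s)) /
      (φ1 s ^ 2 + φ2 s ^ 2)) = ang ρ w κ φ1 φ2 := by
    funext s
    unfold ang
    rw [div_eq_div_iff (hne s) (mul_ne_zero two_ne_zero (hne s))]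
    ring
  rw [hfun] at key
  set al : ℝ → ℝ := fun θ => a0 + ∫ s in (0 : ℝ)..θ, ang ρ w κ φ1 φ2 s with hal
  have dal : ∀ θ, HasDerivAt al (ang ρ w κ φ1 φ2 θ) θ := fun θ =>
    ((ca.integral_hasStrictDerivAt 0 θ).hasDerivAt).const_add a0
  have mono : StrictMono al := strictMono_of_deriv_pos fun θ => by
    rw [(dal θ).deriv]
    exact pa θ
  have cal : Continuous al := continuous_iff_continuousAt.2 fun θ => (dal θ).continuousAt
  have shift : ∀ θ, al (θ + P) = al θ + disp ρ P w κ φ1 φ2 := by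
    intro θ
    have h1 := per.intervalIntegral_add_eq θ 0
    have h2 := intervalIntegral.integral_add_adjacent_intervals (μ := MeasureTheory.volume)
      (ca.intervalIntegrable 0 θ) (ca.intervalIntegrable θ (θ + P))
    simp only [hal, disp]
    rw [zero_add] at h1
    rw [← h2, h1]
    ring
  have prod : ∀ θ, φ1 θ * φ2 θ = (φ1 θ ^ 2 + φ2 θ ^ 2) / 2 * Real.sin (2 * al θ) := by
    intro θ
    have h1 := key θ
    have h2 := Real.mul_self_sqrt (hN θ).le
    rw [Real.sin_two_mul]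
    change φ1 θ = _ * Real.cos (al θ) ∧ φ2 θ = _ * Real.sin (al θ) at h1
    generalize √(φ1 θ ^ 2 + φ2 θ ^ 2) = r at h1 h2
    rw [← h2]
    calc φ1 θ * φ2 θ = (r * Real.cos (al θ)) * (r * Real.sin (al θ)) := by rw [← h1.1, ← h1.2]
      _ = _ := by ring
  have hpi := Real.pi_pos
  obtain ⟨k, hk1, hk2⟩ : ∃ k : ℤ, 2 * a0 ≤ k * Real.pi ∧ k * Real.pi ≤ 2 * a0 + Real.pi := by
    refine ⟨⌈2 * a0 / Real.pi⌉, ?_, ?_⟩
    · exact (div_le_iff₀ hpi).1 (Int.le_ceil _)
    · have := mul_le_mul_of_nonneg_right (Int.ceil_lt_add_one (2 * a0 / Real.pi)).le hpi.le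
      rwa [add_mul, div_mul_cancel₀ _ hpi.ne', one_mul] at this
  have ex : ∀ i : Fin 7, ∃ z, 2 * al z = ((k + (i : ℕ) : ℤ) : ℝ) * Real.pi := by
    intro i
    have h0 : al 0 = a0 := by simp [hal]
    have h1 := shift 0
    have h2 := shift (0 + P)
    have hi : ((i : ℕ) : ℝ) ≤ 6 := by exact_mod_cast Nat.lt_succ_iff.1 i.2
    have hi' := mul_le_mul_of_nonneg_right hi hpi.le
    have hi0 : 0 ≤ ((i : ℕ) : ℝ) * Real.pi := by positivity
    have hm : (k * Real.pi + (i : ℕ) * Real.pi) / 2 ∈ Icc (al 0) (al (0 + P + P)) :=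
      ⟨by linarith, by linarith⟩
    obtain ⟨z, -, hz⟩ := intermediate_value_Icc (a := 0) (b := 0 + P + P) (by linarith)
      cal.continuousOn hm
    refine ⟨z, ?_⟩
    rw [hz]
    push_cast
    ring
  choose z hz using ex
  refine ⟨z, fun i j hij => ?_, ?_, fun i θ hθ => ?_, fun i => ?_⟩
  · rw [← mono.lt_iff_lt]
    have h1 : ((k + (i : ℕ) : ℤ) : ℝ) < ((k + (j : ℕ) : ℤ) : ℝ) := by
      have : (i : ℕ) < j := hij
      exact_mod_cast (by omega : k + (i : ℕ) < k + (j : ℕ))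
    have := mul_lt_mul_of_pos_right h1 hpi
    linarith [hz i, hz j]
  · rw [← mono.le_iff_le, shift]
    have h1 := hz 6
    have h2 := hz 0
    have e1 : ((6 : Fin 7) : ℕ) = 6 := rfl
    have e2 : ((0 : Fin 7) : ℕ) = 0 := rfl
    rw [e1] at h1
    rw [e2] at h2
    push_cast at h1 h2
    linarith
  · change φ1 θ * φ2 θ ≠ 0
    rw [prod]
    refine mul_ne_zero (div_pos (hN θ) two_pos).ne' fun h => ?_
    obtain ⟨n, hn⟩ := Real.sin_eq_zero_iff.1 h
    have h1 := mono hθ.1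
    have h2 := mono hθ.2
    have h3 := hz i.castSucc
    have h4 := hz i.succ
    rw [Fin.val_castSucc] at h3
    rw [Fin.val_succ] at h4
    have h5 : ((k + (i : ℕ) : ℤ) : ℝ) < n := lt_of_mul_lt_mul_right (by linarith) hpi.le
    have h6 : (n : ℝ) < ((k + ((i : ℕ) + 1 : ℕ) : ℤ) : ℝ) :=
      lt_of_mul_lt_mul_right (by linarith) hpi.le
    have h7 : k + (i : ℕ) < n := by exact_mod_cast h5
    have h8 : n < k + ((i : ℕ) + 1 : ℕ) := by exact_mod_cast h6
    omega
  · have h0 : φ1 (z i.succ.castSucc) * φ2 (z i.succ.castSucc) = 0 := by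
      rw [prod, hz, Real.sin_int_mul_pi, mul_zero]
    refine ⟨h0, ?_⟩
    generalize z i.succ.castSucc = t at h0
    rw [((hs.1 t).1.fun_mul (hs.1 t).2).deriv]
    have h1 := hN t
    rcases mul_eq_zero.1 h0 with h | h
    · rw [h] at h1 ⊢
      have := mul_pos (hA t) h1
      intro hc
      nlinarith
    · rw [h] at h1 ⊢
      have := mul_pos (hB t) h1
      intro hc
      nlinarith

end Pool.Agent.P.MP_785924_gt
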