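import Pool.Agent.P.MP_785924_gt.A.IfaceA
import Pool.Agent.P.MP_785924_gt.A.Tb

/-! Step ANG of the free boundary annulus project. -/

namespace Pool.Agent.P.MP_785924_gt

open scoped ContDiff
open Set Filter Topology

theorem p_ANG :
    S_ANG := by
  intro y1 y2 z1 z2 a0 hz1 hz2 h1 h2 hne h10 h20
  have c1 : Continuous y1 := continuous_iff_continuousAt.mpr fun t => (h1 t).continuousAt
  have c2 : Continuous y2 := continuous_iff_continuousAt.mpr fun t => (h2 t).continuousAt
  have cR : Continuous fun s => y1 s ^ 2 + y2 s ^ 2 := by fun_prop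
  set om : ℝ → ℝ := fun s => (y1 s * z2 s - y2 s * z1 s) / (y1 s ^ 2 + y2 s ^ 2) with hom
  set m : ℝ → ℝ := fun s => (y1 s * z1 s + y2 s * z2 s) / (y1 s ^ 2 + y2 s ^ 2) with hm
  have com : Continuous om := Continuous.div (by fun_prop) cR hne
  have cm : Continuous m := Continuous.div (by fun_prop) cR hne
  have hth : ∀ t, HasDerivAt (fun θ => a0 + ∫ s in (0 : ℝ)..θ, om s) (om t) t := fun t =>
    (com.intervalIntegrable 0 t |> fun h => intervalIntegral.integral_hasDerivAt_right h
      (com.stronglyMeasurableAtFilter _ _) com.continuousAt).const_add a0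
  have hr : ∀ t, HasDerivAt (fun s => √(y1 s ^ 2 + y2 s ^ 2))
      (m t * √(y1 t ^ 2 + y2 t ^ 2)) t := fun t => by
    have hpos : 0 < y1 t ^ 2 + y2 t ^ 2 := lt_of_le_of_ne (by positivity) (hne t).symm
    have hs : 0 < √(y1 t ^ 2 + y2 t ^ 2) := Real.sqrt_pos.mpr hpos
    have hq := Real.mul_self_sqrt hpos.le
    refine ((((h1 t).fun_pow 2).fun_add ((h2 t).fun_pow 2)).sqrt (hne t)).congr_deriv ?_
    simp only [hm]
    rw [div_mul_eq_mul_div, div_eq_div_iff (by positivity) hpos.ne']
    simp only [Nat.cast_ofNat, Nat.add_one_sub_one, pow_one]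
    linear_combination (-2 * (y1 t * z1 t + y2 t * z2 t)) * hq
  have e1 : ∀ t, z1 t = m t * y1 t - om t * y2 t := fun t => by
    have := hne t
    simp only [hm, hom]
    field_simp
    ring
  have e2 : ∀ t, z2 t = m t * y2 t + om t * y1 t := fun t => by
    have := hne t
    simp only [hm, hom]
    field_simp
    ring
  have key := uq2 (t0 := 0)
    (y1 := fun t => y1 t - √(y1 t ^ 2 + y2 t ^ 2) * Real.cos (a0 + ∫ s in (0 : ℝ)..t, om s))
    (y2 := fun t => y2 t - √(y1 t ^ 2 + y2 t ^ 2) * Real.sin (a0 + ∫ s in (0 : ℝ)..t, om s))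
    cm com.neg com cm
    (fun t => ((h1 t).fun_sub ((hr t).fun_mul (hth t).cos)).congr_deriv (by
      rw [e1 t]; simp only [Pi.neg_apply]; ring))
    (fun t => ((h2 t).fun_sub ((hr t).fun_mul (hth t).sin)).congr_deriv (by
      rw [e2 t]; ring))
    (by simpa [sub_eq_zero] using h10) (by simpa [sub_eq_zero] using h20)
  intro θ
  exact ⟨sub_eq_zero.mp (key θ).1, sub_eq_zero.mp (key θ).2⟩

end Pool.Agent.P.MP_785924_gt
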