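import Pool.Agent.P.MP_785924_gt.A.IfaceA
import Pool.Agent.P.MP_785924_gt.A.Tb

/-! Step ASYM of the free boundary annulus project. -/

namespace Pool.Agent.P.MP_785924_gt

open scoped ContDiff
open Set Filter Topology

namespace Asym

/-- The angle of the vector `(cos a, G sin a)`, lifted. -/
noncomputable def Hh (G a : ℝ) : ℝ :=
  a + Real.arctan ((G - 1) * (Real.sin a * Real.cos a) / (Real.cos a ^ 2 + G * Real.sin a ^ 2))

theorem dpos {G : ℝ} (hG : 0 < G) (a : ℝ) : 0 < Real.cos a ^ 2 + G * Real.sin a ^ 2 := by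
  have h := Real.sin_sq_add_cos_sq a
  by_cases hs : Real.sin a = 0
  · rw [hs] at h ⊢; nlinarith
  · have : 0 < G * Real.sin a ^ 2 := by positivity
    nlinarith [sq_nonneg (Real.cos a)]

theorem hd_H {α G : ℝ → ℝ} {α' G' θ : ℝ} (hα : HasDerivAt α α' θ) (hG : HasDerivAt G G' θ)
    (h0 : 0 < G θ) :
    HasDerivAt (fun t => Hh (G t) (α t))
      ((G' * (Real.sin (α θ) * Real.cos (α θ)) + G θ * α') /
        (Real.cos (α θ) ^ 2 + G θ ^ 2 * Real.sin (α θ) ^ 2)) θ := by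
  have hs := hα.sin
  have hc := hα.cos
  have hd := dpos h0 (α θ)
  have hD := dpos (pow_pos h0 2) (α θ)
  have hn := ((hG.sub_const 1).fun_mul (hs.fun_mul hc)).fun_div
    ((hc.fun_pow 2).fun_add (hG.fun_mul (hs.fun_pow 2))) hd.ne'
  have h := hα.fun_add hn.arctan
  refine h.congr_deriv ?_
  have h1 := Real.sin_sq_add_cos_sq (α θ)
  generalize Real.sin (α θ) = s at *
  generalize Real.cos (α θ) = c at *
  generalize G θ = g at *
  have e1 : 1 + ((g - 1) * (s * c) / (c ^ 2 + g * s ^ 2)) ^ 2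
      = (c ^ 2 + g ^ 2 * s ^ 2) / (c ^ 2 + g * s ^ 2) ^ 2 := by
    field_simp
    linear_combination (c ^ 2 + g ^ 2 * s ^ 2) * h1
  rw [e1]
  field_simp
  simp only [Nat.cast_ofNat, Nat.add_one_sub_one, pow_one]
  linear_combination (c * s * G' + α' * (g * (s ^ 2 + c ^ 2 + 1) - c ^ 2 - g ^ 2 * s ^ 2)) * h1

theorem H_mono {G : ℝ} (hG : 0 < G) : Monotone (Hh G) := by
  have hd : ∀ a, HasDerivAt (fun t => Hh G t) _ a := fun a =>
    hd_H (G := fun _ => G) (α := fun t => t) (hasDerivAt_id a) (hasDerivAt_const a G) hG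
  refine monotone_of_deriv_nonneg (fun a => (hd a).differentiableAt) fun a => ?_
  rw [(hd a).deriv]
  have hD := dpos (pow_pos hG 2) a
  have : 0 ≤ 0 * (Real.sin a * Real.cos a) + G * 1 := by linarith
  exact div_nonneg this hD.le

theorem H_shift (G a : ℝ) (j : ℕ) : Hh G (a + Real.pi * j) = Hh G a + Real.pi * j := by
  have h1 : Real.sin (a + Real.pi * j) = (-1) ^ j * Real.sin a := by
    rw [mul_comm Real.pi]; exact Real.sin_add_nat_mul_pi a j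
  have h2 : Real.cos (a + Real.pi * j) = (-1) ^ j * Real.cos a := by
    rw [mul_comm Real.pi]; exact Real.cos_add_nat_mul_pi a j
  have h3 : ((-1 : ℝ) ^ j) ^ 2 = 1 := by rw [← pow_mul, mul_comm, pow_mul]; simp
  have e1 : Real.sin (a + Real.pi * j) * Real.cos (a + Real.pi * j) = Real.sin a * Real.cos a := by
    rw [h1, h2]; linear_combination (Real.sin a * Real.cos a) * h3
  have e2 : Real.sin (a + Real.pi * j) ^ 2 = Real.sin a ^ 2 := by
    rw [h1]; linear_combination (Real.sin a ^ 2) * h3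
  have e3 : Real.cos (a + Real.pi * j) ^ 2 = Real.cos a ^ 2 := by
    rw [h2]; linear_combination (Real.cos a ^ 2) * h3
  unfold Hh
  rw [e1, e2, e3]; ring

/-- The cosine of twice the transformed angle. -/
noncomputable def Uu (G a : ℝ) : ℝ :=
  (Real.cos a ^ 2 - G ^ 2 * Real.sin a ^ 2) / (Real.cos a ^ 2 + G ^ 2 * Real.sin a ^ 2)

/-- The sine of twice the transformed angle. -/
noncomputable def Vv (G a : ℝ) : ℝ :=
  2 * G * (Real.sin a * Real.cos a) / (Real.cos a ^ 2 + G ^ 2 * Real.sin a ^ 2)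

theorem UV {G : ℝ} (hG : 0 < G) (a : ℝ) : Uu G a ^ 2 + Vv G a ^ 2 = 1 := by
  have hD := dpos (pow_pos hG 2) a
  unfold Uu Vv
  field_simp
  ring

theorem U_abs {G : ℝ} (hG : 0 < G) (a : ℝ) : |Uu G a| ≤ 1 := by
  have := UV hG a
  rw [abs_le]; constructor <;> nlinarith [sq_nonneg (Vv G a)]

theorem V_abs {G : ℝ} (hG : 0 < G) (a : ℝ) : |Vv G a| ≤ 1 := by
  have := UV hG a
  rw [abs_le]; constructor <;> nlinarith [sq_nonneg (Uu G a)]

theorem hd_U {α G : ℝ → ℝ} {α' G' θ : ℝ} (hα : HasDerivAt α α' θ) (hG : HasDerivAt G G' θ)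
    (h0 : 0 < G θ) :
    HasDerivAt (fun t => Uu (G t) (α t))
      (-2 * Vv (G θ) (α θ) * ((G' * (Real.sin (α θ) * Real.cos (α θ)) + G θ * α') /
        (Real.cos (α θ) ^ 2 + G θ ^ 2 * Real.sin (α θ) ^ 2))) θ := by
  have hs := hα.sin
  have hc := hα.cos
  have hD := dpos (pow_pos h0 2) (α θ)
  have h := ((hc.fun_pow 2).fun_sub ((hG.fun_pow 2).fun_mul (hs.fun_pow 2))).fun_div
    ((hc.fun_pow 2).fun_add ((hG.fun_pow 2).fun_mul (hs.fun_pow 2))) hD.ne'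
  refine h.congr_deriv ?_
  have h1 := Real.sin_sq_add_cos_sq (α θ)
  unfold Vv
  generalize Real.sin (α θ) = s at *
  generalize Real.cos (α θ) = c at *
  generalize G θ = g at *
  simp only [Nat.cast_ofNat, Nat.add_one_sub_one, pow_one]
  have e : ∀ A B D : ℝ, D ≠ 0 → -2 * (A / D) * (B / D) = (-2 * A * B) / D ^ 2 := by
    intro A B D hD; field_simp
  rw [e _ _ _ hD.ne']
  congr 1
  linear_combination (-4 * g ^ 2 * s * c * α') * h1

theorem ineq {l E U V w1 w2 M1 M2 B : ℝ} (hl : 0 < l) (hE : 0 ≤ E) (hU : |U| ≤ 1) (hV : |V| ≤ 1)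
    (h1 : |w1| ≤ M1) (h2 : |w2| ≤ M2) (hM : M1 ≤ 2 * l) (hB : B = l + E + w1 * V / 2) :
    0 ≤ B + (w2 * U + w1 * (-2 * V * B)) / (4 * l) - (l - (M2 + M1 ^ 2) / (4 * l)) := by
  have a1 : |w1 * V| ≤ M1 := by
    rw [abs_mul]
    calc |w1| * |V| ≤ M1 * 1 := mul_le_mul h1 hV (abs_nonneg _) ((abs_nonneg _).trans h1)
      _ = M1 := mul_one _
  have a2 : |w2 * U| ≤ M2 := by
    rw [abs_mul]
    calc |w2| * |U| ≤ M2 * 1 := mul_le_mul h2 hU (abs_nonneg _) ((abs_nonneg _).trans h2)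
      _ = M2 := mul_one _
  have a3 : (w1 * V) ^ 2 ≤ M1 ^ 2 := by
    rw [← sq_abs]; exact pow_le_pow_left₀ (abs_nonneg _) a1 2
  have a4 := (abs_le.1 a1).2
  have a5 := (abs_le.1 a2).1
  have e : B + (w2 * U + w1 * (-2 * V * B)) / (4 * l) - (l - (M2 + M1 ^ 2) / (4 * l))
      = (2 * E * (2 * l - w1 * V) + (w2 * U + M2) + (M1 ^ 2 - (w1 * V) ^ 2)) / (4 * l) := by
    rw [hB]; field_simp; ring
  rw [e]
  have : 0 ≤ 2 * E * (2 * l - w1 * V) := mul_nonneg (by linarith) (by linarith)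
  exact div_nonneg (by linarith) (by linarith)

theorem core {r P κ M1 M2 : ℝ} {w α : ℝ → ℝ} (hr : 0 < r) (hP : 0 < P) (hw : Sm1 P w)
    (hκ : 0 < κ) (h1 : ∀ θ, |deriv w θ| ≤ M1) (h2 : ∀ θ, |deriv (deriv w) θ| ≤ M2)
    (hM : M1 ≤ κ / r)
    (hα : ∀ θ, HasDerivAt α
      (((κ / Real.exp (w θ) + Real.exp (w θ) / (κ * r ^ 2)) * Real.cos (α θ) ^ 2
        + (κ * Real.exp (w θ) / r ^ 2 + 1 / (κ * Real.exp (w θ))) * Real.sin (α θ) ^ 2) / 2) θ) :
    κ * P / (2 * r) - (r * ((M2 + M1 ^ 2) * P + 2 * M1) / 2) / κ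
      ≤ Hh (Real.exp (w 0) / r) (α P) - Hh (Real.exp (w 0) / r) (α 0) := by
  obtain ⟨l, hl⟩ : ∃ l, l = κ / (2 * r) := ⟨_, rfl⟩
  have hl0 : 0 < l := by rw [hl]; positivity
  have hκl : κ = 2 * r * l := by rw [hl]; field_simp
  have hM' : M1 ≤ 2 * l := by
    refine hM.trans (le_of_eq ?_); rw [hκl]; field_simp
  have hGp : ∀ θ, 0 < Real.exp (w θ) / r := fun θ => by positivity
  have hG : ∀ θ, HasDerivAt (fun t => Real.exp (w t) / r)
      (Real.exp (w θ) * deriv w θ / r) θ := fun θ => (hw.hd θ).exp.div_const r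
  have hγ : ∀ θ, ∃ d, 0 ≤ d ∧ HasDerivAt (fun t => Hh (Real.exp (w t) / r) (α t)
      + deriv w t * Uu (Real.exp (w t) / r) (α t) / (4 * l)
      - (l - (M2 + M1 ^ 2) / (4 * l)) * t) d θ := by
    intro θ
    have d1 := hd_H (hα θ) (hG θ) (hGp θ)
    have d2 := hd_U (hα θ) (hG θ) (hGp θ)
    have d3 := (d1.fun_add (((hw.deriv.hd θ).fun_mul d2).div_const (4 * l))).fun_sub
      ((hasDerivAt_id' θ).const_mul (l - (M2 + M1 ^ 2) / (4 * l)))
    refine ⟨_, ?_, d3⟩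
    rw [mul_one]
    have hD := dpos (pow_pos (hGp θ) 2) (α θ)
    have hX := Real.exp_pos (w θ)
    refine ineq (E := (Real.exp (w θ) / r * (Real.exp (w θ) / (2 * κ * r ^ 2)) * Real.cos (α θ) ^ 2
      + Real.exp (w θ) / r / (2 * κ * Real.exp (w θ)) * Real.sin (α θ) ^ 2) /
        (Real.cos (α θ) ^ 2 + (Real.exp (w θ) / r) ^ 2 * Real.sin (α θ) ^ 2))
      hl0 (by positivity) (U_abs (hGp θ) _) (V_abs (hGp θ) _) (h1 θ) (h2 θ) hM' ?_
    unfold Vv
    generalize Real.sin (α θ) = s at *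
    generalize Real.cos (α θ) = c at *
    generalize Real.exp (w θ) = X at *
    have e : ∀ A B C D : ℝ, D ≠ 0 → A = l * D + B + deriv w θ * C / 2 →
        A / D = l + B / D + deriv w θ * (C / D) / 2 := by
      intro A B C D hD h; rw [h]; field_simp
    refine e _ _ _ _ hD.ne' ?_
    rw [hκl]
    field_simp
    ring
  have hmono : Monotone (fun t => Hh (Real.exp (w t) / r) (α t)
      + deriv w t * Uu (Real.exp (w t) / r) (α t) / (4 * l)
      - (l - (M2 + M1 ^ 2) / (4 * l)) * t) := by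
    refine monotone_of_deriv_nonneg (fun θ => ?_) fun θ => ?_
    · obtain ⟨d, _, hd⟩ := hγ θ
      exact hd.differentiableAt
    · obtain ⟨d, h0, hd⟩ := hγ θ
      rw [hd.deriv]; exact h0
  have key := hmono hP.le
  have hwP : w P = w 0 := by simpa using hw.2 0
  simp only [hwP] at key
  have b : ∀ θ a, |deriv w θ * Uu (Real.exp (w 0) / r) a| ≤ M1 := fun θ a => by
    rw [abs_mul]
    calc _ ≤ M1 * 1 := mul_le_mul (h1 θ) (U_abs (hGp 0) a) (abs_nonneg _)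
          ((abs_nonneg _).trans (h1 θ))
      _ = M1 := mul_one _
  have b1 := (abs_le.1 (b P (α P))).2
  have b2 := (abs_le.1 (b 0 (α 0))).1
  have c1 : deriv w P * Uu (Real.exp (w 0) / r) (α P) / (4 * l) ≤ M1 / (4 * l) :=
    div_le_div_of_nonneg_right b1 (by linarith)
  have c2 : -M1 / (4 * l) ≤ deriv w 0 * Uu (Real.exp (w 0) / r) (α 0) / (4 * l) :=
    div_le_div_of_nonneg_right b2 (by linarith)
  have e : κ * P / (2 * r) - (r * ((M2 + M1 ^ 2) * P + 2 * M1) / 2) / κ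
      = (l - (M2 + M1 ^ 2) / (4 * l)) * P - M1 / (4 * l) + -M1 / (4 * l) := by
    rw [hκl]; field_simp; ring
  rw [e]
  linarith

theorem bdd {P : ℝ} {v : ℝ → ℝ} (hP : 0 < P) (hv : Sm1 P v) : ∃ M, ∀ θ, |v θ| ≤ M := by
  obtain ⟨M, hM⟩ := isCompact_Icc.exists_bound_of_continuousOn (s := Icc (0 : ℝ) P)
    hv.cont.continuousOn
  refine ⟨M, fun θ => ?_⟩
  obtain ⟨y, hy, e⟩ := hv.2.exists_mem_Ico₀ hP θ
  rw [e]
  exact hM y ⟨hy.1, hy.2.le⟩

end Asym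

open Asym in
theorem p_ASYM (hANG : S_ANG) :
    S_ASYM := by
  intro ρ P w hρ hP hw
  obtain ⟨M1, h1⟩ := bdd hP hw.deriv
  obtain ⟨M2, h2⟩ := bdd hP hw.deriv.deriv
  obtain ⟨r, hr⟩ : ∃ r, r = √ρ := ⟨_, rfl⟩
  have hr0 : 0 < r := by rw [hr]; exact Real.sqrt_pos.2 hρ
  have hρr : ρ = r ^ 2 := by rw [hr, Real.sq_sqrt hρ.le]
  have hM1 : 0 ≤ M1 := (abs_nonneg _).trans (h1 0)
  refine ⟨r * ((M2 + M1 ^ 2) * P + 2 * M1) / 2, M1 * r + 1, by positivity, ?_⟩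
  intro κ hκ j hj φ1 φ2 hφ
  have hκ0 : 0 < κ := lt_of_lt_of_le (by positivity) hκ
  have hM : M1 ≤ κ / r := by rw [le_div_iff₀ hr0]; linarith
  have hne := hφ.ne hw.cont hκ0.ne'
  have c1 : Continuous φ1 := continuous_iff_continuousAt.2 fun θ => (hφ.1 θ).1.continuousAt
  have c2 : Continuous φ2 := continuous_iff_continuousAt.2 fun θ => (hφ.1 θ).2.continuousAt
  have cw := hw.cont
  obtain ⟨a0, ha1, ha2⟩ : ∃ a0, φ1 0 = √(φ1 0 ^ 2 + φ2 0 ^ 2) * Real.cos a0 ∧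
      φ2 0 = √(φ1 0 ^ 2 + φ2 0 ^ 2) * Real.sin a0 := by
    have hn : ‖(⟨φ1 0, φ2 0⟩ : ℂ)‖ = √(φ1 0 ^ 2 + φ2 0 ^ 2) := by
      rw [Complex.norm_def, Complex.normSq_mk]; congr 1; ring
    refine ⟨Complex.arg ⟨φ1 0, φ2 0⟩, ?_, ?_⟩
    · rw [← hn]; exact (Complex.norm_mul_cos_arg (⟨φ1 0, φ2 0⟩ : ℂ)).symm
    · rw [← hn]; exact (Complex.norm_mul_sin_arg (⟨φ1 0, φ2 0⟩ : ℂ)).symm
  have hA := hANG φ1 φ2
    (fun θ => -((κ * Real.exp (w θ) / ρ + 1 / (κ * Real.exp (w θ))) / 2 * φ2 θ))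
    (fun θ => (κ / Real.exp (w θ) + Real.exp (w θ) / (κ * ρ)) / 2 * φ1 θ) a0
    (by fun_prop (disch := intro θ; positivity)) (by fun_prop (disch := intro θ; positivity))
    (fun θ => (hφ.1 θ).1) (fun θ => (hφ.1 θ).2) hne ha1 ha2
  have eang : ∀ s, (φ1 s * ((κ / Real.exp (w s) + Real.exp (w s) / (κ * ρ)) / 2 * φ1 s)
      - φ2 s * -((κ * Real.exp (w s) / ρ + 1 / (κ * Real.exp (w s))) / 2 * φ2 s))
        / (φ1 s ^ 2 + φ2 s ^ 2) = ang ρ w κ φ1 φ2 s := by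
    intro s
    have := hne s
    unfold ang
    field_simp
    ring
  simp only [eang] at hA
  have cang : Continuous (ang ρ w κ φ1 φ2) := by
    unfold ang
    refine Continuous.div (by fun_prop (disch := intro θ; positivity)) (by fun_prop) fun θ => ?_
    exact mul_ne_zero two_ne_zero (hne θ)
  obtain ⟨α, hαd⟩ : ∃ α : ℝ → ℝ, α = fun θ => a0 + ∫ s in (0 : ℝ)..θ, ang ρ w κ φ1 φ2 s := ⟨_, rfl⟩
  have hα : ∀ θ, HasDerivAt α (ang ρ w κ φ1 φ2 θ) θ := fun θ => by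
    rw [hαd]
    exact (intervalIntegral.integral_hasDerivAt_right (cang.intervalIntegrable _ _)
      (cang.stronglyMeasurableAtFilter _ _) cang.continuousAt).const_add a0
  have hA' : ∀ θ, φ1 θ = √(φ1 θ ^ 2 + φ2 θ ^ 2) * Real.cos (α θ) ∧
      φ2 θ = √(φ1 θ ^ 2 + φ2 θ ^ 2) * Real.sin (α θ) := fun θ => by
    rw [hαd]; exact hA θ
  have hα' : ∀ θ, HasDerivAt α
      (((κ / Real.exp (w θ) + Real.exp (w θ) / (κ * r ^ 2)) * Real.cos (α θ) ^ 2
        + (κ * Real.exp (w θ) / r ^ 2 + 1 / (κ * Real.exp (w θ))) * Real.sin (α θ) ^ 2) / 2) θ := by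
    intro θ
    refine (hα θ).congr_deriv ?_
    have hn := hne θ
    have hq : √(φ1 θ ^ 2 + φ2 θ ^ 2) ^ 2 = φ1 θ ^ 2 + φ2 θ ^ 2 := Real.sq_sqrt (by positivity)
    have q1 : φ1 θ ^ 2 = (φ1 θ ^ 2 + φ2 θ ^ 2) * Real.cos (α θ) ^ 2 := by
      conv_lhs => rw [(hA' θ).1]
      rw [mul_pow, hq]
    have q2 : φ2 θ ^ 2 = (φ1 θ ^ 2 + φ2 θ ^ 2) * Real.sin (α θ) ^ 2 := by
      conv_lhs => rw [(hA' θ).2]
      rw [mul_pow, hq]
    unfold ang
    rw [← hρr, div_eq_div_iff (mul_ne_zero two_ne_zero hn) two_ne_zero]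
    linear_combination (2 * (κ / Real.exp (w θ) + Real.exp (w θ) / (κ * ρ))) * q1
      + (2 * (κ * Real.exp (w θ) / ρ + 1 / (κ * Real.exp (w θ)))) * q2
  have key := core hr0 hP hw hκ0 h1 h2 hM hα'
  have hdisp : disp ρ P w κ φ1 φ2 = α P - α 0 := by
    rw [hαd]; simp [disp]
  by_contra hcon
  have hle : α P ≤ α 0 + Real.pi * j := by
    have := not_lt.1 hcon
    linarith
  have m := H_mono (G := Real.exp (w 0) / r) (by positivity) hle
  rw [H_shift] at m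
  rw [← hr] at hj
  linarith

end Pool.Agent.P.MP_785924_gt
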