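import Pool.Agent.P.MP_785924_gt.A.IfaceA
import Pool.Agent.P.MP_785924_gt.A.Tb

/-! Step AXIS of the free boundary annulus project. -/

namespace Pool.Agent.P.MP_785924_gt

open scoped ContDiff
open Set Filter Topology

theorem p_AXIS :
    S_AXIS := by
  intro ρ P σ w x ν e h hσ
  have hρ := h.hρ.ne'
  have hX : ∀ θ, Real.exp (w θ) ≠ 0 := fun θ => (Real.exp_pos _).ne'
  have dX : ∀ θ, HasDerivAt (fun θ => Real.exp (w θ)) (Real.exp (w θ) * deriv w θ) θ :=
    fun θ => (h.smw.hd θ).exp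
  have dI : ∀ θ, HasDerivAt (fun θ => (Real.exp (w θ))⁻¹) (-(deriv w θ / Real.exp (w θ))) θ :=
    fun θ => ((dX θ).fun_inv (hX θ)).congr_deriv (by have := hX θ; field_simp)
  constructor
  · rintro ⟨A, B, hB⟩
    have s : Sys3 ρ w 0 (fun θ => (Real.exp (w θ) + A * ρ ^ 2) / σ)
        (fun θ => (B - (Real.exp (w θ))⁻¹) / σ) (fun θ => deriv w θ / σ) := fun θ =>
      ⟨(((dX θ).add_const _).div_const σ).congr_deriv (by ring),
        (((dI θ).const_sub B).div_const σ).congr_deriv (by ring),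
        ((h.smw.deriv.hd θ).div_const σ).congr_deriv (by
          have := hX θ
          rw [hB θ]
          field_simp
          ring)⟩
    obtain ⟨f, hf⟩ : ∃ f, f = (Real.exp (w 0) + A * ρ ^ 2) / σ := ⟨_, rfl⟩
    obtain ⟨g, hg⟩ : ∃ g, g = (B - (Real.exp (w 0))⁻¹) / σ := ⟨_, rfl⟩
    obtain ⟨u, hu⟩ : ∃ u, u = deriv w 0 / σ := ⟨_, rfl⟩
    refine ⟨fun i => f / ρ ^ 2 * x i 0 + g * ν i 0 + u * e i 0, fun θ => ?_⟩
    have k := s.uniq h.smw.cont (h.sys3 fun i => f / ρ ^ 2 * x i 0 + g * ν i 0 + u * e i 0)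
      (t0 := 0) ?_ ?_ ?_ θ
    · rw [← k.2.2]
      field_simp
    · have e1 : f = f / ρ ^ 2 * ρ ^ 2 := by field_simp
      simp only [cmp, ← hf]
      linear_combination e1 - f / ρ ^ 2 * h.xx 0 - g * h.xν 0 - u * h.xe 0
    · simp only [cmp, ← hg]
      linear_combination -(f / ρ ^ 2) * h.xν 0 - g * h.νν 0 - u * h.νe 0
    · simp only [cmp, ← hu]
      linear_combination -(f / ρ ^ 2) * h.xe 0 - g * h.νe 0 - u * h.ee 0
  · rintro ⟨b, hb⟩
    have s := h.sys3 b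
    have d1 : ∀ θ, HasDerivAt (fun θ => σ * cmp b x θ - Real.exp (w θ)) 0 θ := fun θ =>
      (((s θ).1.const_mul σ).fun_sub (dX θ)).congr_deriv (by rw [hb θ]; ring)
    have d2 : ∀ θ, HasDerivAt (fun θ => σ * cmp b ν θ + (Real.exp (w θ))⁻¹) 0 θ := fun θ =>
      (((s θ).2.1.const_mul σ).fun_add (dI θ)).congr_deriv (by rw [hb θ]; ring)
    refine ⟨(σ * cmp b x 0 - Real.exp (w 0)) / ρ ^ 2, σ * cmp b ν 0 + (Real.exp (w 0))⁻¹,
      fun θ => ?_⟩
    have c1 := is_const_of_deriv_eq_zero (fun θ => (d1 θ).differentiableAt)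
      (fun θ => (d1 θ).deriv) 0 θ
    have c2 := is_const_of_deriv_eq_zero (fun θ => (d2 θ).differentiableAt)
      (fun θ => (d2 θ).deriv) 0 θ
    have e : deriv w = fun θ => σ * cmp b e θ := funext hb
    have d3 := ((s θ).2.2.const_mul σ).deriv
    rw [← e] at d3
    have := hX θ
    rw [d3, c1, c2]
    field_simp
    ring

end Pool.Agent.P.MP_785924_gt
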