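import Pool.Agent.P.MP_785924_gt.A.IfaceA
import Pool.Agent.P.MP_785924_gt.A.Tb

/-! Step BODE of the free boundary annulus project. -/

namespace Pool.Agent.P.MP_785924_gt

open scoped ContDiff
open Set Filter Topology

namespace Bode

lemma exists_l {P : ℝ} (hP : 0 < P) (R : ℝ) :
    ∃ (l : ℝ) (N : ℕ), R < l ∧ l * P = Real.pi / 2 + N * (2 * Real.pi) := by
  obtain ⟨N, hN⟩ := exists_nat_gt (R * P)
  refine ⟨(Real.pi / 2 + N * (2 * Real.pi)) / P, N, ?_, by field_simp⟩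
  rw [lt_div_iff₀ hP]
  have h1 := Real.pi_gt_three
  have h2 : (0 : ℝ) ≤ N := N.cast_nonneg
  nlinarith

lemma exists_ne (hEX : S_ODEEX) (hW : S_WKBG) {ρ P : ℝ} {w : ℝ → ℝ} (hρ : 0 < ρ) (hP : 0 < P)
    (hw : Sm1 P w) {θ0 : ℝ} (h0 : deriv w θ0 ≠ 0) :
    ∃ (κ : ℝ) (p1 p2 q1 q2 : ℝ → ℝ), 1 < κ ∧ Sys2R ρ w κ p1 p2 ∧ Sys2R ρ w κ q1 q2 ∧
      p1 θ0 = 1 ∧ p2 θ0 = 0 ∧ q1 θ0 = 0 ∧ q2 θ0 = 1 ∧ p1 (θ0 + P) - q2 (θ0 + P) ≠ 0 := by
  obtain ⟨d0, hd⟩ := hW ρ P w hρ hP hw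
  obtain ⟨C, L, hL, hC⟩ := hd θ0
  have hs : 0 < √ρ := Real.sqrt_pos.2 hρ
  have ha : 0 < |deriv w θ0| := abs_pos.2 h0
  obtain ⟨l, N, hl, hN⟩ := exists_l hP
    (|d0| + (1 + L) / (2 * √ρ) + |C| / (2 * ρ * |deriv w θ0|))
  have e1 : 0 < (1 + L) / (2 * √ρ) := by positivity
  have e2 : 0 ≤ |C| / (2 * ρ * |deriv w θ0|) := by positivity
  have e3 := abs_nonneg d0
  have l0 : 0 < l := by linarith
  have k1 : 1 + L < 2 * √ρ * l := by
    have : (1 + L) / (2 * √ρ) < l := by linarith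
    rw [div_lt_iff₀ (by positivity)] at this
    linarith
  have k2 : |C| < l * (2 * ρ * |deriv w θ0|) := by
    have : |C| / (2 * ρ * |deriv w θ0|) < l := by linarith
    rwa [div_lt_iff₀ (by positivity)] at this
  have k0 : 2 * √ρ * l ≠ 0 := by positivity
  obtain ⟨p1, p2, hp, hp1, hp2⟩ := Sys2R.ex hEX hw.cont k0 ρ θ0 1 0
  obtain ⟨q1, q2, hq, hq1, hq2⟩ := Sys2R.ex hEX hw.cont k0 ρ θ0 0 1
  refine ⟨2 * √ρ * l, p1, p2, q1, q2, by linarith, hp, hq, hp1, hp2, hq1, hq2, fun e => ?_⟩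
  have hn : ‖((2 * √ρ * l : ℝ) : ℂ)‖ = 2 * √ρ * l := by
    rw [Complex.norm_real, Real.norm_eq_abs, abs_of_pos (by positivity)]
  have key := hC ((2 * √ρ * l : ℝ) : ℂ) l (by push_cast; ring) (by rw [hn]; linarith) _ _ _ _
    hp.toC hq.toC (by simp [hp1]) (by simp [hp2]) (by simp [hq1]) (by simp [hq2])
  have e4 : ((p1 (θ0 + P) : ℝ) : ℂ) - (q2 (θ0 + P) : ℝ) +
      Complex.sin (l * P + d0 / l) * ((deriv w θ0 : ℝ) : ℂ) / l =
        ((Real.cos (d0 / l) * deriv w θ0 / l : ℝ) : ℂ) := by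
    have : Real.sin (l * P + d0 / l) = Real.cos (d0 / l) := by
      rw [hN, show Real.pi / 2 + N * (2 * Real.pi) + d0 / l =
        d0 / l + Real.pi / 2 + N * (2 * Real.pi) by ring, Real.sin_add_nat_mul_two_pi,
        Real.sin_add_pi_div_two]
    rw [← this, ← Complex.ofReal_sub, e]
    push_cast
    ring
  rw [e4, hn, Complex.norm_real, Real.norm_eq_abs, Complex.ofReal_im, abs_zero, zero_mul,
    Real.exp_zero, mul_one, abs_div, abs_mul, abs_of_pos l0] at key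
  have c1 : 1 / 2 ≤ |Real.cos (d0 / l)| := by
    refine le_trans ?_ (le_abs_self _)
    have h1 := Real.one_sub_sq_div_two_le_cos (x := d0 / l)
    have h2 : (d0 / l) ^ 2 ≤ 1 := by
      rw [sq_le_one_iff_abs_le_one, abs_div, abs_of_pos l0, div_le_one l0]
      linarith
    linarith
  rw [mul_pow, mul_pow, Real.sq_sqrt hρ.le, div_le_div_iff₀ l0 (by positivity)] at key
  have c2 : 1 / 2 * |deriv w θ0| * (2 ^ 2 * ρ * l ^ 2) ≤
      |Real.cos (d0 / l)| * |deriv w θ0| * (2 ^ 2 * ρ * l ^ 2) := by gcongr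
  have c3 : C * l ≤ |C| * l := mul_le_mul_of_nonneg_right (le_abs_self C) l0.le
  have c4 : |C| * l < l * (2 * ρ * |deriv w θ0|) * l := mul_lt_mul_of_pos_right k2 l0
  nlinarith

end Bode

open Bode in
theorem p_BODE (hODEEX : S_ODEEX) (hWKBG : S_WKBG) :
    S_BODE := by
  intro ρ P w hρ hP hw hU
  by_cases h : ∀ θ, deriv w θ = 0
  · have hc : ∀ θ, w θ = w 0 := fun θ =>
      is_const_of_deriv_eq_zero (fun s => (hw.hd s).differentiableAt) h θ 0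
    refine ⟨(-(Real.exp (w 0) ^ 2 / ρ ^ 2) + 1 / Real.exp (w 0) ^ 2) / Real.exp (w 0), 0,
      fun θ => ?_⟩
    have := (Real.exp_pos (w 0)).ne'
    rw [show deriv w = fun _ => 0 from funext h, deriv_const, hc θ]
    field_simp
    ring
  push Not at h
  obtain ⟨θ0, h0⟩ := h
  obtain ⟨κ, p1, p2, q1, q2, hκ, hp, hq, hp1, hp2, hq1, hq2, hne⟩ :=
    exists_ne hODEEX hWKBG hρ hP hw h0
  have κ0 : κ ≠ 0 := by positivity
  have ρ0 := hρ.ne'
  have hwr : ∀ θ, p1 θ * q2 θ - p2 θ * q1 θ = 1 := fun θ => by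
    rw [hp.wr hq θ θ0, hp1, hp2, hq1, hq2]
    ring
  have hp' := hp.shift hw.2
  have hq' := hq.shift hw.2
  obtain ⟨S, hS⟩ : ∃ S, S = (p1 (θ0 + P) - q2 (θ0 + P)) / deriv w θ0 := ⟨_, rfl⟩
  have S0 : S ≠ 0 := hS ▸ div_ne_zero hne h0
  have hUS : ∀ θ, q2 θ * p1 (θ + P) + -p2 θ * q1 (θ + P) -
      (-q1 θ * p2 (θ + P) + p1 θ * q2 (θ + P)) = S * deriv w θ := fun θ => by
    have := hU κ hκ θ0 θ _ _ _ _ _ _ _ _ hp hq (hp.lin hq (q2 θ) (-p2 θ))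
      (hp.lin hq (-q1 θ) (p1 θ)) hp1 hp2 hq1 hq2 (by linear_combination hwr θ) (by ring)
      (by ring) (by linear_combination hwr θ)
    rw [hS, div_mul_eq_mul_div, this, mul_div_cancel_right₀ _ h0]
  have hX : ∀ θ, HasDerivAt (fun θ => Real.exp (w θ)) (Real.exp (w θ) * deriv w θ) θ :=
    fun θ => (hw.hd θ).exp
  have X0 : ∀ θ, Real.exp (w θ) ≠ 0 := fun θ => (Real.exp_pos _).ne'
  have hXi : ∀ θ, HasDerivAt (fun θ => (Real.exp (w θ))⁻¹) (-(deriv w θ / Real.exp (w θ))) θ :=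
    fun θ => ((hX θ).fun_inv (X0 θ)).congr_deriv (by have := X0 θ; field_simp)
  have d1 : ∀ θ, HasDerivAt (fun θ => -(q1 θ * p1 (θ + P)) + p1 θ * q1 (θ + P) -
      S / 2 * (κ / ρ * Real.exp (w θ) - 1 / κ * (Real.exp (w θ))⁻¹)) 0 θ := fun θ =>
    (((((hq θ).1.fun_mul (hp' θ).1).fun_neg).fun_add ((hp θ).1.fun_mul (hq' θ).1)).fun_sub
      ((((hX θ).const_mul _).fun_sub ((hXi θ).const_mul _)).const_mul _)).congr_deriv (by
        have := X0 θ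
        have e : (κ * Real.exp (w θ) / ρ + 1 / (κ * Real.exp (w θ))) / 2 * (S * deriv w θ) =
            S / 2 * (κ / ρ * (Real.exp (w θ) * deriv w θ) -
              1 / κ * -(deriv w θ / Real.exp (w θ))) := by field_simp; ring
        rw [← e, ← hUS θ]
        ring)
  have d2 : ∀ θ, HasDerivAt (fun θ => q2 θ * p2 (θ + P) - p2 θ * q2 (θ + P) -
      S / 2 * (1 / (κ * ρ) * Real.exp (w θ) - κ * (Real.exp (w θ))⁻¹)) 0 θ := fun θ =>
    ((((hq θ).2.fun_mul (hp' θ).2).fun_sub ((hp θ).2.fun_mul (hq' θ).2)).fun_sub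
      ((((hX θ).const_mul _).fun_sub ((hXi θ).const_mul _)).const_mul _)).congr_deriv (by
        have := X0 θ
        have e : (κ / Real.exp (w θ) + Real.exp (w θ) / (κ * ρ)) / 2 * (S * deriv w θ) =
            S / 2 * (1 / (κ * ρ) * (Real.exp (w θ) * deriv w θ) -
              κ * -(deriv w θ / Real.exp (w θ))) := by field_simp; ring
        rw [← e, ← hUS θ]
        ring)
  obtain ⟨c1, hc1⟩ : ∃ c, ∀ θ, -(q1 θ * p1 (θ + P)) + p1 θ * q1 (θ + P) -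
      S / 2 * (κ / ρ * Real.exp (w θ) - 1 / κ * (Real.exp (w θ))⁻¹) = c :=
    ⟨_, fun θ => is_const_of_deriv_eq_zero (fun s => (d1 s).differentiableAt)
      (fun s => (d1 s).deriv) θ 0⟩
  obtain ⟨c2, hc2⟩ : ∃ c, ∀ θ, q2 θ * p2 (θ + P) - p2 θ * q2 (θ + P) -
      S / 2 * (1 / (κ * ρ) * Real.exp (w θ) - κ * (Real.exp (w θ))⁻¹) = c :=
    ⟨_, fun θ => is_const_of_deriv_eq_zero (fun s => (d2 s).differentiableAt)
      (fun s => (d2 s).deriv) θ 0⟩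
  refine ⟨(c2 * κ + c1 / κ) / (ρ * S), (c2 / κ + c1 * κ) / S, fun θ => ?_⟩
  have d3 : HasDerivAt (fun θ => q2 θ * p1 (θ + P) + -p2 θ * q1 (θ + P) -
      (-q1 θ * p2 (θ + P) + p1 θ * q2 (θ + P)))
      (-((κ * Real.exp (w θ) / ρ + 1 / (κ * Real.exp (w θ))) *
          (q2 θ * p2 (θ + P) - p2 θ * q2 (θ + P)) +
        (κ / Real.exp (w θ) + Real.exp (w θ) / (κ * ρ)) *
          (-(q1 θ * p1 (θ + P)) + p1 θ * q1 (θ + P)))) θ :=
    ((((hq θ).2.fun_mul (hp' θ).1).fun_add ((hp θ).2.fun_neg.fun_mul (hq' θ).1)).fun_sub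
      (((hq θ).1.fun_neg.fun_mul (hp' θ).2).fun_add
        ((hp θ).1.fun_mul (hq' θ).2))).congr_deriv (by ring)
  rw [funext hUS] at d3
  have d4 := d3.unique ((hw.deriv.hd θ).const_mul S)
  rw [eq_add_of_sub_eq (hc1 θ), eq_add_of_sub_eq (hc2 θ)] at d4
  have := X0 θ
  apply mul_left_cancel₀ S0
  rw [← d4]
  field_simp
  ring

end Pool.Agent.P.MP_785924_gt
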