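import Pool.Agent.P.MP_785924_gt.A.IfaceA

/-! Step COMB of the free boundary annulus project. -/

namespace Pool.Agent.P.MP_785924_gt

open scoped ContDiff
open Set Filter Topology

namespace Comb

open Classical in
theorem card_ge {ι : Type} (B : Fin 6 → ι) (F : Fin 6 → Prop) (R : Finset ι)
    (hF : ∀ i j, i < j → F j → B i ≠ B j) (hR : ∀ i, F i → B i ∈ R) :
    ((if F 0 then 1 else 0) + (if F 1 then 1 else 0) + (if F 2 then 1 else 0) +
      (if F 3 then 1 else 0) + (if F 4 then 1 else 0) + (if F 5 then 1 else 0) : ℕ) ≤ R.card := by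
  have h1 : (Finset.univ.filter F).card ≤ R.card := by
    refine Finset.card_le_card_of_injOn B ?_ ?_
    · intro i hi
      exact hR i (Finset.mem_filter.1 hi).2
    · intro i hi j hj hij
      have hi' : F i := (Finset.mem_filter.1 hi).2
      have hj' : F j := (Finset.mem_filter.1 hj).2
      rcases lt_trichotomy i j with h | h | h
      · exact absurd hij (hF i j h hj')
      · exact h
      · exact absurd hij.symm (hF j i h hi')
  rw [Finset.card_filter, Fin.sum_univ_six] at h1
  exact h1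

theorem first_iff {ι : Type} (B : Fin 6 → ι) (hp : ∀ i j, B i = B j → i.val % 2 = j.val % 2) :
    (∀ j : Fin 6, j < 0 → B j ≠ B 0) ∧ (∀ j : Fin 6, j < 1 → B j ≠ B 1) ∧
    (B 0 ≠ B 2 → ∀ j : Fin 6, j < 2 → B j ≠ B 2) ∧
    (B 1 ≠ B 3 → ∀ j : Fin 6, j < 3 → B j ≠ B 3) ∧
    (B 0 ≠ B 4 → B 2 ≠ B 4 → ∀ j : Fin 6, j < 4 → B j ≠ B 4) ∧
    (B 1 ≠ B 5 → B 3 ≠ B 5 → ∀ j : Fin 6, j < 5 → B j ≠ B 5) := by
  refine ⟨?_, ?_, ?_, ?_, ?_, ?_⟩
  · intro j hj; exact absurd hj (by simp)
  · intro j hj e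
    have := hp _ _ e
    fin_cases j <;> simp_all
  · intro h j hj e
    have := hp _ _ e
    fin_cases j <;> simp_all
  · intro h j hj e
    have := hp _ _ e
    fin_cases j <;> simp_all
  · intro h h' j hj e
    have := hp _ _ e
    fin_cases j <;> simp_all
  · intro h h' j hj e
    have := hp _ _ e
    fin_cases j <;> simp_all

open Classical in
theorem side_card {ι : Type} (B T : Fin 6 → ι) (h : Side B T) :
    4 ≤ (Finset.univ.image B).card ∧
      6 ≤ (Finset.univ.image B).card + (Finset.univ.image B \ Finset.univ.image T).card := by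
  obtain ⟨hp, hc⟩ := h
  obtain ⟨f0, f1, f2, f3, f4, f5⟩ := first_iff B hp
  have c1 := card_ge B (fun i => ∀ j : Fin 6, j < i → B j ≠ B i) (Finset.univ.image B)
    (fun i j hij hj => hj i hij) (fun i _ => Finset.mem_image_of_mem B (Finset.mem_univ i))
  have c2 := card_ge B (fun i => (∀ j : Fin 6, j < i → B j ≠ B i) ∧ ¬ ∃ m, B i = T m)
    (Finset.univ.image B \ Finset.univ.image T)
    (fun i j hij hj => hj.1 i hij) (fun i hi => by
      refine Finset.mem_sdiff.2 ⟨Finset.mem_image_of_mem B (Finset.mem_univ i), fun hm => hi.2 ?_⟩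
      obtain ⟨m, -, hm⟩ := Finset.mem_image.1 hm
      exact ⟨m, hm.symm⟩)
  have n01 : B 0 ≠ B 1 := fun e => by simpa using hp _ _ e
  have n03 : B 0 ≠ B 3 := fun e => by simpa using hp _ _ e
  have n05 : B 0 ≠ B 5 := fun e => by simpa using hp _ _ e
  have n21 : B 2 ≠ B 1 := fun e => by simpa using hp _ _ e
  have n23 : B 2 ≠ B 3 := fun e => by simpa using hp _ _ e
  have n25 : B 2 ≠ B 5 := fun e => by simpa using hp _ _ e
  have n41 : B 4 ≠ B 1 := fun e => by simpa using hp _ _ e
  have n43 : B 4 ≠ B 3 := fun e => by simpa using hp _ _ e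
  have n45 : B 4 ≠ B 5 := fun e => by simpa using hp _ _ e
  have a3 := hc 0 1 2 3 (by decide) (by decide) (by decide)
  have a4 := hc 0 1 2 4 (by decide) (by decide) (by decide)
  have a5 := hc 0 1 2 5 (by decide) (by decide) (by decide)
  have b0 := hc 2 3 4 0 (by decide) (by decide) (by decide)
  have b1 := hc 2 3 4 1 (by decide) (by decide) (by decide)
  have b5 := hc 2 3 4 5 (by decide) (by decide) (by decide)
  have d1 := hc 0 1 4 5 (by decide) (by decide) (by decide)
  have d2 := hc 0 2 4 5 (by decide) (by decide) (by decide)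
  have d3 := hc 0 3 4 5 (by decide) (by decide) (by decide)
  have e0 := hc 1 2 3 0 (by decide) (by decide) (by decide)
  have e4 := hc 1 2 3 4 (by decide) (by decide) (by decide)
  have e5 := hc 1 2 3 5 (by decide) (by decide) (by decide)
  have g0 := hc 3 4 5 0 (by decide) (by decide) (by decide)
  have g1 := hc 3 4 5 1 (by decide) (by decide) (by decide)
  have g2 := hc 3 4 5 2 (by decide) (by decide) (by decide)
  have k2 := hc 1 2 5 0 (by decide) (by decide) (by decide)
  have k3 := hc 1 3 5 0 (by decide) (by decide) (by decide)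
  have k4 := hc 1 4 5 0 (by decide) (by decide) (by decide)
  have q02 : B 0 = B 2 → (∃ m, B 0 = T m) → ∃ m, B 2 = T m := fun e h => e ▸ h
  have q04 : B 0 = B 4 → (∃ m, B 0 = T m) → ∃ m, B 4 = T m := fun e h => e ▸ h
  have q24 : B 2 = B 4 → (∃ m, B 2 = T m) → ∃ m, B 4 = T m := fun e h => e ▸ h
  have q13 : B 1 = B 3 → (∃ m, B 1 = T m) → ∃ m, B 3 = T m := fun e h => e ▸ h
  have q15 : B 1 = B 5 → (∃ m, B 1 = T m) → ∃ m, B 5 = T m := fun e h => e ▸ h
  have q35 : B 3 = B 5 → (∃ m, B 3 = T m) → ∃ m, B 5 = T m := fun e h => e ▸ h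
  clear hc hp
  beta_reduce at c1 c2
  generalize (∀ j : Fin 6, j < 0 → B j ≠ B 0) = F0 at *
  generalize (∀ j : Fin 6, j < 1 → B j ≠ B 1) = F1 at *
  generalize (∀ j : Fin 6, j < 2 → B j ≠ B 2) = F2 at *
  generalize (∀ j : Fin 6, j < 3 → B j ≠ B 3) = F3 at *
  generalize (∀ j : Fin 6, j < 4 → B j ≠ B 4) = F4 at *
  generalize (∀ j : Fin 6, j < 5 → B j ≠ B 5) = F5 at *
  generalize (∃ m, B 0 = T m) = P0 at *
  generalize (∃ m, B 1 = T m) = P1 at *
  generalize (∃ m, B 2 = T m) = P2 at *
  generalize (∃ m, B 3 = T m) = P3 at *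
  generalize (∃ m, B 4 = T m) = P4 at *
  generalize (∃ m, B 5 = T m) = P5 at *
  generalize (Finset.univ.image B \ Finset.univ.image T).card = y at *
  generalize (Finset.univ.image B).card = x at *
  generalize B 0 = x0 at *
  generalize B 1 = x1 at *
  generalize B 2 = x2 at *
  generalize B 3 = x3 at *
  generalize B 4 = x4 at *
  generalize B 5 = x5 at *
  grind

theorem chain {f : Fin 6 → ℝ} (h : ∀ m : Fin 5, f m.castSucc = f m.succ) (m : Fin 6) :
    f m = f 0 := by
  have h0 : f 0 = f 1 := h 0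
  have h1 : f 1 = f 2 := h 1
  have h2 : f 2 = f 3 := h 2
  have h3 : f 3 = f 4 := h 3
  have h4 : f 4 = f 5 := h 4
  fin_cases m
  · rfl
  · show f 1 = f 0
    linarith
  · show f 2 = f 0
    linarith
  · show f 3 = f 0
    linarith
  · show f 4 = f 0
    linarith
  · show f 5 = f 0
    linarith

theorem finish {ι : Type} (B T : Fin 6 → ι) (S : Finset ι) (hS : 5 ≤ S.card)
    (hm : ∀ x ∈ S, (∃ m, x = B m) ∨ ∃ m, x = T m)
    (H : ∀ f : ι → ℝ, (∀ x, x ∉ S → f x = 0) → (∀ m, f (B m) = f (B 0)) →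
      (∀ m, f (T m) = f (T 0)) → f (B 0) = 0 ∧ f (T 0) = 0) :
    ∃ g : Fin 5 → ι, Function.Injective g ∧ (∀ i, (∃ m, g i = B m) ∨ ∃ m, g i = T m) ∧
      ∀ a : Fin 5 → ℝ, (∀ m : Fin 5, lab g a (B m.castSucc) = lab g a (B m.succ)) →
        (∀ m : Fin 5, lab g a (T m.castSucc) = lab g a (T m.succ)) → a = 0 := by
  obtain ⟨S', hsub, hc⟩ := Finset.exists_subset_card_eq hS
  let e := S'.equivFinOfCardEq hc
  obtain ⟨g, hinj, hmem⟩ : ∃ g : Fin 5 → ι, Function.Injective g ∧ ∀ i, g i ∈ S :=
    ⟨fun i => ((e.symm i : S') : ι), fun i j h => e.symm.injective (Subtype.ext h),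
      fun i => hsub (e.symm i).2⟩
  refine ⟨g, hinj, fun i => hm _ (hmem i), fun a hB hT => ?_⟩
  have cB := chain (f := fun m => lab g a (B m)) hB
  have cT := chain (f := fun m => lab g a (T m)) hT
  have hz : ∀ x, x ∉ S → lab g a x = 0 := by
    intro x hx
    unfold lab
    refine Finset.sum_eq_zero fun i _ => if_neg fun h : g i = x => hx (h ▸ hmem i)
  obtain ⟨zB, zT⟩ := H (lab g a) hz cB cT
  funext i
  have hi : lab g a (g i) = a i := by
    unfold lab
    rw [Finset.sum_eq_single i]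
    · simp
    · intro j _ hj
      exact if_neg fun h => hj (hinj h)
    · intro h; exact absurd (Finset.mem_univ i) h
  show a i = 0
  rw [← hi]
  rcases hm _ (hmem i) with ⟨m, h⟩ | ⟨m, h⟩
  · rw [h]; exact (cB m).trans zB
  · rw [h]; exact (cT m).trans zT

end Comb

open Comb in
theorem p_COMB :
    S_COMB := by
  classical
  intro ι B T hB hT
  obtain ⟨b4, b6⟩ := side_card B T hB
  obtain ⟨t4, t6⟩ := side_card T B hT
  have hU : ∀ x ∈ Finset.univ.image B ∪ Finset.univ.image T, (∃ m, x = B m) ∨ ∃ m, x = T m := by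
    intro x hx
    rcases Finset.mem_union.1 hx with h | h
    · obtain ⟨m, -, h⟩ := Finset.mem_image.1 h
      exact Or.inl ⟨m, h.symm⟩
    · obtain ⟨m, -, h⟩ := Finset.mem_image.1 h
      exact Or.inr ⟨m, h.symm⟩
  have u1 := Finset.card_sdiff_add_card (Finset.univ.image B) (Finset.univ.image T)
  have u2 := Finset.card_sdiff_add_card (Finset.univ.image T) (Finset.univ.image B)
  rw [Finset.union_comm] at u2
  by_cases hc : ∃ m m', B m = T m'
  · obtain ⟨m, m', hmm⟩ := hc
    refine finish B T ((Finset.univ.image B ∪ Finset.univ.image T).erase (B 0)) ?_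
      (fun x hx => hU x (Finset.mem_of_mem_erase hx)) ?_
    · have := Finset.pred_card_le_card_erase (s := Finset.univ.image B ∪ Finset.univ.image T)
        (a := B 0)
      convert_to 5 ≤ ((Finset.univ.image B ∪ Finset.univ.image T).erase (B 0)).card
      omega
    · intro f hz cB cT
      have z : f (B 0) = 0 := hz _ (Finset.notMem_erase _ _)
      exact ⟨z, by rw [← cT m', ← hmm, cB m, z]⟩
  · have hd : Finset.univ.image B \ Finset.univ.image T = Finset.univ.image B := by
      refine Finset.sdiff_eq_self_of_disjoint (Finset.disjoint_left.2 fun x hx hx' => hc ?_)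
      obtain ⟨m, -, h⟩ := Finset.mem_image.1 hx
      obtain ⟨m', -, h'⟩ := Finset.mem_image.1 hx'
      exact ⟨m, m', h.trans h'.symm⟩
    rw [hd] at u1
    refine finish B T (((Finset.univ.image B ∪ Finset.univ.image T).erase (B 0)).erase (T 0)) ?_
      (fun x hx => hU x (Finset.mem_of_mem_erase (Finset.mem_of_mem_erase hx))) ?_
    · have h1 := Finset.pred_card_le_card_erase (s := Finset.univ.image B ∪ Finset.univ.image T)
        (a := B 0)
      have h2 := Finset.pred_card_le_card_erase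
        (s := (Finset.univ.image B ∪ Finset.univ.image T).erase (B 0)) (a := T 0)
      omega
    · intro f hz _ _
      exact ⟨hz _ fun h => Finset.notMem_erase _ _ (Finset.mem_of_mem_erase h),
        hz _ (Finset.notMem_erase _ _)⟩

end Pool.Agent.P.MP_785924_gt
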