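import Pool.Agent.P.MP_785924_gt.A.IfaceA
import Pool.Agent.P.MP_785924_gt.A.Tb

/-! Step CONV of the free boundary annulus project. -/

namespace Pool.Agent.P.MP_785924_gt

open scoped ContDiff
open Set Filter Topology

namespace Conv

variable {ρ P : ℝ} {w : ℝ → ℝ} {x ν e : Fin 3 → ℝ → ℝ}

theorem cmp_per {y : Fin 3 → ℝ → ℝ} (h : ∀ i, Sm1 P (y i)) (a : Fin 3 → ℝ) :
    Function.Periodic (cmp a y) P := fun θ => by
  simp only [cmp, (h 0).2 θ, (h 1).2 θ, (h 2).2 θ]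

theorem cmp_cont {y : Fin 3 → ℝ → ℝ} (h : ∀ i, Sm1 P (y i)) (a : Fin 3 → ℝ) :
    Continuous (cmp a y) := by
  have h0 := (h 0).cont
  have h1 := (h 1).cont
  have h2 := (h 2).cont
  unfold cmp
  fun_prop

/-- A strict local maximum of second order. -/
theorem loc_neg {f u k : ℝ → ℝ} {t0 d : ℝ} (hk : ∀ t, 0 < k t)
    (hf : ∀ t, HasDerivAt f (k t * u t) t) (hu : HasDerivAt u d t0) (hd : d < 0) (f0 : f t0 = 0)
    (u0 : u t0 = 0) : ∃ η, 0 < η ∧ ∀ t, t ≠ t0 → |t - t0| < η → f t < 0 := by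
  have hs := (hasDerivAt_iff_tendsto_slope.1 hu).eventually (gt_mem_nhds hd)
  rw [eventually_nhdsWithin_iff, Metric.eventually_nhds_iff] at hs
  obtain ⟨η, hη, hs⟩ := hs
  have hs' : ∀ s, s ≠ t0 → |s - t0| < η → (s - t0)⁻¹ * u s < 0 := by
    intro s h1 h2
    have := hs (y := s) (by simpa [Real.dist_eq] using h2) h1
    simpa [slope_def_field, u0, div_eq_inv_mul] using this
  refine ⟨η, hη, fun t ht hlt => ?_⟩
  have hc : Continuous f := continuous_iff_continuousAt.2 fun s => (hf s).continuousAt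
  rw [abs_lt] at hlt
  rcases lt_or_gt_of_ne ht with h | h
  · obtain ⟨s, hs1, hs2⟩ := exists_hasDerivAt_eq_slope f (fun s => k s * u s) h hc.continuousOn
      (fun s _ => hf s)
    have h1 := hs' s hs1.2.ne (abs_lt.2 ⟨by linarith [hs1.1], by linarith [hs1.2]⟩)
    have h2 : (s - t0)⁻¹ < 0 := inv_lt_zero.2 (by linarith [hs1.2])
    have h3 : 0 < u s := by
      by_contra hn
      nlinarith [not_lt.1 hn]
    have h4 : 0 < (f t0 - f t) / (t0 - t) := hs2 ▸ mul_pos (hk s) h3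
    have h5 := (div_pos_iff_of_pos_right (by linarith : 0 < t0 - t)).1 h4
    linarith
  · obtain ⟨s, hs1, hs2⟩ := exists_hasDerivAt_eq_slope f (fun s => k s * u s) h hc.continuousOn
      (fun s _ => hf s)
    have h1 := hs' s hs1.1.ne' (abs_lt.2 ⟨by linarith [hs1.1], by linarith [hs1.2]⟩)
    have h2 : 0 < (s - t0)⁻¹ := inv_pos.2 (by linarith [hs1.1])
    have h3 : u s < 0 := by
      by_contra hn
      nlinarith [not_lt.1 hn]
    have h4 : (f t - f t0) / (t - t0) < 0 := hs2 ▸ mul_neg_of_pos_of_neg (hk s) h3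
    have h5 := (div_lt_iff₀ (by linarith : 0 < t - t0)).1 h4
    linarith

theorem small (p q : ℝ) (hp : 0 < p) : ∀ᶠ δ : ℝ in 𝓝[>] 0, 0 < p + δ * q := by
  have h : Tendsto (fun δ : ℝ => p + δ * q) (𝓝 0) (𝓝 (p + 0 * q)) :=
    (by fun_prop : Continuous fun δ : ℝ => p + δ * q).tendsto 0
  rw [zero_mul, add_zero] at h
  exact (h.eventually (lt_mem_nhds hp)).filter_mono nhdsWithin_le_nhds

theorem near (h : Curve ρ P w x ν e) (θ0 : ℝ) :
    ∃ η, 0 < η ∧ ∀ t, t ≠ θ0 → |t - θ0| < η → cmp (fun i => ν i θ0) x t < 0 := by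
  have s := h.sys3 (fun i => ν i θ0)
  have f0 : cmp (fun i => ν i θ0) x θ0 = 0 := by
    simp only [cmp]; linarith [h.xν θ0]
  have g0 : cmp (fun i => ν i θ0) ν θ0 = 1 := by
    simp only [cmp]; linarith [h.νν θ0]
  have u0 : cmp (fun i => ν i θ0) e θ0 = 0 := by
    simp only [cmp]; linarith [h.νe θ0]
  refine loc_neg (k := fun t => Real.exp (w t)) (fun t => Real.exp_pos _) (fun t => (s t).1)
    (s θ0).2.2 ?_ f0 u0
  rw [f0, g0]
  have := Real.exp_pos (w θ0)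
  have : 0 < 1 / Real.exp (w θ0) := by positivity
  simpa using this

theorem step1 (h : Curve ρ P w x ν e) (hT : TP P x) (θ0 θ : ℝ) :
    cmp (fun i => ν i θ0) x θ ≤ 0 := by
  by_contra hn
  have hpos := not_le.1 hn
  obtain ⟨θ1, h1, e1⟩ := (cmp_per h.smx (fun i => ν i θ0)).exists_mem_Ico h.hP θ θ0
  rw [e1] at hpos
  have f0 : cmp (fun i => ν i θ0) x θ0 = 0 := by
    simp only [cmp]; linarith [h.xν θ0]
  have hlt : θ0 < θ1 := lt_of_le_of_ne h1.1 (by rintro rfl; linarith)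
  obtain ⟨η, hη, hneg⟩ := near h θ0
  obtain ⟨r, hr0, hr1, hr2, hr3⟩ : ∃ r, 0 < r ∧ r < η ∧ r < θ1 - θ0 ∧ r < θ0 + P - θ1 := by
    obtain ⟨r, hr0, hr⟩ := exists_between (lt_min hη (lt_min (sub_pos.2 hlt) (sub_pos.2 h1.2)))
    simp only [lt_min_iff] at hr
    exact ⟨r, hr0, hr.1, hr.2.1, hr.2.2⟩
  have nm := hneg (θ0 - r) (by linarith) (by rw [abs_lt]; constructor <;> linarith)
  have np := hneg (θ0 + r) (by linarith) (by rw [abs_lt]; constructor <;> linarith)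
  have ev := (small _ (-cmp (fun i => x i θ0) x (θ0 - r)) (neg_pos.2 nm)).and
    ((small _ (-cmp (fun i => x i θ0) x (θ0 + r)) (neg_pos.2 np)).and
    ((small _ (cmp (fun i => x i θ0) x θ1) hpos).and self_mem_nhdsWithin))
  obtain ⟨δ, a1, a2, a3, a4⟩ := ev.exists
  have a4' : 0 < δ := a4
  have key : ∀ t, cmp (fun i => -(ν i θ0 + δ * x i θ0)) x t =
      -(cmp (fun i => ν i θ0) x t + δ * cmp (fun i => x i θ0) x t) := fun t => by
    simp only [cmp]; ring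
  have x0 : cmp (fun i => x i θ0) x θ0 = ρ ^ 2 := by
    simp only [cmp]; linarith [h.xx θ0]
  have hρ : 0 < δ * ρ ^ 2 := mul_pos a4' (pow_pos h.hρ 2)
  refine hT (fun i => -(ν i θ0 + δ * x i θ0)) (θ0 - r) θ0 (θ0 + r) θ1 (by linarith) (by linarith)
    (by linarith) (by linarith) ?_ ?_ ?_ ?_
  · rw [key]; linarith
  · rw [key, f0, x0]; linarith
  · rw [key]; linarith
  · rw [key]; linarith

theorem int_neg {y : Fin 3 → ℝ → ℝ} (hP : 0 < P) (h : ∀ i, Sm1 P (y i)) (a : Fin 3 → ℝ)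
    (hle : ∀ t, cmp a y t ≤ 0) (hlt : ∃ t, cmp a y t < 0) :
    a 0 * (∫ t in (0 : ℝ)..P, y 0 t) + a 1 * (∫ t in (0 : ℝ)..P, y 1 t) +
      a 2 * (∫ t in (0 : ℝ)..P, y 2 t) < 0 := by
  have i0 : IntervalIntegrable (fun t => a 0 * y 0 t) MeasureTheory.volume 0 P :=
    (continuous_const.mul (h 0).cont).intervalIntegrable _ _
  have i1 : IntervalIntegrable (fun t => a 1 * y 1 t) MeasureTheory.volume 0 P :=
    (continuous_const.mul (h 1).cont).intervalIntegrable _ _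
  have i2 : IntervalIntegrable (fun t => a 2 * y 2 t) MeasureTheory.volume 0 P :=
    (continuous_const.mul (h 2).cont).intervalIntegrable _ _
  rw [← intervalIntegral.integral_const_mul, ← intervalIntegral.integral_const_mul,
    ← intervalIntegral.integral_const_mul, ← intervalIntegral.integral_add i0 i1,
    ← intervalIntegral.integral_add (i0.add i1) i2]
  obtain ⟨t, ht⟩ := hlt
  obtain ⟨s, hs, es⟩ := (cmp_per h a).exists_mem_Ico₀ hP t
  have := intervalIntegral.integral_lt_integral_of_continuousOn_of_le_of_exists_lt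
    (f := cmp a y) (g := fun _ => 0) hP (cmp_cont h a).continuousOn continuousOn_const
    (fun t _ => hle t) ⟨s, ⟨hs.1, hs.2.le⟩, es ▸ ht⟩
  simpa [cmp] using this

theorem nz (h : Curve ρ P w x ν e) (θ : ℝ) : ∃ t, cmp (fun i => x i θ) ν t ≠ 0 := by
  by_contra hn
  push Not at hn
  have s := h.sys3 (fun i => x i θ)
  have hg : cmp (fun i => x i θ) ν = fun _ => 0 := funext hn
  have hu : cmp (fun i => x i θ) e = fun _ => 0 := by
    funext t
    have h1 := (s t).2.1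
    rw [hg] at h1
    have h2 := h1.unique (hasDerivAt_const t (0 : ℝ))
    exact (div_eq_zero_iff.1 h2).resolve_right (Real.exp_pos _).ne'
  have h1 := (s θ).2.2
  rw [hu, hg] at h1
  have h2 := h1.unique (hasDerivAt_const θ (0 : ℝ))
  have x0 : cmp (fun i => x i θ) x θ = ρ ^ 2 := by
    simp only [cmp]; linarith [h.xx θ]
  rw [x0, div_self (pow_pos h.hρ 2).ne'] at h2
  have := Real.exp_pos (w θ)
  simp at h2

theorem nearest (C : Set (Fin 3 → ℝ)) (hC : IsClosed C) (hne : C.Nonempty) (b : Fin 3 → ℝ) :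
    ∃ y ∈ C, ∀ z ∈ C, (y 0 - b 0) ^ 2 + (y 1 - b 1) ^ 2 + (y 2 - b 2) ^ 2 ≤
      (z 0 - b 0) ^ 2 + (z 1 - b 1) ^ 2 + (z 2 - b 2) ^ 2 := by
  obtain ⟨a, ha⟩ := hne
  set F : (Fin 3 → ℝ) → ℝ := fun y => (y 0 - b 0) ^ 2 + (y 1 - b 1) ^ 2 + (y 2 - b 2) ^ 2 with hF
  have hc : Continuous F := by rw [hF]; fun_prop
  have hK : IsCompact (C ∩ {y | F y ≤ F a}) := by
    refine Metric.isCompact_of_isClosed_isBounded (hC.inter (isClosed_le hc continuous_const)) ?_
    refine (Metric.isBounded_closedBall (x := b) (r := F a + 1)).subset fun y hy => ?_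
    have h2 : F y ≤ F a := hy.2
    have h0 : 0 ≤ F a := by rw [hF]; positivity
    rw [Metric.mem_closedBall, dist_pi_le_iff (by linarith)]
    intro i
    have hi : (y i - b i) ^ 2 ≤ F y := by
      rw [hF]
      fin_cases i <;> simp only [Fin.zero_eta, Fin.mk_one, Fin.reduceFinMk] <;>
        nlinarith [sq_nonneg (y 0 - b 0), sq_nonneg (y 1 - b 1), sq_nonneg (y 2 - b 2)]
    rw [Real.dist_eq, abs_le]
    constructor <;> nlinarith [sq_nonneg (y i - b i - 1), sq_nonneg (y i - b i + 1)]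
  obtain ⟨y, hy, hmin⟩ := hK.exists_isMinOn ⟨a, ha, le_refl (F a)⟩ hc.continuousOn
  refine ⟨y, hy.1, fun z hz => ?_⟩
  by_cases hz' : F z ≤ F a
  · exact hmin ⟨hz, hz'⟩
  · have h2 : F y ≤ F a := hy.2
    exact h2.trans (not_le.1 hz').le

end Conv

open Conv in
theorem p_CONV :
    S_CONV := by
  intro ρ P w x ν e h hT
  have s1 := step1 h hT
  obtain ⟨a, ha⟩ : ∃ a : Fin 3 → ℝ, ∀ θ, cmp a ν θ < 0 := by
    refine ⟨fun i => ∫ t in (0 : ℝ)..P, x i t, fun θ => ?_⟩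
    obtain ⟨η, hη, hneg⟩ := near h θ
    have := int_neg h.hP h.smx (fun i => ν i θ) (s1 θ)
      ⟨θ + η / 2, hneg _ (by linarith) (by rw [abs_lt]; constructor <;> linarith)⟩
    simp only [cmp]
    linarith
  obtain ⟨b, hb⟩ : ∃ b : Fin 3 → ℝ, ∀ θ, 0 < cmp b x θ := by
    refine ⟨fun i => -∫ t in (0 : ℝ)..P, ν i t, fun θ => ?_⟩
    have hle : ∀ t, cmp (fun i => x i θ) ν t ≤ 0 := fun t => by
      have := s1 t θ
      simp only [cmp] at this ⊢
      linarith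
    obtain ⟨t, ht⟩ := nz h θ
    have := int_neg h.hP h.smν (fun i => x i θ) hle ⟨t, lt_of_le_of_ne (hle t) ht⟩
    simp only [cmp]
    linarith
  have hC : IsClosed {y : Fin 3 → ℝ | ∀ θ, cmp y ν θ ≤ cmp a ν θ} := by
    rw [Set.ofPred_forall]
    refine isClosed_iInter fun θ => isClosed_le ?_ continuous_const
    unfold cmp
    fun_prop
  obtain ⟨y, hy, hmin⟩ := nearest _ hC ⟨a, fun θ => le_rfl⟩ b
  refine ⟨y, fun θ => ⟨?_, (hy θ).trans_lt (ha θ)⟩⟩
  refine (hb θ).trans_le ?_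
  by_contra hn
  have hp : 0 < cmp b x θ - cmp y x θ := sub_pos.2 (not_le.1 hn)
  obtain ⟨δ, d1, d2⟩ := ((small _ (-ρ ^ 2) hp).and self_mem_nhdsWithin).exists
  have d2' : 0 < δ := d2
  have hz := hmin (fun i => y i + δ * x i θ) (fun t => by
    have h1 := hy t
    have h2 := mul_nonpos_of_nonneg_of_nonpos d2'.le (s1 t θ)
    simp only [cmp] at h1 h2 ⊢
    linarith)
  have hx := h.xx θ
  simp only [cmp] at d1 hp
  have e1 : (y 0 + δ * x 0 θ - b 0) ^ 2 + (y 1 + δ * x 1 θ - b 1) ^ 2 + (y 2 + δ * x 2 θ - b 2) ^ 2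
      = (y 0 - b 0) ^ 2 + (y 1 - b 1) ^ 2 + (y 2 - b 2) ^ 2 + δ * (δ * ρ ^ 2 -
        2 * (b 0 * x 0 θ + b 1 * x 1 θ + b 2 * x 2 θ - (y 0 * x 0 θ + y 1 * x 1 θ + y 2 * x 2 θ))) := by
    rw [← hx]; ring
  have h3 : δ * (δ * ρ ^ 2 -
      2 * (b 0 * x 0 θ + b 1 * x 1 θ + b 2 * x 2 θ - (y 0 * x 0 θ + y 1 * x 1 θ + y 2 * x 2 θ))) < 0 :=
    mul_neg_of_pos_of_neg d2' (by linarith)
  linarith

end Pool.Agent.P.MP_785924_gt
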