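import Pool.Agent.P.MP_785924_gt.A.IfaceA
import Pool.Agent.P.MP_785924_gt.A.Tb

/-! Step DCONT of the free boundary annulus project. -/

namespace Pool.Agent.P.MP_785924_gt

open scoped ContDiff
open Set Filter Topology

theorem p_DCONT (hODEEX : S_ODEEX) (hODECONT : S_ODECONT) :
    S_DCONT := by
  intro ρ P w hρ hP hw
  have hwc := hw.cont
  have hk : ∀ κ : ℝ, 0 < max κ 1 := fun κ => lt_of_lt_of_le one_pos (le_max_right _ _)
  choose f1 f2 hf h1 h2 using fun l : ℝ × ℝ =>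
    Sys2R.ex hODEEX hwc (hk l.1).ne' ρ 0 (Real.cos l.2) (Real.sin l.2)
  have hsol : ∀ l, Sol ρ w (max l.1 1) (f1 l) (f2 l) := by
    intro l
    refine ⟨hf l, ?_⟩
    rw [h1, h2]
    by_contra hc
    push Not at hc
    have := Real.cos_sq_add_sin_sq l.2
    rw [hc.1, hc.2] at this
    norm_num at this
  let L1 : ℝ × ℝ →L[ℝ] ℝ × ℝ := (ContinuousLinearMap.inl ℝ ℝ ℝ).comp (ContinuousLinearMap.snd ℝ ℝ ℝ)
  let L2 : ℝ × ℝ →L[ℝ] ℝ × ℝ := (ContinuousLinearMap.inr ℝ ℝ ℝ).comp (ContinuousLinearMap.fst ℝ ℝ ℝ)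
  have key := hODECONT (ℝ × ℝ) (ℝ × ℝ) (fun q =>
      (-((max q.1.1 1 * Real.exp (w q.2) / ρ + 1 / (max q.1.1 1 * Real.exp (w q.2))) / 2)) • L1 +
      ((max q.1.1 1 / Real.exp (w q.2) + Real.exp (w q.2) / (max q.1.1 1 * ρ)) / 2) • L2)
    (fun l t => (f1 l t, f2 l t)) 0
    (by fun_prop (disch := intro q; have := hk q.1.1; positivity))
    (fun l t => by
      have := ((hf l) t).1.prodMk ((hf l) t).2
      refine this.congr_deriv ?_
      simp [L1, L2])
    (by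
      simp only [h1, h2]
      fun_prop)
  have c1 : Continuous fun q : (ℝ × ℝ) × ℝ => f1 q.1 q.2 := key.fst
  have c2 : Continuous fun q : (ℝ × ℝ) × ℝ => f2 q.1 q.2 := key.snd
  have hne : ∀ q : (ℝ × ℝ) × ℝ, 2 * (f1 q.1 q.2 ^ 2 + f2 q.1 q.2 ^ 2) ≠ 0 := fun q =>
    mul_ne_zero two_ne_zero ((hsol q.1).ne hwc (hk _).ne' q.2)
  have ca : Continuous (Function.uncurry fun (l : ℝ × ℝ) (θ : ℝ) =>
      ang ρ w (max l.1 1) (f1 l) (f2 l) θ) := by
    change Continuous fun q : (ℝ × ℝ) × ℝ => ang ρ w (max q.1.1 1) (f1 q.1) (f2 q.1) q.2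
    unfold ang
    refine Continuous.div ?_ (by fun_prop) hne
    fun_prop (disch := intro q; have := hk q.1.1; positivity)
  refine ⟨fun l => disp ρ P w (max l.1 1) (f1 l) (f2 l),
    intervalIntegral.continuous_parametric_intervalIntegral_of_continuous' ca 0 P,
    fun κ hκ => ⟨fun a => ⟨f1 (κ, a), f2 (κ, a), ?_, ?_⟩, fun φ1 φ2 hs => ?_⟩⟩
  · have := hsol (κ, a)
    rwa [max_eq_left hκ] at this
  · simp only [max_eq_left hκ]
  · set z : ℂ := (φ1 0 : ℂ) + (φ2 0 : ℂ) * Complex.I with hz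
    have e1 : ‖z‖ * Real.cos z.arg = φ1 0 := by
      rw [Complex.norm_mul_cos_arg]
      simp [hz]
    have e2 : ‖z‖ * Real.sin z.arg = φ2 0 := by
      rw [Complex.norm_mul_sin_arg]
      simp [hz]
    have hr : ‖z‖ ≠ 0 := by
      intro h
      rw [h, zero_mul] at e1 e2
      rcases hs.2 with h | h
      · exact h e1.symm
      · exact h e2.symm
    refine ⟨z.arg, ⟨(Complex.neg_pi_lt_arg z).le, Complex.arg_le_pi z⟩, ?_⟩
    have hs' := hsol (κ, z.arg)
    simp only [max_eq_left hκ] at hs' ⊢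
    have hκ0 : κ ≠ 0 := by positivity
    have hu := hs.1.uniq hwc hκ0 (hs'.1.lin hs'.1 ‖z‖ 0) (t0 := 0)
      (by simp only [h1]; linarith) (by simp only [h2]; linarith)
    unfold disp
    congr 1
    funext θ
    have hn := hs'.ne hwc hκ0 θ
    unfold ang
    rw [div_eq_div_iff (mul_ne_zero two_ne_zero (hs.ne hwc hκ0 θ)) (mul_ne_zero two_ne_zero hn),
      (hu θ).1, (hu θ).2]
    ring

end Pool.Agent.P.MP_785924_gt
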