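import Pool.Agent.P.MP_785924_gt.Defs

/-! One-dimensional objects of the proof: boundary curves, the spectral systems. -/

namespace Pool.Agent.P.MP_785924_gt

open scoped ContDiff
open Set

noncomputable section

/-- Smooth periodic function of one variable. -/
def Sm1 (P : ℝ) (w : ℝ → ℝ) : Prop := ContDiff ℝ ∞ w ∧ Function.Periodic w P

/-- `∑ a i * x i θ`. -/
def cmp (a : Fin 3 → ℝ) (x : Fin 3 → ℝ → ℝ) (θ : ℝ) : ℝ := a 0 * x 0 θ + a 1 * x 1 θ + a 2 * x 2 θ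

/-- Closed curve `x` on the sphere of radius `ρ` with speed `X = exp w`, unit tangent `e`,
normal `ν`, geodesic curvature `1 / X²`. -/
structure Curve (ρ P : ℝ) (w : ℝ → ℝ) (x ν e : Fin 3 → ℝ → ℝ) : Prop where
  hρ : 0 < ρ
  hP : 0 < P
  smw : Sm1 P w
  smx : ∀ i, Sm1 P (x i)
  smν : ∀ i, Sm1 P (ν i)
  sme : ∀ i, Sm1 P (e i)
  dx : ∀ i θ, HasDerivAt (x i) (Real.exp (w θ) * e i θ) θ
  dν : ∀ i θ, HasDerivAt (ν i) (e i θ / Real.exp (w θ)) θ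
  de : ∀ i θ, HasDerivAt (e i) (-(Real.exp (w θ) * x i θ / ρ ^ 2) - ν i θ / Real.exp (w θ)) θ
  xx : ∀ θ, x 0 θ ^ 2 + x 1 θ ^ 2 + x 2 θ ^ 2 = ρ ^ 2
  νν : ∀ θ, ν 0 θ ^ 2 + ν 1 θ ^ 2 + ν 2 θ ^ 2 = 1
  ee : ∀ θ, e 0 θ ^ 2 + e 1 θ ^ 2 + e 2 θ ^ 2 = 1
  xν : ∀ θ, x 0 θ * ν 0 θ + x 1 θ * ν 1 θ + x 2 θ * ν 2 θ = 0
  xe : ∀ θ, x 0 θ * e 0 θ + x 1 θ * e 1 θ + x 2 θ * e 2 θ = 0
  νe : ∀ θ, ν 0 θ * e 0 θ + ν 1 θ * e 1 θ + ν 2 θ * e 2 θ = 0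
  compl : ∀ θ i j, x i θ * x j θ / ρ ^ 2 + ν i θ * ν j θ + e i θ * e j θ = if i = j then 1 else 0

/-- Two-piece property: no linear function has four alternating signs in one period. -/
def TP (P : ℝ) (x : Fin 3 → ℝ → ℝ) : Prop :=
  ∀ (a : Fin 3 → ℝ) (θ1 θ2 θ3 θ4 : ℝ), θ1 < θ2 → θ2 < θ3 → θ3 < θ4 → θ4 < θ1 + P →
    0 < cmp a x θ1 → cmp a x θ2 < 0 → 0 < cmp a x θ3 → cmp a x θ4 < 0 → False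

/-- Five consecutive zeros within one period (so four arcs). -/
def Z4 (P : ℝ) (v : ℝ → ℝ) : Prop :=
  ∃ z : Fin 5 → ℝ, StrictMono z ∧ z 4 ≤ z 0 + P ∧ (∀ i, v (z i) = 0) ∧
    ∀ i : Fin 4, ∀ θ ∈ Ioo (z i.castSucc) (z i.succ), v θ ≠ 0

/-- Six consecutive arcs within one period, separated by simple zeros. -/
def Alt6 (P : ℝ) (v : ℝ → ℝ) : Prop :=
  ∃ z : Fin 7 → ℝ, StrictMono z ∧ z 6 ≤ z 0 + P ∧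
    (∀ i : Fin 6, ∀ θ ∈ Ioo (z i.castSucc) (z i.succ), v θ ≠ 0) ∧
    ∀ i : Fin 5, v (z i.succ.castSucc) = 0 ∧ deriv v (z i.succ.castSucc) ≠ 0

/-- The boundary equation of a surface with spherical curvature lines. -/
def BOde (ρ A B : ℝ) (w : ℝ → ℝ) : Prop :=
  ∀ θ, deriv (deriv w) θ = -(Real.exp (w θ) ^ 2 / ρ ^ 2) + 1 / Real.exp (w θ) ^ 2
    - A * Real.exp (w θ) - B / Real.exp (w θ)

/-- The spectral system, complex form. -/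
def Sys2 (ρ : ℝ) (w : ℝ → ℝ) (κ : ℂ) (φ1 φ2 : ℝ → ℂ) : Prop :=
  ∀ θ, HasDerivAt φ1
      (-((κ * (Real.exp (w θ) : ℂ) / ρ + 1 / (κ * (Real.exp (w θ) : ℂ))) / 2 * φ2 θ)) θ ∧
    HasDerivAt φ2 ((κ / (Real.exp (w θ) : ℂ) + (Real.exp (w θ) : ℂ) / (κ * ρ)) / 2 * φ1 θ) θ

/-- The spectral system, real form. -/
def Sys2R (ρ : ℝ) (w : ℝ → ℝ) (κ : ℝ) (φ1 φ2 : ℝ → ℝ) : Prop :=
  ∀ θ, HasDerivAt φ1 (-((κ * Real.exp (w θ) / ρ + 1 / (κ * Real.exp (w θ))) / 2 * φ2 θ)) θ ∧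
    HasDerivAt φ2 ((κ / Real.exp (w θ) + Real.exp (w θ) / (κ * ρ)) / 2 * φ1 θ) θ

/-- Scalar monodromy, complex form. -/
def Scal (ρ P : ℝ) (w : ℝ → ℝ) (κ : ℂ) : Prop :=
  ∃ σ : ℂ, ∀ φ1 φ2, Sys2 ρ w κ φ1 φ2 → ∀ θ, φ1 (θ + P) = σ * φ1 θ ∧ φ2 (θ + P) = σ * φ2 θ

/-- Scalar monodromy, real form. -/
def ScalR (ρ P : ℝ) (w : ℝ → ℝ) (κ : ℝ) : Prop :=
  ∃ σ : ℝ, ∀ φ1 φ2, Sys2R ρ w κ φ1 φ2 → ∀ θ, φ1 (θ + P) = σ * φ1 θ ∧ φ2 (θ + P) = σ * φ2 θ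

/-- Angular speed of a real solution. -/
def ang (ρ : ℝ) (w : ℝ → ℝ) (κ : ℝ) (φ1 φ2 : ℝ → ℝ) (θ : ℝ) : ℝ :=
  ((κ / Real.exp (w θ) + Real.exp (w θ) / (κ * ρ)) * φ1 θ ^ 2
    + (κ * Real.exp (w θ) / ρ + 1 / (κ * Real.exp (w θ))) * φ2 θ ^ 2) / (2 * (φ1 θ ^ 2 + φ2 θ ^ 2))

/-- Angle swept in one period. -/
def disp (ρ P : ℝ) (w : ℝ → ℝ) (κ : ℝ) (φ1 φ2 : ℝ → ℝ) : ℝ :=
  ∫ θ in (0 : ℝ)..P, ang ρ w κ φ1 φ2 θ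

/-- Non-zero real solution. -/
def Sol (ρ : ℝ) (w : ℝ → ℝ) (κ : ℝ) (φ1 φ2 : ℝ → ℝ) : Prop :=
  Sys2R ρ w κ φ1 φ2 ∧ (φ1 0 ≠ 0 ∨ φ2 0 ≠ 0)

/-- Periodic or antiperiodic pair. -/
def PM (P : ℝ) (φ1 φ2 : ℝ → ℝ) : Prop :=
  ∃ σ : ℝ, (σ = 1 ∨ σ = -1) ∧ ∀ θ, φ1 (θ + P) = σ * φ1 θ ∧ φ2 (θ + P) = σ * φ2 θ

/-- All non-zero solutions sweep at least the angle `d`. -/
def AllGE (ρ P : ℝ) (w : ℝ → ℝ) (κ d : ℝ) : Prop :=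
  ∀ φ1 φ2, Sol ρ w κ φ1 φ2 → d ≤ disp ρ P w κ φ1 φ2

/-- The closing of gaps supplied by the geometry. -/
def Oracle (ρ P : ℝ) (w1 w2 : ℝ → ℝ) : Prop :=
  ∀ κ : ℝ, 1 < κ → AllGE ρ P w1 κ (3 * Real.pi) → AllGE ρ P w2 κ (3 * Real.pi) →
    ((∃ φ1 φ2, Sol ρ w1 κ φ1 φ2 ∧ PM P φ1 φ2) ∨ ∃ φ1 φ2, Sol ρ w2 κ φ1 φ2 ∧ PM P φ1 φ2) →
    ScalR ρ P w1 κ

/-- The three-dimensional boundary system. -/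
def Sys3 (ρ : ℝ) (w : ℝ → ℝ) (μ : ℝ) (f g u : ℝ → ℝ) : Prop :=
  ∀ θ, HasDerivAt f (Real.exp (w θ) * u θ) θ ∧ HasDerivAt g (u θ / Real.exp (w θ)) θ ∧
    HasDerivAt u (-(Real.exp (w θ) * (f θ / ρ ^ 2 - μ * g θ)) - (g θ - μ * f θ) / Real.exp (w θ)) θ

/-- `μ` as a function of `κ`. -/
def muK (ρ κ : ℝ) : ℝ := -((κ ^ 2 + 1 / κ ^ 2) / (2 * ρ))

/-- First component of the symmetric square. -/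
def fS (ρ κ : ℝ) (φ1 φ2 : ℝ → ℝ) (θ : ℝ) : ℝ :=
  -(ρ * (κ * φ1 θ ^ 2 + φ2 θ ^ 2 / κ) / (κ ^ 2 - 1 / κ ^ 2))

/-- Second component of the symmetric square. -/
def gS (κ : ℝ) (φ1 φ2 : ℝ → ℝ) (θ : ℝ) : ℝ :=
  (κ * φ2 θ ^ 2 + φ1 θ ^ 2 / κ) / (κ ^ 2 - 1 / κ ^ 2)

/-- The abstract system of the asymptotic estimate. -/
def SysY (v A1 A2 : ℝ → ℝ) (l : ℂ) (y1 y2 : ℝ → ℂ) : Prop :=
  ∀ θ, HasDerivAt y1 ((v θ : ℂ) * y1 θ - (l + (A1 θ : ℂ) / l) * y2 θ) θ ∧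
    HasDerivAt y2 (-((v θ : ℂ) * y2 θ) + (l + (A2 θ : ℂ) / l) * y1 θ) θ

/-- The diagonal difference of the monodromy is proportional to `w'`. -/
def UW (ρ P : ℝ) (w : ℝ → ℝ) : Prop :=
  ∀ κ : ℝ, 1 < κ → ∀ (θ1 θ2 : ℝ) (p1 p2 q1 q2 r1 r2 s1 s2 : ℝ → ℝ),
    Sys2R ρ w κ p1 p2 → Sys2R ρ w κ q1 q2 → Sys2R ρ w κ r1 r2 → Sys2R ρ w κ s1 s2 →
    p1 θ1 = 1 → p2 θ1 = 0 → q1 θ1 = 0 → q2 θ1 = 1 →
    r1 θ2 = 1 → r2 θ2 = 0 → s1 θ2 = 0 → s2 θ2 = 1 →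
    (p1 (θ1 + P) - q2 (θ1 + P)) * deriv w θ2 = (r1 (θ2 + P) - s2 (θ2 + P)) * deriv w θ1

open Classical in
/-- Value of the coefficient vector `a` on the label `x`. -/
def lab {ι : Type} (g : Fin 5 → ι) (a : Fin 5 → ℝ) (x : ι) : ℝ := ∑ i, if g i = x then a i else 0

/-- Non-crossing conditions for the six arcs `B` on one side, `T` being the other side. -/
def Side {ι : Type} (B T : Fin 6 → ι) : Prop :=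
  (∀ i j, B i = B j → i.val % 2 = j.val % 2) ∧
  ∀ i j k l : Fin 6, i < j → j < k → (l < i ∨ k < l) → B i = B k →
    (B j = B l → B i = B j) ∧ ((∃ m, B j = T m) → (∃ m, B l = T m) → B i = B j ∨ B i = B l)

/-- Connected in `U` up to a period. -/
def Rel (P : ℝ) (U : Set (ℝ × ℝ)) (p q : ℝ × ℝ) : Prop :=
  ∃ n : ℤ, JoinedIn U p (q.1, q.2 + n * P)

end

end Pool.Agent.P.MP_785924_gt
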