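import Pool.Agent.P.MP_785924_gt.A.IfaceA

/-! Step DISC of the free boundary annulus project. -/

namespace Pool.Agent.P.MP_785924_gt

open scoped ContDiff
open Set Filter Topology

namespace Disc

open Complex

lemma arg_pos {x : ℝ} (h0 : 0 < x) (h1 : x < 2 * Real.pi) :
    arg (1 - exp (x * I)) = (x - Real.pi) / 2 := by
  have e : 1 - exp (x * I) = ((2 * Real.sin (x / 2) : ℝ) : ℂ) *
      (cos ((x - Real.pi) / 2 : ℝ) + sin ((x - Real.pi) / 2 : ℝ) * I) := by
    obtain ⟨y, rfl⟩ : ∃ y, x = 2 * y := ⟨x / 2, by ring⟩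
    rw [show (2 * y - Real.pi) / 2 = y - Real.pi / 2 by ring, show 2 * y / 2 = y by ring,
      ← ofReal_cos, ← ofReal_sin, Real.cos_sub_pi_div_two, Real.sin_sub_pi_div_two, exp_mul_I]
    push_cast
    rw [cos_two_mul, sin_two_mul]
    linear_combination (-2 : ℂ) * sin_sq_add_cos_sq (y : ℂ)
  rw [e]
  exact arg_mul_cos_add_sin_mul_I
    (mul_pos two_pos (Real.sin_pos_of_pos_of_lt_pi (by linarith) (by linarith)))
    ⟨by linarith, by linarith⟩

lemma arg_neg {x : ℝ} (h0 : x < 0) (h1 : -(2 * Real.pi) < x) :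
    arg (1 - exp (x * I)) = (x + Real.pi) / 2 := by
  have := arg_pos (x := x + 2 * Real.pi) (by linarith) (by linarith)
  rw [show ((x + 2 * Real.pi : ℝ) : ℂ) * I = x * I + 2 * Real.pi * I by push_cast; ring,
    exp_add, exp_two_pi_mul_I, mul_one] at this
  rw [this]
  ring

lemma edge {z ψ : ℝ → ℂ} {r β x y : ℝ} {σ : ℂ} (hr : 0 < r) (hσ : σ ≠ 0) (hz : Continuous z)
    (hψ : Continuous ψ) (h1 : ∀ s, ‖z s‖ ≤ r)
    (h2 : ∀ s, exp (ψ s) = σ * (z s - r * exp (β * I))) (e0 : z 0 = r * exp (x * I))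
    (e1 : z 1 = r * exp (y * I)) : (ψ 1).im - (ψ 0).im =
      arg (1 - exp ((y - β : ℝ) * I)) - arg (1 - exp ((x - β : ℝ) * I)) := by
  have r0 : (r : ℂ) ≠ 0 := ofReal_ne_zero.2 hr.ne'
  have B0 : r * exp (β * I) ≠ 0 := mul_ne_zero r0 (exp_ne_zero _)
  have ne : ∀ s, 1 - z s / (r * exp (β * I)) ≠ 0 := fun s e => by
    have := h2 s
    rw [sub_eq_zero, eq_div_iff B0, one_mul] at e
    rw [← e, sub_self, mul_zero] at this
    exact exp_ne_zero _ this
  have sl : ∀ s, 1 - z s / (r * exp (β * I)) ∈ slitPlane := fun s => by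
    have a : ‖z s / (r * exp (β * I))‖ ≤ 1 := by
      rw [norm_div, norm_mul, norm_exp_ofReal_mul_I, mul_one, norm_real, Real.norm_of_nonneg hr.le]
      exact div_le_one_of_le₀ (h1 s) hr.le
    have b := ne s
    generalize z s / (r * exp (β * I)) = w at a b
    by_contra c
    simp only [mem_slitPlane_iff, sub_re, one_re, sub_im, one_im, not_or, not_lt, not_not] at c
    have := (le_abs_self _).trans ((abs_re_le_norm w).trans a)
    exact b (Complex.ext (by simp only [sub_re, one_re, zero_re]; linarith [c.1]) c.2)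
  have k := isCoveringMap_exp.const_of_comp (g := fun s => ψ s - log (1 - z s / (r * exp (β * I))))
    (hψ.sub (Continuous.clog (by fun_prop) sl)) (fun s s' => Subtype.ext (by
      have : ∀ s, exp (ψ s - log (1 - z s / (r * exp (β * I)))) = -σ * (r * exp (β * I)) :=
        fun s => by
          rw [exp_sub, exp_log (ne s), h2, div_eq_iff (ne s)]
          field_simp
          ring
      exact (this s).trans (this s').symm)) 1 0
  have q : ∀ t : ℝ, r * exp (t * I) / (r * exp (β * I)) = exp ((t - β : ℝ) * I) := fun t => by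
    rw [mul_div_mul_left _ _ r0, ← exp_sub]
    push_cast
    ring_nf
  have := congrArg im k
  simp only [sub_im, log_im, e0, e1, q] at this
  linarith

end Disc

theorem p_DISC :
    S_DISC := by
  intro γ1 γ2 r a b c d hr c1 c2 n1 n2 ab bc cd da a0 a1 b0 b1
  by_contra h
  push Not at h
  have k1 : Continuous fun s => γ1 (projIcc (0 : ℝ) 1 zero_le_one s) :=
    c1.domRestrict.comp continuous_projIcc
  have k2 : Continuous fun s => γ2 (projIcc (0 : ℝ) 1 zero_le_one s) :=
    c2.domRestrict.comp continuous_projIcc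
  obtain ⟨φ, hφ, e⟩ := Complex.exists_continuousOn_eqOn_exp_comp (U := (univ : Set (ℝ × ℝ)))
    (g := fun p => γ1 (projIcc (0 : ℝ) 1 zero_le_one p.1) - γ2 (projIcc (0 : ℝ) 1 zero_le_one p.2))
    (by
      have := (convex_univ (𝕜 := ℝ) (E := ℝ × ℝ)).contractibleSpace univ_nonempty
      exact SimplyConnectedSpace.ofContractible _) isOpen_univ
    ((k1.comp continuous_fst).sub (k2.comp continuous_snd)).continuousOn
    (by
      rintro ⟨p, -, e⟩
      exact h _ (projIcc _ _ _ _).2 _ (projIcc _ _ _ _).2 (sub_eq_zero.1 e))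
  rw [continuousOn_univ] at hφ
  have e' : ∀ s t, Complex.exp (φ (s, t)) = γ1 (projIcc (0 : ℝ) 1 zero_le_one s) -
      γ2 (projIcc (0 : ℝ) 1 zero_le_one t) := fun s t => e (mem_univ (s, t))
  have E1 := Disc.edge (ψ := fun s => φ (s, 0)) (β := b) (x := a) (y := c) hr one_ne_zero k1
    (by fun_prop) (fun s => n1 _ (projIcc _ _ _ _).2) (fun s => by simp [e', b0])
    (by simpa using a0) (by simpa using a1)
  have E2 := Disc.edge (ψ := fun s => φ (s, 1)) (β := d) (x := a) (y := c) hr one_ne_zero k1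
    (by fun_prop) (fun s => n1 _ (projIcc _ _ _ _).2) (fun s => by simp [e', b1])
    (by simpa using a0) (by simpa using a1)
  have E3 := Disc.edge (ψ := fun s => φ (0, s)) (β := a) (x := b) (y := d) hr
    (neg_ne_zero.2 one_ne_zero) k2
    (by fun_prop) (fun s => n2 _ (projIcc _ _ _ _).2) (fun s => by simp [e', a0])
    (by simpa using b0) (by simpa using b1)
  have E4 := Disc.edge (ψ := fun s => φ (1, s)) (β := c) (x := b) (y := d) hr
    (neg_ne_zero.2 one_ne_zero) k2
    (by fun_prop) (fun s => n2 _ (projIcc _ _ _ _).2) (fun s => by simp [e', a1])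
    (by simpa using b0) (by simpa using b1)
  rw [Disc.arg_pos (by linarith) (by linarith), Disc.arg_neg (by linarith) (by linarith)] at E1 E4
  rw [Disc.arg_neg (by linarith) (by linarith), Disc.arg_neg (by linarith) (by linarith)] at E2
  rw [Disc.arg_pos (by linarith) (by linarith), Disc.arg_pos (by linarith) (by linarith)] at E3
  linarith [Real.pi_pos]

end Pool.Agent.P.MP_785924_gt
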