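import Pool.Agent.P.MP_785924_gt.A.IfaceA
import Pool.Agent.P.MP_785924_gt.A.Tb

/-! Step FV4 of the free boundary annulus project. -/

namespace Pool.Agent.P.MP_785924_gt

open scoped ContDiff
open Set Filter Topology

namespace Fv4

variable {v v' : ℝ → ℝ}

lemma loc {z d : ℝ} (h : HasDerivAt v d z) (hz : v z = 0) (hd : d ≠ 0) :
    (∀ᶠ θ in 𝓝[>] z, 0 < d * v θ) ∧ ∀ᶠ θ in 𝓝[<] z, d * v θ < 0 := by
  have key : ∀ᶠ θ in 𝓝[≠] z, 0 < d * slope v z θ :=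
    ((hasDerivAt_iff_tendsto_slope.1 h).const_mul d).eventually_const_lt (mul_self_pos.2 hd)
  simp only [slope_def_field, hz, sub_zero, ← mul_div_assoc] at key
  constructor
  · filter_upwards [key.filter_mono (nhdsGT_le_nhdsNE z), self_mem_nhdsWithin] with θ h1 h2
    exact (div_pos_iff_of_pos_right (sub_pos.2 h2)).1 h1
  · filter_upwards [key.filter_mono (nhdsLT_le_nhdsNE z), self_mem_nhdsWithin] with θ h1 h2
    by_contra hn
    exact h1.not_ge (div_nonpos_of_nonneg_of_nonpos (not_lt.1 hn) (sub_neg.2 h2).le)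

lemma next (h : ∀ θ, HasDerivAt v (v' θ) θ) (hs : ∀ θ, v θ = 0 → v' θ ≠ 0) {z y : ℝ}
    (hz : v z = 0) (hy : v y = 0) (hzy : z < y) :
    ∃ z', z < z' ∧ z' ≤ y ∧ v z' = 0 ∧ (∀ θ ∈ Ioo z z', 0 < v' z * v θ) ∧ v' z * v' z' < 0 := by
  have hc : Continuous v := continuous_iff_continuousAt.2 fun θ => (h θ).continuousAt
  obtain ⟨η, h1, h2⟩ := mem_nhdsGT_iff_exists_Ioo_subset.1 (loc (h z) hz (hs z hz)).1
  have hyS : y ∈ {θ | η ≤ θ ∧ v θ = 0} := ⟨not_lt.1 fun a => by simpa [hy] using h2 ⟨hzy, a⟩, hy⟩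
  have hb : BddBelow {θ | η ≤ θ ∧ v θ = 0} := ⟨η, fun θ a => a.1⟩
  obtain ⟨m1, m2⟩ := ((isClosed_le continuous_const continuous_id).inter
    (isClosed_eq hc continuous_const)).csInf_mem ⟨y, hyS⟩ hb
  set z' := sInf {θ | η ≤ θ ∧ v θ = 0}
  have hlt : z < z' := lt_of_lt_of_le h1 m1
  have pos : ∀ θ ∈ Ioo z z', 0 < v' z * v θ := fun θ hθ => by
    by_contra hn
    obtain ⟨t, t1, t2⟩ := exists_between (show z < η from h1)
    obtain ⟨s, s1, s2⟩ := isPreconnected_Ioo.intermediate_value hθ ⟨t1, t2.trans_le m1⟩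
      (f := fun θ => v' z * v θ) (by fun_prop) ⟨not_lt.1 hn, (h2 ⟨t1, t2⟩).le⟩
    have s3 : v s = 0 := (mul_eq_zero.1 s2).resolve_left (hs z hz)
    exact s1.2.not_ge (csInf_le hb ⟨not_lt.1 fun a => by simpa [s3] using h2 ⟨s1.1, a⟩, s3⟩)
  refine ⟨z', hlt, csInf_le hb hyS, m2, pos, ?_⟩
  obtain ⟨θ, a1, a2⟩ := ((loc (h z') m2 (hs z' m2)).2.and (Ioo_mem_nhdsLT hlt)).exists
  have := pos θ a2
  by_contra hn
  nlinarith [mul_nonneg (not_lt.1 hn) (mul_self_nonneg (v θ)), mul_neg_of_pos_of_neg this a1]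

end Fv4

open Fv4 in
theorem p_FV4 (hTWOARC : S_TWOARC) :
    S_FV4 := by
  intro ρ P w x ν e c hC hT hc hs
  have hw := hC.smw
  have hP := hC.hP
  obtain ⟨z0, -, h0⟩ := exists_deriv_eq_zero hP hw.cont.continuousOn (by simpa using (hw.2 0).symm)
  have hy : deriv w (z0 + P) = 0 := (hw.deriv.2 z0).trans h0
  have hy' : deriv (deriv w) (z0 + P) = deriv (deriv w) z0 := hw.deriv.deriv.2 z0
  have nx := fun z hz => next hw.deriv.hd hs (z := z) hz hy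
  obtain ⟨z1, a1, b1, h1, p1, s1⟩ := nx z0 h0 (by linarith)
  have c1 : z1 < z0 + P := b1.lt_of_ne fun a => by
    rw [a, hy'] at s1
    exact s1.not_ge (mul_self_nonneg _)
  obtain ⟨z2, a2, b2, h2, p2, s2⟩ := nx z1 h1 c1
  have c2 : z2 < z0 + P := b2.lt_of_ne fun a =>
    hTWOARC ρ P w x ν e c z0 z1 _ hC hT hc a1 c1 p1 fun θ hθ => by
      have := p2 θ (a ▸ hθ)
      by_contra hn
      nlinarith [mul_nonneg (not_lt.1 hn) (mul_self_nonneg (deriv (deriv w) z1)),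
        mul_neg_of_pos_of_neg this s1]
  obtain ⟨z3, a3, b3, h3, p3, s3⟩ := nx z2 h2 c2
  have c3 : z3 < z0 + P := b3.lt_of_ne fun a => by
    rw [a, hy'] at s3
    nlinarith [mul_neg_of_pos_of_neg (mul_pos_of_neg_of_neg s1 s2) s3,
      mul_self_nonneg (deriv (deriv w) z0 * deriv (deriv w) z1 * deriv (deriv w) z2)]
  obtain ⟨z4, a4, b4, h4, p4, -⟩ := nx z3 h3 c3
  refine ⟨![z0, z1, z2, z3, z4], Fin.strictMono_iff_lt_succ.2 fun i => ?_, b4, fun i => ?_,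
    fun i θ hθ => ?_⟩
  · fin_cases i <;> assumption
  · fin_cases i <;> assumption
  · fin_cases i
    exacts [right_ne_zero_of_mul (p1 θ hθ).ne', right_ne_zero_of_mul (p2 θ hθ).ne',
      right_ne_zero_of_mul (p3 θ hθ).ne', right_ne_zero_of_mul (p4 θ hθ).ne']

end Pool.Agent.P.MP_785924_gt
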