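import Pool.Agent.P.MP_785924_gt.A.IfaceA
import Pool.Agent.P.MP_785924_gt.A.Tb

/-! Step FZ of the free boundary annulus project. -/

namespace Pool.Agent.P.MP_785924_gt

open scoped ContDiff
open Set Filter Topology

namespace Fz

/-- the defining property of the entire function attached to a base point -/
def VP (ρ P : ℝ) (w : ℝ → ℝ) (θ0 : ℝ) (V : ℂ → ℂ) : Prop :=
  ∀ κ : ℂ, κ ≠ 0 → κ ^ 4 ≠ 1 → ∀ p1 p2 q1 q2 : ℝ → ℂ, Sys2 ρ w κ p1 p2 → Sys2 ρ w κ q1 q2 →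
    p1 θ0 = 1 → p2 θ0 = 0 → q1 θ0 = 0 → q2 θ0 = 1 →
    V (κ ^ 2 + 1 / κ ^ 2) = -((κ ^ 2 - 1 / κ ^ 2) * (p1 (θ0 + P) - q2 (θ0 + P)))

lemma vzero (hE : S_ODEEX) {ρ P θ0 : ℝ} {w : ℝ → ℝ} {V : ℂ → ℂ} (hw : Continuous w)
    (h : VP ρ P w θ0 V) {κ : ℂ} (h0 : κ ≠ 0) (h4 : κ ^ 4 ≠ 1) (hs : Scal ρ P w κ) :
    V (κ ^ 2 + 1 / κ ^ 2) = 0 := by
  obtain ⟨σ, hσ⟩ := hs
  obtain ⟨p1, p2, hp, a1, a2⟩ := Sys2.ex hE hw h0 ρ θ0 1 0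
  obtain ⟨q1, q2, hq, b1, b2⟩ := Sys2.ex hE hw h0 ρ θ0 0 1
  rw [h κ h0 h4 _ _ _ _ hp hq a1 a2 b1 b2, (hσ _ _ hp θ0).1, (hσ _ _ hq θ0).2, a1, b2, sub_self,
    mul_zero, neg_zero]

lemma root (z : ℂ) : ∃ κ : ℂ, 1 ≤ ‖κ‖ ∧ κ ^ 2 + 1 / κ ^ 2 = z := by
  have key : ∀ a b : ℂ, a * b = 1 → a + b = z → 1 ≤ ‖a‖ →
      ∃ κ : ℂ, 1 ≤ ‖κ‖ ∧ κ ^ 2 + 1 / κ ^ 2 = z := fun a b h1 h2 h3 => by
    obtain ⟨κ, rfl⟩ := IsAlgClosed.exists_pow_nat_eq a two_pos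
    refine ⟨κ, ?_, by rw [one_div, ← eq_inv_of_mul_eq_one_right h1, h2]⟩
    rw [norm_pow] at h3
    exact (one_le_sq_iff₀ (norm_nonneg _)).1 h3
  obtain ⟨s, hs⟩ := IsAlgClosed.exists_pow_nat_eq (z ^ 2 - 4) two_pos
  have e : (z + s) / 2 * ((z - s) / 2) = 1 := by linear_combination (-1 / 4 : ℂ) * hs
  by_cases h : 1 ≤ ‖(z + s) / 2‖
  · exact key _ _ e (by ring) h
  · refine key _ _ ((mul_comm _ _).trans e) (by ring) ?_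
    have := congrArg norm e
    rw [norm_mul, norm_one] at this
    by_contra c
    nlinarith [norm_nonneg ((z + s) / 2), norm_nonneg ((z - s) / 2)]

lemma size {κ z : ℂ} (h1 : 1 ≤ ‖κ‖) (h : κ ^ 2 + 1 / κ ^ 2 = z) : ‖z‖ ≤ ‖κ‖ ^ 2 + 1 ∧
    ‖κ ^ 2 - 1 / κ ^ 2‖ ≤ 2 * ‖κ‖ ^ 2 ∧ |κ.im| ≤ √((‖z‖ - z.re) / 2) + 1 := by
  have a0 : 1 ≤ ‖κ‖ ^ 2 := one_le_pow₀ h1
  have a : ‖1 / κ ^ 2‖ ≤ 1 := by
    rw [norm_div, norm_one, norm_pow]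
    exact div_le_one_of_le₀ a0 (by positivity)
  have b1 := norm_add_le (κ ^ 2) (1 / κ ^ 2)
  have b2 := norm_sub_le (κ ^ 2) (1 / κ ^ 2)
  have b3 := norm_sub_le z (1 / κ ^ 2)
  have b4 := congrArg Complex.re h
  have b5 := (le_abs_self _).trans (Complex.abs_re_le_norm (1 / κ ^ 2))
  have b6 := Complex.re_le_norm z
  rw [h, norm_pow] at b1
  rw [norm_pow] at b2
  rw [sub_eq_of_eq_add h.symm, norm_pow] at b3
  rw [Complex.add_re, sq κ, Complex.mul_re, ← sq κ] at b4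
  refine ⟨by linarith, by linarith, abs_le_of_sq_le_sq ?_ (by positivity)⟩
  have c1 : ‖κ‖ ^ 2 = κ.re * κ.re + κ.im * κ.im := by rw [Complex.sq_norm, Complex.normSq_apply]
  have c2 := Real.sq_sqrt (x := (‖z‖ - z.re) / 2) (by linarith)
  nlinarith [Real.sqrt_nonneg ((‖z‖ - z.re) / 2)]

lemma ne_one {κ : ℂ} (h : 1 < ‖κ‖) : κ ^ 4 ≠ 1 := fun e => by
  have := congrArg norm e
  rw [norm_pow, norm_one] at this
  exact (one_lt_pow₀ h four_ne_zero).ne' this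

lemma bound (hE : S_ODEEX) (hW : S_WKBG) {ρ P θ1 θ2 : ℝ} {w : ℝ → ℝ} {V1 V2 : ℂ → ℂ} (hρ : 0 < ρ)
    (hP : 0 < P) (hw : Sm1 P w) (h1 : VP ρ P w θ1 V1) (h2 : VP ρ P w θ2 V2) :
    ∃ C R0 : ℝ, ∀ z : ℂ, R0 ≤ ‖z‖ → ‖V1 z * (deriv w θ2 : ℝ) - V2 z * (deriv w θ1 : ℝ)‖ ≤
      C * Real.exp (Real.pi / (2 * Real.pi * √ρ / P) * √((‖z‖ - z.re) / 2)) := by
  obtain ⟨d0, hd⟩ := hW ρ P w hρ hP hw
  obtain ⟨C1, L1, l1, k1⟩ := hd θ1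
  obtain ⟨C2, L2, l2, k2⟩ := hd θ2
  refine ⟨2 * (C1 * |deriv w θ2| + C2 * |deriv w θ1|) * Real.exp (P / (2 * √ρ)),
    (L1 + L2) ^ 2 + 3, fun z hz => ?_⟩
  obtain ⟨κ, n1, e⟩ := root z
  obtain ⟨s1, s2, s3⟩ := size n1 e
  have r0 : 0 < √ρ := Real.sqrt_pos.2 hρ
  have r1 : ((√ρ : ℝ) : ℂ) ≠ 0 := Complex.ofReal_ne_zero.2 r0.ne'
  have n0 : 0 < ‖κ‖ := by linarith
  have κ0 : κ ≠ 0 := norm_pos_iff.1 n0
  have nL : L1 + L2 ≤ ‖κ‖ := (abs_le_of_sq_le_sq' (by linarith) n0.le).2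
  have κ4 : κ ^ 4 ≠ 1 := ne_one (by nlinarith [sq_nonneg (L1 + L2)])
  have el : κ = 2 * (√ρ : ℝ) * (κ / (2 * (√ρ : ℝ))) := by field_simp
  obtain ⟨p1, p2, hp, a1, a2⟩ := Sys2.ex hE hw.cont κ0 ρ θ1 1 0
  obtain ⟨q1, q2, hq, a3, a4⟩ := Sys2.ex hE hw.cont κ0 ρ θ1 0 1
  obtain ⟨u1, u2, hu, b1, b2⟩ := Sys2.ex hE hw.cont κ0 ρ θ2 1 0
  obtain ⟨v1, v2, hv, b3, b4⟩ := Sys2.ex hE hw.cont κ0 ρ θ2 0 1
  have g1 := k1 κ _ el (by linarith) _ _ _ _ hp hq a1 a2 a3 a4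
  have g2 := k2 κ _ el (by linarith) _ _ _ _ hu hv b1 b2 b3 b4
  have f1 := h1 κ κ0 κ4 _ _ _ _ hp hq a1 a2 a3 a4
  have f2 := h2 κ κ0 κ4 _ _ _ _ hu hv b1 b2 b3 b4
  have im : |(κ / (2 * (√ρ : ℝ))).im| * P = P / (2 * √ρ) * |κ.im| := by
    rw [show (2 * (√ρ : ℝ) : ℂ) = ((2 * √ρ : ℝ) : ℂ) by push_cast; rfl, Complex.div_ofReal_im,
      abs_div, abs_of_pos (a := 2 * √ρ) (by positivity)]
    ring
  have c : Real.pi / (2 * Real.pi * √ρ / P) = P / (2 * √ρ) := by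
    have := Real.pi_pos
    field_simp
  have ex : Real.exp (P / (2 * √ρ) * |κ.im|) ≤
      Real.exp (P / (2 * √ρ)) * Real.exp (P / (2 * √ρ) * √((‖z‖ - z.re) / 2)) := by
    rw [← Real.exp_add, Real.exp_le_exp, add_comm, ← mul_add_one]
    exact mul_le_mul_of_nonneg_left s3 (by positivity)
  rw [im] at g1 g2
  rw [e] at f1 f2
  rw [f1, f2, c]
  generalize Complex.sin (κ / (2 * (√ρ : ℝ)) * P + d0 / (κ / (2 * (√ρ : ℝ)))) = S at g1 g2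
  generalize κ / (2 * (√ρ : ℝ)) = l at g1 g2
  have p1' : 0 ≤ C1 / ‖κ‖ ^ 2 :=
    nonneg_of_mul_nonneg_left ((norm_nonneg _).trans g1) (Real.exp_pos _)
  have p2' : 0 ≤ C2 / ‖κ‖ ^ 2 :=
    nonneg_of_mul_nonneg_left ((norm_nonneg _).trans g2) (Real.exp_pos _)
  have G1 := g1.trans (mul_le_mul_of_nonneg_left ex p1')
  have G2 := g2.trans (mul_le_mul_of_nonneg_left ex p2')
  rw [show -((κ ^ 2 - 1 / κ ^ 2) * (p1 (θ1 + P) - q2 (θ1 + P))) * (deriv w θ2 : ℝ) -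
      -((κ ^ 2 - 1 / κ ^ 2) * (u1 (θ2 + P) - v2 (θ2 + P))) * (deriv w θ1 : ℝ) =
      (κ ^ 2 - 1 / κ ^ 2) * ((u1 (θ2 + P) - v2 (θ2 + P) + S * (deriv w θ2 : ℝ) / l) *
        (deriv w θ1 : ℝ) - (p1 (θ1 + P) - q2 (θ1 + P) + S * (deriv w θ1 : ℝ) / l) *
        (deriv w θ2 : ℝ)) by ring, norm_mul]
  refine (mul_le_mul s2 (norm_sub_le _ _) (norm_nonneg _) (by positivity)).trans ?_
  rw [norm_mul, norm_mul, Complex.norm_real, Complex.norm_real, Real.norm_eq_abs, Real.norm_eq_abs]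
  refine (mul_le_mul_of_nonneg_left (add_le_add (mul_le_mul_of_nonneg_right G2 (abs_nonneg _))
    (mul_le_mul_of_nonneg_right G1 (abs_nonneg _))) (by positivity)).trans (le_of_eq ?_)
  field_simp
  ring

lemma mono {x y : ℝ} (hx : 1 ≤ x) (h : x < y) : x ^ 2 + 1 / x ^ 2 < y ^ 2 + 1 / y ^ 2 := by
  have a : 1 ≤ x ^ 2 := one_le_pow₀ hx
  have b : x ^ 2 < y ^ 2 := pow_lt_pow_left₀ h (by linarith) two_ne_zero
  generalize x ^ 2 = s at a b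
  generalize y ^ 2 = t at b
  have s0 : 0 < s := by linarith
  have t0 : 0 < t := by linarith
  rw [add_div' _ _ _ s0.ne', add_div' _ _ _ t0.ne', div_lt_div_iff₀ s0 t0]
  nlinarith [mul_pos (sub_pos.2 b) (show 0 < s * t - 1 by nlinarith)]

end Fz

open Fz in
theorem p_FZ (hODEEX : S_ODEEX) (hVF : S_VF) (hWKBG : S_WKBG) (hJEN : S_JEN) :
    S_FZ := by
  intro ρ P C w κ κ0 hρ hP hw h4 hs hκ k hk θ1 θ2 p1 p2 q1 q2 r1 r2 s1 s2 hp hq hr hs' a1 a2 a3 a4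
    b1 b2 b3 b4
  obtain ⟨V1, d1, x1, y1, h1⟩ := hVF ρ P w θ1 hρ hw
  obtain ⟨V2, d2, x2, y2, h2⟩ := hVF ρ P w θ2 hρ hw
  obtain ⟨C', R0, hb⟩ := bound hODEEX hWKBG hρ hP hw h1 h2
  have r0 : 0 < √ρ := Real.sqrt_pos.2 hρ
  have one : ∀ t : ℝ, 1 < t → (t : ℂ) ≠ 0 ∧ (t : ℂ) ^ 4 ≠ 1 := fun t ht =>
    ⟨Complex.ofReal_ne_zero.2 (by linarith), ne_one (by
      rwa [Complex.norm_real, Real.norm_of_nonneg (by linarith)])⟩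
  have z0 : κ0 ≠ 0 := fun e => by simp [e] at h4
  have z4 : κ0 ^ 4 ≠ 1 := by rw [h4]; norm_num
  have z1 : κ0 ^ 2 + 1 / κ0 ^ 2 = 0 := by
    field_simp
    linear_combination h4
  have key := hJEN (fun z => V1 z * (deriv w θ2 : ℝ) - V2 z * (deriv w θ1 : ℝ))
    (2 * Real.pi * √ρ / P) (max C' (C + 1)) R0 (fun j => κ j ^ 2 + 1 / κ j ^ 2) (by fun_prop)
    (by have := Real.pi_pos; positivity)
    (fun z hz => (hb z hz).trans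
      (mul_le_mul_of_nonneg_right (le_max_left _ _) (Real.exp_pos _).le))
    (by simp [z1 ▸ vzero hODEEX hw.cont h1 z0 z4 hs, z1 ▸ vzero hODEEX hw.cont h2 z0 z4 hs])
    (by simp [x1, x2]) (by simp [y1, y2])
    (fun j hj => by
      obtain ⟨c1, c2, c3, c4⟩ := hκ j hj
      have c5 := c4.toC hODEEX hw.cont (by linarith)
      have c6 : 1 / κ j ^ 2 ≤ 1 := div_le_one_of_le₀ (one_le_pow₀ c1.le) (by positivity)
      refine ⟨by have := mono le_rfl c1; norm_num at this ⊢; exact this, mono c1.le c2,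
        by linarith [le_max_right C' (C + 1)], ?_⟩
      push_cast
      rw [vzero hODEEX hw.cont h1 (one _ c1).1 (one _ c1).2 c5,
        vzero hODEEX hw.cont h2 (one _ c1).1 (one _ c1).2 c5]
      simp)
    ((k : ℂ) ^ 2 + 1 / (k : ℂ) ^ 2)
  obtain ⟨k0, k4⟩ := one k hk
  have f1 := h1 k k0 k4 _ _ _ _ hp.toC hq.toC (by simp [a1]) (by simp [a2]) (by simp [a3])
    (by simp [a4])
  have f2 := h2 k k0 k4 _ _ _ _ hr.toC hs'.toC (by simp [b1]) (by simp [b2]) (by simp [b3])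
    (by simp [b4])
  have ne : (k : ℂ) ^ 2 - 1 / (k : ℂ) ^ 2 ≠ 0 := fun e => k4 (by
    field_simp at e
    linear_combination e)
  simp only [f1, f2] at key
  have : ((p1 (θ1 + P) : ℂ) - q2 (θ1 + P)) * (deriv w θ2 : ℝ) =
      ((r1 (θ2 + P) : ℂ) - s2 (θ2 + P)) * (deriv w θ1 : ℝ) :=
    mul_left_cancel₀ ne (by linear_combination -key)
  exact_mod_cast this

end Pool.Agent.P.MP_785924_gt
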