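import Pool.Agent.P.MP_785924_gt.A.IfaceA
import Pool.Agent.P.MP_785924_gt.A.Tb

/-! Step HALF of the free boundary annulus project. -/

namespace Pool.Agent.P.MP_785924_gt

open scoped ContDiff
open Set Filter Topology

namespace Half

lemma refl {ρ P A B : ℝ} {w : ℝ → ℝ} (hρ : 0 < ρ) (hw : Sm1 P w) (hB : BOde ρ A B w) {z : ℝ}
    (hz : deriv w z = 0) (θ : ℝ) : w (2 * z - θ) = w θ := by
  have d1 : Differentiable ℝ w := hw.1.differentiable (by simp)
  have hw' : ContDiff ℝ ∞ (deriv w) := (contDiff_infty_iff_deriv.1 hw.1).2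
  have d2 : Differentiable ℝ (deriv w) := hw'.differentiable (by simp)
  have c1 : Continuous w := d1.continuous
  have c2 : Continuous (deriv w) := d2.continuous
  have hr : ∀ t : ℝ, HasDerivAt (fun t => 2 * z - t) (-1) t := fun t =>
    (hasDerivAt_id t).const_sub (2 * z)
  have key := uq2 (𝕜 := ℝ) (t0 := z)
    (y1 := fun t => Real.exp (w t) - Real.exp (w (2 * z - t)))
    (y2 := fun t => deriv w t + deriv w (2 * z - t))
    (a11 := fun t => -deriv w (2 * z - t)) (a12 := fun t => Real.exp (w t))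
    (a21 := fun t => -((Real.exp (w t) + Real.exp (w (2 * z - t))) / ρ ^ 2) -
      (Real.exp (w t) + Real.exp (w (2 * z - t))) *
        (Real.exp (-w t) ^ 2 * Real.exp (-w (2 * z - t)) ^ 2) - A +
      B * (Real.exp (-w t) * Real.exp (-w (2 * z - t))))
    (a22 := fun _ => 0) (by fun_prop) (by fun_prop) (by fun_prop) (by fun_prop)
    (fun t => ?_) (fun t => ?_) (by simp [two_mul]) (by simp [two_mul, hz]) θ
  · exact (Real.exp_injective (sub_eq_zero.1 key.1)).symm
  · have h1 := (d1 t).hasDerivAt.exp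
    have h2 := (((d1 (2 * z - t)).hasDerivAt).comp t (hr t)).exp
    exact (h1.fun_sub h2).congr_deriv (by simp only [Function.comp]; ring)
  · have h1 := (d2 t).hasDerivAt
    have h2 := ((d2 (2 * z - t)).hasDerivAt).comp t (hr t)
    refine (h1.fun_add h2).congr_deriv ?_
    rw [hB, hB, Real.exp_neg, Real.exp_neg]
    have e1 := (Real.exp_pos (w t)).ne'
    have e2 := (Real.exp_pos (w (2 * z - t))).ne'
    field_simp
    ring

end Half

theorem p_HALF :
    S_HALF := by
  rintro ρ P A B w hρ hP hw hB ⟨z, hm, hP', hz, -⟩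
  have per : ∀ i j, z i < z j → 4 * (z j - z i) ≤ P →
      ∃ Q : ℝ, 0 < Q ∧ 2 * Q ≤ P ∧ Function.Periodic w Q := fun i j h1 h2 =>
    ⟨2 * (z j - z i), by linarith, by linarith, fun θ => by
      rw [← Half.refl hρ hw hB (hz i) θ, ← Half.refl hρ hw hB (hz j) (2 * z i - θ)]
      congr 1
      ring⟩
  have h01 : z 0 < z 1 := hm (by decide)
  have h12 : z 1 < z 2 := hm (by decide)
  have h23 : z 2 < z 3 := hm (by decide)
  have h34 : z 3 < z 4 := hm (by decide)
  by_cases a : 4 * (z 1 - z 0) ≤ P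
  · exact per 0 1 h01 a
  by_cases b : 4 * (z 2 - z 1) ≤ P
  · exact per 1 2 h12 b
  by_cases c : 4 * (z 3 - z 2) ≤ P
  · exact per 2 3 h23 c
  exact per 3 4 h34 (by linarith)

end Pool.Agent.P.MP_785924_gt
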