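import Pool.Agent.P.MP_785924_gt.A.DefsA

/-! Statements of the one-dimensional steps. -/

namespace Pool.Agent.P.MP_785924_gt

open scoped ContDiff
open Set Filter Topology

-- deps:
def S_ODEEX : Prop :=
  ∀ (E : Type) [NormedAddCommGroup E] [NormedSpace ℝ E] [CompleteSpace E] (A : ℝ → E →L[ℝ] E),
    Continuous A → ∀ (t0 : ℝ) (y0 : E), ∃ y : ℝ → E, y t0 = y0 ∧ ∀ t, HasDerivAt y (A t (y t)) t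

-- deps:
def S_ODECONT : Prop :=
  ∀ (E Λ : Type) [NormedAddCommGroup E] [NormedSpace ℝ E] [TopologicalSpace Λ]
    (A : Λ × ℝ → E →L[ℝ] E) (y : Λ → ℝ → E) (t0 : ℝ), Continuous A →
    (∀ l t, HasDerivAt (y l) (A (l, t) (y l t)) t) → Continuous (fun l => y l t0) →
    Continuous (fun q : Λ × ℝ => y q.1 q.2)

-- deps: ODEEX ODECONT
def S_ODEHOL : Prop :=
  ∀ (E : Type) [NormedAddCommGroup E] [NormedSpace ℂ E] [CompleteSpace E]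
    (A0 A1 : ℝ → E →L[ℂ] E) (y : ℂ → ℝ → E) (t0 : ℝ) (y0 : E), Continuous A0 → Continuous A1 →
    (∀ n, y n t0 = y0) → (∀ n t, HasDerivAt (y n) (A0 t (y n t) + n • A1 t (y n t)) t) →
    ∀ t, Differentiable ℂ (fun n => y n t)

-- deps: ODEEX ODECONT
def S_ODEPAR : Prop :=
  ∀ (E : Type) [NormedAddCommGroup E] [NormedSpace ℝ E] [CompleteSpace E]
    (A : ℝ × ℝ → E →L[ℝ] E) (y : ℝ × ℝ → E) (t0 : ℝ), ContDiff ℝ ∞ A →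
    ContDiff ℝ ∞ (fun s => y (t0, s)) →
    (∀ t s, HasDerivAt (fun t => y (t, s)) (A (t, s) (y (t, s))) t) → ContDiff ℝ ∞ y

-- deps:
def S_DISC : Prop :=
  ∀ (γ1 γ2 : ℝ → ℂ) (r a b c d : ℝ), 0 < r → ContinuousOn γ1 (Icc 0 1) → ContinuousOn γ2 (Icc 0 1) →
    (∀ s ∈ Icc (0 : ℝ) 1, ‖γ1 s‖ ≤ r) → (∀ s ∈ Icc (0 : ℝ) 1, ‖γ2 s‖ ≤ r) →
    a < b → b < c → c < d → d < a + 2 * Real.pi →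
    γ1 0 = r * Complex.exp (a * Complex.I) → γ1 1 = r * Complex.exp (c * Complex.I) →
    γ2 0 = r * Complex.exp (b * Complex.I) → γ2 1 = r * Complex.exp (d * Complex.I) →
    ∃ s ∈ Icc (0 : ℝ) 1, ∃ t ∈ Icc (0 : ℝ) 1, γ1 s = γ2 t

-- deps: DISC
def S_NC : Prop :=
  ∀ (T P : ℝ) (U : Set (ℝ × ℝ)), 0 < T → 0 < P → U ⊆ strip T →
    (∀ t s, (t, s + P) ∈ U ↔ (t, s) ∈ U) → ∀ σ : ℝ, (σ = T ∨ σ = -T) →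
    ∀ a b c d : ℝ, a < b → b < c → c < d → d < a + P → Rel P U (σ, a) (σ, c) →
      (Rel P U (σ, b) (σ, d) → Rel P U (σ, a) (σ, b)) ∧
      ∀ b' d' : ℝ, Rel P U (σ, b) (-σ, b') → Rel P U (σ, d) (-σ, d') →
        Rel P U (σ, a) (σ, b) ∨ Rel P U (σ, a) (σ, d)

-- deps:
def S_COMB : Prop :=
  ∀ (ι : Type) (B T : Fin 6 → ι), Side B T → Side T B →
    ∃ g : Fin 5 → ι, Function.Injective g ∧ (∀ i, (∃ m, g i = B m) ∨ ∃ m, g i = T m) ∧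
      ∀ a : Fin 5 → ℝ, (∀ m : Fin 5, lab g a (B m.castSucc) = lab g a (B m.succ)) →
        (∀ m : Fin 5, lab g a (T m.castSucc) = lab g a (T m.succ)) → a = 0

-- deps:
def S_JEN : Prop :=
  ∀ (F : ℂ → ℂ) (c C R0 : ℝ) (n : ℕ → ℝ), Differentiable ℂ F → 0 < c →
    (∀ z : ℂ, R0 ≤ ‖z‖ → ‖F z‖ ≤ C * Real.exp (Real.pi / c * √((‖z‖ - z.re) / 2))) →
    F 0 = 0 → F 2 = 0 → F (-2) = 0 →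
    (∀ j, 3 ≤ j → 2 < n j ∧ n j < n (j + 1) ∧ n j ≤ c ^ 2 * (j : ℝ) ^ 2 + C ∧ F (n j : ℂ) = 0) →
    ∀ z, F z = 0

-- deps:
def S_WKB : Prop :=
  ∀ (P : ℝ) (v A1 A2 : ℝ → ℝ), 0 < P → Sm1 P v → Sm1 P A1 → Sm1 P A2 →
    ∃ d0 : ℝ, ∀ θ0 : ℝ, ∃ C L : ℝ, 0 < L ∧ ∀ l : ℂ, L ≤ ‖l‖ → ∀ p1 p2 q1 q2 : ℝ → ℂ,
      SysY v A1 A2 l p1 p2 → SysY v A1 A2 l q1 q2 →
      p1 θ0 = 1 → p2 θ0 = 0 → q1 θ0 = 0 → q2 θ0 = 1 →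
      ‖p1 (θ0 + P) - q2 (θ0 + P) - 2 * Complex.sin (l * P + d0 / l) * (v θ0 : ℂ) / l‖
        ≤ C / ‖l‖ ^ 2 * Real.exp (|l.im| * P)

-- deps: WKB
def S_WKBG : Prop :=
  ∀ (ρ P : ℝ) (w : ℝ → ℝ), 0 < ρ → 0 < P → Sm1 P w →
    ∃ d0 : ℝ, ∀ θ0 : ℝ, ∃ C L : ℝ, 0 < L ∧ ∀ κ l : ℂ, κ = 2 * (√ρ : ℝ) * l → L ≤ ‖κ‖ →
      ∀ p1 p2 q1 q2 : ℝ → ℂ, Sys2 ρ w κ p1 p2 → Sys2 ρ w κ q1 q2 →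
      p1 θ0 = 1 → p2 θ0 = 0 → q1 θ0 = 0 → q2 θ0 = 1 →
      ‖p1 (θ0 + P) - q2 (θ0 + P) + Complex.sin (l * P + d0 / l) * ((deriv w θ0 : ℝ) : ℂ) / l‖
        ≤ C / ‖κ‖ ^ 2 * Real.exp (|l.im| * P)

-- deps:
def S_ANG : Prop :=
  ∀ (y1 y2 z1 z2 : ℝ → ℝ) (a0 : ℝ), Continuous z1 → Continuous z2 →
    (∀ θ, HasDerivAt y1 (z1 θ) θ) → (∀ θ, HasDerivAt y2 (z2 θ) θ) →
    (∀ θ, y1 θ ^ 2 + y2 θ ^ 2 ≠ 0) →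
    y1 0 = √(y1 0 ^ 2 + y2 0 ^ 2) * Real.cos a0 → y2 0 = √(y1 0 ^ 2 + y2 0 ^ 2) * Real.sin a0 →
    ∀ θ, y1 θ = √(y1 θ ^ 2 + y2 θ ^ 2) *
        Real.cos (a0 + ∫ s in (0 : ℝ)..θ, (y1 s * z2 s - y2 s * z1 s) / (y1 s ^ 2 + y2 s ^ 2)) ∧
      y2 θ = √(y1 θ ^ 2 + y2 θ ^ 2) *
        Real.sin (a0 + ∫ s in (0 : ℝ)..θ, (y1 s * z2 s - y2 s * z1 s) / (y1 s ^ 2 + y2 s ^ 2))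

-- deps: ANG
-- imports: Pool.Agent.P.MP_785924_gt.A.Tb
def S_ASYM : Prop :=
  ∀ (ρ P : ℝ) (w : ℝ → ℝ), 0 < ρ → 0 < P → Sm1 P w →
    ∃ C L : ℝ, 0 < L ∧ ∀ κ : ℝ, L ≤ κ → ∀ j : ℕ, Real.pi * j < κ * P / (2 * √ρ) - C / κ →
      ∀ φ1 φ2, Sol ρ w κ φ1 φ2 → Real.pi * j < disp ρ P w κ φ1 φ2

-- deps: ANG
-- imports: Pool.Agent.P.MP_785924_gt.A.Tb
def S_ALT : Prop :=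
  ∀ (ρ P κ : ℝ) (w φ1 φ2 : ℝ → ℝ), 0 < ρ → 0 < P → 0 < κ → Sm1 P w → Sol ρ w κ φ1 φ2 →
    PM P φ1 φ2 → 3 * Real.pi ≤ disp ρ P w κ φ1 φ2 → Alt6 P (fun θ => φ1 θ * φ2 θ)

-- deps: ANG ODEEX
-- imports: Pool.Agent.P.MP_785924_gt.A.Tb
def S_PARAB : Prop :=
  ∀ (ρ P κ : ℝ) (w φ1 φ2 : ℝ → ℝ) (j : ℕ), 0 < ρ → 0 < P → 0 < κ → Sm1 P w →
    AllGE ρ P w κ (Real.pi * j) → Sol ρ w κ φ1 φ2 → disp ρ P w κ φ1 φ2 = Real.pi * j →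
    PM P φ1 φ2

-- deps: ODEEX ODECONT
-- imports: Pool.Agent.P.MP_785924_gt.A.Tb
def S_DCONT : Prop :=
  ∀ (ρ P : ℝ) (w : ℝ → ℝ), 0 < ρ → 0 < P → Sm1 P w →
    ∃ D : ℝ × ℝ → ℝ, Continuous D ∧ ∀ κ : ℝ, 1 ≤ κ →
      (∀ a : ℝ, ∃ φ1 φ2, Sol ρ w κ φ1 φ2 ∧ disp ρ P w κ φ1 φ2 = D (κ, a)) ∧
      ∀ φ1 φ2, Sol ρ w κ φ1 φ2 → ∃ a ∈ Icc (-Real.pi) Real.pi, disp ρ P w κ φ1 φ2 = D (κ, a)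

-- deps: DCONT ASYM PARAB
-- imports: Pool.Agent.P.MP_785924_gt.A.Tb
def S_LAMJ : Prop :=
  ∀ (ρ P : ℝ) (w1 w2 : ℝ → ℝ), 0 < ρ → 0 < P → Sm1 P w1 → Sm1 P w2 →
    (∫ θ in (0 : ℝ)..P, (Real.exp (w1 θ) / ρ + 1 / Real.exp (w1 θ))) < 6 * Real.pi →
    Oracle ρ P w1 w2 →
    ∃ (κ : ℕ → ℝ) (C : ℝ), ∀ j, 3 ≤ j → 1 < κ j ∧ κ j < κ (j + 1) ∧
      κ j ^ 2 ≤ (2 * Real.pi * √ρ / P) ^ 2 * (j : ℝ) ^ 2 + C ∧ ScalR ρ P w1 (κ j)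

-- deps: ODEEX ODEHOL
-- imports: Pool.Agent.P.MP_785924_gt.A.Tb
def S_VF : Prop :=
  ∀ (ρ P : ℝ) (w : ℝ → ℝ) (θ0 : ℝ), 0 < ρ → Sm1 P w →
    ∃ V : ℂ → ℂ, Differentiable ℂ V ∧ V 2 = 0 ∧ V (-2) = 0 ∧
      ∀ κ : ℂ, κ ≠ 0 → κ ^ 4 ≠ 1 → ∀ p1 p2 q1 q2 : ℝ → ℂ, Sys2 ρ w κ p1 p2 → Sys2 ρ w κ q1 q2 →
        p1 θ0 = 1 → p2 θ0 = 0 → q1 θ0 = 0 → q2 θ0 = 1 →
        V (κ ^ 2 + 1 / κ ^ 2) = -((κ ^ 2 - 1 / κ ^ 2) * (p1 (θ0 + P) - q2 (θ0 + P)))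

-- deps: ODEEX VF WKBG JEN
-- imports: Pool.Agent.P.MP_785924_gt.A.Tb
def S_FZ : Prop :=
  ∀ (ρ P C : ℝ) (w : ℝ → ℝ) (κ : ℕ → ℝ) (κ0 : ℂ), 0 < ρ → 0 < P → Sm1 P w →
    κ0 ^ 4 = -1 → Scal ρ P w κ0 →
    (∀ j, 3 ≤ j → 1 < κ j ∧ κ j < κ (j + 1) ∧
      κ j ^ 2 ≤ (2 * Real.pi * √ρ / P) ^ 2 * (j : ℝ) ^ 2 + C ∧ ScalR ρ P w (κ j)) →
    UW ρ P w

-- deps: ODEEX WKBG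
-- imports: Pool.Agent.P.MP_785924_gt.A.Tb
def S_BODE : Prop :=
  ∀ (ρ P : ℝ) (w : ℝ → ℝ), 0 < ρ → 0 < P → Sm1 P w → UW ρ P w → ∃ A B : ℝ, BOde ρ A B w

-- deps:
def S_CONV : Prop :=
  ∀ (ρ P : ℝ) (w : ℝ → ℝ) (x ν e : Fin 3 → ℝ → ℝ), Curve ρ P w x ν e → TP P x →
    ∃ c : Fin 3 → ℝ, ∀ θ, 0 < cmp c x θ ∧ cmp c ν θ < 0

-- deps: ANG
def S_LEN : Prop :=
  ∀ (ρ P : ℝ) (w : ℝ → ℝ) (x ν e : Fin 3 → ℝ → ℝ) (c : Fin 3 → ℝ), Curve ρ P w x ν e → TP P x →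
    (∀ θ, 0 < cmp c x θ ∧ cmp c ν θ < 0) →
    (∫ θ in (0 : ℝ)..P, Real.exp (w θ) / ρ) ≤ 2 * Real.pi ∧
      (∫ θ in (0 : ℝ)..P, 1 / Real.exp (w θ)) ≤ 2 * Real.pi

-- deps:
def S_TWOARC : Prop :=
  ∀ (ρ P : ℝ) (w : ℝ → ℝ) (x ν e : Fin 3 → ℝ → ℝ) (c : Fin 3 → ℝ) (z1 z2 σ : ℝ),
    Curve ρ P w x ν e → TP P x → (∀ θ, 0 < cmp c x θ) → z1 < z2 → z2 < z1 + P →
    (∀ θ ∈ Ioo z1 z2, 0 < σ * deriv w θ) → (∀ θ ∈ Ioo z2 (z1 + P), σ * deriv w θ < 0) → False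

-- deps: TWOARC
def S_FV4 : Prop :=
  ∀ (ρ P : ℝ) (w : ℝ → ℝ) (x ν e : Fin 3 → ℝ → ℝ) (c : Fin 3 → ℝ),
    Curve ρ P w x ν e → TP P x → (∀ θ, 0 < cmp c x θ) →
    (∀ θ, deriv w θ = 0 → deriv (deriv w) θ ≠ 0) → Z4 P (deriv w)

-- deps:
def S_STURM : Prop :=
  ∀ (ρ A B z1 z2 : ℝ) (w : ℝ → ℝ), 0 < ρ → ContDiff ℝ ∞ w → A < 0 → B ≤ 0 → BOde ρ A B w →
    z1 < z2 → deriv w z1 = 0 → deriv w z2 = 0 → (∀ θ ∈ Ioo z1 z2, deriv w θ ≠ 0) →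
    Real.pi / 2 < ∫ θ in z1..z2, Real.exp (w θ) / ρ

-- deps: ODEEX
-- imports: Pool.Agent.P.MP_785924_gt.A.Tb
def S_SCAL0 : Prop :=
  ∀ (ρ P : ℝ) (w : ℝ → ℝ) (x ν e : Fin 3 → ℝ → ℝ) (κ0 : ℂ), Curve ρ P w x ν e →
    κ0 ^ 4 = -1 → Scal ρ P w κ0

-- deps:
-- imports: Pool.Agent.P.MP_785924_gt.A.Tb
def S_HALF : Prop :=
  ∀ (ρ P A B : ℝ) (w : ℝ → ℝ), 0 < ρ → 0 < P → Sm1 P w → BOde ρ A B w → Z4 P (deriv w) →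
    ∃ Q : ℝ, 0 < Q ∧ 2 * Q ≤ P ∧ Function.Periodic w Q

-- deps:
-- imports: Pool.Agent.P.MP_785924_gt.A.Tb
def S_MEAN : Prop :=
  ∀ (ρ P Q σ : ℝ) (w : ℝ → ℝ) (x ν e : Fin 3 → ℝ → ℝ) (b : Fin 3 → ℝ), Curve ρ P w x ν e →
    TP P x → 0 < Q → 2 * Q ≤ P → Function.Periodic w Q → (∀ θ, deriv w θ = σ * cmp b e θ) →
    (∃ θ, deriv w θ ≠ 0) → ∀ i, (∫ θ in (0 : ℝ)..P, Real.exp (w θ) ^ 2 * e i θ) = 0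

-- deps:
-- imports: Pool.Agent.P.MP_785924_gt.A.Tb
def S_AXIS : Prop :=
  ∀ (ρ P σ : ℝ) (w : ℝ → ℝ) (x ν e : Fin 3 → ℝ → ℝ), Curve ρ P w x ν e → σ ≠ 0 →
    ((∃ A B : ℝ, BOde ρ A B w) ↔ ∃ b : Fin 3 → ℝ, ∀ θ, deriv w θ = σ * cmp b e θ)

-- deps:
-- imports: Pool.Agent.P.MP_785924_gt.A.Tb
def S_SQ1 : Prop :=
  ∀ (ρ κ : ℝ) (w φ1 φ2 : ℝ → ℝ), 0 < ρ → 1 < κ → Sys2R ρ w κ φ1 φ2 →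
    Sys3 ρ w (muK ρ κ) (fS ρ κ φ1 φ2) (gS κ φ1 φ2) (fun θ => φ1 θ * φ2 θ) ∧
    (∀ θ, (φ1 θ * φ2 θ) ^ 2 + fS ρ κ φ1 φ2 θ ^ 2 / ρ ^ 2
      - 2 * muK ρ κ * fS ρ κ φ1 φ2 θ * gS κ φ1 φ2 θ + gS κ φ1 φ2 θ ^ 2 = 0) ∧
    (∀ θ, φ1 θ ^ 2 = -(κ * fS ρ κ φ1 φ2 θ / ρ + gS κ φ1 φ2 θ / κ) ∧
      φ2 θ ^ 2 = κ * gS κ φ1 φ2 θ + fS ρ κ φ1 φ2 θ / (ρ * κ)) ∧ 1 / ρ ^ 2 < muK ρ κ ^ 2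

-- deps: ODEEX SQ1
-- imports: Pool.Agent.P.MP_785924_gt.A.Tb
def S_SQ2 : Prop :=
  ∀ (ρ P κ : ℝ) (w φ1 φ2 f g u : ℝ → ℝ), 0 < ρ → 1 < κ → Sm1 P w → Sol ρ w κ φ1 φ2 →
    PM P φ1 φ2 → ¬ ScalR ρ P w κ → Sys3 ρ w (muK ρ κ) f g u →
    f P = f 0 → g P = g 0 → u P = u 0 →
    ∃ τ : ℝ, ∀ θ, f θ = τ * fS ρ κ φ1 φ2 θ ∧ g θ = τ * gS κ φ1 φ2 θ ∧ u θ = τ * (φ1 θ * φ2 θ)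

-- deps: ODEEX SQ1
-- imports: Pool.Agent.P.MP_785924_gt.A.Tb
def S_SQ3 : Prop :=
  ∀ (ρ P κ : ℝ) (w f g u : ℝ → ℝ), 0 < ρ → 1 < κ → Sm1 P w → Sys3 ρ w (muK ρ κ) f g u →
    f P = f 0 → g P = g 0 → u P = u 0 →
    u 0 ^ 2 + f 0 ^ 2 / ρ ^ 2 - 2 * muK ρ κ * f 0 * g 0 + g 0 ^ 2 = 0 →
    (f 0 ≠ 0 ∨ g 0 ≠ 0 ∨ u 0 ≠ 0) →
    ∃ φ1 φ2, Sol ρ w κ φ1 φ2 ∧ PM P φ1 φ2 ∧ ∃ τ : ℝ, τ ≠ 0 ∧ ∀ θ, u θ = τ * (φ1 θ * φ2 θ)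

-- deps: ODEEX SQ1
-- imports: Pool.Agent.P.MP_785924_gt.A.Tb
def S_SQ4 : Prop :=
  ∀ (ρ P κ : ℝ) (w : ℝ → ℝ), 0 < ρ → 1 < κ → Sm1 P w →
    (ScalR ρ P w κ ↔ ∀ f g u, Sys3 ρ w (muK ρ κ) f g u → f P = f 0 ∧ g P = g 0 ∧ u P = u 0)

end Pool.Agent.P.MP_785924_gt
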