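import Pool.Agent.P.MP_785924_gt.A.IfaceA

/-! Step JEN of the free boundary annulus project. -/

namespace Pool.Agent.P.MP_785924_gt

open scoped ContDiff
open Set Filter Topology

namespace Jen

open Real

lemma log_fact (N : ℕ) : Real.log ((N + 1).factorial : ℝ) ≤
    (N + 1 : ℝ) * Real.log (N + 1) - (N + 1) + Real.log (N + 1) / 2 + 1 := by
  have h := Stirling.log_stirlingSeq'_antitone (Nat.zero_le N)
  simp only [Function.comp, Nat.succ_eq_add_one, zero_add] at h
  rw [Stirling.log_stirlingSeq_formula, Stirling.log_stirlingSeq_formula] at h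
  have h0 : (0 : ℝ) < N + 1 := by positivity
  push_cast at h
  rw [Real.log_div h0.ne' (Real.exp_pos 1).ne', Real.log_mul two_ne_zero h0.ne', Real.log_exp,
    Real.log_div one_ne_zero (Real.exp_pos 1).ne', Real.log_exp] at h
  simp only [Nat.factorial_one, Nat.cast_one, Real.log_one, mul_one] at h
  linarith

/-- the lower bound of Jensen's sum by finitely many known zeros -/
lemma lower {F : ℂ → ℂ} (hF : Differentiable ℂ F) {c0 : ℂ} (h0 : F c0 ≠ 0) {R : ℝ} (hR : 0 < R)
    (u : ℕ → ℂ) (hu : Function.Injective u) (s : Finset ℕ)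
    (hs : ∀ j ∈ s, F (u j) = 0 ∧ ‖c0 - u j‖ ≤ R) :
    ∑ j ∈ s, Real.log (R * ‖c0 - u j‖⁻¹) + Real.log ‖F c0‖ ≤
      circleAverage (fun z => Real.log ‖F z‖) c0 R := by
  classical
  have hA : ∀ U : Set ℂ, AnalyticOnNhd ℂ F U := fun U z _ => hF.analyticAt z
  rw [(hA _).circleAverage_log_norm hR.ne' h0]
  refine add_le_add_left ?_ _
  set D := MeromorphicOn.divisor F (Metric.closedBall c0 |R|) with hD
  have hfin : (Function.support D).Finite := D.finiteSupport (isCompact_closedBall _ _)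
  have hlog : ∀ z, ‖c0 - z‖ ≤ R → 0 ≤ Real.log (R * ‖c0 - z‖⁻¹) := by
    intro z hz
    rcases (norm_nonneg (c0 - z)).eq_or_lt with e | e
    · rw [← e]; simp
    · exact Real.log_nonneg (by rw [← div_eq_mul_inv, one_le_div e]; exact hz)
  have hmem : ∀ z, z ∈ Metric.closedBall c0 |R| ↔ ‖c0 - z‖ ≤ R := fun z => by
    rw [Metric.mem_closedBall, dist_eq_norm', abs_of_pos hR]
  have hone : ∀ j ∈ s, 1 ≤ D (u j) := by
    intro j hj
    rw [hD, MeromorphicOn.AnalyticOnNhd.divisor_apply (hA _) ((hmem _).2 (hs j hj).2)]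
    have h1 : analyticOrderAt F (u j) ≠ 0 :=
      (hF.analyticAt (u j)).analyticOrderAt_ne_zero.2 (hs j hj).1
    have h2 : analyticOrderAt F (u j) ≠ ⊤ := by
      intro e
      rw [analyticOrderAt_eq_top] at e
      exact h0 ((hA univ).eqOn_zero_of_preconnected_of_eventuallyEq_zero isPreconnected_univ
        (mem_univ (u j)) e (mem_univ c0))
    obtain ⟨k, hk⟩ := ENat.ne_top_iff_exists.1 h2
    rw [← hk] at h1 ⊢
    have : k ≠ 0 := by simpa using h1
    simp only [ENat.map_coe, WithTop.untop₀_coe]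
    omega
  rw [finsum_eq_sum_of_support_subset (s := hfin.toFinset) _ (fun z hz => by
    simp only [Finite.coe_toFinset, Function.mem_support] at hz ⊢
    intro e
    exact hz (by rw [e]; simp))]
  calc ∑ j ∈ s, Real.log (R * ‖c0 - u j‖⁻¹)
      ≤ ∑ j ∈ s, (D (u j) : ℝ) * Real.log (R * ‖c0 - u j‖⁻¹) :=
        Finset.sum_le_sum fun j hj => le_mul_of_one_le_left (hlog _ (hs j hj).2)
          (by exact_mod_cast hone j hj)
    _ = ∑ z ∈ s.image u, (D z : ℝ) * Real.log (R * ‖c0 - z‖⁻¹) :=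
        (Finset.sum_image (f := fun z => (D z : ℝ) * Real.log (R * ‖c0 - z‖⁻¹))
          fun a _ b _ e => hu e).symm
    _ ≤ _ := by
        refine Finset.sum_le_sum_of_subset_of_nonneg (fun z hz => ?_) fun z hz _ => ?_
        · obtain ⟨j, hj, rfl⟩ := Finset.mem_image.1 hz
          have := hone j hj
          simp only [Finite.mem_toFinset, Function.mem_support]
          omega
        · have h1 : z ∈ Metric.closedBall c0 |R| := D.supportWithinDomain (by simpa using hz)
          exact mul_nonneg (by exact_mod_cast MeromorphicOn.AnalyticOnNhd.divisor_nonneg (hA _) z) (hlog z ((hmem z).1 h1))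

lemma sqrt_le_add {x y : ℝ} (hx : 0 ≤ x) (hy : 0 ≤ y) : √(x ^ 2 + y) ≤ x + √y := by
  refine Real.sqrt_le_iff.2 ⟨by positivity, ?_⟩
  have h1 := Real.sq_sqrt hy
  have h2 := mul_nonneg hx (Real.sqrt_nonneg y)
  nlinarith

/-- the upper bound of the circle average -/
lemma upper {F : ℂ → ℂ} (hF : Differentiable ℂ F) {c C R0 R : ℝ} (hc : 0 < c) (c0 : ℂ)
    (hb : ∀ z : ℂ, R0 ≤ ‖z‖ → ‖F z‖ ≤ C * Real.exp (π / c * √((‖z‖ - z.re) / 2)))
    (hR : 0 < R) (hR0 : R0 + ‖c0‖ ≤ R) :
    circleAverage (fun z => Real.log ‖F z‖) c0 R ≤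
      Real.log (max C 1) + π / c * √‖c0‖ + 2 / c * √R := by
  have hA : ∀ U : Set ℂ, AnalyticOnNhd ℂ F U := fun U z _ => hF.analyticAt z
  have hint : CircleIntegrable (fun z => Real.log ‖F z‖) c0 R :=
    (hA _).meromorphicOn.circleIntegrable_log_norm
  have hM : (1 : ℝ) ≤ max C 1 := le_max_right _ _
  have hpt : ∀ t ∈ Icc (0 : ℝ) (2 * π), Real.log ‖F (circleMap c0 R t)‖ ≤
      Real.log (max C 1) + π / c * √‖c0‖ + π / c * √R * Real.sin (t / 2) := by
    intro t ht
    have hs : 0 ≤ Real.sin (t / 2) :=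
      Real.sin_nonneg_of_nonneg_of_le_pi (by linarith [ht.1]) (by linarith [ht.2])
    set z := circleMap c0 R t with hz
    have n1 : ‖z - c0‖ = R := by rw [hz, circleMap_sub_center, norm_circleMap_zero, abs_of_pos hR]
    have n2 : ‖z‖ ≤ R + ‖c0‖ := by
      calc ‖z‖ = ‖(z - c0) + c0‖ := by rw [sub_add_cancel]
        _ ≤ _ := (norm_add_le _ _).trans_eq (by rw [n1])
    have n3 : R0 ≤ ‖z‖ := by
      have := norm_sub_le z c0
      linarith
    have n4 : z.re = c0.re + R * Real.cos t := by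
      rw [hz, circleMap, Complex.add_re, Complex.re_ofReal_mul, Complex.exp_ofReal_mul_I_re]
    have n5 : -‖c0‖ ≤ c0.re := (abs_le.1 (Complex.abs_re_le_norm c0)).1
    have n6 : Real.cos t = 1 - 2 * Real.sin (t / 2) ^ 2 := by
      have := Real.cos_two_mul (t / 2)
      rw [show 2 * (t / 2) = t by ring, Real.cos_sq'] at this
      linarith
    have n7 : (‖z‖ - z.re) / 2 ≤ (√R * Real.sin (t / 2)) ^ 2 + ‖c0‖ := by
      rw [mul_pow, Real.sq_sqrt hR.le, n4, n6]
      linarith
    have n8 : √((‖z‖ - z.re) / 2) ≤ √R * Real.sin (t / 2) + √‖c0‖ :=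
      (Real.sqrt_le_sqrt n7).trans (sqrt_le_add (by positivity) (norm_nonneg _))
    have hpc : 0 < π / c := by positivity
    have n9 := mul_le_mul_of_nonneg_left n8 hpc.le
    have l0 : 0 ≤ Real.log (max C 1) := Real.log_nonneg hM
    rcases (norm_nonneg (F z)).eq_or_lt with e | e
    · rw [← e, Real.log_zero]
      positivity
    · have h1 : ‖F z‖ ≤ max C 1 * Real.exp (π / c * √((‖z‖ - z.re) / 2)) :=
        (hb z n3).trans (mul_le_mul_of_nonneg_right (le_max_left _ _) (Real.exp_pos _).le)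
      have h2 := Real.log_le_log e h1
      rw [Real.log_mul (by positivity) (Real.exp_pos _).ne', Real.log_exp] at h2
      linarith
  have hI := intervalIntegral.integral_mono_on (μ := MeasureTheory.volume)
    (by positivity : (0 : ℝ) ≤ 2 * π) hint
    (Continuous.intervalIntegrable (by fun_prop) _ _) hpt
  have hsin : ∫ t in (0 : ℝ)..2 * π, Real.sin (t / 2) = 4 := by
    rw [intervalIntegral.integral_comp_div (f := Real.sin) two_ne_zero, integral_sin]
    simp
    norm_num
  rw [intervalIntegral.integral_add (Continuous.intervalIntegrable (by fun_prop) _ _)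
    (Continuous.intervalIntegrable (by fun_prop) _ _), intervalIntegral.integral_const,
    intervalIntegral.integral_const_mul, hsin] at hI
  rw [circleAverage_def, smul_eq_mul, inv_mul_le_iff₀ (by positivity)]
  refine hI.trans_eq ?_
  rw [smul_eq_mul]
  ring

/-- the numerical lower bound -/
lemma numer {c K : ℝ} (hc : 0 < c) (hK : 0 < K) (d : ℕ → ℝ) (h0 : ∀ j, 0 < d j)
    (hd : ∀ j : ℕ, d j ≤ c ^ 2 * (j : ℝ) ^ 2 + K) (N : ℕ) :
    2 * (N + 1 : ℝ) + Real.log (N + 1) + (Real.log (c ^ 2 / K) - 2 - 2 * (K / c ^ 2)) ≤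
      ∑ j ∈ Finset.range (N + 2), Real.log ((c ^ 2 * (N + 1 : ℝ) ^ 2 + K) * (d j)⁻¹) := by
  have hN : (0 : ℝ) < N + 1 := by positivity
  have a0 : Real.log (c ^ 2 / K) + 2 * Real.log (N + 1) ≤
      Real.log ((c ^ 2 * (N + 1 : ℝ) ^ 2 + K) * (d 0)⁻¹) := by
    rw [show 2 * Real.log (N + 1) = Real.log ((N + 1 : ℝ) ^ 2) by rw [Real.log_pow]; norm_num,
      ← Real.log_mul (by positivity) (by positivity)]
    refine Real.log_le_log (by positivity) ?_
    have h1 : d 0 ≤ K := by simpa using hd 0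
    rw [← div_eq_mul_inv, div_mul_eq_mul_div]
    exact div_le_div₀ (by positivity) (by linarith) (h0 0) h1
  have a1 : ∀ j : ℕ, 2 * Real.log (N + 1) - 2 * Real.log (j + 1 : ℕ) -
      K / c ^ 2 * (((j + 1 : ℕ) : ℝ) ^ 2)⁻¹ ≤
      Real.log ((c ^ 2 * (N + 1 : ℝ) ^ 2 + K) * (d (j + 1))⁻¹) := by
    intro j
    have hj : (0 : ℝ) < (j + 1 : ℕ) := by positivity
    have h1 := hd (j + 1)
    generalize ((j + 1 : ℕ) : ℝ) = x at hj h1 ⊢
    have h2 : Real.log (d (j + 1)) ≤ Real.log (c ^ 2) + 2 * Real.log x + K / c ^ 2 * (x ^ 2)⁻¹ := by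
      have e : c ^ 2 * x ^ 2 + K = c ^ 2 * x ^ 2 * (1 + K / c ^ 2 * (x ^ 2)⁻¹) := by field_simp
      refine (Real.log_le_log (h0 _) h1).trans ?_
      rw [e, Real.log_mul (by positivity) (by positivity),
        Real.log_mul (by positivity) (by positivity), Real.log_pow x]
      have := Real.log_le_sub_one_of_pos (x := 1 + K / c ^ 2 * (x ^ 2)⁻¹) (by positivity)
      push_cast
      linarith
    have h3 : Real.log (c ^ 2) + 2 * Real.log (N + 1) ≤
        Real.log (c ^ 2 * (N + 1 : ℝ) ^ 2 + K) := by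
      rw [show 2 * Real.log (N + 1) = Real.log ((N + 1 : ℝ) ^ 2) by rw [Real.log_pow]; norm_num,
        ← Real.log_mul (by positivity) (by positivity)]
      exact Real.log_le_log (by positivity) (by linarith)
    rw [Real.log_mul (by positivity) (inv_ne_zero (h0 _).ne'), Real.log_inv]
    linarith
  have a2 : ∑ j ∈ Finset.range (N + 1), Real.log (j + 1 : ℕ) = Real.log ((N + 1).factorial : ℝ) := by
    rw [← Finset.prod_range_add_one_eq_factorial, Nat.cast_prod, Real.log_prod]
    intro j _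
    positivity
  have a3 : ∑ j ∈ Finset.range (N + 1), (((j + 1 : ℕ) : ℝ) ^ 2)⁻¹ ≤ 2 := by
    have h1 := sum_Ioo_inv_sq_le (α := ℝ) 0 (N + 2)
    have e : Finset.Ioo 0 (N + 2) = Finset.Ico 1 (N + 2) := by
      ext i
      simp only [Finset.mem_Ioo, Finset.mem_Ico]
      omega
    rw [e, Finset.sum_Ico_eq_sum_range] at h1
    simp only [Nat.cast_zero, zero_add, div_one] at h1
    refine le_trans (le_of_eq ?_) h1
    exact Finset.sum_congr rfl fun j _ => by rw [add_comm 1 j]
  rw [Finset.sum_range_succ']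
  have a4 := Finset.sum_le_sum fun j (_ : j ∈ Finset.range (N + 1)) => a1 j
  rw [Finset.sum_sub_distrib, Finset.sum_sub_distrib, ← Finset.mul_sum, ← Finset.mul_sum,
    ← Finset.mul_sum, a2, Finset.sum_const, Finset.card_range, nsmul_eq_mul] at a4
  have a5 := log_fact N
  have a6 := mul_le_mul_of_nonneg_left a3 (by positivity : 0 ≤ K / c ^ 2)
  push_cast at a4 a6
  linarith

end Jen

theorem p_JEN :
    S_JEN := by
  intro F c C R0 n hF hc hb z0 z1 z2 hn c0
  by_contra h0
  set K : ℝ := |C| + ‖c0‖ + 2 + |R0| with hK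
  have hC := le_abs_self C
  have hC0 := abs_nonneg C
  have hR0 := le_abs_self R0
  have hR1 := abs_nonneg R0
  have ha := norm_nonneg c0
  have hK0 : 0 < K := by positivity
  let v : ℕ → ℝ := fun j => if j = 0 then 0 else if j = 1 then 2 else if j = 2 then -2 else n j
  have hmono : ∀ i j, 3 ≤ i → i < j → n i < n j := by
    intro i j hi hij
    induction j, hij using Nat.le_induction with
    | base => exact (hn i hi).2.1
    | succ j hj ih => exact ih.trans (hn j (by omega)).2.1
  have hv : Function.Injective v := by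
    intro i j e
    have b1 : ∀ k, k ≠ 0 → k ≠ 1 → k ≠ 2 → 2 < n k := fun k _ _ _ => (hn k (by omega)).1
    simp only [v] at e
    split_ifs at e with i0 j0 j1 j2 i1 j0 j1 j2 i2 j0 j1 j2 j0 j1 j2
    all_goals first
      | omega
      | (exfalso; linarith)
      | (exfalso; have := b1 j j0 j1 j2; linarith)
      | (exfalso; have := b1 i i0 i1 i2; linarith)
      | skip
    rcases lt_trichotomy i j with h | h | h
    · exact absurd e (hmono i j (by omega) h).ne
    · exact h
    · exact absurd e (hmono j i (by omega) h).ne'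
  have hz : ∀ j, F (v j : ℂ) = 0 := by
    intro j
    simp only [v]
    split_ifs with j0 j1 j2
    · simpa using z0
    · simpa using z1
    · simpa using z2
    · exact (hn j (by omega)).2.2.2
  have hab : ∀ j : ℕ, |v j| ≤ c ^ 2 * (j : ℝ) ^ 2 + (|C| + 2) := by
    intro j
    have : 0 ≤ c ^ 2 * (j : ℝ) ^ 2 := by positivity
    simp only [v]
    split_ifs with j0 j1 j2
    · rw [abs_zero]; linarith
    · rw [abs_two]; linarith
    · rw [abs_neg, abs_two]; linarith
    · obtain ⟨h1, -, h2, -⟩ := hn j (by omega)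
      rw [abs_of_pos (by linarith)]
      linarith
  have hd : ∀ j : ℕ, ‖c0 - (v j : ℂ)‖ ≤ c ^ 2 * (j : ℝ) ^ 2 + K := by
    intro j
    have h1 := norm_sub_le c0 (v j : ℂ)
    rw [Complex.norm_real, Real.norm_eq_abs] at h1
    have := hab j
    linarith
  have hpos : ∀ j : ℕ, 0 < ‖c0 - (v j : ℂ)‖ := fun j =>
    norm_pos_iff.2 fun e => h0 (by rw [sub_eq_zero.1 e]; exact hz j)
  have key : ∀ N : ℕ, Real.log (N + 1) ≤ Real.log (max C 1) + Real.pi / c * √‖c0‖ + 2 / c * √K -
      (Real.log (c ^ 2 / K) - 2 - 2 * (K / c ^ 2)) - Real.log ‖F c0‖ := by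
    intro N
    have hp : 0 ≤ c ^ 2 * (N + 1 : ℝ) ^ 2 := by positivity
    have hR : 0 < c ^ 2 * (N + 1 : ℝ) ^ 2 + K := by positivity
    have l1 := Jen.lower hF h0 hR (fun j => (v j : ℂ))
      (fun i j e => hv (Complex.ofReal_injective e)) (Finset.range (N + 2)) fun j hj =>
        ⟨hz j, (hd j).trans (by
          have : (j : ℝ) ≤ N + 1 := by exact_mod_cast Nat.lt_succ_iff.1 (Finset.mem_range.1 hj)
          gcongr)⟩
    have l2 := Jen.upper hF hc c0 hb hR (by linarith)
    have l3 := Jen.numer hc hK0 (fun j => ‖c0 - (v j : ℂ)‖) hpos hd N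
    have l4 : √(c ^ 2 * (N + 1 : ℝ) ^ 2 + K) ≤ c * (N + 1) + √K := by
      rw [← mul_pow]
      exact Jen.sqrt_le_add (by positivity) hK0.le
    have l5 := mul_le_mul_of_nonneg_left l4 (by positivity : 0 ≤ 2 / c)
    have l6 : 2 / c * (c * (N + 1) + √K) = 2 * (N + 1) + 2 / c * √K := by field_simp
    linarith
  have ht : Tendsto (fun N : ℕ => Real.log (N + 1)) atTop atTop :=
    Real.tendsto_log_atTop.comp (tendsto_atTop_add_const_right _ _ tendsto_natCast_atTop_atTop)
  obtain ⟨N, hN⟩ := (ht.eventually_gt_atTop _).exists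
  exact absurd (key N) (not_le.2 hN)

end Pool.Agent.P.MP_785924_gt
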