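import Pool.Agent.P.MP_785924_gt.A.IfaceA
import Pool.Agent.P.MP_785924_gt.A.Tb

/-! Step LAMJ of the free boundary annulus project. -/

namespace Pool.Agent.P.MP_785924_gt

open scoped ContDiff
open Set Filter Topology

namespace Lamj

/-- The least swept angle is a continuous function of the spectral parameter. -/
theorem exm (hDCONT : S_DCONT) {ρ P : ℝ} {w : ℝ → ℝ} (hρ : 0 < ρ) (hP : 0 < P) (hw : Sm1 P w) :
    ∃ m : ℝ → ℝ, Continuous m ∧ ∀ κ, 1 ≤ κ → AllGE ρ P w κ (m κ) ∧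
      ∃ φ1 φ2, Sol ρ w κ φ1 φ2 ∧ disp ρ P w κ φ1 φ2 = m κ := by
  obtain ⟨D, hD, h⟩ := hDCONT ρ P w hρ hP hw
  have hK : IsCompact (Icc (-Real.pi) Real.pi) := isCompact_Icc
  refine ⟨fun κ => sInf ((fun a => D (κ, a)) '' Icc (-Real.pi) Real.pi),
    hK.continuous_sInf (f := fun κ a => D (κ, a)) hD, fun κ hκ => ?_⟩
  have hc : IsCompact ((fun a => D (κ, a)) '' Icc (-Real.pi) Real.pi) :=
    hK.image (hD.comp (by fun_prop))
  refine ⟨fun φ1 φ2 hs => ?_, ?_⟩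
  · obtain ⟨a, ha, e⟩ := (h κ hκ).2 φ1 φ2 hs
    rw [e]
    exact csInf_le hc.bddBelow ⟨a, ha, rfl⟩
  · obtain ⟨a, -, e⟩ := hc.sInf_mem
      ⟨_, 0, ⟨by linarith [Real.pi_pos], Real.pi_pos.le⟩, rfl⟩
    obtain ⟨φ1, φ2, hs, e'⟩ := (h κ hκ).1 a
    exact ⟨φ1, φ2, hs, e'.trans e⟩

theorem disp_one {ρ P : ℝ} {w φ1 φ2 : ℝ → ℝ} (hρ : 0 < ρ) (hw : Sm1 P w)
    (hs : Sol ρ w 1 φ1 φ2) : disp ρ P w 1 φ1 φ2 =
      (∫ θ in (0 : ℝ)..P, (Real.exp (w θ) / ρ + 1 / Real.exp (w θ))) / 2 := by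
  rw [disp, ← intervalIntegral.integral_div]
  refine intervalIntegral.integral_congr fun θ _ => ?_
  have h1 := hs.ne hw.1.continuous one_ne_zero θ
  have h2 := Real.exp_pos (w θ)
  simp only [ang]
  field_simp
  ring

/-- The last crossing of a level. -/
theorem last {m : ℝ → ℝ} (hm : Continuous m) {d B : ℝ} (h1 : m 1 < d)
    (hB : ∀ κ, 1 ≤ κ → m κ ≤ d → κ ≤ B) :
    ∃ k, 1 < k ∧ m k = d ∧ ∀ κ, 1 ≤ κ → m κ ≤ d → κ ≤ k := by
  have hcl : IsClosed {κ | 1 ≤ κ ∧ m κ ≤ d} :=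
    (isClosed_le continuous_const continuous_id).inter (isClosed_le hm continuous_const)
  have hb : BddAbove {κ | 1 ≤ κ ∧ m κ ≤ d} := ⟨B, fun κ h => hB κ h.1 h.2⟩
  obtain ⟨k, ⟨hk1, hk2⟩, hk⟩ : ∃ k, IsGreatest {κ | 1 ≤ κ ∧ m κ ≤ d} k :=
    ⟨_, hcl.isGreatest_csSup ⟨1, le_rfl, h1.le⟩ hb⟩
  have e : m k = d := by
    by_contra hne
    have hlt : ∀ᶠ x in 𝓝 k, m x < d :=
      hm.continuousAt.eventually_lt continuousAt_const (lt_of_le_of_ne hk2 hne)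
    obtain ⟨x, hx1, hx2⟩ := ((hlt.filter_mono nhdsWithin_le_nhds).and
      (self_mem_nhdsWithin (s := Ioi k))).exists
    exact absurd (hk ⟨hk1.trans (le_of_lt hx2), hx1.le⟩) (not_le.mpr hx2)
  refine ⟨k, lt_of_le_of_ne hk1 ?_, e, fun κ a b => hk ⟨a, b⟩⟩
  rintro rfl
  exact h1.ne e

theorem bound {ρ P C κ x : ℝ} (hρ : 0 < ρ) (hP : 0 < P) (hC : 0 ≤ C) (hκ : 0 < κ) (hx : 0 ≤ x)
    (h : κ * P / (2 * √ρ) - C / κ ≤ Real.pi * x) :
    κ ^ 2 ≤ (2 * Real.pi * √ρ / P) ^ 2 * x ^ 2 + 2 * (C * (2 * √ρ / P)) := by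
  have hr : 0 < √ρ := Real.sqrt_pos.mpr hρ
  have hb : 0 < 2 * √ρ / P := by positivity
  have h1 : κ * (κ - 2 * Real.pi * √ρ / P * x) ≤ C * (2 * √ρ / P) := by
    have h2 := mul_le_mul_of_nonneg_left h (mul_pos hκ hb).le
    have e1 : κ * (2 * √ρ / P) * (κ * P / (2 * √ρ) - C / κ) = κ * κ - C * (2 * √ρ / P) := by
      field_simp
    have e2 : κ * (2 * √ρ / P) * (Real.pi * x) = κ * (2 * Real.pi * √ρ / P * x) := by ring
    rw [e1, e2] at h2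
    linarith
  rw [← mul_pow]
  have hy : 0 ≤ 2 * Real.pi * √ρ / P * x := by have := Real.pi_pos; positivity
  have hC' : 0 ≤ C * (2 * √ρ / P) := by positivity
  generalize 2 * Real.pi * √ρ / P * x = y at *
  generalize C * (2 * √ρ / P) = K at *
  rcases le_total κ y with h3 | h3
  · nlinarith
  · nlinarith

end Lamj

open Lamj in
theorem p_LAMJ (hDCONT : S_DCONT) (hASYM : S_ASYM) (hPARAB : S_PARAB) :
    S_LAMJ := by
  intro ρ P w1 w2 hρ hP hw1 hw2 hint hO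
  obtain ⟨m1, c1, h1⟩ := exm hDCONT hρ hP hw1
  obtain ⟨m2, c2, h2⟩ := exm hDCONT hρ hP hw2
  obtain ⟨C1, L1, hL1, a1⟩ := hASYM ρ P w1 hρ hP hw1
  obtain ⟨C2, L2, hL2, a2⟩ := hASYM ρ P w2 hρ hP hw2
  have hpi := Real.pi_pos
  set C := max (max C1 C2) 0 with hC
  set L := max L1 L2 with hL
  set K := 2 * (C * (2 * √ρ / P)) + L ^ 2 with hK
  have hC0 : 0 ≤ C := le_max_right _ _
  have hK0 : 0 ≤ 2 * (C * (2 * √ρ / P)) := by positivity
  have hbd : ∀ (j : ℕ) (κ : ℝ), 1 ≤ κ → min (m1 κ) (m2 κ) ≤ Real.pi * j →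
      κ ^ 2 ≤ (2 * Real.pi * √ρ / P) ^ 2 * (j : ℝ) ^ 2 + K := by
    intro j κ hκ hm
    have hκ0 : 0 < κ := by linarith
    rcases le_total κ L with hl | hl
    · have : κ ^ 2 ≤ L ^ 2 := pow_le_pow_left₀ hκ0.le hl 2
      have : 0 ≤ (2 * Real.pi * √ρ / P) ^ 2 * (j : ℝ) ^ 2 := by positivity
      linarith
    · have key : κ * P / (2 * √ρ) - C / κ ≤ Real.pi * j := by
        by_contra hlt
        rw [not_le] at hlt
        have d1 : C1 / κ ≤ C / κ :=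
          div_le_div_of_nonneg_right ((le_max_left _ _).trans (le_max_left _ _)) hκ0.le
        have d2 : C2 / κ ≤ C / κ :=
          div_le_div_of_nonneg_right ((le_max_right _ _).trans (le_max_left _ _)) hκ0.le
        obtain ⟨p1, p2, hs, e⟩ := (h1 κ hκ).2
        obtain ⟨q1, q2, hs', e'⟩ := (h2 κ hκ).2
        have b1 := a1 κ ((le_max_left _ _).trans hl) j (by linarith) p1 p2 hs
        have b2 := a2 κ ((le_max_right _ _).trans hl) j (by linarith) q1 q2 hs'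
        rw [e] at b1
        rw [e'] at b2
        exact absurd hm (not_le.mpr (lt_min b1 b2))
      have := bound hρ hP hC0 hκ0 (Nat.cast_nonneg j) key
      have : 0 ≤ L ^ 2 := by positivity
      linarith
  have hone : min (m1 1) (m2 1) < 3 * Real.pi := by
    obtain ⟨p1, p2, hs, e⟩ := (h1 1 le_rfl).2
    rw [disp_one hρ hw1 hs] at e
    exact (min_le_left _ _).trans_lt (by linarith)
  have h3 : ∀ j : ℕ, 3 ≤ j → 3 * Real.pi ≤ Real.pi * j := fun j hj => by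
    have : (3 : ℝ) ≤ j := by exact_mod_cast hj
    nlinarith
  have hex : ∀ j : ℕ, ∃ k : ℝ, 3 ≤ j → 1 < k ∧ min (m1 k) (m2 k) = Real.pi * j ∧
      ∀ κ, 1 ≤ κ → min (m1 κ) (m2 κ) ≤ Real.pi * j → κ ≤ k := fun j => by
    by_cases hj : 3 ≤ j
    · obtain ⟨k, hk⟩ := last (m := fun κ => min (m1 κ) (m2 κ)) (c1.min c2)
        (hone.trans_le (h3 j hj)) (B := (2 * Real.pi * √ρ / P) ^ 2 * (j : ℝ) ^ 2 + K)
        fun κ hκ hm => by nlinarith [hbd j κ hκ hm]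
      exact ⟨k, fun _ => hk⟩
    · exact ⟨0, fun h => absurd h hj⟩
  choose κ hκ using hex
  refine ⟨κ, K, fun j hj => ?_⟩
  obtain ⟨k1, k2, -⟩ := hκ j hj
  obtain ⟨-, l2, l3⟩ := hκ (j + 1) (by omega)
  have hk0 : 0 < κ j := by linarith
  refine ⟨k1, lt_of_le_of_ne (l3 _ k1.le ?_) fun e => ?_, hbd j _ k1.le k2.le, ?_⟩
  · rw [k2]
    push_cast
    linarith
  · rw [← e, k2] at l2
    push_cast at l2
    linarith
  · have g1 : AllGE ρ P w1 (κ j) (Real.pi * j) := fun p1 p2 hs =>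
      (k2.ge.trans (min_le_left _ _)).trans ((h1 _ k1.le).1 p1 p2 hs)
    have g2 : AllGE ρ P w2 (κ j) (Real.pi * j) := fun p1 p2 hs =>
      (k2.ge.trans (min_le_right _ _)).trans ((h2 _ k1.le).1 p1 p2 hs)
    refine hO (κ j) k1 (fun p1 p2 hs => (h3 j hj).trans (g1 p1 p2 hs))
      (fun p1 p2 hs => (h3 j hj).trans (g2 p1 p2 hs)) ?_
    rcases min_choice (m1 (κ j)) (m2 (κ j)) with e | e
    · obtain ⟨p1, p2, hs, e'⟩ := (h1 _ k1.le).2
      exact Or.inl ⟨p1, p2, hs, hPARAB ρ P _ w1 p1 p2 j hρ hP hk0 hw1 g1 hs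
        (e'.trans (e.symm.trans k2))⟩
    · obtain ⟨p1, p2, hs, e'⟩ := (h2 _ k1.le).2
      exact Or.inr ⟨p1, p2, hs, hPARAB ρ P _ w2 p1 p2 j hρ hP hk0 hw2 g2 hs
        (e'.trans (e.symm.trans k2))⟩

end Pool.Agent.P.MP_785924_gt
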