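import Pool.Agent.P.MP_785924_gt.A.IfaceA
import Pool.Agent.P.MP_785924_gt.A.Tb

/-! Step LEN of the free boundary annulus project. -/

namespace Pool.Agent.P.MP_785924_gt

open scoped ContDiff
open Set Filter Topology

namespace Len

theorem int_le {F F' f g : ℝ → ℝ} {P : ℝ} (hP : 0 ≤ P) (hf : Continuous f) (hg : Continuous g)
    (hF : ∀ θ, HasDerivAt F (F' θ) θ) (hper : F P = F 0) (hle : ∀ θ, f θ ≤ g θ + F' θ) :
    (∫ θ in (0 : ℝ)..P, f θ) ≤ ∫ θ in (0 : ℝ)..P, g θ := by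
  have hd : ∀ θ, HasDerivAt (fun u => (∫ s in (0 : ℝ)..u, g s) - (∫ s in (0 : ℝ)..u, f s) + F u)
      (g θ - f θ + F' θ) θ := fun θ =>
    ((hg.integral_hasStrictDerivAt 0 θ).hasDerivAt.fun_sub
      (hf.integral_hasStrictDerivAt 0 θ).hasDerivAt).fun_add (hF θ)
  have hm := monotone_of_deriv_nonneg (fun θ => (hd θ).differentiableAt)
    (fun θ => by rw [(hd θ).deriv]; linarith [hle θ]) hP
  simp only [intervalIntegral.integral_same] at hm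
  linarith

theorem scal {a b h n t : ℝ → ℝ} {k P : ℝ} (hP : 0 ≤ P) (hk : 0 < k) (ca : Continuous a)
    (cb : Continuous b) (pa : ∀ θ, 0 < a θ) (pb : ∀ θ, 0 < b θ) (ph : ∀ θ, 0 < h θ)
    (pn : ∀ θ, 0 < n θ) (dh : ∀ θ, HasDerivAt h (a θ * t θ) θ)
    (dn : ∀ θ, HasDerivAt n (-(b θ * t θ)) θ)
    (dt : ∀ θ, HasDerivAt t (-(a θ * h θ) + b θ * n θ) θ)
    (hs : ∀ θ, k ^ 2 = h θ ^ 2 + n θ ^ 2 + t θ ^ 2) (eh : h P = h 0) (en : n P = n 0)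
    (et : t P = t 0) :
    (∫ θ in (0 : ℝ)..P, a θ) ≤ (∫ θ in (0 : ℝ)..P, a θ * n θ * k / (n θ ^ 2 + t θ ^ 2)) ∧
    (∫ θ in (0 : ℝ)..P, b θ) ≤ ∫ θ in (0 : ℝ)..P, a θ * n θ * k / (n θ ^ 2 + t θ ^ 2) := by
  have cn : Continuous n := continuous_iff_continuousAt.2 fun θ => (dn θ).continuousAt
  have ct : Continuous t := continuous_iff_continuousAt.2 fun θ => (dt θ).continuousAt
  have q1 : ∀ θ, 0 < n θ ^ 2 + t θ ^ 2 := fun θ => by have := pn θ; positivity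
  have q2 : ∀ θ, 0 < h θ ^ 2 + t θ ^ 2 := fun θ => by have := ph θ; positivity
  have cg : Continuous fun θ => a θ * n θ * k / (n θ ^ 2 + t θ ^ 2) := by
    fun_prop (disch := intro θ; exact (q1 θ).ne')
  have hk1 : ∀ θ, h θ ≤ k := fun θ =>
    abs_le_of_sq_le_sq' (by nlinarith [hs θ, sq_nonneg (n θ), sq_nonneg (t θ)]) hk.le |>.2
  have hk2 : ∀ θ, n θ ≤ k := fun θ =>
    abs_le_of_sq_le_sq' (by nlinarith [hs θ, sq_nonneg (h θ), sq_nonneg (t θ)]) hk.le |>.2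
  have d1 : ∀ θ, HasDerivAt (fun u => Real.arctan (t u / n u))
      (b θ - a θ * h θ * n θ / (n θ ^ 2 + t θ ^ 2)) θ := fun θ =>
    (((dt θ).fun_div (dn θ) (pn θ).ne').arctan).congr_deriv (by
      have := (pn θ).ne'
      have := (q1 θ).ne'
      field_simp
      ring)
  have d2 : ∀ θ, HasDerivAt (fun u => Real.arctan (t u / h u))
      (-a θ + b θ * n θ * h θ / (h θ ^ 2 + t θ ^ 2)) θ := fun θ =>
    (((dt θ).fun_div (dh θ) (ph θ).ne').arctan).congr_deriv (by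
      have := (ph θ).ne'
      have := (q2 θ).ne'
      field_simp
      ring)
  have d3 : ∀ θ, HasDerivAt (fun u => Real.arctan (t u * k / (h u * n u)))
      (b θ * h θ * k / (h θ ^ 2 + t θ ^ 2) - a θ * n θ * k / (n θ ^ 2 + t θ ^ 2)) θ := fun θ =>
    ((((dt θ).mul_const k).fun_div ((dh θ).fun_mul (dn θ))
      (mul_pos (ph θ) (pn θ)).ne').arctan).congr_deriv (by
      have := (ph θ).ne'
      have := (pn θ).ne'
      have := (q1 θ).ne'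
      have := (q2 θ).ne'
      have e : 1 + (t θ * k / (h θ * n θ)) ^ 2 =
          (h θ ^ 2 + t θ ^ 2) * (n θ ^ 2 + t θ ^ 2) / (h θ * n θ) ^ 2 := by
        field_simp
        rw [hs θ]
        ring
      rw [e]
      field_simp
      ring)
  constructor
  · refine int_le hP ca cg (fun θ => (d3 θ).fun_sub (d2 θ))
      (by simp only [eh, en, et]) fun θ => ?_
    have : b θ * n θ * h θ / (h θ ^ 2 + t θ ^ 2) ≤ b θ * h θ * k / (h θ ^ 2 + t θ ^ 2) := by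
      refine div_le_div_of_nonneg_right ?_ (q2 θ).le
      have := mul_le_mul_of_nonneg_left (hk2 θ) (mul_pos (pb θ) (ph θ)).le
      linarith
    linarith
  · refine int_le hP cb cg d1 (by simp only [en, et]) fun θ => ?_
    have : a θ * h θ * n θ / (n θ ^ 2 + t θ ^ 2) ≤ a θ * n θ * k / (n θ ^ 2 + t θ ^ 2) := by
      refine div_le_div_of_nonneg_right ?_ (q1 θ).le
      have := mul_le_mul_of_nonneg_left (hk1 θ) (mul_pos (pa θ) (pn θ)).le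
      linarith
    linarith

theorem wind (hANG : S_ANG) {y1 y2 z1 z2 f : ℝ → ℝ} {P : ℝ} (hP : 0 < P) (c1 : Continuous z1)
    (c2 : Continuous z2) (d1 : ∀ θ, HasDerivAt y1 (z1 θ) θ) (d2 : ∀ θ, HasDerivAt y2 (z2 θ) θ)
    (hne : ∀ θ, y1 θ ^ 2 + y2 θ ^ 2 ≠ 0) (cf : Continuous f)
    (hf : ∀ θ, (y1 θ * z2 θ - y2 θ * z1 θ) / (y1 θ ^ 2 + y2 θ ^ 2) = f θ)
    (e1 : y1 P = y1 0) (e2 : y2 P = y2 0)
    (hTP : ∀ (p q θ1 θ2 θ3 θ4 : ℝ), θ1 < θ2 → θ2 < θ3 → θ3 < θ4 → θ4 < θ1 + P →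
      0 < p * y1 θ1 + q * y2 θ1 → p * y1 θ2 + q * y2 θ2 < 0 → 0 < p * y1 θ3 + q * y2 θ3 →
      p * y1 θ4 + q * y2 θ4 < 0 → False) :
    (∫ θ in (0 : ℝ)..P, f θ) ≤ 2 * Real.pi := by
  by_contra hc
  have hc' := not_le.1 hc
  have rp : ∀ θ, 0 < √(y1 θ ^ 2 + y2 θ ^ 2) := fun θ =>
    Real.sqrt_pos.2 (lt_of_le_of_ne (by positivity) (hne θ).symm)
  obtain ⟨a0, ha1, ha2⟩ : ∃ a0 : ℝ, y1 0 = √(y1 0 ^ 2 + y2 0 ^ 2) * Real.cos a0 ∧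
      y2 0 = √(y1 0 ^ 2 + y2 0 ^ 2) * Real.sin a0 := by
    have hn : ‖(⟨y1 0, y2 0⟩ : ℂ)‖ = √(y1 0 ^ 2 + y2 0 ^ 2) := by
      rw [Complex.norm_eq_sqrt_sq_add_sq]
    refine ⟨Complex.arg ⟨y1 0, y2 0⟩, ?_, ?_⟩
    · rw [← hn, Complex.norm_mul_cos_arg]
    · rw [← hn, Complex.norm_mul_sin_arg]
  have key := hANG y1 y2 z1 z2 a0 c1 c2 d1 d2 hne ha1 ha2
  simp only [hf] at key
  set al : ℝ → ℝ := fun θ => ∫ s in (0 : ℝ)..θ, f s with hal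
  have cal : Continuous al := continuous_iff_continuousAt.2 fun θ =>
    (cf.integral_hasStrictDerivAt 0 θ).hasDerivAt.continuousAt
  have al0 : al 0 = 0 := intervalIntegral.integral_same
  have lf : ∀ θ, -Real.sin a0 * y1 θ + Real.cos a0 * y2 θ =
      √(y1 θ ^ 2 + y2 θ ^ 2) * Real.sin (al θ) := by
    intro θ
    obtain ⟨k1, k2⟩ := key θ
    generalize √(y1 θ ^ 2 + y2 θ ^ 2) = r at k1 k2 ⊢
    rw [k1, k2, Real.cos_add, Real.sin_add]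
    change _ = r * Real.sin (∫ s in (0 : ℝ)..θ, f s)
    linear_combination (r * Real.sin (∫ s in (0 : ℝ)..θ, f s)) * Real.sin_sq_add_cos_sq a0
  have hcos : Real.cos (al P) = 1 := by
    obtain ⟨k1, k2⟩ := key P
    rw [e1, e2] at k1 k2
    have r0 := rp 0
    generalize √(y1 0 ^ 2 + y2 0 ^ 2) = r at k1 k2 ha1 ha2 r0
    have m1 : Real.cos (a0 + al P) = Real.cos a0 := mul_left_cancel₀ r0.ne' (k1.symm.trans ha1)
    have m2 : Real.sin (a0 + al P) = Real.sin a0 := mul_left_cancel₀ r0.ne' (k2.symm.trans ha2)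
    have e : al P = (a0 + al P) - a0 := by ring
    rw [e, Real.cos_sub, m1, m2]
    linear_combination Real.sin_sq_add_cos_sq a0
  have hpi := Real.pi_pos
  obtain ⟨m, hm⟩ := (Real.cos_eq_one_iff _).1 hcos
  have h4 : 4 * Real.pi ≤ al P := by
    have h1 : (1 : ℝ) < m := by
      by_contra h
      have h' := not_lt.1 h
      have : (m : ℝ) * (2 * Real.pi) ≤ 1 * (2 * Real.pi) :=
        mul_le_mul_of_nonneg_right h' (by positivity)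
      change 2 * Real.pi < al P at hc'
      linarith
    have h2 : (2 : ℤ) ≤ m := by
      have : (1 : ℤ) < m := by exact_mod_cast h1
      omega
    have h3 : (2 : ℝ) ≤ m := by exact_mod_cast h2
    nlinarith
  have ivt : ∀ u v : ℝ, u ≤ P → al u < v → v ≤ al P → ∃ θ, u < θ ∧ θ ≤ P ∧ al θ = v := by
    intro u v hu h1 h2
    obtain ⟨θ, hθ, e⟩ := intermediate_value_Icc hu cal.continuousOn ⟨h1.le, h2⟩
    refine ⟨θ, lt_of_le_of_ne hθ.1 ?_, hθ.2, e⟩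
    rintro rfl
    exact h1.ne e
  obtain ⟨θ1, a1, b1, g1⟩ := ivt 0 (Real.pi / 2) hP.le (by rw [al0]; positivity) (by linarith)
  obtain ⟨θ2, a2, b2, g2⟩ := ivt θ1 (Real.pi / 2 + Real.pi) b1 (by linarith) (by linarith)
  obtain ⟨θ3, a3, b3, g3⟩ := ivt θ2 (Real.pi / 2 + Real.pi + Real.pi) b2 (by linarith) (by linarith)
  obtain ⟨θ4, a4, b4, g4⟩ := ivt θ3 (Real.pi / 2 + Real.pi + Real.pi + Real.pi) b3 (by linarith)
    (by linarith)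
  refine hTP (-Real.sin a0) (Real.cos a0) θ1 θ2 θ3 θ4 a2 a3 a4 (by linarith) ?_ ?_ ?_ ?_
  · rw [lf, g1]
    simpa using rp θ1
  · rw [lf, g2]
    simpa [Real.sin_add_pi] using rp θ2
  · rw [lf, g3]
    simpa [Real.sin_add_pi] using rp θ3
  · rw [lf, g4]
    simpa [Real.sin_add_pi] using rp θ4

/-- The determinant of the frame. -/
def dt3 (x ν e : Fin 3 → ℝ → ℝ) (θ : ℝ) : ℝ :=
  ν 0 θ * (x 1 θ * e 2 θ - x 2 θ * e 1 θ) + ν 1 θ * (x 2 θ * e 0 θ - x 0 θ * e 2 θ) +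
    ν 2 θ * (x 0 θ * e 1 θ - x 1 θ * e 0 θ)

variable {ρ P : ℝ} {w : ℝ → ℝ} {x ν e : Fin 3 → ℝ → ℝ}

theorem dt3_const (h : Curve ρ P w x ν e) (θ : ℝ) : dt3 x ν e θ = dt3 x ν e 0 := by
  have hd : ∀ θ, HasDerivAt (dt3 x ν e) 0 θ := fun θ =>
    ((((h.dν 0 θ).fun_mul (((h.dx 1 θ).fun_mul (h.de 2 θ)).fun_sub
        ((h.dx 2 θ).fun_mul (h.de 1 θ)))).fun_add
      ((h.dν 1 θ).fun_mul (((h.dx 2 θ).fun_mul (h.de 0 θ)).fun_sub
        ((h.dx 0 θ).fun_mul (h.de 2 θ))))).fun_add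
      ((h.dν 2 θ).fun_mul (((h.dx 0 θ).fun_mul (h.de 1 θ)).fun_sub
        ((h.dx 1 θ).fun_mul (h.de 0 θ))))).congr_deriv (by ring)
  exact is_const_of_deriv_eq_zero (fun θ => (hd θ).differentiableAt) (fun θ => (hd θ).deriv) θ 0

theorem dt3_sq (h : Curve ρ P w x ν e) (θ : ℝ) : dt3 x ν e θ ^ 2 = ρ ^ 2 := by
  have e1 : dt3 x ν e θ ^ 2 =
      (x 0 θ ^ 2 + x 1 θ ^ 2 + x 2 θ ^ 2) * (ν 0 θ ^ 2 + ν 1 θ ^ 2 + ν 2 θ ^ 2) *
        (e 0 θ ^ 2 + e 1 θ ^ 2 + e 2 θ ^ 2) +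
      2 * (x 0 θ * ν 0 θ + x 1 θ * ν 1 θ + x 2 θ * ν 2 θ) *
        (x 0 θ * e 0 θ + x 1 θ * e 1 θ + x 2 θ * e 2 θ) *
        (ν 0 θ * e 0 θ + ν 1 θ * e 1 θ + ν 2 θ * e 2 θ) -
      (x 0 θ ^ 2 + x 1 θ ^ 2 + x 2 θ ^ 2) * (ν 0 θ * e 0 θ + ν 1 θ * e 1 θ + ν 2 θ * e 2 θ) ^ 2 -
      (ν 0 θ ^ 2 + ν 1 θ ^ 2 + ν 2 θ ^ 2) * (x 0 θ * e 0 θ + x 1 θ * e 1 θ + x 2 θ * e 2 θ) ^ 2 -
      (e 0 θ ^ 2 + e 1 θ ^ 2 + e 2 θ ^ 2) * (x 0 θ * ν 0 θ + x 1 θ * ν 1 θ + x 2 θ * ν 2 θ) ^ 2 := by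
    unfold dt3
    ring
  rw [e1, h.xx, h.νν, h.ee, h.xν, h.xe, h.νe]
  ring

theorem expand (h : Curve ρ P w x ν e) (c v : Fin 3 → ℝ) (θ : ℝ) :
    c 0 * v 0 + c 1 * v 1 + c 2 * v 2 = cmp c x θ * cmp v x θ / ρ ^ 2 + cmp c ν θ * cmp v ν θ +
      cmp c e θ * cmp v e θ := by
  have h00 := h.compl θ 0 0
  have h01 := h.compl θ 0 1
  have h02 := h.compl θ 0 2
  have h11 := h.compl θ 1 1
  have h12 := h.compl θ 1 2
  have h22 := h.compl θ 2 2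
  simp at h00 h01 h02 h11 h12 h22
  unfold cmp
  linear_combination (-(c 0 * v 0)) * h00 - (c 0 * v 1 + c 1 * v 0) * h01 -
    (c 0 * v 2 + c 2 * v 0) * h02 - (c 1 * v 1) * h11 - (c 1 * v 2 + c 2 * v 1) * h12 -
    (c 2 * v 2) * h22

theorem det_c (h : Curve ρ P w x ν e) (c : Fin 3 → ℝ) (θ : ℝ) :
    c 0 * (x 1 θ * e 2 θ - x 2 θ * e 1 θ) + c 1 * (x 2 θ * e 0 θ - x 0 θ * e 2 θ) +
      c 2 * (x 0 θ * e 1 θ - x 1 θ * e 0 θ) = cmp c ν θ * dt3 x ν e 0 := by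
  have := expand h c ![x 1 θ * e 2 θ - x 2 θ * e 1 θ, x 2 θ * e 0 θ - x 0 θ * e 2 θ,
    x 0 θ * e 1 θ - x 1 θ * e 0 θ] θ
  rw [← dt3_const h θ]
  simp only [cmp, dt3, Matrix.cons_val_zero, Matrix.cons_val_one, Matrix.cons_val] at this ⊢
  rw [this]
  ring

theorem ex_orth (c : Fin 3 → ℝ) : ∃ a : Fin 3 → ℝ, a 0 * c 0 + a 1 * c 1 + a 2 * c 2 = 0 ∧
    0 < a 0 ^ 2 + a 1 ^ 2 + a 2 ^ 2 := by
  by_cases h : c 0 = 0
  · exact ⟨![1, 0, 0], by simp [h], by simp⟩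
  · refine ⟨![c 1, -c 0, 0], by simp; ring, ?_⟩
    have : 0 < c 0 ^ 2 := by positivity
    simp
    positivity

theorem cmp_per {P : ℝ} {x : Fin 3 → ℝ → ℝ} (h : ∀ i, Sm1 P (x i)) (a : Fin 3 → ℝ) :
    cmp a x P = cmp a x 0 := by
  have := fun i => (h i).2 0
  simp only [zero_add] at this
  simp only [cmp, this]

theorem cmp_cont {P : ℝ} {x : Fin 3 → ℝ → ℝ} (h : ∀ i, Sm1 P (x i)) (a : Fin 3 → ℝ) :
    Continuous (cmp a x) := by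
  have := fun i => (h i).cont
  unfold cmp
  fun_prop

end Len

open Len in
theorem p_LEN (hANG : S_ANG) :
    S_LEN := by
  intro ρ P w x ν e c h hTP hc
  have hρ := h.hρ
  have cw := h.smw.cont
  have hk2 : 0 < c 0 ^ 2 + c 1 ^ 2 + c 2 ^ 2 := by
    have := expand h c c 0
    have h1 := (hc 0).1
    have h2 : 0 < cmp c x 0 * cmp c x 0 / ρ ^ 2 := by positivity
    nlinarith [mul_self_nonneg (cmp c ν 0), mul_self_nonneg (cmp c e 0)]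
  obtain ⟨k, hk, hkk⟩ : ∃ k : ℝ, 0 < k ∧ k ^ 2 = c 0 ^ 2 + c 1 ^ 2 + c 2 ^ 2 :=
    ⟨√_, Real.sqrt_pos.2 hk2, Real.sq_sqrt hk2.le⟩
  have hs : ∀ θ, k ^ 2 = (cmp c x θ / ρ) ^ 2 + (-cmp c ν θ) ^ 2 + cmp c e θ ^ 2 := by
    intro θ
    have := expand h c c θ
    rw [hkk]
    linear_combination this
  obtain ⟨s1, s2⟩ := scal (a := fun θ => Real.exp (w θ) / ρ) (b := fun θ => 1 / Real.exp (w θ))
    (h := fun θ => cmp c x θ / ρ) (n := fun θ => -cmp c ν θ) (t := cmp c e) h.hP.le hk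
    (by fun_prop) (by fun_prop (disch := intro θ; positivity)) (fun θ => by positivity)
    (fun θ => by positivity) (fun θ => div_pos (hc θ).1 hρ) (fun θ => neg_pos.2 (hc θ).2)
    (fun θ => ((h.sys3 c θ).1.div_const ρ).congr_deriv (by ring))
    (fun θ => ((h.sys3 c θ).2.1.fun_neg).congr_deriv (by ring))
    (fun θ => ((h.sys3 c θ).2.2).congr_deriv (by ring)) hs
    (by simp only [cmp_per h.smx]) (by simp only [cmp_per h.smν]) (cmp_per h.sme c)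
  suffices hw : (∫ θ in (0 : ℝ)..P, Real.exp (w θ) / ρ * (-cmp c ν θ) * k /
      ((-cmp c ν θ) ^ 2 + cmp c e θ ^ 2)) ≤ 2 * Real.pi from ⟨s1.trans hw, s2.trans hw⟩
  obtain ⟨a, ha, hm⟩ := ex_orth c
  obtain ⟨D, hD⟩ : ∃ D, D = dt3 x ν e 0 := ⟨_, rfl⟩
  have hD2 : D ^ 2 = ρ ^ 2 := hD ▸ dt3_sq h 0
  obtain ⟨σ, hσ⟩ : ∃ σ, σ = -(D / (ρ * k)) := ⟨_, rfl⟩
  have hσ1 : σ ^ 2 * k ^ 2 = 1 := by
    rw [hσ]
    field_simp
    exact hD2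
  have hσ2 : σ * D * k = -ρ := by
    rw [hσ]
    field_simp
    rw [hD2]
  let a2 : Fin 3 → ℝ := ![σ * (c 1 * a 2 - c 2 * a 1), σ * (c 2 * a 0 - c 0 * a 2),
    σ * (c 0 * a 1 - c 1 * a 0)]
  have q1 : ∀ θ, 0 < (-cmp c ν θ) ^ 2 + cmp c e θ ^ 2 := fun θ => by
    have := neg_pos.2 (hc θ).2
    positivity
  have n1 : ∀ θ, cmp a x θ ^ 2 + cmp a2 x θ ^ 2 = (a 0 ^ 2 + a 1 ^ 2 + a 2 ^ 2) * ρ ^ 2 *
      ((-cmp c ν θ) ^ 2 + cmp c e θ ^ 2) / k ^ 2 := by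
    intro θ
    have g : cmp a2 x θ ^ 2 = σ ^ 2 * (k ^ 2 * (a 0 ^ 2 + a 1 ^ 2 + a 2 ^ 2) * ρ ^ 2 -
        k ^ 2 * cmp a x θ ^ 2 - (a 0 ^ 2 + a 1 ^ 2 + a 2 ^ 2) * cmp c x θ ^ 2) := by
      rw [hkk, ← h.xx θ]
      simp only [cmp, a2, Matrix.cons_val_zero, Matrix.cons_val_one, Matrix.cons_val]
      linear_combination σ ^ 2 * (2 * (a 0 * x 0 θ + a 1 * x 1 θ + a 2 * x 2 θ) *
        (c 0 * x 0 θ + c 1 * x 1 θ + c 2 * x 2 θ) - (x 0 θ ^ 2 + x 1 θ ^ 2 + x 2 θ ^ 2) *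
        (a 0 * c 0 + a 1 * c 1 + a 2 * c 2)) * ha
    have g2 : cmp c x θ ^ 2 = ρ ^ 2 * (k ^ 2 - ((-cmp c ν θ) ^ 2 + cmp c e θ ^ 2)) := by
      rw [hs θ]
      field_simp
      ring
    rw [g, g2, eq_div_iff (by positivity)]
    linear_combination (-(k ^ 2 * cmp a x θ ^ 2) + (a 0 ^ 2 + a 1 ^ 2 + a 2 ^ 2) * ρ ^ 2 *
      ((-cmp c ν θ) ^ 2 + cmp c e θ ^ 2)) * hσ1
  have n2 : ∀ θ, cmp a x θ * cmp a2 e θ - cmp a2 x θ * cmp a e θ =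
      (a 0 ^ 2 + a 1 ^ 2 + a 2 ^ 2) * ρ * (-cmp c ν θ) / k := by
    intro θ
    have g := det_c h c θ
    rw [← hD] at g
    have g2 : cmp a x θ * cmp a2 e θ - cmp a2 x θ * cmp a e θ =
        σ * (a 0 ^ 2 + a 1 ^ 2 + a 2 ^ 2) * (cmp c ν θ * D) := by
      rw [← g]
      simp only [cmp, a2, Matrix.cons_val_zero, Matrix.cons_val_one, Matrix.cons_val]
      linear_combination (-σ * (a 0 * (x 1 θ * e 2 θ - x 2 θ * e 1 θ) +
        a 1 * (x 2 θ * e 0 θ - x 0 θ * e 2 θ) + a 2 * (x 0 θ * e 1 θ - x 1 θ * e 0 θ))) * ha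
    rw [g2, eq_div_iff hk.ne']
    linear_combination (a 0 ^ 2 + a 1 ^ 2 + a 2 ^ 2) * cmp c ν θ * hσ2
  have cν := cmp_cont h.smν c
  have ce := cmp_cont h.sme c
  have ca := cmp_cont h.sme a
  have ca2 := cmp_cont h.sme a2
  refine wind hANG (y1 := cmp a x) (y2 := cmp a2 x) (z1 := fun θ => Real.exp (w θ) * cmp a e θ)
    (z2 := fun θ => Real.exp (w θ) * cmp a2 e θ) h.hP (by fun_prop) (by fun_prop)
    (fun θ => (h.sys3 a θ).1) (fun θ => (h.sys3 a2 θ).1) (fun θ => ?_)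
    (by fun_prop (disch := intro θ; exact (q1 θ).ne')) (fun θ => ?_) (cmp_per h.smx a)
    (cmp_per h.smx a2) ?_
  · rw [n1]
    have := q1 θ
    positivity
  · have e1 : cmp a x θ * (Real.exp (w θ) * cmp a2 e θ) - cmp a2 x θ * (Real.exp (w θ) * cmp a e θ)
        = Real.exp (w θ) * (cmp a x θ * cmp a2 e θ - cmp a2 x θ * cmp a e θ) := by ring
    rw [e1, n1, n2]
    have := (q1 θ).ne'
    field_simp
  · intro p q θ1 θ2 θ3 θ4 l1 l2 l3 l4 g1 g2 g3 g4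
    have e1 : ∀ θ, cmp (fun i => p * a i + q * a2 i) x θ = p * cmp a x θ + q * cmp a2 x θ := by
      intro θ
      simp only [cmp]
      ring
    exact hTP (fun i => p * a i + q * a2 i) θ1 θ2 θ3 θ4 l1 l2 l3 l4 (by rwa [e1]) (by rwa [e1])
      (by rwa [e1]) (by rwa [e1])

end Pool.Agent.P.MP_785924_gt
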