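import Pool.Agent.P.MP_785924_gt.A.IfaceA
import Pool.Agent.P.MP_785924_gt.A.Tb

/-! Step MEAN of the free boundary annulus project. -/

namespace Pool.Agent.P.MP_785924_gt

open scoped ContDiff
open Set Filter Topology

namespace Mean

open Matrix

/-- A rotation of three-space fixing two independent vectors is the identity. -/
theorem rotI (R : Matrix (Fin 3) (Fin 3) ℝ) (hR : Rᵀ * R = 1) (hd : R.det = 1) (b m : Fin 3 → ℝ)
    (hb : R *ᵥ b = b) (hm : R *ᵥ m = m) (hc : crossProduct b m ⬝ᵥ crossProduct b m ≠ 0) :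
    R = 1 := by
  set c := crossProduct b m with hcdef
  have hdet : ∀ y : Fin 3 → ℝ, (Matrix.of ![b, m, y]).det = y ⬝ᵥ c := by
    intro y
    rw [hcdef, triple_product_permutation]
    exact (triple_product_eq_det b m y).symm
  have hmul : ∀ y : Fin 3 → ℝ, Matrix.of ![b, m, y] * Rᵀ = Matrix.of ![b, m, R *ᵥ y] := by
    intro y
    ext i j
    have h1 := congrFun hb j
    have h2 := congrFun hm j
    simp only [mulVec, dotProduct, Fin.sum_univ_three] at h1 h2
    fin_cases i <;> simp [Matrix.mul_apply, mulVec, dotProduct, Fin.sum_univ_three] <;> linarith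
  have h1 : (R *ᵥ c) ⬝ᵥ c = c ⬝ᵥ c := by
    rw [← hdet, ← hdet, ← hmul, det_mul, det_transpose, hd, mul_one]
  have h2 : (R *ᵥ c) ⬝ᵥ (R *ᵥ c) = c ⬝ᵥ c := by
    rw [dotProduct_mulVec, ← mulVec_transpose, mulVec_mulVec, hR, one_mulVec]
  have h3 : R *ᵥ c = c := by
    have : (R *ᵥ c - c) ⬝ᵥ (R *ᵥ c - c) = 0 := by
      rw [sub_dotProduct, dotProduct_sub, dotProduct_sub, h2, dotProduct_comm c (R *ᵥ c), h1]
      ring
    exact sub_eq_zero.1 (dotProduct_self_eq_zero.1 this)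
  have h4 := hmul c
  rw [h3] at h4
  have hu : IsUnit (Matrix.of ![b, m, c]).det := by
    rw [hdet]; exact isUnit_iff_ne_zero.2 hc
  have h5 : Rᵀ = 1 := by
    have := congrArg (fun M => (Matrix.of ![b, m, c])⁻¹ * M) h4
    simpa only [← Matrix.mul_assoc, Matrix.nonsing_inv_mul _ hu, Matrix.one_mul] using this
  rw [← transpose_transpose R, h5, transpose_one]

variable {ρ P Q σ : ℝ} {w : ℝ → ℝ} {x ν e : Fin 3 → ℝ → ℝ} {b : Fin 3 → ℝ}

/-- The frame as a matrix. -/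
noncomputable def fr (ρ : ℝ) (x ν e : Fin 3 → ℝ → ℝ) (θ : ℝ) : Matrix (Fin 3) (Fin 3) ℝ :=
  Matrix.of ![fun i => x i θ / ρ, fun i => ν i θ, fun i => e i θ]

theorem fr_orth (h : Curve ρ P w x ν e) (θ : ℝ) : (fr ρ x ν e θ)ᵀ * fr ρ x ν e θ = 1 := by
  ext i j
  rw [Matrix.one_apply, ← h.compl θ i j]
  simp [fr, Matrix.mul_apply, Fin.sum_univ_three]
  ring

theorem fr_det (h : Curve ρ P w x ν e) (s t : ℝ) : (fr ρ x ν e s).det = (fr ρ x ν e t).det := by
  have hd : ∀ θ, HasDerivAt (fun θ => x 0 θ * ν 1 θ * e 2 θ - x 0 θ * ν 2 θ * e 1 θ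
      - x 1 θ * ν 0 θ * e 2 θ + x 1 θ * ν 2 θ * e 0 θ + x 2 θ * ν 0 θ * e 1 θ
      - x 2 θ * ν 1 θ * e 0 θ) 0 θ := fun θ =>
    ((((((((h.dx 0 θ).fun_mul (h.dν 1 θ)).fun_mul (h.de 2 θ)).fun_sub
      (((h.dx 0 θ).fun_mul (h.dν 2 θ)).fun_mul (h.de 1 θ))).fun_sub
      (((h.dx 1 θ).fun_mul (h.dν 0 θ)).fun_mul (h.de 2 θ))).fun_add
      (((h.dx 1 θ).fun_mul (h.dν 2 θ)).fun_mul (h.de 0 θ))).fun_add
      (((h.dx 2 θ).fun_mul (h.dν 0 θ)).fun_mul (h.de 1 θ))).fun_sub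
      (((h.dx 2 θ).fun_mul (h.dν 1 θ)).fun_mul (h.de 0 θ))).congr_deriv (by ring)
  have := is_const_of_deriv_eq_zero (fun θ => (hd θ).differentiableAt) (fun θ => (hd θ).deriv) s t
  simp only [det_fin_three, fr]
  simp
  linear_combination (1 / ρ) * this

theorem rot_apply (ρ : ℝ) (x ν e : Fin 3 → ℝ → ℝ) (Q : ℝ) (i j : Fin 3) :
    ((fr ρ x ν e Q)ᵀ * fr ρ x ν e 0) i j
      = x i Q * x j 0 / ρ ^ 2 + ν i Q * ν j 0 + e i Q * e j 0 := by
  simp [fr, Matrix.mul_apply, Fin.sum_univ_three]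
  ring

theorem shift (h : Curve ρ P w x ν e) (hQ : Function.Periodic w Q) (i : Fin 3) (θ : ℝ) :
    x i (θ + Q) = cmp (((fr ρ x ν e Q)ᵀ * fr ρ x ν e 0) i) x θ ∧
    e i (θ + Q) = cmp (((fr ρ x ν e Q)ᵀ * fr ρ x ν e 0) i) e θ := by
  have hρ := h.hρ.ne'
  have h1 : Sys3 ρ w 0 (x i) (ν i) (e i) := fun θ =>
    ⟨h.dx i θ, h.dν i θ, (h.de i θ).congr_deriv (by ring)⟩
  have := (h1.shift hQ).uniq h.smw.cont (h.sys3 (((fr ρ x ν e Q)ᵀ * fr ρ x ν e 0) i)) (t0 := 0)
    (by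
      simp only [cmp, rot_apply, zero_add]
      have := h.xx 0
      field_simp
      linear_combination (-x i Q) * h.xx 0 - ρ ^ 2 * ν i Q * h.xν 0 - ρ ^ 2 * e i Q * h.xe 0)
    (by
      simp only [cmp, rot_apply, zero_add]
      linear_combination (-x i Q / ρ ^ 2) * h.xν 0 - ν i Q * h.νν 0 - e i Q * h.νe 0)
    (by
      simp only [cmp, rot_apply, zero_add]
      linear_combination (-x i Q / ρ ^ 2) * h.xe 0 - ν i Q * h.νe 0 - e i Q * h.ee 0) θ
  exact ⟨this.1, this.2.2⟩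

theorem fix_b (h : Curve ρ P w x ν e) (hQ : Function.Periodic w Q) (hσ : σ ≠ 0)
    (hb : ∀ θ, deriv w θ = σ * cmp b e θ) : ((fr ρ x ν e Q)ᵀ * fr ρ x ν e 0) *ᵥ b = b := by
  have hw0 : w Q = w 0 := by simpa using hQ 0
  have he : cmp b e Q = cmp b e 0 := by
    have h1 : Sm1 Q w := ⟨h.smw.1, hQ⟩
    have h2 : deriv w Q = deriv w 0 := by simpa using h1.deriv.2 0
    rw [hb, hb] at h2
    exact mul_left_cancel₀ hσ h2
  have hx : cmp b x Q = cmp b x 0 := by
    have hd : ∀ θ, HasDerivAt (fun θ => σ * cmp b x θ - Real.exp (w θ)) 0 θ := fun θ =>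
      (((h.sys3 b θ).1.const_mul σ).fun_sub (h.smw.hd θ).exp).congr_deriv (by rw [hb]; ring)
    have := is_const_of_deriv_eq_zero (fun θ => (hd θ).differentiableAt)
      (fun θ => (hd θ).deriv) Q 0
    simp only [hw0, sub_left_inj] at this
    exact mul_left_cancel₀ hσ this
  have hν : cmp b ν Q = cmp b ν 0 := by
    have hd : ∀ θ, HasDerivAt (fun θ => σ * cmp b ν θ + Real.exp (-w θ)) 0 θ := fun θ =>
      (((h.sys3 b θ).2.1.const_mul σ).fun_add (h.smw.hd θ).fun_neg.exp).congr_deriv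
        (by rw [hb, Real.exp_neg]; ring)
    have := is_const_of_deriv_eq_zero (fun θ => (hd θ).differentiableAt)
      (fun θ => (hd θ).deriv) Q 0
    simp only [hw0, add_left_inj] at this
    exact mul_left_cancel₀ hσ this
  funext i
  simp only [cmp] at he hx hν
  simp only [mulVec, dotProduct, Fin.sum_univ_three, rot_apply]
  have c0 := h.compl Q i 0
  have c1 := h.compl Q i 1
  have c2 := h.compl Q i 2
  have hi : b i = (if i = 0 then 1 else 0) * b 0 + (if i = 1 then 1 else 0) * b 1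
      + (if i = 2 then 1 else 0) * b 2 := by fin_cases i <;> simp
  rw [hi]
  linear_combination (-x i Q / ρ ^ 2) * hx - ν i Q * hν - e i Q * he + b 0 * c0 + b 1 * c1
    + b 2 * c2

theorem int_cmp (h : Curve ρ P w x ν e) (a : Fin 3 → ℝ) :
    (∫ θ in (0 : ℝ)..P, Real.exp (w θ) ^ 2 * cmp a e θ)
      = a ⬝ᵥ fun i => ∫ θ in (0 : ℝ)..P, Real.exp (w θ) ^ 2 * e i θ := by
  have hw := h.smw.cont
  have hi : ∀ i, IntervalIntegrable (fun θ => a i * (Real.exp (w θ) ^ 2 * e i θ))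
      MeasureTheory.volume 0 P := fun i => by
    have := (h.sme i).cont
    exact Continuous.intervalIntegrable (by fun_prop) _ _
  simp only [dotProduct, Fin.sum_univ_three, ← intervalIntegral.integral_const_mul]
  rw [← intervalIntegral.integral_add (hi 0) (hi 1),
    ← intervalIntegral.integral_add ((hi 0).add (hi 1)) (hi 2)]
  congr 1
  funext θ
  simp only [cmp]
  ring

theorem fix_m (h : Curve ρ P w x ν e) (hQ : Function.Periodic w Q) :
    (((fr ρ x ν e Q)ᵀ * fr ρ x ν e 0) *ᵥ fun i => ∫ θ in (0 : ℝ)..P, Real.exp (w θ) ^ 2 * e i θ)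
      = fun i => ∫ θ in (0 : ℝ)..P, Real.exp (w θ) ^ 2 * e i θ := by
  funext i
  have hp : Function.Periodic (fun θ => Real.exp (w θ) ^ 2 * e i θ) P := fun θ => by
    simp only [h.smw.2 θ, (h.sme i).2 θ]
  have h1 := hp.intervalIntegral_add_eq 0 Q
  have h2 := intervalIntegral.integral_comp_add_right (a := 0) (b := P)
    (fun θ => Real.exp (w θ) ^ 2 * e i θ) Q
  rw [zero_add] at h1 h2
  rw [h1, add_comm Q P, ← h2]
  simp only [hQ _, (shift h hQ i _).2]
  rw [int_cmp h]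
  rfl

theorem orth (h : Curve ρ P w x ν e) (hσ : σ ≠ 0) (hb : ∀ θ, deriv w θ = σ * cmp b e θ) :
    (b ⬝ᵥ fun i => ∫ θ in (0 : ℝ)..P, Real.exp (w θ) ^ 2 * e i θ) = 0 := by
  rw [← int_cmp h]
  have hw := h.smw.cont
  have hd : ∀ θ, HasDerivAt (fun θ => Real.exp (w θ) ^ 2 / (2 * σ))
      (Real.exp (w θ) ^ 2 * cmp b e θ) θ := fun θ =>
    (((h.smw.hd θ).exp.fun_pow 2).div_const (2 * σ)).congr_deriv (by rw [hb]; simp; field_simp)
  have hc : Continuous (cmp b e) :=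
    continuous_iff_continuousAt.2 fun θ => (h.sys3 b θ).2.2.continuousAt
  rw [intervalIntegral.integral_eq_sub_of_hasDerivAt (fun θ _ => hd θ)
    (Continuous.intervalIntegrable (by fun_prop) _ _)]
  have : w P = w 0 := by simpa using h.smw.2 0
  rw [this, sub_self]

theorem not_per (h : Curve ρ P w x ν e) (hT : TP P x) (hQ : 0 < Q) (hP : 2 * Q ≤ P)
    (hx : ∀ i θ, x i (θ + Q) = x i θ) : False := by
  set a : Fin 3 → ℝ := fun i => e i 0 with ha
  have hp : ∀ θ, cmp a x (θ + Q) = cmp a x θ := fun θ => by simp only [cmp, hx]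
  have h0 : cmp a x 0 = 0 := by
    simp only [cmp, ha]; linear_combination h.xe 0
  have h1 : cmp a e 0 = 1 := by
    simp only [cmp, ha]; linear_combination h.ee 0
  have hd := (h.sys3 a 0).1
  rw [h1, mul_one] at hd
  have ht := hd.tendsto_slope_zero.eventually (lt_mem_nhds (Real.exp_pos (w 0)))
  rw [eventually_nhdsWithin_iff, Metric.eventually_nhds_iff] at ht
  obtain ⟨ε, hε, ht⟩ := ht
  obtain ⟨η, hη, hη1, hη2⟩ : ∃ η : ℝ, 0 < η ∧ η < ε ∧ 2 * η < Q :=
    ⟨min (ε / 2) (Q / 4), by positivity, by linarith [min_le_left (ε / 2) (Q / 4)],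
      by linarith [min_le_right (ε / 2) (Q / 4)]⟩
  have p1 : 0 < cmp a x η := by
    have := ht (y := η) (by simpa [abs_of_pos hη] using hη1) (by simpa using hη.ne')
    simp only [zero_add, h0, sub_zero, smul_eq_mul] at this
    exact (mul_pos_iff_of_pos_left (inv_pos.2 hη)).1 this
  have p2 : cmp a x (-η) < 0 := by
    have := ht (y := -η) (by simpa [abs_of_pos hη] using hη1) (by simpa using hη.ne')
    simp only [zero_add, h0, sub_zero, smul_eq_mul, inv_neg, neg_mul] at this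
    have h3 := inv_pos.2 hη
    by_contra hc
    have := mul_nonneg h3.le (not_lt.1 hc)
    linarith
  exact hT a η (-η + Q) (η + Q) (-η + Q + Q) (by linarith) (by linarith) (by linarith)
    (by linarith) p1 (by rwa [hp]) (by rwa [hp]) (by rwa [hp, hp])

end Mean

open Matrix in
theorem p_MEAN :
    S_MEAN := by
  intro ρ P Q σ w x ν e b h hT hQ hP hw hb ⟨θ0, hθ0⟩
  have hσ : σ ≠ 0 := fun h0 => hθ0 (by rw [hb, h0, zero_mul])
  have hb0 : b ≠ 0 := fun h0 => hθ0 (by simp [hb, h0, cmp])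
  by_contra hm
  have hm0 : (fun i => ∫ θ in (0 : ℝ)..P, Real.exp (w θ) ^ 2 * e i θ) ≠ 0 :=
    fun h0 => hm fun i => congrFun h0 i
  have hR := Mean.rotI ((Mean.fr ρ x ν e Q)ᵀ * Mean.fr ρ x ν e 0)
    (by
      rw [transpose_mul, transpose_transpose, Matrix.mul_assoc, ← Matrix.mul_assoc (Mean.fr ρ x ν e Q),
        mul_eq_one_comm.1 (Mean.fr_orth h Q), Matrix.one_mul, Mean.fr_orth h])
    (by
      rw [det_mul, det_transpose, Mean.fr_det h Q 0, ← det_transpose (Mean.fr ρ x ν e 0)]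
      conv_lhs => enter [2]; rw [det_transpose]
      rw [← det_mul, Mean.fr_orth h, det_one])
    b _ (Mean.fix_b h hw hσ hb) (Mean.fix_m h hw)
    (by
      rw [cross_dot_cross, Mean.orth h hσ hb, zero_mul, sub_zero]
      exact mul_ne_zero (fun h0 => hb0 (dotProduct_self_eq_zero.1 h0))
        (fun h0 => hm0 (dotProduct_self_eq_zero.1 h0)))
  refine Mean.not_per h hT hQ hP fun i θ => ?_
  rw [(Mean.shift h hw i θ).1, hR]
  fin_cases i <;> simp [cmp, Matrix.one_apply]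

end Pool.Agent.P.MP_785924_gt
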