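import Pool.Agent.P.MP_785924_gt.A.IfaceA

/-! Step NC of the free boundary annulus project. -/

namespace Pool.Agent.P.MP_785924_gt

open scoped ContDiff
open Set Filter Topology

namespace Nc

lemma disc (hD : S_DISC) {A B : Set ℂ} {r a b c d : ℝ} (hr : 0 < r) (hA : ∀ z ∈ A, ‖z‖ ≤ r)
    (hB : ∀ z ∈ B, ‖z‖ ≤ r) (h1 : a < b) (h2 : b < c) (h3 : c < d) (h4 : d < a + 2 * Real.pi)
    (jA : JoinedIn A (r * Complex.exp (a * Complex.I)) (r * Complex.exp (c * Complex.I)))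
    (jB : JoinedIn B (r * Complex.exp (b * Complex.I)) (r * Complex.exp (d * Complex.I))) :
    ∃ z, z ∈ A ∧ z ∈ B := by
  obtain ⟨γ, hγ⟩ := jA
  obtain ⟨δ, hδ⟩ := jB
  have mA : ∀ s, γ.extend s ∈ A := fun s => hγ _
  have mB : ∀ s, δ.extend s ∈ B := fun s => hδ _
  obtain ⟨s, -, t, -, e⟩ := hD γ.extend δ.extend r a b c d hr γ.continuous_extend.continuousOn
    δ.continuous_extend.continuousOn (fun s _ => hA _ (mA s)) (fun s _ => hB _ (mB s)) h1 h2 h3 h4
    γ.extend_zero γ.extend_one δ.extend_zero δ.extend_one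
  exact ⟨_, mA s, e ▸ mB t⟩

/-- the map to the annulus -/
noncomputable def ps (e P : ℝ) (p : ℝ × ℝ) : ℂ :=
  (Real.exp (e * p.1) : ℝ) * Complex.exp ((2 * Real.pi / P * p.2 : ℝ) * Complex.I)

lemma ps_cont (e P : ℝ) : Continuous (ps e P) := by
  unfold ps
  fun_prop

lemma ps_norm (e P : ℝ) (p : ℝ × ℝ) : ‖ps e P p‖ = Real.exp (e * p.1) := by
  rw [ps, norm_mul, Complex.norm_exp_ofReal_mul_I, mul_one, Complex.norm_real,
    Real.norm_of_nonneg (Real.exp_pos _).le]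

lemma ps_per (e : ℝ) {P : ℝ} (hP : P ≠ 0) (p : ℝ × ℝ) (n : ℤ) :
    ps e P (p.1, p.2 + n * P) = ps e P p := by
  have : ((2 * Real.pi / P * (p.2 + n * P) : ℝ) : ℂ) * Complex.I =
      (2 * Real.pi / P * p.2 : ℝ) * Complex.I + n * (2 * Real.pi * Complex.I) := by
    have : (P : ℂ) ≠ 0 := by exact_mod_cast hP
    push_cast
    field_simp
  rw [ps, ps, this, Complex.exp_add, Complex.exp_int_mul_two_pi_mul_I, mul_one]

lemma ps_inj {e P : ℝ} (he : e ≠ 0) (hP : P ≠ 0) {p q : ℝ × ℝ} (h : ps e P p = ps e P q) :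
    ∃ n : ℤ, p = (q.1, q.2 + n * P) := by
  have h1 : p.1 = q.1 := by
    have := congrArg norm h
    rw [ps_norm, ps_norm, Real.exp_eq_exp] at this
    exact mul_left_cancel₀ he this
  rw [ps, ps, h1, mul_right_inj' (by exact_mod_cast (Real.exp_pos _).ne'),
    Complex.exp_eq_exp_iff_exists_int] at h
  obtain ⟨n, hn⟩ := h
  refine ⟨n, Prod.ext h1 ?_⟩
  have h2 : 2 * Real.pi / P * p.2 = 2 * Real.pi / P * q.2 + n * (2 * Real.pi) := by
    have := congrArg Complex.im hn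
    simpa [-Complex.ofReal_mul] using this
  have := Real.pi_ne_zero
  field_simp at h2
  linarith

variable {e P : ℝ} {U : Set (ℝ × ℝ)}

lemma shift (hU : ∀ t s, (t, s + P) ∈ U ↔ (t, s) ∈ U) (n : ℤ) {p q : ℝ × ℝ} (h : JoinedIn U p q) :
    JoinedIn U (p.1, p.2 + n * P) (q.1, q.2 + n * P) := by
  refine (h.map (f := fun x : ℝ × ℝ => (x.1, x.2 + n * P)) (by fun_prop)).mono ?_
  rintro _ ⟨x, hx, rfl⟩
  have : Function.Periodic (fun s => (x.1, s) ∈ U) P := fun s => propext (hU _ s)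
  exact (this.int_mul n x.2).mpr hx

lemma join (hP : P ≠ 0) {p q : ℝ × ℝ} (h : Rel P U p q) :
    JoinedIn (ps e P '' pathComponentIn U p) (ps e P p) (ps e P q) := by
  obtain ⟨n, h⟩ := h
  rw [← ps_per e hP q n]
  exact ((isPathConnected_pathComponentIn h.source_mem).joinedIn _
    (mem_pathComponentIn_self h.source_mem) _ h).map (ps_cont e P)

lemma meet (he : e ≠ 0) (hP : P ≠ 0) (hU : ∀ t s, (t, s + P) ∈ U ↔ (t, s) ∈ U) {p q : ℝ × ℝ}
    {z : ℂ} (h1 : z ∈ ps e P '' pathComponentIn U p) (h2 : z ∈ ps e P '' pathComponentIn U q) :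
    Rel P U p q := by
  obtain ⟨x, hx, rfl⟩ := h1
  obtain ⟨y, hy, e⟩ := h2
  obtain ⟨n, rfl⟩ := ps_inj he hP e.symm
  exact ⟨n, JoinedIn.trans hx (shift hU n hy).symm⟩

lemma seg {B : Set ℂ} {z : ℂ} {ρ : ℝ} (hρ : 0 < ρ) (hz : ‖z‖ = ρ) (h1 : z ∈ B)
    (h2 : ∀ w, ‖w‖ < ρ → w ∈ B) : JoinedIn B z 0 := by
  refine JoinedIn.of_segment_subset ?_
  rintro _ ⟨a, b, ha, hb, hab, rfl⟩
  rw [smul_zero, add_zero]
  rcases hb.eq_or_lt with rfl | hb
  · rwa [show a = 1 by linarith, one_smul]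
  · refine h2 _ ?_
    rw [norm_smul, hz, Real.norm_of_nonneg ha]
    nlinarith

end Nc

open Nc in
theorem p_NC (hDISC : S_DISC) :
    S_NC := by
  intro T P U hT hP hS hU σ hσ a b c d h1 h2 h3 h4 hac
  obtain ⟨e, he, e1, e2⟩ : ∃ e : ℝ, e ≠ 0 ∧ e * σ = T ∧
      ∀ p ∈ U, -T ≤ e * p.1 ∧ e * p.1 ≤ T := by
    rcases hσ with rfl | rfl
    · exact ⟨1, one_ne_zero, one_mul _, fun p hp => by simpa [strip] using hS hp⟩
    · exact ⟨-1, by norm_num, by ring, fun p hp => by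
        have := hS hp
        exact ⟨by linarith [this.2], by linarith [this.1]⟩⟩
  have nn : ∀ p, ∀ z ∈ ps e P '' pathComponentIn U p,
      Real.exp (-T) ≤ ‖z‖ ∧ ‖z‖ ≤ Real.exp T := by
    rintro p _ ⟨x, hx, rfl⟩
    rw [ps_norm]
    have := e2 x (JoinedIn.target_mem hx)
    exact ⟨Real.exp_le_exp.2 this.1, Real.exp_le_exp.2 this.2⟩
  have k0 : 0 < 2 * Real.pi / P := by positivity
  have key : ∀ B : Set ℂ, (∀ z ∈ B, ‖z‖ ≤ Real.exp T) →
      JoinedIn B (ps e P (σ, b)) (ps e P (σ, d)) →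
      ∃ z, z ∈ ps e P '' pathComponentIn U (σ, a) ∧ z ∈ B := fun B hB jB => by
    have jA := join (e := e) hP.ne' hac
    simp only [ps, e1] at jA jB
    refine disc hDISC (Real.exp_pos T) (fun z hz => (nn _ z hz).2) hB
      (mul_lt_mul_of_pos_left h1 k0) (mul_lt_mul_of_pos_left h2 k0)
      (mul_lt_mul_of_pos_left h3 k0) ?_ jA jB
    have := mul_lt_mul_of_pos_left h4 k0
    rwa [mul_add, div_mul_cancel₀ _ hP.ne'] at this
  refine ⟨fun hbd => ?_, fun b' d' hb hd => ?_⟩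
  · obtain ⟨z, z1, z2⟩ := key _ (fun z hz => (nn _ z hz).2) (join hP.ne' hbd)
    exact meet he hP.ne' hU z1 z2
  · have jb := join (e := e) hP.ne' hb
    have jd := join (e := e) hP.ne' hd
    have n0 : ∀ s, ‖ps e P (-σ, s)‖ = Real.exp (-T) := fun s => by rw [ps_norm, mul_neg, e1]
    obtain ⟨z, z1, z2⟩ := key ((ps e P '' pathComponentIn U (σ, b) ∪
        ps e P '' pathComponentIn U (σ, d)) ∪ {w | ‖w‖ < Real.exp (-T)}) (by
      rintro z ((hz | hz) | hz)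
      · exact (nn _ z hz).2
      · exact (nn _ z hz).2
      · exact hz.le.trans (Real.exp_le_exp.2 (by linarith))) (by
      refine ((jb.mono fun _ h => Or.inl (Or.inl h)).trans (z := 0) ?_).trans
        (((jd.mono fun _ h => Or.inl (Or.inr h)).trans ?_).symm)
      · exact seg (Real.exp_pos _) (n0 b') (Or.inl (Or.inl jb.target_mem)) fun _ h => Or.inr h
      · exact seg (Real.exp_pos _) (n0 d') (Or.inl (Or.inr jd.target_mem)) fun _ h => Or.inr h)
    rcases z2 with (z2 | z2) | z2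
    · exact Or.inl (meet he hP.ne' hU z1 z2)
    · exact Or.inr (meet he hP.ne' hU z1 z2)
    · exact absurd z2 (not_lt.2 (nn _ z z1).1)

end Pool.Agent.P.MP_785924_gt
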