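import Pool.Agent.P.MP_785924_gt.A.IfaceA

/-! Step ODECONT of the free boundary annulus project. -/

namespace Pool.Agent.P.MP_785924_gt

open scoped ContDiff
open Set Filter Topology

namespace Odecont

theorem gb_le {d K e x L : ℝ} (hd : 0 ≤ d) (he : 0 ≤ e) (hK : 1 ≤ K) (hxL : x ≤ L) :
    gronwallBound d K e x ≤ (d + e) * Real.exp (K * L) := by
  have hK0 : K ≠ 0 := by linarith
  rw [gronwallBound_of_K_ne_0 hK0]
  have h1 : Real.exp (K * x) ≤ Real.exp (K * L) :=
    Real.exp_le_exp.2 (mul_le_mul_of_nonneg_left hxL (by linarith))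
  have h2 : e / K ≤ e := div_le_self he hK
  have h3 : 0 ≤ e / K := div_nonneg he (by linarith)
  have h4 : 0 < Real.exp (K * x) := Real.exp_pos _
  have h5 : e / K * (Real.exp (K * x) - 1) ≤ e * Real.exp (K * L) := by
    calc e / K * (Real.exp (K * x) - 1) ≤ e / K * Real.exp (K * L) :=
          mul_le_mul_of_nonneg_left (by linarith) h3
      _ ≤ e * Real.exp (K * L) := mul_le_mul_of_nonneg_right h2 (Real.exp_pos _).le
  have h6 : d * Real.exp (K * x) ≤ d * Real.exp (K * L) := mul_le_mul_of_nonneg_left h1 hd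
  show d * Real.exp (K * x) + e / K * (Real.exp (K * x) - 1) ≤ _
  linarith

theorem two_sided {E : Type*} [NormedAddCommGroup E] [NormedSpace ℝ E] {D D' : ℝ → E}
    {t0 L d K e : ℝ} (hd : 0 ≤ d) (he : 0 ≤ e) (hK : 1 ≤ K)
    (hD : ∀ t, HasDerivAt D (D' t) t)
    (hb : ∀ t ∈ Icc (t0 - L) (t0 + L), ‖D' t‖ ≤ K * ‖D t‖ + e) (h0 : ‖D t0‖ ≤ d) :
    ∀ t ∈ Icc (t0 - L) (t0 + L), ‖D t‖ ≤ (d + e) * Real.exp (K * L) := by
  intro t ht
  rcases le_total t0 t with h | h
  · have key := norm_le_gronwallBound_of_norm_deriv_right_le (f := D) (f' := D') (δ := d) (K := K)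
      (ε := e) (a := t0) (b := t0 + L)
      (fun s _ => (hD s).continuousAt.continuousWithinAt)
      (fun s _ => (hD s).hasDerivWithinAt) h0
      (fun s hs => hb s ⟨by linarith [hs.1, ht.1, ht.2], hs.2.le⟩) t ⟨h, ht.2⟩
    exact key.trans (gb_le hd he hK (by linarith [ht.2]))
  · have key := norm_le_gronwallBound_of_norm_deriv_right_le (f := fun s => D (-s))
      (f' := fun s => -D' (-s)) (δ := d) (K := K) (ε := e) (a := -t0) (b := -t0 + L) ?_ ?_
      (by simpa using h0) ?_ (-t) ⟨by linarith, by linarith [ht.1]⟩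
    · have k2 : ‖D t‖ ≤ gronwallBound d K e (-t - -t0) := by simpa using key
      exact k2.trans (gb_le hd he hK (by linarith [ht.1]))
    · intro s _
      exact ((hD (-s)).continuousAt.comp (f := fun s : ℝ => -s)
        continuous_neg.continuousAt).continuousWithinAt
    · intro s _
      have := (hD (-s)).scomp s (hasDerivAt_neg s)
      simpa [Function.comp_def] using this.hasDerivWithinAt
    · intro s hs
      simpa using hb (-s) ⟨by linarith [hs.2], by linarith [hs.1, ht.1, ht.2]⟩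

end Odecont

theorem p_ODECONT :
    S_ODECONT := by
  intro E Λ _ _ _ A y t0 hA hy h0
  rw [continuous_iff_continuousAt]
  rintro ⟨l0, t1⟩
  have hyc : ∀ l, Continuous (y l) := fun l =>
    continuous_iff_continuousAt.2 fun t => (hy l t).continuousAt
  set L : ℝ := |t1 - t0| + 1 with hL
  have hA0 : Continuous fun t : ℝ => A (l0, t) := hA.comp (by fun_prop)
  obtain ⟨K0, hK0⟩ := (isCompact_Icc (a := t0 - L) (b := t0 + L)).exists_bound_of_continuousOn
    hA0.continuousOn
  obtain ⟨M0, hM0⟩ := (isCompact_Icc (a := t0 - L) (b := t0 + L)).exists_bound_of_continuousOn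
    (hyc l0).continuousOn
  set K : ℝ := |K0| + 1 with hK
  set M : ℝ := |M0| with hM
  have hK1 : 1 ≤ K := by have := abs_nonneg K0; linarith
  have hMn : 0 ≤ M := abs_nonneg _
  rw [Metric.continuousAt_iff']
  intro η hη
  have hC : 0 < (1 + M) * Real.exp (K * L) := by positivity
  set e : ℝ := min 1 (η / 4 / ((1 + M) * Real.exp (K * L))) with he
  have he0 : 0 < e := lt_min one_pos (by positivity)
  have he1 : e ≤ 1 := min_le_left _ _
  have he2 : e * ((1 + M) * Real.exp (K * L)) ≤ η / 4 :=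
    (le_div_iff₀ hC).1 (min_le_right _ _)
  have htube : ∀ᶠ l in 𝓝 l0, ∀ t ∈ Icc (t0 - L) (t0 + L), ‖A (l, t) - A (l0, t)‖ < e := by
    refine (isCompact_Icc (a := t0 - L) (b := t0 + L)).eventually_forall_of_forall_eventually
      (P := fun l t => ‖A (l, t) - A (l0, t)‖ < e) fun t _ => ?_
    have hc1 : Continuous fun q : Λ × ℝ => A (q.1, q.2) := hA
    have hc2 : Continuous fun q : Λ × ℝ => A (l0, q.2) := hA0.comp continuous_snd
    have hc : Continuous fun q : Λ × ℝ => ‖A (q.1, q.2) - A (l0, q.2)‖ := (hc1.sub hc2).norm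
    have ho : IsOpen {q : Λ × ℝ | ‖A (q.1, q.2) - A (l0, q.2)‖ < e} :=
      isOpen_lt hc continuous_const
    exact ho.mem_nhds (by simpa using he0)
  have hinit : ∀ᶠ l in 𝓝 l0, ‖y l t0 - y l0 t0‖ < e := by
    have hc : Continuous fun l => ‖y l t0 - y l0 t0‖ := (h0.sub continuous_const).norm
    have ho : IsOpen {l : Λ | ‖y l t0 - y l0 t0‖ < e} := isOpen_lt hc continuous_const
    exact ho.mem_nhds (by simpa using he0)
  have hclose : ∀ᶠ l in 𝓝 l0, ∀ t ∈ Icc (t0 - L) (t0 + L), ‖y l t - y l0 t‖ ≤ η / 4 := by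
    filter_upwards [htube, hinit] with l hl hi
    have key := Odecont.two_sided (D := fun t => y l t - y l0 t)
      (D' := fun t => A (l, t) (y l t) - A (l0, t) (y l0 t)) (t0 := t0) (L := L) (d := e) (K := K)
      (e := e * M) he0.le (by positivity) hK1 (fun t => (hy l t).fun_sub (hy l0 t)) ?_ hi.le
    · intro t ht
      refine (key t ht).trans ?_
      calc (e + e * M) * Real.exp (K * L) = e * ((1 + M) * Real.exp (K * L)) := by ring
        _ ≤ η / 4 := he2
    · intro t ht
      have e1 : A (l, t) (y l t) - A (l0, t) (y l0 t)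
          = A (l, t) (y l t - y l0 t) + (A (l, t) - A (l0, t)) (y l0 t) := by
        simp
      have n1 : ‖A (l, t)‖ ≤ K := by
        have a1 : ‖A (l, t)‖ ≤ ‖A (l0, t)‖ + ‖A (l, t) - A (l0, t)‖ := norm_le_insert' _ _
        have a2 := hK0 t ht
        have a3 := hl t ht
        have a4 := le_abs_self K0
        linarith
      have n2 : ‖y l0 t‖ ≤ M := (hM0 t ht).trans (le_abs_self _)
      show ‖A (l, t) (y l t) - A (l0, t) (y l0 t)‖ ≤ K * ‖y l t - y l0 t‖ + e * M
      rw [e1]
      refine (norm_add_le _ _).trans (add_le_add ?_ ?_)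
      · exact ((A (l, t)).le_opNorm _).trans (mul_le_mul_of_nonneg_right n1 (norm_nonneg _))
      · exact ((A (l, t) - A (l0, t)).le_opNorm _).trans
          (mul_le_mul (hl t ht).le n2 (norm_nonneg _) he0.le)
  have ht1 : ∀ᶠ t in 𝓝 t1, t ∈ Icc (t0 - L) (t0 + L) := by
    refine Icc_mem_nhds ?_ ?_
    · have := neg_abs_le (t1 - t0); linarith
    · have := le_abs_self (t1 - t0); linarith
  have ht2 : ∀ᶠ t in 𝓝 t1, dist (y l0 t) (y l0 t1) < η / 2 :=
    Metric.continuousAt_iff'.1 (hyc l0).continuousAt (η / 2) (by positivity)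
  rw [nhds_prod_eq]
  filter_upwards [hclose.prod_mk (ht1.and ht2)] with q hq
  have b1 := hq.1 q.2 hq.2.1
  have b2 := hq.2.2
  have b3 : dist (y q.1 q.2) (y l0 t1) ≤ dist (y q.1 q.2) (y l0 q.2) + dist (y l0 q.2) (y l0 t1) :=
    dist_triangle _ _ _
  rw [dist_eq_norm (y q.1 q.2) (y l0 q.2)] at b3
  show dist (y q.1 q.2) (y l0 t1) < η
  linarith

end Pool.Agent.P.MP_785924_gt
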