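import Pool.Agent.P.MP_785924_gt.A.IfaceA

/-! Step ODEEX of the free boundary annulus project. -/

namespace Pool.Agent.P.MP_785924_gt

open scoped ContDiff
open Set Filter Topology

namespace Odeex

variable {E : Type} [NormedAddCommGroup E] [NormedSpace ℝ E]

lemma side {f f' : ℝ → E} {t0 L c K : ℝ} (hc : 0 ≤ c) (hd : ∀ t, HasDerivAt f (f' t) t)
    (h0 : f t0 = 0) (hb : ∀ t ∈ Icc t0 (t0 + L), ‖f' t‖ ≤ c * K * Real.exp (2 * K * (t - t0))) :
    ∀ t ∈ Icc t0 (t0 + L), ‖f t‖ ≤ c / 2 * Real.exp (2 * K * (t - t0)) := by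
  intro t ht
  refine image_norm_le_of_norm_deriv_right_le_deriv_boundary
    (B := fun t => c / 2 * Real.exp (2 * K * (t - t0)))
    (B' := fun t => c * K * Real.exp (2 * K * (t - t0)))
    (fun s _ => (hd s).continuousAt.continuousWithinAt) (fun s _ => (hd s).hasDerivWithinAt)
    (by rw [h0, norm_zero]; positivity) (fun s => ?_) (fun s hs => hb s (Ico_subset_Icc_self hs)) ht
  exact (((((hasDerivAt_id s).sub_const t0).const_mul (2 * K)).exp).const_mul (c / 2)).congr_deriv
    (by simp only [id]; ring)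

lemma both {f f' : ℝ → E} {t0 L c K : ℝ} (hc : 0 ≤ c) (hd : ∀ t, HasDerivAt f (f' t) t)
    (h0 : f t0 = 0) (hb : ∀ t, |t - t0| ≤ L → ‖f' t‖ ≤ c * K * Real.exp (2 * K * |t - t0|)) :
    ∀ t, |t - t0| ≤ L → ‖f t‖ ≤ c / 2 * Real.exp (2 * K * |t - t0|) := by
  intro t ht
  rcases le_total t0 t with a | a
  · rw [abs_of_nonneg (sub_nonneg.2 a)] at ht ⊢
    refine side hc hd h0 (fun s hs => ?_) t ⟨a, by linarith⟩
    have e : |s - t0| = s - t0 := abs_of_nonneg (sub_nonneg.2 hs.1)
    have := hb s (by rw [e]; linarith [hs.2])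
    rwa [e] at this
  · rw [abs_of_nonpos (sub_nonpos.2 a)] at ht ⊢
    have := side (f := fun s => f (2 * t0 - s)) (f' := fun s => -f' (2 * t0 - s)) (t0 := t0)
      (L := L) (K := K) hc (fun s => (hd (2 * t0 - s)).comp_const_sub (2 * t0) s)
      (by rw [show 2 * t0 - t0 = t0 by ring, h0]) (fun s hs => ?_) (2 * t0 - t)
      ⟨by linarith, by linarith⟩
    · rwa [show 2 * t0 - (2 * t0 - t) = t by ring, show 2 * t0 - t - t0 = -(t - t0) by ring] at this
    · have e : |2 * t0 - s - t0| = s - t0 := by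
        rw [abs_of_nonpos (by linarith [hs.1])]
        ring
      have := hb (2 * t0 - s) (by rw [e]; linarith [hs.2])
      rwa [e, ← norm_neg] at this

/-- the terms of the series -/
noncomputable def Y (A : ℝ → E →L[ℝ] E) (t0 : ℝ) (y0 : E) : ℕ → ℝ → E
  | 0 => fun _ => y0
  | n + 1 => fun t => ∫ s in t0..t, A s (Y A t0 y0 n s)

variable [CompleteSpace E] {A : ℝ → E →L[ℝ] E} {t0 : ℝ} {y0 : E}

lemma cont (hA : Continuous A) (n : ℕ) : Continuous (Y A t0 y0 n) := by
  induction n with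
  | zero => exact continuous_const
  | succ n ih =>
    exact continuous_iff_continuousAt.2 fun t =>
      ((hA.clm_apply ih).integral_hasStrictDerivAt t0 t).hasDerivAt.continuousAt

lemma der (hA : Continuous A) (n : ℕ) (t : ℝ) :
    HasDerivAt (Y A t0 y0 (n + 1)) (A t (Y A t0 y0 n t)) t :=
  ((hA.clm_apply (cont hA n)).integral_hasStrictDerivAt t0 t).hasDerivAt

lemma bound (hA : Continuous A) {L K : ℝ} (hK : ∀ t, |t - t0| ≤ L → ‖A t‖ ≤ K) (hK0 : 0 ≤ K)
    (n : ℕ) : ∀ t, |t - t0| ≤ L →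
      ‖Y A t0 y0 n t‖ ≤ ‖y0‖ * (1 / 2) ^ n * Real.exp (2 * K * |t - t0|) := by
  induction n with
  | zero =>
    intro t _
    rw [pow_zero, mul_one]
    exact le_mul_of_one_le_right (norm_nonneg _) (Real.one_le_exp (by positivity))
  | succ n ih =>
    intro t ht
    have := both (c := ‖y0‖ * (1 / 2) ^ n) (K := K) (L := L) (by positivity) (der hA n)
      (intervalIntegral.integral_same) (fun s hs => ((A s).le_opNorm _).trans
        ((mul_le_mul (hK s hs) (ih s hs) (norm_nonneg _) hK0).trans_eq (by ring))) t ht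
    exact this.trans_eq (by ring)

end Odeex

open Odeex in
theorem p_ODEEX :
    S_ODEEX := by
  intro E _ _ _ A hA t0 y0
  have z : ∀ n, Y A t0 y0 (n + 1) t0 = 0 := fun n => intervalIntegral.integral_same
  refine ⟨fun t => y0 + ∑' n, Y A t0 y0 (n + 1) t, by simp [z], fun t => ?_⟩
  obtain ⟨L, hL⟩ : ∃ L, L = |t - t0| + 1 := ⟨_, rfl⟩
  obtain ⟨K, hK⟩ := (isCompact_Icc (a := t0 - L) (b := t0 + L)).exists_bound_of_continuousOn
    hA.continuousOn
  have hK1 : ∀ s, |s - t0| ≤ L → ‖A s‖ ≤ K := fun s hs =>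
    hK s ⟨by linarith [(abs_le.1 hs).1], by linarith [(abs_le.1 hs).2]⟩
  have hL0 : 0 < L := by rw [hL]; positivity
  have hK0 : 0 ≤ K := (norm_nonneg _).trans (hK1 t0 (by simpa using hL0.le))
  have hb : ∀ n s, |s - t0| ≤ L →
      ‖Y A t0 y0 n s‖ ≤ ‖y0‖ * Real.exp (2 * K * L) * (1 / 2) ^ n := fun n s hs =>
    (bound hA hK1 hK0 n s hs).trans (by
      rw [mul_right_comm]
      gcongr)
  have hs := summable_geometric_two.mul_left (‖y0‖ * Real.exp (2 * K * L))
  have ht : |t - t0| < L := by rw [hL]; linarith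
  have h1 := hasDerivAt_tsum_of_isPreconnected (g := fun n => Y A t0 y0 (n + 1))
    (g' := fun n s => A s (Y A t0 y0 n s)) (hs.mul_left K) (Metric.isOpen_ball (x := t0) (ε := L))
    (convex_ball t0 L).isPreconnected (fun n s _ => der hA n s)
    (fun n s h => ((A s).le_opNorm _).trans
      (mul_le_mul (hK1 s (le_of_lt h)) (hb n s (le_of_lt h)) (norm_nonneg _) hK0))
    (Metric.mem_ball_self hL0) (by simp [z, summable_zero]) (y := t) ht
  have h2 : Summable fun n => Y A t0 y0 n t := .of_norm_bounded hs fun n => hb n t ht.le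
  refine (h1.const_add y0).congr_deriv ?_
  rw [← (A t).map_tsum h2, h2.tsum_eq_zero_add]
  rfl

end Pool.Agent.P.MP_785924_gt
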