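import Pool.Agent.P.MP_785924_gt.A.IfaceA

/-! Step ODEHOL of the free boundary annulus project. -/

namespace Pool.Agent.P.MP_785924_gt

open scoped ContDiff
open Set Filter Topology

namespace Odehol

lemma gron_right {E : Type*} [NormedAddCommGroup E] [NormedSpace ℝ E] {y y' : ℝ → E}
    {t0 t K ε : ℝ} (h : t0 ≤ t) (hd : ∀ s, HasDerivAt y (y' s) s)
    (hb : ∀ s ∈ Icc t0 t, ‖y' s‖ ≤ K * ‖y s‖ + ε) (hz : y t0 = 0) :
    ‖y t‖ ≤ gronwallBound 0 K ε (t - t0) :=
  norm_le_gronwallBound_of_norm_deriv_right_le (f := y) (f' := y')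
    (fun s _ => (hd s).continuousAt.continuousWithinAt) (fun s _ => (hd s).hasDerivWithinAt)
    (by simp [hz]) (fun s hs => hb s ⟨hs.1, hs.2.le⟩) t ⟨h, le_rfl⟩

lemma gb (K ε x : ℝ) : gronwallBound 0 K ε x = gronwallBound 0 K 1 x * ε := by
  by_cases h : K = 0
  · simp [gronwallBound, h, mul_comm]
  · simp only [gronwallBound, if_neg h]
    ring

lemma gron {E : Type*} [NormedAddCommGroup E] [NormedSpace ℝ E] {y y' : ℝ → E}
    {t0 t K ε : ℝ} (hd : ∀ s, HasDerivAt y (y' s) s)
    (hb : ∀ s ∈ uIcc t0 t, ‖y' s‖ ≤ K * ‖y s‖ + ε) (hz : y t0 = 0) :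
    ‖y t‖ ≤ gronwallBound 0 K 1 |t - t0| * ε := by
  rw [← gb]
  rcases le_total t0 t with h | h
  · rw [abs_of_nonneg (sub_nonneg.2 h)]
    exact gron_right h hd (fun s hs => hb s (by rwa [uIcc_of_le h])) hz
  · have k := gron_right (y := fun s => y (-s)) (y' := fun s => -y' (-s)) (t0 := -t0) (t := -t)
      (K := K) (ε := ε) (neg_le_neg h)
      (fun s => by simpa [Function.comp_def] using (hd (-s)).scomp s (hasDerivAt_neg s))
      (fun s hs => by
        rw [norm_neg]
        exact hb (-s) (by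
          rw [uIcc_of_ge h]
          exact ⟨by linarith [hs.2], by linarith [hs.1]⟩))
      (by simpa using hz)
    rw [abs_of_nonpos (sub_nonpos.2 h)]
    simpa [sub_eq_add_neg, add_comm] using k

end Odehol

open Odehol

theorem p_ODEHOL (hODEEX : S_ODEEX) (hODECONT : S_ODECONT) :
    S_ODEHOL := by
  intro E _ _ _ A0 A1 y t0 y0 c0 c1 h0 hy t n0
  let B : ℝ → E →L[ℂ] E := fun s => A0 s + n0 • A1 s
  have cB : Continuous B := c0.add (c1.const_smul n0)
  let M : ℝ → E × E →L[ℂ] E × E := fun s =>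
    (ContinuousLinearMap.inl ℂ E E).comp ((B s).comp (ContinuousLinearMap.fst ℂ E E)) +
      (ContinuousLinearMap.inr ℂ E E).comp ((A1 s).comp (ContinuousLinearMap.fst ℂ E E) +
        (B s).comp (ContinuousLinearMap.snd ℂ E E))
  have cM : Continuous M :=
    (continuous_const.clm_comp (cB.clm_comp continuous_const)).add
      (continuous_const.clm_comp
        ((c1.clm_comp continuous_const).add (cB.clm_comp continuous_const)))
  obtain ⟨p, p0, hp⟩ := hODEEX (E × E) (fun s => (M s).restrictScalars ℝ)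
    ((ContinuousLinearMap.restrictScalarsL ℂ (E × E) (E × E) ℝ ℝ).continuous.comp cM) t0 (y0, 0)
  have hu : ∀ s, HasDerivAt (fun s => (p s).1) (A0 s (p s).1 + n0 • A1 s (p s).1) s := fun s => by
    simpa [M, B, Function.comp_def] using
      (ContinuousLinearMap.fst ℝ E E).hasFDerivAt.comp_hasDerivAt s (hp s)
  have hz : ∀ s, HasDerivAt (fun s => (p s).2)
      (A1 s (p s).1 + (A0 s (p s).2 + n0 • A1 s (p s).2)) s := fun s => by
    simpa [M, B, Function.comp_def] using
      (ContinuousLinearMap.snd ℝ E E).hasFDerivAt.comp_hasDerivAt s (hp s)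
  have cz : Continuous fun s => (p s).2 := continuous_iff_continuousAt.2 fun s => (hz s).continuousAt
  obtain ⟨K, hK⟩ := (isCompact_uIcc (a := t0) (b := t)).exists_bound_of_continuousOn
    (f := fun s => ‖A0 s‖ + (‖n0‖ + 1) * ‖A1 s‖) (by fun_prop)
  obtain ⟨C, hC⟩ := (isCompact_uIcc (a := t0) (b := t)).exists_bound_of_continuousOn
    (f := fun s => A1 s (p s).2) (c1.clm_apply cz).continuousOn
  have key : ∀ h : ℂ, ‖h‖ ≤ 1 → ‖y (n0 + h) t - (p t).1 - h • (p t).2‖ ≤
      gronwallBound 0 K 1 |t - t0| * (‖h‖ ^ 2 * C) := by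
    intro h h1
    refine gron (y := fun s => y (n0 + h) s - (p s).1 - h • (p s).2)
      (y' := fun s => (A0 s + (n0 + h) • A1 s) (y (n0 + h) s - (p s).1 - h • (p s).2) +
        h ^ 2 • A1 s (p s).2) (fun s => ?_) (fun s hs => ?_) (by simp [h0, p0])
    · refine (((hy (n0 + h) s).fun_sub (hu s)).fun_sub ((hz s).fun_const_smul h)).congr_deriv ?_
      simp only [add_apply, smul_apply, map_sub, map_smul]
      module
    · refine (norm_add_le _ _).trans (add_le_add ?_ ?_)
      · refine (ContinuousLinearMap.le_opNorm _ _).trans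
          (mul_le_mul_of_nonneg_right ?_ (norm_nonneg _))
        refine (norm_add_le _ _).trans (le_trans ?_ ((le_abs_self _).trans (hK s hs)))
        rw [norm_smul]
        have := norm_add_le n0 h
        gcongr
        linarith
      · rw [norm_smul, norm_pow]
        exact mul_le_mul_of_nonneg_left (hC s hs) (by positivity)
  have e0 : y n0 t = (p t).1 := by
    have := key 0 (by simp)
    simpa [sub_eq_zero] using this
  refine HasDerivAt.differentiableAt (f' := (p t).2) ?_
  rw [hasDerivAt_iff_isLittleO_nhds_zero]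
  refine Asymptotics.IsBigO.trans_isLittleO (g := fun h : ℂ => h ^ 2)
    (Asymptotics.IsBigO.of_bound (gronwallBound 0 K 1 |t - t0| * C) ?_)
    (Asymptotics.isLittleO_pow_id (by norm_num))
  filter_upwards [Metric.closedBall_mem_nhds (0 : ℂ) one_pos] with h hh
  rw [e0, norm_pow]
  have := key h (by simpa using hh)
  linarith

end Pool.Agent.P.MP_785924_gt
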