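import Pool.Agent.P.MP_785924_gt.A.Tb

/-! Step ODEPAR of the free boundary annulus project. -/

namespace Pool.Agent.P.MP_785924_gt

open scoped ContDiff
open Set Filter Topology

namespace Odepar

theorem had {F : Type} [NormedAddCommGroup F] [NormedSpace ℝ F] [CompleteSpace F] {f f' : ℝ → F}
    (hd : ∀ x, HasDerivAt f (f' x) x) (hc : Continuous f') (s h : ℝ) :
    f (s + h) - f s = h • ∫ u in (0 : ℝ)..1, f' (s + u * h) := by
  have k : ∀ u ∈ uIcc (0 : ℝ) 1, HasDerivAt (fun u => f (s + u * h)) (h • f' (s + u * h)) u :=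
    fun u _ => by
      have := (hd (s + u * h)).scomp u (((hasDerivAt_id u).mul_const h).const_add s)
      simpa [Function.comp_def] using this
  have := intervalIntegral.integral_eq_sub_of_hasDerivAt k
    (Continuous.intervalIntegrable (by fun_prop) _ _)
  rw [intervalIntegral.integral_smul] at this
  simpa using this.symm

variable {E : Type} [NormedAddCommGroup E] [NormedSpace ℝ E]

/-- The coefficient of the augmented system. -/
noncomputable def aug (P Q R : E →L[ℝ] E) : E × E →L[ℝ] E × E :=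
  (ContinuousLinearMap.inl ℝ E E).comp (P.comp (ContinuousLinearMap.fst ℝ E E)) +
    (ContinuousLinearMap.inr ℝ E E).comp (Q.comp (ContinuousLinearMap.fst ℝ E E) +
      R.comp (ContinuousLinearMap.snd ℝ E E))

theorem aug_apply (P Q R : E →L[ℝ] E) (v : E × E) : aug P Q R v = (P v.1, Q v.1 + R v.2) := by
  simp [aug]

theorem aug_cont {X : Type} [TopologicalSpace X] {P Q R : X → E →L[ℝ] E} (hP : Continuous P)
    (hQ : Continuous Q) (hR : Continuous R) : Continuous fun x => aug (P x) (Q x) (R x) :=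
  (continuous_const.clm_comp (hP.clm_comp continuous_const)).add
    (continuous_const.clm_comp ((hQ.clm_comp continuous_const).add (hR.clm_comp continuous_const)))

theorem aug_smooth {P Q R : ℝ × ℝ → E →L[ℝ] E} (hP : ContDiff ℝ ∞ P)
    (hQ : ContDiff ℝ ∞ Q) (hR : ContDiff ℝ ∞ R) : ContDiff ℝ ∞ fun x => aug (P x) (Q x) (R x) :=
  (contDiff_const.clm_comp (hP.clm_comp contDiff_const)).add
    (contDiff_const.clm_comp ((hQ.clm_comp contDiff_const).add (hR.clm_comp contDiff_const)))

theorem fst_d {Y : ℝ → E × E} {P Q R : E →L[ℝ] E} {t : ℝ} (h : HasDerivAt Y (aug P Q R (Y t)) t) :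
    HasDerivAt (fun t => (Y t).1) (P (Y t).1) t := by
  have := (ContinuousLinearMap.fst ℝ E E).hasFDerivAt.comp_hasDerivAt t h
  rw [aug_apply] at this
  exact this

theorem snd_d {Y : ℝ → E × E} {P Q R : E →L[ℝ] E} {t : ℝ} (h : HasDerivAt Y (aug P Q R (Y t)) t) :
    HasDerivAt (fun t => (Y t).2) (Q (Y t).1 + R (Y t).2) t := by
  have := (ContinuousLinearMap.snd ℝ E E).hasFDerivAt.comp_hasDerivAt t h
  rw [aug_apply] at this
  exact this

theorem uq {y z : ℝ → E} {A : ℝ → E →L[ℝ] E} {t0 : ℝ} (hA : Continuous A)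
    (hy : ∀ t, HasDerivAt y (A t (y t)) t) (hz : ∀ t, HasDerivAt z (A t (z t)) t)
    (h0 : y t0 = z t0) (t : ℝ) : y t = z t :=
  sub_eq_zero.1 (uq_lin (y := fun t => y t - z t) hA
    (fun t => ((hy t).fun_sub (hz t)).congr_deriv (map_sub _ _ _).symm) (sub_eq_zero.2 h0) t)

theorem key [CompleteSpace E] (hEX : S_ODEEX) (hC : S_ODECONT) {A As : ℝ × ℝ → E →L[ℝ] E}
    {y z : ℝ × ℝ → E} {d : ℝ → E} {t0 : ℝ} (hA : Continuous A) (hAs : Continuous As)
    (hdA : ∀ t s, HasDerivAt (fun s => A (t, s)) (As (t, s)) s)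
    (hd : ∀ s, HasDerivAt (fun s => y (t0, s)) (d s) s) (hdc : Continuous d)
    (hy : ∀ t s, HasDerivAt (fun t => y (t, s)) (A (t, s) (y (t, s))) t)
    (hz : ∀ t s, HasDerivAt (fun t => z (t, s)) (As (t, s) (y (t, s)) + A (t, s) (z (t, s))) t)
    (hz0 : ∀ s, z (t0, s) = d s) (t s : ℝ) : HasDerivAt (fun s => y (t, s)) (z (t, s)) s := by
  set B : ℝ × ℝ → E →L[ℝ] E := fun q => ∫ u in (0 : ℝ)..1, As (q.2, s + u * q.1) with hB
  set D : ℝ → E := fun h => ∫ u in (0 : ℝ)..1, d (s + u * h) with hD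
  have Bc : Continuous B :=
    intervalIntegral.continuous_parametric_intervalIntegral_of_continuous'
      (f := fun (q : ℝ × ℝ) (u : ℝ) => As (q.2, s + u * q.1)) (hAs.comp (by fun_prop)) 0 1
  have Dc : Continuous D :=
    intervalIntegral.continuous_parametric_intervalIntegral_of_continuous'
      (f := fun (h : ℝ) (u : ℝ) => d (s + u * h)) (hdc.comp (by fun_prop)) 0 1
  set G : ℝ × ℝ → E × E →L[ℝ] E × E := fun q => aug (A (q.2, s)) (B q) (A (q.2, s + q.1)) with hG
  have Gc : Continuous G := aug_cont (hA.comp (by fun_prop)) Bc (hA.comp (by fun_prop))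
  have ex : ∀ h : ℝ, ∃ Y : ℝ → E × E, Y t0 = (y (t0, s), D h) ∧
      ∀ t, HasDerivAt Y (G (h, t) (Y t)) t := fun h =>
    hEX (E × E) (fun t => G (h, t)) (Gc.comp (by fun_prop)) t0 _
  choose Y Y0 hY using ex
  have Yc := hC (E × E) ℝ G Y t0 Gc hY (by simp only [Y0]; fun_prop)
  have Y1 : ∀ h t, (Y h t).1 = y (t, s) := fun h =>
    uq (A := fun t => A (t, s)) (t0 := t0) (hA.comp (by fun_prop)) (fun t => fst_d (hY h t))
      (fun t => hy t s) (by rw [Y0])
  have Y2 : ∀ h t, y (t, s + h) - y (t, s) = h • (Y h t).2 := fun h t => by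
    refine sub_eq_zero.1 (uq_lin (y := fun t => y (t, s + h) - y (t, s) - h • (Y h t).2)
      (A := fun t => A (t, s + h)) (t0 := t0) (hA.comp (by fun_prop)) (fun t => ?_) ?_ t)
    · refine (((hy t (s + h)).fun_sub (hy t s)).fun_sub
        ((snd_d (hY h t)).const_smul h)).congr_deriv ?_
      have e : A (t, s + h) - A (t, s) = h • B (h, t) :=
        had (f := fun s => A (t, s)) (f' := fun s => As (t, s)) (hdA t)
          (hAs.comp (by fun_prop)) s h
      have e2 := congrArg (fun L : E →L[ℝ] E => L (y (t, s))) e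
      simp only [sub_apply, smul_apply] at e2
      rw [Y1, map_sub, map_sub, map_smul, smul_add, ← e2]
      abel
    · rw [Y0, sub_eq_zero]
      exact had (f := fun s => y (t0, s)) hd hdc s h
  have Y3 : (Y 0 t).2 = z (t, s) := by
    refine sub_eq_zero.1 (uq_lin (y := fun t => (Y 0 t).2 - z (t, s))
      (A := fun t => A (t, s)) (t0 := t0) (hA.comp (by fun_prop)) (fun t => ?_) ?_ t)
    · refine ((snd_d (hY 0 t)).fun_sub (hz t s)).congr_deriv ?_
      have e : B (0, t) = As (t, s) := by simp [hB]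
      rw [Y1, e, map_sub, add_zero]
      abel
    · rw [Y0, hz0]
      simp [hD]
  rw [hasDerivAt_iff_tendsto_slope_zero, ← Y3]
  have c : Continuous fun h => (Y h t).2 :=
    (Yc.comp (f := fun h : ℝ => (h, t)) (by fun_prop)).snd
  refine ((c.tendsto 0).mono_left nhdsWithin_le_nhds).congr' ?_
  filter_upwards [self_mem_nhdsWithin] with h hh
  rw [Y2, smul_smul, inv_mul_cancel₀ hh, one_smul]

theorem main (hEX : S_ODEEX) (hC : S_ODECONT) (k : ℕ) :
    ∀ (E : Type) [NormedAddCommGroup E] [NormedSpace ℝ E] [CompleteSpace E]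
      (A : ℝ × ℝ → E →L[ℝ] E) (y : ℝ × ℝ → E) (t0 : ℝ), ContDiff ℝ ∞ A →
      ContDiff ℝ ∞ (fun s => y (t0, s)) →
      (∀ t s, HasDerivAt (fun t => y (t, s)) (A (t, s) (y (t, s))) t) → ContDiff ℝ k y := by
  induction k with
  | zero =>
    intro E _ _ _ A y t0 hA h0 hy
    have := hC E ℝ (fun q => A q.swap) (fun s t => y (t, s)) t0 (hA.continuous.comp continuous_swap)
      (fun s t => hy t s) h0.continuous
    exact contDiff_zero.2 (this.comp continuous_swap)
  | succ k ih =>
    intro E _ _ _ A y t0 hA h0 hy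
    set As : ℝ × ℝ → E →L[ℝ] E := fun p => fderiv ℝ A p (0, 1) with hAs
    have sAs : ContDiff ℝ ∞ As :=
      (hA.fderiv_right (m := ∞) (le_of_eq rfl)).clm_apply contDiff_const
    have hdA : ∀ t s, HasDerivAt (fun s => A (t, s)) (As (t, s)) s := fun t s =>
      (hA.differentiable (by simp) (t, s)).hasFDerivAt.comp_hasDerivAt s
        ((hasDerivAt_const s t).prodMk (hasDerivAt_id s))
    obtain ⟨d1, d2⟩ := contDiff_infty_iff_deriv.1 h0
    set G : ℝ × ℝ → E × E →L[ℝ] E × E := fun q => aug (A q) (As q) (A q) with hG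
    have sG : ContDiff ℝ ∞ G := aug_smooth hA sAs hA
    have ex : ∀ s : ℝ, ∃ Y : ℝ → E × E, Y t0 = (y (t0, s), deriv (fun s => y (t0, s)) s) ∧
        ∀ t, HasDerivAt Y (G (t, s) (Y t)) t := fun s =>
      hEX (E × E) (fun t => G (t, s)) (sG.continuous.comp (by fun_prop)) t0 _
    choose Y Y0 hY using ex
    have Yk := ih (E × E) G (fun q => Y q.2 q.1) t0 sG (by simp only [Y0]; exact h0.prodMk d2)
      fun t s => hY s t
    have Y1 : ∀ s t, (Y s t).1 = y (t, s) := fun s =>
      uq (A := fun t => A (t, s)) (t0 := t0) (hA.continuous.comp (by fun_prop))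
        (fun t => fst_d (hY s t)) (fun t => hy t s) (by rw [Y0])
    have yk : ContDiff ℝ k y := by
      have := Yk.fst
      simpa only [Y1] using this
    have zk : ContDiff ℝ k fun q : ℝ × ℝ => (Y q.2 q.1).2 := Yk.snd
    have hs := key hEX hC (z := fun q => (Y q.2 q.1).2) hA.continuous sAs.continuous hdA
      (fun s => (d1 s).hasDerivAt) d2.continuous hy
      (fun t s => by simpa only [Y1] using snd_d (hY s t)) (fun s => by simp only [Y0])
    have ak : ContDiff ℝ k fun q => A q (y q) := (hA.of_le (by exact_mod_cast le_top)).clm_apply yk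
    rw [Nat.cast_succ, contDiff_succ_iff_hasFDerivAt]
    refine ⟨fun q => (ContinuousLinearMap.fst ℝ ℝ ℝ).smulRight (A q (y q)) +
      (ContinuousLinearMap.snd ℝ ℝ ℝ).smulRight (Y q.2 q.1).2,
      (contDiff_const.smulRight ak).add (contDiff_const.smulRight zk), fun q => ?_⟩
    have := hasStrictFDerivAt_uncurry_coprod (𝕜 := ℝ) (u := q) (f := fun t s => y (t, s))
      (f₁ := fun t s => (1 : ℝ →L[ℝ] ℝ).smulRight (A (t, s) (y (t, s))))
      (f₂ := fun t s => (1 : ℝ →L[ℝ] ℝ).smulRight (Y s t).2)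
      (Eventually.of_forall fun v => (hy v.1 v.2).hasFDerivAt)
      (Eventually.of_forall fun v => (hs v.1 v.2).hasFDerivAt)
      (contDiff_const.smulRight ak).continuous.continuousAt
      (contDiff_const.smulRight zk).continuous.continuousAt
    refine this.hasFDerivAt.congr_fderiv ?_
    ext <;> simp [Function.HasUncurry.uncurry]

end Odepar

theorem p_ODEPAR (hODEEX : S_ODEEX) (hODECONT : S_ODECONT) :
    S_ODEPAR := fun E _ _ _ A y t0 hA h0 hy =>
  contDiff_infty.2 fun k => Odepar.main hODEEX hODECONT k E A y t0 hA h0 hy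

end Pool.Agent.P.MP_785924_gt
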