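import Pool.Agent.P.MP_785924_gt.A.IfaceA
import Pool.Agent.P.MP_785924_gt.A.Tb

/-! Step PARAB of the free boundary annulus project. -/

namespace Pool.Agent.P.MP_785924_gt

open scoped ContDiff
open Set Filter Topology

namespace Parab

variable {ρ P κ : ℝ} {w φ1 φ2 : ℝ → ℝ}

lemma c1 (h : Sys2R ρ w κ φ1 φ2) : Continuous φ1 :=
  continuous_iff_continuousAt.2 fun θ => (h θ).1.continuousAt

lemma c2 (h : Sys2R ρ w κ φ1 φ2) : Continuous φ2 :=
  continuous_iff_continuousAt.2 fun θ => (h θ).2.continuousAt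

/-- The determinant of the values at `0` and `P` has the sign of the sine of the swept angle. -/
lemma rsign (hANG : S_ANG) (hw : Continuous w) (hκ : 0 < κ) (h : Sol ρ w κ φ1 φ2) :
    ∃ r : ℝ, 0 ≤ r ∧ φ1 0 * φ2 P - φ2 0 * φ1 P = r * Real.sin (disp ρ P w κ φ1 φ2) := by
  have h1 := c1 h.1
  have h2 := c2 h.1
  have e0 : ‖(⟨φ1 0, φ2 0⟩ : ℂ)‖ = √(φ1 0 ^ 2 + φ2 0 ^ 2) := Complex.norm_eq_sqrt_sq_add_sq _
  have a1 := Complex.norm_mul_cos_arg ⟨φ1 0, φ2 0⟩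
  have a2 := Complex.norm_mul_sin_arg ⟨φ1 0, φ2 0⟩
  rw [e0] at a1 a2
  obtain ⟨b1, b2⟩ := hANG φ1 φ2 _ _ _ (by fun_prop (disch := intro θ; positivity))
    (by fun_prop (disch := intro θ; positivity)) (fun θ => (h.1 θ).1) (fun θ => (h.1 θ).2)
    (h.ne hw hκ.ne') a1.symm a2.symm P
  have e : (∫ s in (0 : ℝ)..P, (φ1 s * ((κ / Real.exp (w s) + Real.exp (w s) / (κ * ρ)) / 2 * φ1 s) -
      φ2 s * -((κ * Real.exp (w s) / ρ + 1 / (κ * Real.exp (w s))) / 2 * φ2 s)) /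
        (φ1 s ^ 2 + φ2 s ^ 2)) = disp ρ P w κ φ1 φ2 := by
    refine intervalIntegral.integral_congr fun s _ => ?_
    simp only [ang]
    generalize φ1 s ^ 2 + φ2 s ^ 2 = n
    ring
  rw [e] at b1 b2
  refine ⟨√(φ1 0 ^ 2 + φ2 0 ^ 2) * √(φ1 P ^ 2 + φ2 P ^ 2), by positivity, ?_⟩
  generalize √(φ1 0 ^ 2 + φ2 0 ^ 2) = r0 at *
  generalize √(φ1 P ^ 2 + φ2 P ^ 2) = rP at *
  generalize Complex.arg _ = a at *
  simp only at a1 a2
  rw [b1, b2, ← a1, ← a2, Real.sin_add, Real.cos_add]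
  linear_combination r0 * rP * Real.sin (disp ρ P w κ φ1 φ2) * Real.sin_sq_add_cos_sq a

end Parab

open Parab in
theorem p_PARAB (hANG : S_ANG) (hODEEX : S_ODEEX) :
    S_PARAB := by
  intro ρ P κ w φ1 φ2 j hρ hP hκ hw hge h hd
  have hc := hw.cont
  obtain ⟨ψ1, ψ2, hψ, p1, p2⟩ := Sys2R.ex hODEEX hc hκ.ne' ρ 0 (-φ2 0) (φ1 0)
  have hW := h.ne hc hκ.ne' 0
  have hs : ∀ e : ℝ, Sol ρ w κ (fun θ => 1 * φ1 θ + e * ψ1 θ) (fun θ => 1 * φ2 θ + e * ψ2 θ) :=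
    fun e => ⟨h.1.lin hψ 1 e, by
      by_contra hn
      push Not at hn
      rw [p1, p2] at hn
      exact hW (by linear_combination φ1 0 * hn.1 + φ2 0 * hn.2)⟩
  have h1 := c1 h.1
  have h2 := c2 h.1
  have g1 := c1 hψ
  have g2 := c2 hψ
  have hD : Continuous fun e : ℝ =>
      disp ρ P w κ (fun θ => 1 * φ1 θ + e * ψ1 θ) (fun θ => 1 * φ2 θ + e * ψ2 θ) := by
    refine intervalIntegral.continuous_parametric_intervalIntegral_of_continuous' ?_ 0 P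
    simp only [Function.uncurry_def, ang]
    exact Continuous.div (by fun_prop (disch := intro θ; positivity)) (by fun_prop)
      fun q => mul_ne_zero two_ne_zero ((hs q.1).ne hc hκ.ne' q.2)
  have hev : ∀ᶠ e in 𝓝 (0 : ℝ),
      disp ρ P w κ (fun θ => 1 * φ1 θ + e * ψ1 θ) (fun θ => 1 * φ2 θ + e * ψ2 θ) <
        Real.pi * j + Real.pi :=
    hD.continuousAt.eventually_lt_const (by simp [hd, Real.pi_pos])
  obtain ⟨r, -, d0⟩ := rsign (P := P) hANG hc hκ h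
  rw [hd, mul_comm Real.pi, Real.sin_nat_mul_pi, mul_zero] at d0
  have hmin : IsLocalMin (fun e : ℝ => (-1) ^ j *
      (e * (φ1 0 * ψ2 P - φ2 0 * ψ1 P + (ψ1 0 * φ2 P - ψ2 0 * φ1 P)) +
        e * e * (ψ1 0 * ψ2 P - ψ2 0 * ψ1 P))) 0 := by
    filter_upwards [hev] with e he
    obtain ⟨r, r0, q⟩ := rsign (P := P) hANG hc hκ (hs e)
    have lo := hge _ _ (hs e)
    generalize disp ρ P w κ _ _ = d at he q lo
    have s0 := Real.sin_nonneg_of_nonneg_of_le_pi (x := d - j * Real.pi) (by linarith) (by linarith)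
    rw [Real.sin_sub_nat_mul_pi] at s0
    calc _ = 0 := by ring
      _ ≤ r * ((-1) ^ j * Real.sin d) := mul_nonneg r0 s0
      _ = _ := by linear_combination (-1) ^ j * (d0 - q)
  have hL := hmin.hasDerivAt_eq_zero (((((hasDerivAt_id' (0 : ℝ)).mul_const _).fun_add
    (((hasDerivAt_id' (0 : ℝ)).fun_mul (hasDerivAt_id' (0 : ℝ))).mul_const _))).const_mul _)
  simp only [one_mul, mul_zero, zero_mul, add_zero, mul_eq_zero, pow_eq_zero_iff', neg_eq_zero,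
    one_ne_zero, false_and, false_or] at hL
  obtain ⟨c, e1, e2⟩ : ∃ c, φ1 P = c * φ1 0 ∧ φ2 P = c * φ2 0 :=
    ⟨(φ1 0 * φ1 P + φ2 0 * φ2 P) / (φ1 0 ^ 2 + φ2 0 ^ 2),
      by field_simp; linear_combination -φ2 0 * d0, by field_simp; linear_combination φ1 0 * d0⟩
  have wr := h.1.wr hψ P 0
  rw [e1, e2, p1, p2] at hL wr
  have hc2 : c ^ 2 = 1 := mul_right_cancel₀ hW (by linear_combination wr - c * hL)
  refine ⟨c, sq_eq_one_iff.1 hc2, fun θ => ?_⟩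
  simpa using (h.1.shift hw.2).uniq hc hκ.ne' (h.1.lin h.1 c 0) (t0 := 0) (by simp [e1])
    (by simp [e2]) θ

end Pool.Agent.P.MP_785924_gt
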