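import Pool.Agent.P.MP_785924_gt.A.IfaceA
import Pool.Agent.P.MP_785924_gt.A.Tb

/-! Step SCAL0 of the free boundary annulus project. -/

namespace Pool.Agent.P.MP_785924_gt

open scoped ContDiff
open Set Filter Topology

namespace Scal0

variable {ρ P : ℝ} {w : ℝ → ℝ} {x ν e : Fin 3 → ℝ → ℝ}

theorem per_real (h : Curve ρ P w x ν e) {f g u : ℝ → ℝ} (hs : Sys3 ρ w 0 f g u) :
    f P = f 0 ∧ g P = g 0 ∧ u P = u 0 := by
  have hρ : ρ ^ 2 ≠ 0 := pow_ne_zero 2 h.hρ.ne'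
  let a : Fin 3 → ℝ := fun i => f 0 / ρ ^ 2 * x i 0 + g 0 * ν i 0 + u 0 * e i 0
  have h1 : f 0 = cmp a x 0 := by
    have : f 0 / ρ ^ 2 * ρ ^ 2 = f 0 := div_mul_cancel₀ _ hρ
    simp only [cmp, a]
    linear_combination (-(f 0 / ρ ^ 2)) * h.xx 0 - g 0 * h.xν 0 - u 0 * h.xe 0 - this
  have h2 : g 0 = cmp a ν 0 := by
    simp only [cmp, a]
    linear_combination (-(f 0 / ρ ^ 2)) * h.xν 0 - g 0 * h.νν 0 - u 0 * h.νe 0
  have h3 : u 0 = cmp a e 0 := by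
    simp only [cmp, a]
    linear_combination (-(f 0 / ρ ^ 2)) * h.xe 0 - g 0 * h.νe 0 - u 0 * h.ee 0
  have key := hs.uniq h.smw.cont (h.sys3 a) h1 h2 h3 P
  have per : ∀ y : Fin 3 → ℝ → ℝ, (∀ i, Sm1 P (y i)) → cmp a y P = cmp a y 0 := by
    intro y hy
    simp only [cmp]
    rw [(hy 0).2.eq, (hy 1).2.eq, (hy 2).2.eq]
  exact ⟨key.1.trans ((per x h.smx).trans h1.symm), key.2.1.trans ((per ν h.smν).trans h2.symm),
    key.2.2.trans ((per e h.sme).trans h3.symm)⟩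

theorem per_cx (h : Curve ρ P w x ν e) {f g u : ℝ → ℂ}
    (hf : ∀ θ, HasDerivAt f (Real.exp (w θ) • u θ) θ)
    (hg : ∀ θ, HasDerivAt g ((Real.exp (w θ))⁻¹ • u θ) θ)
    (hu : ∀ θ, HasDerivAt u
      ((-(Real.exp (w θ) / ρ ^ 2)) • f θ - (Real.exp (w θ))⁻¹ • g θ) θ) :
    f P = f 0 ∧ g P = g 0 ∧ u P = u 0 := by
  have key : ∀ L : ℂ →L[ℝ] ℝ, L (f P) = L (f 0) ∧ L (g P) = L (g 0) ∧ L (u P) = L (u 0) := by
    intro L
    refine per_real h (f := fun θ => L (f θ)) (g := fun θ => L (g θ)) (u := fun θ => L (u θ))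
      fun θ => ⟨?_, ?_, ?_⟩
    · exact (L.hasFDerivAt.comp_hasDerivAt θ (hf θ)).congr_deriv (by rw [map_smul, smul_eq_mul])
    · refine (L.hasFDerivAt.comp_hasDerivAt θ (hg θ)).congr_deriv ?_
      rw [map_smul, smul_eq_mul]
      ring
    · refine (L.hasFDerivAt.comp_hasDerivAt θ (hu θ)).congr_deriv ?_
      rw [map_sub, map_smul, map_smul, smul_eq_mul, smul_eq_mul]
      ring
  have k1 := key Complex.reCLM
  have k2 := key Complex.imCLM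
  simp only [Complex.reCLM_apply, Complex.imCLM_apply] at k1 k2
  exact ⟨Complex.ext k1.1 k2.1, Complex.ext k1.2.1 k2.2.1, Complex.ext k1.2.2 k2.2.2⟩

theorem per_bil (h : Curve ρ P w x ν e) {κ : ℂ} (hκ : κ ^ 4 = -1) {φ1 φ2 ψ1 ψ2 : ℝ → ℂ}
    (hφ : Sys2 ρ w κ φ1 φ2) (hψ : Sys2 ρ w κ ψ1 ψ2) :
    φ1 P * ψ1 P = φ1 0 * ψ1 0 ∧ φ2 P * ψ2 P = φ2 0 * ψ2 0 ∧
      φ1 P * ψ2 P + φ2 P * ψ1 P = φ1 0 * ψ2 0 + φ2 0 * ψ1 0 := by
  have hκ0 : κ ≠ 0 := by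
    rintro rfl
    norm_num at hκ
  have hρ : (ρ : ℂ) ≠ 0 := by exact_mod_cast h.hρ.ne'
  obtain ⟨k1, k2, k3⟩ := per_cx h
    (f := fun θ => -(ρ : ℂ) * (κ * (φ1 θ * ψ1 θ) - κ ^ 3 * (φ2 θ * ψ2 θ)))
    (g := fun θ => κ * (φ2 θ * ψ2 θ) - κ ^ 3 * (φ1 θ * ψ1 θ))
    (u := fun θ => κ ^ 2 * (φ1 θ * ψ2 θ + φ2 θ * ψ1 θ))
    (fun θ => by
      refine ((((((hφ θ).1.fun_mul (hψ θ).1).const_mul κ).fun_sub
        (((hφ θ).2.fun_mul (hψ θ).2).const_mul (κ ^ 3))).const_mul (-(ρ : ℂ)))).congr_deriv ?_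
      have hX := expC_ne (w θ)
      rw [Complex.real_smul]
      generalize ((Real.exp (w θ) : ℝ) : ℂ) = X at hX ⊢
      field_simp
      linear_combination ((φ1 θ * ψ2 θ + φ2 θ * ψ1 θ) * ρ) * hκ)
    (fun θ => by
      refine ((((hφ θ).2.fun_mul (hψ θ).2).const_mul κ).fun_sub
        (((hφ θ).1.fun_mul (hψ θ).1).const_mul (κ ^ 3))).congr_deriv ?_
      have hX := expC_ne (w θ)
      rw [Complex.real_smul, Complex.ofReal_inv]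
      generalize ((Real.exp (w θ) : ℝ) : ℂ) = X at hX ⊢
      field_simp
      linear_combination ((φ1 θ * ψ2 θ + φ2 θ * ψ1 θ) * X ^ 2) * hκ)
    (fun θ => by
      refine ((((hφ θ).1.fun_mul (hψ θ).2).fun_add
        ((hφ θ).2.fun_mul (hψ θ).1)).const_mul (κ ^ 2)).congr_deriv ?_
      have hX := expC_ne (w θ)
      rw [Complex.real_smul, Complex.real_smul, Complex.ofReal_inv, Complex.ofReal_neg,
        Complex.ofReal_div, Complex.ofReal_pow]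
      generalize ((Real.exp (w θ) : ℝ) : ℂ) = X at hX ⊢
      field_simp
      ring)
  have k1' := mul_left_cancel₀ (neg_ne_zero.2 hρ) k1
  have h2 : (2 * κ ^ 2 : ℂ) ≠ 0 := mul_ne_zero two_ne_zero (pow_ne_zero 2 hκ0)
  refine ⟨mul_left_cancel₀ h2 ?_, mul_left_cancel₀ h2 ?_, mul_left_cancel₀ (pow_ne_zero 2 hκ0) k3⟩
  · linear_combination κ * k1' + κ ^ 3 * k2 + κ ^ 2 * (φ1 P * ψ1 P - φ1 0 * ψ1 0) * hκ
  · linear_combination κ ^ 3 * k1' + κ * k2 + κ ^ 2 * (φ2 P * ψ2 P - φ2 0 * ψ2 0) * hκ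

end Scal0

theorem p_SCAL0 (hODEEX : S_ODEEX) :
    S_SCAL0 := by
  intro ρ P w x ν e κ h hκ
  have hκ0 : κ ≠ 0 := by
    rintro rfl
    norm_num at hκ
  have hw := h.smw.cont
  obtain ⟨p1, p2, hp, hp1, hp2⟩ := Sys2.ex hODEEX hw hκ0 ρ 0 1 0
  obtain ⟨q1, q2, hq, hq1, hq2⟩ := Sys2.ex hODEEX hw hκ0 ρ 0 0 1
  obtain ⟨a1, a2, -⟩ := Scal0.per_bil h hκ hp hp
  obtain ⟨b1, -, -⟩ := Scal0.per_bil h hκ hq hq
  obtain ⟨-, -, c3⟩ := Scal0.per_bil h hκ hp hq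
  rw [hp1] at a1
  rw [hp2] at a2
  rw [hq1] at b1
  rw [hp1, hp2, hq1, hq2] at c3
  have e1 : p2 P = 0 := mul_self_eq_zero.1 (by rw [a2]; ring)
  have e2 : q1 P = 0 := mul_self_eq_zero.1 (by rw [b1]; ring)
  have e3 : q2 P = p1 P := by
    rw [e1] at c3
    linear_combination p1 P * c3 - q2 P * a1
  refine ⟨p1 P, fun φ1 φ2 hφ θ => ?_⟩
  have k := hφ.uniq hw hκ0 (hp.lin hq (φ1 0) (φ2 0)) (t0 := 0)
    (by simp [hp1, hq1]) (by simp [hp2, hq2]) P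
  have k' := (hφ.shift h.smw.2).uniq hw hκ0 (hφ.lin hφ (p1 P) 0) (t0 := 0)
    (by rw [zero_add, k.1, e2]; ring) (by rw [zero_add, k.2, e1, e3]; ring) θ
  constructor
  · rw [k'.1]
    ring
  · rw [k'.2]
    ring

end Pool.Agent.P.MP_785924_gt
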