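import Pool.Agent.P.MP_785924_gt.A.IfaceA
import Pool.Agent.P.MP_785924_gt.A.Tb

/-! Step SQ1 of the free boundary annulus project. -/

namespace Pool.Agent.P.MP_785924_gt

open scoped ContDiff
open Set Filter Topology

theorem p_SQ1 :
    S_SQ1 := by
  intro ρ κ w φ1 φ2 hρ hκ h
  have hκ0 : 0 < κ := by linarith
  have h2 : 1 < κ ^ 2 := by nlinarith
  have h4 : 0 < κ ^ 4 - 1 := by nlinarith
  have hD : κ ^ 2 - 1 / κ ^ 2 = (κ ^ 4 - 1) / κ ^ 2 := by field_simp
  refine ⟨fun θ => ⟨?_, ?_, ?_⟩, fun θ => ?_, fun θ => ⟨?_, ?_⟩, ?_⟩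
  · have hX := Real.exp_pos (w θ)
    have := ((((((h θ).1.fun_pow 2).const_mul κ).fun_add
      (((h θ).2.fun_pow 2).div_const κ)).const_mul ρ).div_const (κ ^ 2 - 1 / κ ^ 2)).fun_neg
    refine this.congr_deriv ?_
    simp only [Nat.cast_ofNat, Nat.add_one_sub_one, pow_one]
    rw [hD]
    field_simp
    ring
  · have hX := Real.exp_pos (w θ)
    have := ((((h θ).2.fun_pow 2).const_mul κ).fun_add
      (((h θ).1.fun_pow 2).div_const κ)).div_const (κ ^ 2 - 1 / κ ^ 2)
    refine this.congr_deriv ?_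
    simp only [Nat.cast_ofNat, Nat.add_one_sub_one, pow_one]
    rw [hD]
    field_simp
    ring
  · have hX := Real.exp_pos (w θ)
    have := (h θ).1.fun_mul (h θ).2
    refine this.congr_deriv ?_
    unfold fS gS muK
    rw [hD]
    field_simp
    ring
  · unfold fS gS muK
    rw [hD]
    field_simp
    ring
  · unfold fS gS
    rw [hD]
    field_simp
    ring
  · unfold fS gS
    rw [hD]
    field_simp
    ring
  · unfold muK
    have e : (-((κ ^ 2 + 1 / κ ^ 2) / (2 * ρ))) ^ 2 - 1 / ρ ^ 2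
        = (κ ^ 4 - 1) ^ 2 / (4 * ρ ^ 2 * κ ^ 4) := by
      field_simp
      ring
    have : 0 < (κ ^ 4 - 1) ^ 2 / (4 * ρ ^ 2 * κ ^ 4) := by positivity
    linarith

end Pool.Agent.P.MP_785924_gt
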