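import Pool.Agent.P.MP_785924_gt.A.IfaceA
import Pool.Agent.P.MP_785924_gt.A.Tb

/-! Step SQ2 of the free boundary annulus project. -/

namespace Pool.Agent.P.MP_785924_gt

open scoped ContDiff
open Set Filter Topology

namespace Sq2

/-- The invariant pairing of a solution of the third order system with two spinors. -/
theorem pair {ρ κ : ℝ} {w φ1 φ2 ψ1 ψ2 f g u : ℝ → ℝ} (hρ : 0 < ρ) (hκ : 0 < κ)
    (h : Sys2R ρ w κ φ1 φ2) (h' : Sys2R ρ w κ ψ1 ψ2) (h3 : Sys3 ρ w (muK ρ κ) f g u) (s t : ℝ) :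
    -(κ * f s / ρ + g s / κ) * (φ2 s * ψ2 s) + (κ * g s + f s / (ρ * κ)) * (φ1 s * ψ1 s)
        - u s * (φ1 s * ψ2 s + φ2 s * ψ1 s) =
      -(κ * f t / ρ + g t / κ) * (φ2 t * ψ2 t) + (κ * g t + f t / (ρ * κ)) * (φ1 t * ψ1 t)
        - u t * (φ1 t * ψ2 t + φ2 t * ψ1 t) := by
  have hd : ∀ θ, HasDerivAt (fun θ => -(κ * f θ / ρ + g θ / κ) * (φ2 θ * ψ2 θ)
      + (κ * g θ + f θ / (ρ * κ)) * (φ1 θ * ψ1 θ) - u θ * (φ1 θ * ψ2 θ + φ2 θ * ψ1 θ)) 0 θ :=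
    fun θ => by
      obtain ⟨df, dg, du⟩ := h3 θ
      refine (((((((df.const_mul κ).div_const ρ).fun_add (dg.div_const κ)).fun_neg.fun_mul
        ((h θ).2.fun_mul (h' θ).2)).fun_add (((dg.const_mul κ).fun_add
        (df.div_const (ρ * κ))).fun_mul ((h θ).1.fun_mul (h' θ).1))).fun_sub
        (du.fun_mul (((h θ).1.fun_mul (h' θ).2).fun_add
          ((h θ).2.fun_mul (h' θ).1))))).congr_deriv ?_
      have := Real.exp_pos (w θ)
      simp only [muK]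
      field_simp
      ring
  exact is_const_of_deriv_eq_zero (fun θ => (hd θ).differentiableAt) (fun θ => (hd θ).deriv) s t

theorem coef {p q : ℝ} (hW : p ^ 2 + q ^ 2 ≠ 0) (r s : ℝ) :
    ∃ a b : ℝ, r = a * p + b * -q ∧ s = a * q + b * p :=
  ⟨(r * p + s * q) / (p ^ 2 + q ^ 2), (s * p - r * q) / (p ^ 2 + q ^ 2),
    by field_simp; ring, by field_simp; ring⟩

theorem rank {p q A B u : ℝ} (hW : p ^ 2 + q ^ 2 ≠ 0)
    (h1 : A * (q * q) + B * (p * p) - u * (p * q + q * p) = 0)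
    (h2 : A * (q * p) + B * (p * -q) - u * (p * p + q * -q) = 0) :
    ∃ τ : ℝ, A = τ * p ^ 2 ∧ B = τ * q ^ 2 ∧ u = τ * (p * q) := by
  have e1 : A * q - u * p = 0 :=
    (mul_eq_zero.mp (show (p ^ 2 + q ^ 2) * _ = 0 by
      linear_combination q * h1 + p * h2)).resolve_left hW
  have e2 : u * q - B * p = 0 :=
    (mul_eq_zero.mp (show (p ^ 2 + q ^ 2) * _ = 0 by
      linear_combination q * h2 - p * h1)).resolve_left hW
  refine ⟨(A + B) / (p ^ 2 + q ^ 2), ?_, ?_, ?_⟩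
  · field_simp
    linear_combination q * e1 + p * e2
  · field_simp
    linear_combination -q * e1 - p * e2
  · field_simp
    linear_combination q * e2 - p * e1

end Sq2

open Sq2 in
theorem p_SQ2 (hODEEX : S_ODEEX) (hSQ1 : S_SQ1) :
    S_SQ2 := by
  intro ρ P κ w φ1 φ2 f g u hρ hκ hw hs ⟨σ, hσ, hp⟩ hn h3 hf hg hu
  have hκ0 : 0 < κ := by linarith
  have hc := hw.cont
  have hW := hs.ne hc hκ0.ne' 0
  have hσ2 : σ * σ = 1 := by rcases hσ with rfl | rfl <;> norm_num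
  have hσ0 : σ ≠ 0 := by rcases hσ with rfl | rfl <;> norm_num
  obtain ⟨ψ1, ψ2, hψ, e1, e2⟩ := Sys2R.ex hODEEX hc hκ0.ne' ρ 0 (-φ2 0) (φ1 0)
  obtain ⟨a, b, ha, hb⟩ := coef hW (ψ1 P) (ψ2 P)
  obtain ⟨p1, p2⟩ := hp 0
  rw [zero_add] at p1 p2
  have hbσ : b = σ := by
    have := hs.1.wr hψ P 0
    rw [p1, p2, ha, hb, e1, e2] at this
    refine mul_left_cancel₀ hW ?_
    linear_combination σ * this - b * (φ1 0 ^ 2 + φ2 0 ^ 2) * hσ2
  subst hbσ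
  have ha0 : a ≠ 0 := by
    rintro rfl
    refine hn ⟨b, fun y1 y2 hy θ => ?_⟩
    obtain ⟨c, d, hc1, hc2⟩ := coef hW (y1 0) (y2 0)
    have k1 := hy.uniq hc hκ0.ne' (hs.1.lin hψ c d) (t0 := 0) (by rw [e1]; exact hc1)
      (by rw [e2]; exact hc2)
    have k2 := (hψ.shift hw.2).uniq hc hκ0.ne' (hψ.lin hψ b 0) (t0 := 0)
      (by simp [ha, e1]) (by simp [hb, e2]) θ
    rw [(k1 (θ + P)).1, (k1 (θ + P)).2, (k1 θ).1, (k1 θ).2, (hp θ).1, (hp θ).2, k2.1, k2.2]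
    constructor <;> ring
  have j1 := pair hρ hκ0 hs.1 hψ h3 P 0
  have j2 := pair hρ hκ0 hψ hψ h3 P 0
  rw [hf, hg, hu, ha, hb, e1, e2] at j1 j2
  rw [p1, p2] at j1
  generalize hA : -(κ * f 0 / ρ + g 0 / κ) = A at j1 j2
  generalize hB : κ * g 0 + f 0 / (ρ * κ) = B at j1 j2
  have r1 : A * (φ2 0 * φ2 0) + B * (φ1 0 * φ1 0) - u 0 * (φ1 0 * φ2 0 + φ2 0 * φ1 0) = 0 :=
    (mul_eq_zero.mp (show (b * a) * _ = 0 by
      linear_combination j1 - (A * (φ2 0 * φ1 0) + B * (φ1 0 * -φ2 0)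
        - u 0 * (φ1 0 * φ1 0 + φ2 0 * -φ2 0)) * hσ2)).resolve_left (mul_ne_zero hσ0 ha0)
  have r2 : A * (φ2 0 * φ1 0) + B * (φ1 0 * -φ2 0) - u 0 * (φ1 0 * φ1 0 + φ2 0 * -φ2 0) = 0 :=
    (mul_eq_zero.mp (show (2 * (b * a)) * _ = 0 by
      linear_combination j2 - a ^ 2 * r1 - (A * (φ1 0 * φ1 0) + B * (φ2 0 * φ2 0)
        + u 0 * (2 * φ1 0 * φ2 0)) * hσ2)).resolve_left
      (mul_ne_zero two_ne_zero (mul_ne_zero hσ0 ha0))
  obtain ⟨τ, t1, t2, t3⟩ := rank hW r1 r2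
  have hk : κ ^ 2 - 1 / κ ^ 2 ≠ 0 := by
    have h1 : 1 < κ ^ 2 := by nlinarith
    have h2 : 1 / κ ^ 2 < 1 := by rw [div_lt_one (by positivity)]; exact h1
    linarith
  have hS := (hSQ1 ρ κ w φ1 φ2 hρ hκ hs.1).1
  have key := h3.uniq hc (hS.lin hS τ 0) (t0 := 0) (by
      simp only [fS, zero_mul, add_zero]
      rw [← neg_div, ← mul_div_assoc, eq_div_iff hk]
      have : τ * -(ρ * (κ * φ1 0 ^ 2 + φ2 0 ^ 2 / κ)) = -(ρ * (κ * A + B / κ)) := by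
        rw [t1, t2]; ring
      rw [this, ← hA, ← hB]
      field_simp
      ring) (by
      simp only [gS, zero_mul, add_zero]
      rw [← mul_div_assoc, eq_div_iff hk]
      have : τ * (κ * φ2 0 ^ 2 + φ1 0 ^ 2 / κ) = κ * B + A / κ := by
        rw [t1, t2]; ring
      rw [this, ← hA, ← hB]
      field_simp
      ring) (by simpa using t3)
  exact ⟨τ, fun θ => by simpa using key θ⟩

end Pool.Agent.P.MP_785924_gt
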