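import Pool.Agent.P.MP_785924_gt.A.IfaceA
import Pool.Agent.P.MP_785924_gt.A.Tb

/-! Step SQ3 of the free boundary annulus project. -/

namespace Pool.Agent.P.MP_785924_gt

open scoped ContDiff
open Set Filter Topology

namespace Sq3

theorem fac {a b c : ℝ} (h : a * b = c ^ 2) (hne : a ≠ 0 ∨ b ≠ 0) :
    ∃ τ v1 v2 : ℝ, τ ≠ 0 ∧ (v1 ≠ 0 ∨ v2 ≠ 0) ∧ τ * v1 ^ 2 = a ∧ τ * v2 ^ 2 = b ∧
      τ * (v1 * v2) = c := by
  rcases hne with ha | hb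
  · refine ⟨1 / a, a, c, one_div_ne_zero ha, Or.inl ha, ?_, ?_, ?_⟩
    · field_simp
    · rw [← h]; field_simp
    · field_simp
  · refine ⟨1 / b, c, b, one_div_ne_zero hb, Or.inr hb, ?_, ?_, ?_⟩
    · rw [← h]; field_simp
    · field_simp
    · field_simp

theorem pm {p1 p2 v1 v2 : ℝ} (h1 : p1 ^ 2 = v1 ^ 2) (h2 : p2 ^ 2 = v2 ^ 2)
    (h3 : p1 * p2 = v1 * v2) : ∃ σ : ℝ, (σ = 1 ∨ σ = -1) ∧ p1 = σ * v1 ∧ p2 = σ * v2 := by
  rcases sq_eq_sq_iff_eq_or_eq_neg.1 h1 with a | a <;>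
    rcases sq_eq_sq_iff_eq_or_eq_neg.1 h2 with b | b
  · exact ⟨1, Or.inl rfl, by linarith, by linarith⟩
  · have h : v1 * v2 = 0 := by rw [a, b] at h3; linarith
    rcases mul_eq_zero.1 h with c | c
    · exact ⟨-1, Or.inr rfl, by linarith, by linarith⟩
    · exact ⟨1, Or.inl rfl, by linarith, by linarith⟩
  · have h : v1 * v2 = 0 := by rw [a, b] at h3; linarith
    rcases mul_eq_zero.1 h with c | c
    · exact ⟨1, Or.inl rfl, by linarith, by linarith⟩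
    · exact ⟨-1, Or.inr rfl, by linarith, by linarith⟩
  · exact ⟨-1, Or.inr rfl, by linarith, by linarith⟩

end Sq3

theorem p_SQ3 (hODEEX : S_ODEEX) (hSQ1 : S_SQ1) :
    S_SQ3 := by
  intro ρ P κ w f g u hρ hκ hw hs hf hg hu hn hne
  have hκ0 : κ ≠ 0 := by linarith
  have hρ0 : ρ ≠ 0 := hρ.ne'
  have hk4 : κ ^ 4 - 1 ≠ 0 := by
    have : 1 < κ ^ 4 := one_lt_pow₀ hκ (by norm_num)
    linarith
  have hD : κ ^ 2 - 1 / κ ^ 2 ≠ 0 := by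
    have : κ ^ 2 - 1 / κ ^ 2 = (κ ^ 4 - 1) / κ ^ 2 := by field_simp
    rw [this]
    exact div_ne_zero hk4 (pow_ne_zero _ hκ0)
  have hdet : -(κ * f 0 / ρ + g 0 / κ) * (κ * g 0 + f 0 / (ρ * κ)) = u 0 ^ 2 := by
    have e : -(κ * f 0 / ρ + g 0 / κ) * (κ * g 0 + f 0 / (ρ * κ))
        = -(f 0 ^ 2 / ρ ^ 2 - 2 * muK ρ κ * f 0 * g 0 + g 0 ^ 2) := by
      unfold muK
      field_simp
      ring
    rw [e]
    linarith
  have hinv : ∀ a b : ℝ, a = -(κ * f 0 / ρ + g 0 / κ) → b = κ * g 0 + f 0 / (ρ * κ) →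
      f 0 = -(ρ * (κ * a + b / κ) / (κ ^ 2 - 1 / κ ^ 2)) ∧
      g 0 = (κ * b + a / κ) / (κ ^ 2 - 1 / κ ^ 2) := by
    intro a b ha hb
    constructor
    · rw [← neg_div, eq_div_iff hD, ha, hb]
      field_simp
      ring
    · rw [eq_div_iff hD, ha, hb]
      field_simp
      ring
  have hS : -(κ * f 0 / ρ + g 0 / κ) ≠ 0 ∨ κ * g 0 + f 0 / (ρ * κ) ≠ 0 := by
    by_contra hc
    push Not at hc
    have h1 := hinv 0 0 hc.1.symm hc.2.symm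
    have h2 : u 0 ^ 2 = 0 := by rw [← hdet, hc.1, zero_mul]
    rcases hne with h | h | h
    · exact h (by simpa using h1.1)
    · exact h (by simpa using h1.2)
    · exact h (pow_eq_zero_iff (by norm_num) |>.1 h2)
  obtain ⟨τ, v1, v2, hτ, hv, e1, e2, e3⟩ := Sq3.fac hdet hS
  obtain ⟨φ1, φ2, hφ, a1, a2⟩ := Sys2R.ex hODEEX hw.cont hκ0 ρ 0 v1 v2
  obtain ⟨s3, -, hsq, -⟩ := hSQ1 ρ κ w φ1 φ2 hρ hκ hφ
  have hi := hinv _ _ e1 e2
  have key := hs.uniq hw.cont (s3.lin s3 τ 0) (t0 := 0)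
    (by rw [hi.1]; simp only [fS, a1, a2]; ring)
    (by rw [hi.2]; simp only [gS, a1, a2]; ring)
    (by simp only [a1, a2]; linarith)
  have kf : fS ρ κ φ1 φ2 P = fS ρ κ φ1 φ2 0 := by
    refine mul_left_cancel₀ hτ ?_
    linarith [(key P).1, (key 0).1]
  have kg : gS κ φ1 φ2 P = gS κ φ1 φ2 0 := by
    refine mul_left_cancel₀ hτ ?_
    linarith [(key P).2.1, (key 0).2.1]
  have ku : φ1 P * φ2 P = φ1 0 * φ2 0 := by
    refine mul_left_cancel₀ hτ ?_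
    linarith [(key P).2.2, (key 0).2.2]
  obtain ⟨σ, hσ, b1, b2⟩ := Sq3.pm (p1 := φ1 P) (p2 := φ2 P) (v1 := φ1 0) (v2 := φ2 0)
    (by rw [(hsq P).1, (hsq 0).1, kf, kg]) (by rw [(hsq P).2, (hsq 0).2, kf, kg]) ku
  refine ⟨φ1, φ2, ⟨hφ, by rw [a1, a2]; exact hv⟩, ⟨σ, hσ, fun θ => ?_⟩, τ, hτ, fun θ => ?_⟩
  · have := (hφ.shift hw.2).uniq hw.cont hκ0 (hφ.lin hφ σ 0) (t0 := 0)
      (by simpa using b1) (by simpa using b2) θ
    simpa using this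
  · linarith [(key θ).2.2]

end Pool.Agent.P.MP_785924_gt
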