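import Pool.Agent.P.MP_785924_gt.A.IfaceA
import Pool.Agent.P.MP_785924_gt.A.Tb

/-! Step SQ4 of the free boundary annulus project. -/

namespace Pool.Agent.P.MP_785924_gt

open scoped ContDiff
open Set Filter Topology

theorem p_SQ4 (hODEEX : S_ODEEX) (hSQ1 : S_SQ1) :
    S_SQ4 := by
  intro ρ P κ w hρ hκ hw
  have hκ0 : κ ≠ 0 := by linarith
  have hρ0 : ρ ≠ 0 := hρ.ne'
  have hc := hw.cont
  obtain ⟨p1, p2, hp, p10, p20⟩ := Sys2R.ex hODEEX hc hκ0 ρ 0 1 0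
  obtain ⟨q1, q2, hq, q10, q20⟩ := Sys2R.ex hODEEX hc hκ0 ρ 0 0 1
  have hr := hp.lin hq 1 1
  constructor
  · rintro ⟨σ, hσ⟩ f g u hf
    have W := hp.wr hq P 0
    have sp := hσ _ _ hp 0
    have sq := hσ _ _ hq 0
    rw [zero_add] at sp sq
    have hσ2 : σ ^ 2 = 1 := by
      rw [sp.1, sp.2, sq.1, sq.2, p10, p20, q10, q20] at W
      linarith
    have per : ∀ φ1 φ2, Sys2R ρ w κ φ1 φ2 → fS ρ κ φ1 φ2 P = fS ρ κ φ1 φ2 0 ∧
        gS κ φ1 φ2 P = gS κ φ1 φ2 0 ∧ φ1 P * φ2 P = φ1 0 * φ2 0 := by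
      intro φ1 φ2 h
      have s := hσ _ _ h 0
      rw [zero_add] at s
      have a1 : φ1 P ^ 2 = φ1 0 ^ 2 := by rw [s.1, mul_pow, hσ2, one_mul]
      have a2 : φ2 P ^ 2 = φ2 0 ^ 2 := by rw [s.2, mul_pow, hσ2, one_mul]
      refine ⟨by simp only [fS, a1, a2], by simp only [gS, a1, a2], ?_⟩
      rw [s.1, s.2]; linear_combination (φ1 0 * φ2 0) * hσ2
    have hD : κ ^ 2 - 1 / κ ^ 2 ≠ 0 := by
      have h1 : 1 < κ ^ 2 := by nlinarith
      have h2 : 1 / κ ^ 2 < 1 := by rw [div_lt_one (by positivity)]; exact h1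
      linarith
    have hD' : κ ^ 4 - 1 ≠ 0 := by
      have h1 : 1 < κ ^ 2 := by nlinarith
      nlinarith
    have e := (((hSQ1 ρ κ w _ _ hρ hκ hp).1.lin (hSQ1 ρ κ w _ _ hρ hκ hq).1
      (-(κ * f 0 / ρ + g 0 / κ) - u 0) (κ * g 0 + f 0 / (ρ * κ) - u 0)).lin
      (hSQ1 ρ κ w _ _ hρ hκ hr).1 1 (u 0))
    have U := hf.uniq hc e (t0 := 0)
      (by simp only [fS, p10, p20, q10, q20]; field_simp; ring)
      (by simp only [gS, p10, p20, q10, q20]; field_simp; ring)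
      (by simp only [p10, p20, q10, q20]; ring)
    have a := per _ _ hp
    have b := per _ _ hq
    have c := per _ _ hr
    have UP := U P
    have U0 := U 0
    refine ⟨UP.1.trans (Eq.trans ?_ U0.1.symm), UP.2.1.trans (Eq.trans ?_ U0.2.1.symm),
      UP.2.2.trans (Eq.trans ?_ U0.2.2.symm)⟩
    · rw [a.1, b.1, c.1]
    · rw [a.2.1, b.2.1, c.2.1]
    · rw [a.2.2, b.2.2, c.2.2]
  · intro H
    have per : ∀ φ1 φ2, Sys2R ρ w κ φ1 φ2 → φ1 P ^ 2 = φ1 0 ^ 2 ∧ φ2 P ^ 2 = φ2 0 ^ 2 ∧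
        φ1 P * φ2 P = φ1 0 * φ2 0 := by
      intro φ1 φ2 h
      obtain ⟨s3, -, sq, -⟩ := hSQ1 ρ κ w _ _ hρ hκ h
      obtain ⟨h1, h2, h3⟩ := H _ _ _ s3
      exact ⟨by rw [(sq P).1, (sq 0).1, h1, h2], by rw [(sq P).2, (sq 0).2, h1, h2], h3⟩
    obtain ⟨a1, a2, -⟩ := per _ _ hp
    obtain ⟨b1, -, -⟩ := per _ _ hq
    obtain ⟨-, -, c3⟩ := per _ _ hr
    rw [p10] at a1
    rw [p20] at a2
    rw [q10] at b1
    have a2' : p2 P = 0 := by simpa using a2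
    have b1' : q1 P = 0 := by simpa using b1
    simp only [p10, p20, q10, q20, a2', b1'] at c3
    have hq2 : q2 P = p1 P := by linear_combination (p1 P) * c3 - (q2 P) * a1
    refine ⟨p1 P, fun φ1 φ2 h θ => ?_⟩
    have U := h.uniq hc hκ0 (hp.lin hq (φ1 0) (φ2 0)) (t0 := 0)
      (by simp [p10, q10]) (by simp [p20, q20]) P
    simp only [a2', b1', hq2] at U
    have V := (h.shift hw.2).uniq hc hκ0 (h.lin h (p1 P) 0) (t0 := 0)
      (by simp only [zero_add]; rw [U.1]; ring) (by simp only [zero_add]; rw [U.2]; ring) θ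
    exact ⟨by rw [V.1]; ring, by rw [V.2]; ring⟩

end Pool.Agent.P.MP_785924_gt
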