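import Pool.Agent.P.MP_785924_gt.A.IfaceA

/-! Step STURM of the free boundary annulus project. -/

namespace Pool.Agent.P.MP_785924_gt

open scoped ContDiff
open Set Filter Topology

namespace Sturm

/-- A continuous function without zero on an open interval has one sign there. -/
theorem one_sign {p : ℝ → ℝ} (hp : Continuous p) {a b : ℝ}
    (h : ∀ θ ∈ Ioo a b, p θ ≠ 0) :
    ∃ s : ℝ, ∀ θ ∈ Ioo a b, 0 < s * p θ := by
  by_cases hpos : ∀ θ ∈ Ioo a b, 0 < p θ
  · exact ⟨1, fun θ hθ => by simpa using hpos θ hθ⟩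
  · push Not at hpos
    obtain ⟨θ0, h0, h0'⟩ := hpos
    refine ⟨-1, fun θ hθ => ?_⟩
    by_contra hc
    have hθ' : 0 ≤ p θ := by linarith
    have hsub : uIcc θ0 θ ⊆ Ioo a b := Set.OrdConnected.uIcc_subset ordConnected_Ioo h0 hθ
    have := intermediate_value_uIcc (f := p) (a := θ0) (b := θ) hp.continuousOn
    obtain ⟨c, hc1, hc2⟩ := this (show (0 : ℝ) ∈ uIcc (p θ0) (p θ) from
      mem_uIcc.2 (Or.inl ⟨h0', hθ'⟩))
    exact h c (hsub hc1) hc2

/-- A function positive just left of a zero has a nonpositive derivative there. -/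
theorem deriv_nonpos_left {f : ℝ → ℝ} {f' a b : ℝ} (hab : a < b) (hf : HasDerivAt f f' b)
    (h0 : f b = 0) (hpos : ∀ θ ∈ Ioo a b, 0 < f θ) : f' ≤ 0 := by
  have ht : Tendsto (slope f b) (𝓝[<] b) (𝓝 f') :=
    (hasDerivAt_iff_tendsto_slope.1 hf).mono_left (nhdsWithin_mono _ fun x hx => ne_of_lt hx)
  refine le_of_tendsto ht ?_
  filter_upwards [Ioo_mem_nhdsLT hab] with x hx
  rw [slope_def_field, h0, sub_zero]
  exact div_nonpos_of_nonneg_of_nonpos (hpos x hx).le (by linarith [hx.2])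

end Sturm

theorem p_STURM :
    S_STURM := by
  intro ρ A B z1 z2 w hρ hw hA hB hode hz h1 h2 hne
  have hw1 : Differentiable ℝ w := hw.differentiable (by simp)
  have hwd : ContDiff ℝ ∞ (deriv w) := (contDiff_infty_iff_deriv.1 hw).2
  have hw2 : Differentiable ℝ (deriv w) := hwd.differentiable (by simp)
  set p : ℝ → ℝ := deriv w with hp
  set X : ℝ → ℝ := fun θ => Real.exp (w θ) with hX
  have hXpos : ∀ θ, 0 < X θ := fun θ => Real.exp_pos _
  have hXc : Continuous X := Real.continuous_exp.comp hw1.continuous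
  have dX : ∀ θ, HasDerivAt X (X θ * p θ) θ := fun θ => (hw1 θ).hasDerivAt.exp
  set q : ℝ → ℝ := fun θ => -(X θ ^ 2 / ρ ^ 2) + 1 / X θ ^ 2 - A * X θ - B / X θ with hq
  have dp : ∀ θ, HasDerivAt p (q θ) θ := fun θ => by
    have := (hw2 θ).hasDerivAt
    rwa [hode θ] at this
  have dq : ∀ θ, HasDerivAt q
      (p θ * (-2 * X θ ^ 2 / ρ ^ 2 - 2 / X θ ^ 2 - A * X θ + B / X θ)) θ := fun θ => by
    have hx := (hXpos θ).ne'
    have e1 := ((dX θ).fun_pow 2).div_const (ρ ^ 2)
    have e2 := (hasDerivAt_const θ (1 : ℝ)).fun_div ((dX θ).fun_pow 2) (pow_ne_zero 2 hx)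
    have e3 := (dX θ).const_mul A
    have e4 := (hasDerivAt_const θ B).fun_div (dX θ) hx
    refine (((e1.fun_neg.fun_add e2).fun_sub e3).fun_sub e4).congr_deriv ?_
    field_simp
    ring
  have hic : Continuous fun θ => X θ / ρ := hXc.div_const ρ
  set σ : ℝ → ℝ := fun t => ∫ θ in z1..t, X θ / ρ with hσ
  have dσ : ∀ t, HasDerivAt σ (X t / ρ) t := fun t =>
    (hic.integral_hasStrictDerivAt z1 t).hasDerivAt
  have σmono : StrictMono σ := strictMono_of_deriv_pos fun t => by
    rw [(dσ t).deriv]; exact div_pos (hXpos t) hρ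
  have σ1 : σ z1 = 0 := by simp [hσ]
  by_contra hc
  have hc' : σ z2 ≤ Real.pi / 2 := not_lt.1 hc
  obtain ⟨s, hs⟩ := Sturm.one_sign hw2.continuous hne
  set Om : ℝ → ℝ := fun t => s * (ρ * (p t ^ 2 + q t) * Real.sin (2 * σ t)
    - 2 * (X t * p t) * Real.cos (2 * σ t)) with hOm
  have dOm : ∀ t, HasDerivAt Om
      (ρ * (-3 * A * X t - B / X t) * (s * p t) * Real.sin (2 * σ t)) t := fun t => by
    have hx := (hXpos t).ne'
    have e1 := (((dp t).fun_pow 2).fun_add (dq t)).const_mul ρ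
    have e2 := ((dσ t).const_mul 2).sin
    have e3 := ((dX t).fun_mul (dp t)).const_mul 2
    have e4 := ((dσ t).const_mul 2).cos
    refine (((e1.fun_mul e2).fun_sub (e3.fun_mul e4)).const_mul s).congr_deriv ?_
    simp only [hq]
    field_simp
    ring
  have hmono : StrictMonoOn Om (Icc z1 z2) := by
    refine strictMonoOn_of_deriv_pos (convex_Icc _ _)
      (fun t _ => (dOm t).continuousAt.continuousWithinAt) fun t ht => ?_
    rw [interior_Icc] at ht
    rw [(dOm t).deriv]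
    have hS : 0 < Real.sin (2 * σ t) := by
      have a1 := σmono ht.1
      have a2 := σmono ht.2
      exact Real.sin_pos_of_pos_of_lt_pi (by linarith) (by linarith)
    have hg : 0 < -3 * A * X t - B / X t := by
      have b1 : 0 < -3 * A * X t := mul_pos (by linarith) (hXpos t)
      have b2 : B / X t ≤ 0 := div_nonpos_of_nonpos_of_nonneg hB (hXpos t).le
      linarith
    exact mul_pos (mul_pos (mul_pos hρ hg) (hs t ht)) hS
  have hlt := hmono (left_mem_Icc.2 hz.le) (right_mem_Icc.2 hz.le) hz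
  have O1 : Om z1 = 0 := by simp [hOm, σ1, h1]
  have hq2 : s * q z2 ≤ 0 :=
    Sturm.deriv_nonpos_left (f := fun t => s * p t) hz ((dp z2).const_mul s) (by simp [h2]) hs
  have hS2 : 0 ≤ Real.sin (2 * σ z2) := by
    have a1 := σmono hz
    exact Real.sin_nonneg_of_nonneg_of_le_pi (by linarith) (by linarith)
  have O2 : Om z2 = ρ * (s * q z2) * Real.sin (2 * σ z2) := by
    simp only [hOm, h2]; ring
  have : ρ * (s * q z2) * Real.sin (2 * σ z2) ≤ 0 :=
    mul_nonpos_of_nonpos_of_nonneg (mul_nonpos_of_nonneg_of_nonpos hρ.le hq2) hS2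
  linarith

end Pool.Agent.P.MP_785924_gt
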