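import Pool.Agent.P.MP_785924_gt.A.IfaceA
import Pool.Agent.P.MP_785924_gt.A.Tb

/-! Step TWOARC of the free boundary annulus project. -/

namespace Pool.Agent.P.MP_785924_gt

open scoped ContDiff
open Set Filter Topology

namespace Twoarc

theorem der_zero {f : ℝ → ℝ} {c d θ α β : ℝ} (h : HasDerivAt f d θ) (hθ : θ ∈ Ioo α β)
    (h0 : ∀ t ∈ Ioo α β, f t = c) : d = 0 :=
  h.unique ((hasDerivAt_const θ c).congr_of_eventuallyEq
    (mem_of_superset (isOpen_Ioo.mem_nhds hθ) h0))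

theorem nz {ρ P : ℝ} {w : ℝ → ℝ} {x ν e : Fin 3 → ℝ → ℝ} (h : Curve ρ P w x ν e) {a : Fin 3 → ℝ}
    (ha : a ≠ 0) {α β : ℝ} (hab : α < β) : ∃ θ ∈ Ioo α β, cmp a x θ ≠ 0 := by
  by_contra hn
  push Not at hn
  have hu : ∀ θ ∈ Ioo α β, cmp a e θ = 0 := fun θ hθ =>
    (mul_eq_zero.1 (der_zero (h.sys3 a θ).1 hθ hn)).resolve_left (Real.exp_pos _).ne'
  obtain ⟨θ, hθ⟩ := nonempty_Ioo.2 hab
  have h1 := der_zero (h.sys3 a θ).2.2 hθ hu
  rw [hn θ hθ] at h1
  have hg : cmp a ν θ = 0 := by simpa using h1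
  have hf := hn θ hθ
  have he := hu θ hθ
  have key : ∀ j, a 0 * (if (0 : Fin 3) = j then 1 else 0) + a 1 * (if (1 : Fin 3) = j then 1 else 0)
      + a 2 * (if (2 : Fin 3) = j then 1 else 0) = 0 := fun j => by
    rw [← h.compl θ 0 j, ← h.compl θ 1 j, ← h.compl θ 2 j]
    simp only [cmp] at hf hg he
    linear_combination (x j θ / ρ ^ 2) * hf + ν j θ * hg + e j θ * he
  refine ha (funext fun j => ?_)
  have := key j
  fin_cases j <;> simpa using this

theorem orth (y z : Fin 3 → ℝ) : ∃ a : Fin 3 → ℝ, a ≠ 0 ∧ a 0 * y 0 + a 1 * y 1 + a 2 * y 2 = 0 ∧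
    a 0 * z 0 + a 1 * z 1 + a 2 * z 2 = 0 := by
  obtain ⟨a, h0, h1⟩ := (Matrix.exists_mulVec_eq_zero_iff
    (M := !![y 0, y 1, y 2; z 0, z 1, z 2; 0, 0, 0])).2 (by simp [Matrix.det_fin_three])
  have e0 := congrFun h1 0
  have e1 := congrFun h1 1
  simp [Matrix.mulVec, dotProduct, Fin.sum_univ_three] at e0 e1
  exact ⟨a, h0, by linarith, by linarith⟩

end Twoarc

open Twoarc in
theorem p_TWOARC :
    S_TWOARC := by
  intro ρ P w x ν e c z1 z2 σ h hTP hc h12 h2P hs1 hs2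
  obtain ⟨a, ha, hz1, hz2⟩ := orth (fun i => x i z1) (fun i => x i z2)
  change cmp a x z1 = 0 at hz1
  change cmp a x z2 = 0 at hz2
  have hA : ∀ p ∈ Ioo z1 z2, ∀ r ∈ Ioo z2 (z1 + P), cmp a x p * cmp a x r ≤ 0 := by
    intro p hp r hr
    by_contra hn
    push Not at hn
    have hp0 : 0 < cmp a x p * cmp a x p := mul_self_pos.2 (left_ne_zero_of_mul hn.ne')
    obtain ⟨δ, d0, d1, d2⟩ : ∃ δ : ℝ, 0 < δ ∧ δ * cmp c x p < cmp a x p * cmp a x p ∧
        δ * cmp c x r < cmp a x p * cmp a x r := by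
      have e1 := div_pos hp0 (hc p)
      have e2 := div_pos hn (hc r)
      have e3 := lt_min e1 e2
      refine ⟨min (cmp a x p * cmp a x p / cmp c x p) (cmp a x p * cmp a x r / cmp c x r) / 2,
        half_pos e3, (lt_div_iff₀ (hc p)).1 ?_, (lt_div_iff₀ (hc r)).1 ?_⟩
      · exact (half_lt_self e3).trans_le (min_le_left _ _)
      · exact (half_lt_self e3).trans_le (min_le_right _ _)
    have key : ∀ θ, cmp (fun i => -cmp a x p * a i + δ * c i) x θ =
        -cmp a x p * cmp a x θ + δ * cmp c x θ := fun θ => by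
      generalize cmp a x p = s
      simp only [cmp]
      ring
    refine hTP (fun i => -cmp a x p * a i + δ * c i) z1 p z2 r hp.1 hp.2 hr.1 hr.2 ?_ ?_ ?_ ?_ <;>
      rw [key]
    · rw [hz1, mul_zero, zero_add]
      exact mul_pos d0 (hc _)
    · linarith
    · rw [hz2, mul_zero, zero_add]
      exact mul_pos d0 (hc _)
    · linarith
  obtain ⟨p, hp, hp0⟩ := nz h ha h12
  obtain ⟨r, hr, hr0⟩ := nz h ha h2P
  have hpr : cmp a x p * cmp a x r < 0 := (hA p hp r hr).lt_of_ne (mul_ne_zero hp0 hr0)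
  have hB : ∀ θ ∈ Ioo z1 (z1 + P), 0 ≤ σ * deriv w θ * (cmp a x p * cmp a x θ) := by
    intro θ hθ
    rcases lt_trichotomy θ z2 with h1 | h1 | h1
    · refine mul_nonneg (hs1 θ ⟨hθ.1, h1⟩).le ?_
      have h2 := hA θ ⟨hθ.1, h1⟩ r hr
      have h3 : 0 < cmp a x r * cmp a x r := mul_self_pos.2 hr0
      refine le_of_mul_le_mul_right ?_ h3
      nlinarith [mul_nonneg_of_nonpos_of_nonpos hpr.le h2]
    · rw [h1, hz2, mul_zero, mul_zero]
    · exact mul_nonneg_of_nonpos_of_nonpos (hs2 θ ⟨h1, hθ.2⟩).le (hA p hp θ ⟨h1, hθ.2⟩)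
  set H : ℝ → ℝ := fun θ =>
    σ * cmp a x p * (cmp a ν θ - Real.exp (-2 * w θ) * cmp a x θ) with hH
  have hd : ∀ θ, HasDerivAt H
      (2 * Real.exp (-2 * w θ) * (σ * deriv w θ * (cmp a x p * cmp a x θ))) θ := fun θ => by
    have e1 : Real.exp (-2 * w θ) * Real.exp (w θ) * Real.exp (w θ) = 1 := by
      rw [← Real.exp_add, ← Real.exp_add, ← Real.exp_zero]
      congr 1
      ring
    have e2 : cmp a e θ / Real.exp (w θ) = Real.exp (-2 * w θ) * (Real.exp (w θ) * cmp a e θ) := by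
      rw [div_eq_iff (Real.exp_pos _).ne']
      linear_combination (-cmp a e θ) * e1
    refine (((h.sys3 a θ).2.1.fun_sub ((((h.smw.hd θ).const_mul (-2)).exp).fun_mul
      (h.sys3 a θ).1)).const_mul (σ * cmp a x p)).congr_deriv ?_
    rw [e2]
    ring
  have hm : MonotoneOn H (Icc z1 (z1 + P)) :=
    monotoneOn_of_deriv_nonneg (convex_Icc _ _)
      (fun θ _ => (hd θ).continuousAt.continuousWithinAt)
      (fun θ _ => (hd θ).differentiableAt.differentiableWithinAt) fun θ hθ => by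
        rw [interior_Icc] at hθ
        rw [(hd θ).deriv]
        exact mul_nonneg (by positivity) (hB θ hθ)
  have hper : H (z1 + P) = H z1 := by
    simp only [hH, cmp, (h.smx _).2 z1, (h.smν _).2 z1, h.smw.2 z1]
  have hle := (h12.trans h2P).le
  have h0 := der_zero (c := H z1) (hd p) ⟨hp.1, hp.2.trans h2P⟩ fun t ht =>
    le_antisymm (hper ▸ hm (Ioo_subset_Icc_self ht) (right_mem_Icc.2 hle) ht.2.le)
      (hm (left_mem_Icc.2 hle) (Ioo_subset_Icc_self ht) ht.1.le)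
  exact (mul_pos (by positivity) (mul_pos (hs1 p hp) (mul_self_pos.2 hp0))).ne' h0

end Pool.Agent.P.MP_785924_gt
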