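import Pool.Agent.P.MP_785924_gt.A.IfaceA
import Pool.Agent.P.MP_785924_gt.A.Tb

/-! Step VF of the free boundary annulus project. -/

namespace Pool.Agent.P.MP_785924_gt

open scoped ContDiff
open Set Filter Topology Complex

namespace Vf

/-- the system in the polynomial gauge -/
def G (r s : ℝ → ℂ) (n : ℂ) (y1 y2 : ℝ → ℂ) : Prop :=
  ∀ t, HasDerivAt y1 (I * s t / 2 * y1 t + -((r t + n * s t) / 2) * y2 t) t ∧
    HasDerivAt y2 (r t / 2 * y1 t + -(I * s t / 2) * y2 t) t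

variable {r s : ℝ → ℂ}

lemma ex (hEX : S_ODEEX) (hr : Continuous r) (hs : Continuous s) (t0 : ℝ) (c1 c2 n : ℂ) :
    ∃ y : (ℝ → ℂ) × (ℝ → ℂ), y.1 t0 = c1 ∧ y.2 t0 = c2 ∧ G r s n y.1 y.2 := by
  obtain ⟨y1, y2, h1, h2, d1, d2⟩ := ex2 hEX (a11 := fun t => I * s t / 2)
    (a12 := fun t => -((r t + n * s t) / 2)) (a21 := fun t => r t / 2)
    (a22 := fun t => -(I * s t / 2)) (by fun_prop) (by fun_prop) (by fun_prop) (by fun_prop)
    t0 c1 c2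
  exact ⟨(y1, y2), h1, h2, fun t => ⟨d1 t, d2 t⟩⟩

lemma hol (hH : S_ODEHOL) (hr : Continuous r) (hs : Continuous s) {t0 : ℝ} {c1 c2 : ℂ}
    (y : ℂ → (ℝ → ℂ) × (ℝ → ℂ))
    (h : ∀ n, (y n).1 t0 = c1 ∧ (y n).2 t0 = c2 ∧ G r s n (y n).1 (y n).2) (t : ℝ) :
    Differentiable ℂ (fun n => (y n).1 t) ∧ Differentiable ℂ (fun n => (y n).2 t) := by
  have := hH (ℂ × ℂ)
    (fun t => s t • ((I / 2) • ContinuousLinearMap.fst ℂ ℂ ℂ).prod
        ((-I / 2) • ContinuousLinearMap.snd ℂ ℂ ℂ) +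
      r t • ((-1 / 2 : ℂ) • ContinuousLinearMap.snd ℂ ℂ ℂ).prod
        ((1 / 2 : ℂ) • ContinuousLinearMap.fst ℂ ℂ ℂ))
    (fun t => s t • ((-1 / 2 : ℂ) • ContinuousLinearMap.snd ℂ ℂ ℂ).prod 0)
    (fun n t => ((y n).1 t, (y n).2 t)) t0 (c1, c2) (by fun_prop) (by fun_prop)
    (fun n => by rw [(h n).1, (h n).2.1])
    (fun n t => (((h n).2.2 t).1.prodMk ((h n).2.2 t).2).congr_deriv (by
      ext
      · simp
        ring
      · simp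
        ring)) t
  exact ⟨this.fst, this.snd⟩

lemma edge (hr : Continuous r) (hs : Continuous s) {ε : ℂ} (hε : ε ^ 2 = 1) {t0 t : ℝ}
    {p1 p2 q1 q2 : ℝ → ℂ} (hp : G r s (2 * ε) p1 p2)
    (hq : G r s (2 * ε) q1 q2) (a1 : p1 t0 = 1) (a2 : p2 t0 = 0) (b1 : q1 t0 = 0)
    (b2 : q2 t0 = 1) : 2 * ε * (p1 t - q2 t) + 2 * I * (q1 t + p2 t) = 0 := by
  have hI := I_sq
  have := uq1_Icc (y := fun t => p2 t + ε * I * q2 t - ε * I * (p1 t + ε * I * q1 t))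
    (a11 := fun t => ε * I * (r t + ε * s t) / 2) (a := min t0 t) (b := max t0 t) (t0 := t0)
    ⟨min_le_left _ _, le_max_left _ _⟩ (by fun_prop) (fun u _ =>
      (((hp u).2.fun_add ((hq u).2.const_mul (ε * I))).fun_sub
        (((hp u).1.fun_add ((hq u).1.const_mul (ε * I))).const_mul (ε * I))).congr_deriv (by
          linear_combination
            (r u / 2 * (p1 u + ε * I * q1 u) * I ^ 2 + ε * s u / 2 * (p1 u + ε * I * q1 u) * I ^ 2 +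
              I * s u / 2 * (p2 u + ε * I * q2 u)) * hε +
            (r u / 2 * (p1 u + ε * I * q1 u)) * hI))
    (by simp [a1, a2, b1, b2]) t ⟨min_le_right _ _, le_max_right _ _⟩
  linear_combination 2 * I * this + (2 * ε * (p1 t - q2 t) + 2 * I * q1 t) * hI +
    2 * I ^ 3 * q1 t * hε

lemma gauge {ρ : ℝ} {w : ℝ → ℝ} (hρ : 0 < ρ) {κ : ℂ} (hκ : κ ≠ 0) {y1 y2 : ℝ → ℂ}
    (h : G (fun t => (Real.exp (w t) : ℂ) / ρ) (fun t => 1 / (Real.exp (w t) : ℂ))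
      (κ ^ 2 + 1 / κ ^ 2) y1 y2) :
    Sys2 ρ w κ (fun t => y1 t + I * κ ^ 2 * y2 t) (fun t => -(I * κ) * y1 t + 1 / κ * y2 t) := by
  intro t
  have hX := expC_ne (w t)
  have hr : (ρ : ℂ) ≠ 0 := by exact_mod_cast hρ.ne'
  have hI := I_sq
  refine ⟨((h t).1.fun_add ((h t).2.const_mul (I * κ ^ 2))).congr_deriv ?_,
    (((h t).1.const_mul (-(I * κ))).fun_add ((h t).2.const_mul (1 / κ))).congr_deriv ?_⟩
  · field_simp
    linear_combination (-(κ ^ 4 * ρ * y2 t)) * hI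
  · field_simp
    linear_combination (-(κ ^ 2 * ρ * y1 t)) * hI

lemma alg {κ k P1 P2 Q1 Q2 p1 p2 q1 q2 : ℂ} (hk : κ * k = 1)
    (e1 : P1 + I * κ ^ 2 * P2 = 1 * p1 + -(I * κ) * q1)
    (e2 : -(I * κ) * P1 + k * P2 = 1 * p2 + -(I * κ) * q2)
    (e3 : Q1 + I * κ ^ 2 * Q2 = I * κ ^ 2 * p1 + k * q1)
    (e4 : -(I * κ) * Q1 + k * Q2 = I * κ ^ 2 * p2 + k * q2) :
    (κ ^ 2 + k ^ 2) * (P1 - Q2) + 2 * I * (Q1 + P2) = -((κ ^ 2 - k ^ 2) * (p1 - q2)) := by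
  linear_combination k ^ 2 * e1 + I * κ * k * e3 + I * κ ^ 2 * k * e2 - k * e4 +
    κ ^ 3 * k * (P1 - Q2 + p1 - q2) * I_sq -
    (κ ^ 2 * (P1 - Q2 + p1 - q2) + 2 * I * (1 + κ * k) * P2 + 2 * I * Q1) * hk

end Vf

open Vf in
theorem p_VF (hODEEX : S_ODEEX) (hODEHOL : S_ODEHOL) :
    S_VF := by
  intro ρ P w θ0 hρ hw
  have hc := hw.cont
  have hr : Continuous fun t => (Real.exp (w t) : ℂ) / ρ := by fun_prop
  have hs : Continuous fun t => 1 / (Real.exp (w t) : ℂ) := by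
    fun_prop (disch := intro θ; exact expC_ne _)
  choose p hp using ex hODEEX hr hs θ0 1 0
  choose q hq using ex hODEEX hr hs θ0 0 1
  have dp := hol hODEHOL hr hs p hp (θ0 + P)
  have dq := hol hODEHOL hr hs q hq (θ0 + P)
  have ed := fun (ε : ℂ) (hε : ε ^ 2 = 1) => edge hr hs hε (t0 := θ0) (t := θ0 + P)
    (hp (2 * ε)).2.2 (hq (2 * ε)).2.2 (hp _).1 (hp _).2.1 (hq _).1 (hq _).2.1
  refine ⟨fun n => n * ((p n).1 (θ0 + P) - (q n).2 (θ0 + P)) +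
    2 * I * ((q n).1 (θ0 + P) + (p n).2 (θ0 + P)),
    (differentiable_id.mul (dp.1.sub dq.2)).add ((dq.1.add dp.2).const_mul _), ?_, ?_,
    fun κ hκ _ p1 p2 q1 q2 sp sq a1 a2 b1 b2 => ?_⟩
  · simpa only [mul_one] using ed 1 (by norm_num)
  · simpa only [mul_neg, mul_one] using ed (-1) (by norm_num)
  · have e1 := (gauge hρ hκ (hp (κ ^ 2 + 1 / κ ^ 2)).2.2).uniq hc hκ (sp.lin sq 1 (-(I * κ)))
      (t0 := θ0) (by simp [(hp _).1, (hp _).2.1, a1, b1]) (by simp [(hp _).1, (hp _).2.1, a2, b2])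
      (θ0 + P)
    have e2 := (gauge hρ hκ (hq (κ ^ 2 + 1 / κ ^ 2)).2.2).uniq hc hκ
      (sp.lin sq (I * κ ^ 2) (1 / κ))
      (t0 := θ0) (by simp [(hq _).1, (hq _).2.1, a1, b1]) (by simp [(hq _).1, (hq _).2.1, a2, b2])
      (θ0 + P)
    have := alg (mul_one_div_cancel hκ) e1.1 e1.2 e2.1 e2.2
    rwa [one_div_pow] at this

end Pool.Agent.P.MP_785924_gt
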