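import Pool.Agent.P.MP_785924_gt.A.Tb

/-! Step WKB of the free boundary annulus project. -/

namespace Pool.Agent.P.MP_785924_gt

open scoped ContDiff
open Set Filter Topology Complex

namespace Wkb

lemma hd_exp (c : ℂ) (θ : ℝ) : HasDerivAt (fun s : ℝ => cexp (c * s)) (cexp (c * θ) * c) θ := by
  simpa using ((hasDerivAt_id θ).ofReal_comp.const_mul c).cexp

/-- the a priori bound -/
lemma gron {u w m b c : ℝ → ℂ} {a P K : ℝ} {l : ℂ}
    (hu : ∀ θ, HasDerivAt u ((I * l + m θ) * u θ + b θ * w θ) θ)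
    (hw : ∀ θ, HasDerivAt w (-(I * l + m θ) * w θ + c θ * u θ) θ)
    (hm : ∀ θ ∈ Icc a (a + P), ‖m θ‖ ≤ K ∧ ‖b θ‖ ≤ K ∧ ‖c θ‖ ≤ K) (hK : 0 ≤ K)
    (hu0 : ‖u a‖ ≤ 1) (hw0 : ‖w a‖ ≤ 1) : ∀ θ ∈ Icc a (a + P),
      ‖u θ‖ ≤ Real.exp (2 * K * P) * Real.exp (|l.im| * (θ - a)) ∧
      ‖w θ‖ ≤ Real.exp (2 * K * P) * Real.exp (|l.im| * (θ - a)) := by
  have n1 : ∀ θ : ℝ, ‖cexp (-(I * l.re) * θ)‖ = 1 := fun θ => by simp [Complex.norm_exp]
  have n2 : ∀ θ : ℝ, ‖cexp (I * l.re * θ)‖ = 1 := fun θ => by simp [Complex.norm_exp]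
  have hl : I * l - I * l.re = -l.im := by
    conv_lhs => rw [← re_add_im l]
    simp only [add_re, ofReal_re, mul_re, I_re, mul_zero, ofReal_im, I_im, mul_one, sub_self,
      add_zero]
    linear_combination (l.im : ℂ) * I_mul_I
  let f : ℝ → ℂ × ℂ := fun θ => (u θ * cexp (-(I * l.re) * θ), w θ * cexp (I * l.re * θ))
  let f' : ℝ → ℂ × ℂ := fun θ =>
    (((-l.im + m θ) * u θ + b θ * w θ) * cexp (-(I * l.re) * θ),
      (-(-l.im + m θ) * w θ + c θ * u θ) * cexp (I * l.re * θ))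
  have hd : ∀ θ, HasDerivAt f (f' θ) θ := fun θ =>
    (((hu θ).fun_mul (hd_exp _ θ)).congr_deriv (by rw [← hl]; ring)).prodMk
      (((hw θ).fun_mul (hd_exp _ θ)).congr_deriv (by rw [← hl]; ring))
  have hf : ∀ θ, ‖f θ‖ = max ‖u θ‖ ‖w θ‖ := fun θ => by
    simp only [f, Prod.norm_def, norm_mul, n1, n2, mul_one]
  have key := norm_le_gronwallBound_of_norm_deriv_right_le (f := f) (f' := f') (δ := 1)
    (K := |l.im| + 2 * K) (ε := 0) (a := a) (b := a + P)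
    (fun θ _ => (hd θ).continuousAt.continuousWithinAt) (fun θ _ => (hd θ).hasDerivWithinAt)
    (by rw [hf]; exact max_le hu0 hw0) ?_
  · intro θ hθ
    have h1 := key θ hθ
    rw [gronwallBound_ε0, hf, one_mul] at h1
    have h2 : Real.exp ((|l.im| + 2 * K) * (θ - a)) ≤
        Real.exp (2 * K * P) * Real.exp (|l.im| * (θ - a)) := by
      rw [← Real.exp_add, Real.exp_le_exp]
      nlinarith [hθ.2]
    exact ⟨(le_max_left _ _).trans (h1.trans h2), (le_max_right _ _).trans (h1.trans h2)⟩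
  · intro θ hθ
    obtain ⟨h1, h2, h3⟩ := hm θ ⟨hθ.1, hθ.2.le⟩
    have h4 : ‖(-l.im + m θ : ℂ)‖ ≤ |l.im| + K :=
      (norm_add_le _ _).trans (by simpa using h1)
    have h5 := le_max_left ‖u θ‖ ‖w θ‖
    have h6 := le_max_right ‖u θ‖ ‖w θ‖
    rw [hf, add_zero]
    simp only [f', Prod.norm_def, norm_mul, n1, n2, mul_one]
    refine max_le ((norm_add_le _ _).trans ?_) ((norm_add_le _ _).trans ?_)
    · rw [norm_mul, norm_mul]
      calc _ ≤ (|l.im| + K) * max ‖u θ‖ ‖w θ‖ + K * max ‖u θ‖ ‖w θ‖ := by gcongr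
        _ = _ := by ring
    · rw [norm_mul, norm_mul, norm_neg]
      calc _ ≤ (|l.im| + K) * max ‖u θ‖ ‖w θ‖ + K * max ‖u θ‖ ‖w θ‖ := by gcongr
        _ = _ := by ring

/-- variation of constants -/
lemma voc {f g m Ω : ℝ → ℂ} {a b B : ℝ} (hab : a ≤ b)
    (hf : ∀ θ, HasDerivAt f (m θ * f θ + g θ) θ) (hΩ : ∀ θ, HasDerivAt Ω (m θ) θ)
    (hB : ∀ θ ∈ Icc a b, ‖g θ‖ * Real.exp (Ω b - Ω θ).re ≤ B) :
    ‖f b - cexp (Ω b - Ω a) * f a‖ ≤ B * (b - a) := by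
  have hd : ∀ θ, HasDerivAt (fun θ => f θ * cexp (Ω b - Ω θ)) (g θ * cexp (Ω b - Ω θ)) θ :=
    fun θ => ((hf θ).fun_mul ((hΩ θ).const_sub (Ω b)).cexp).congr_deriv (by ring)
  have := norm_image_sub_le_of_norm_deriv_le_segment' (C := B)
    (fun θ (_ : θ ∈ Icc a b) => (hd θ).hasDerivWithinAt)
    (fun θ hθ => by rw [norm_mul, Complex.norm_exp]; exact hB θ ⟨hθ.1, hθ.2.le⟩) b
    ⟨hab, le_rfl⟩
  simpa [mul_comm] using this

lemma coef {σ t : ℂ} {k k' K : ℝ} (hσ : ‖σ‖ = 1) (ht : ‖t‖ ≤ 1) (h : |k| ≤ K) (h' : |k'| ≤ K) :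
    ‖(k : ℂ) - σ * k' * t‖ ≤ 2 * K := by
  refine (norm_sub_le _ _).trans ?_
  rw [norm_mul, norm_mul, hσ, one_mul, norm_real, norm_real, Real.norm_eq_abs, Real.norm_eq_abs]
  nlinarith [abs_nonneg k', norm_nonneg t]

/-- one component after the near diagonalisation -/
lemma step {σ l t : ℂ} {u w : ℝ → ℂ} {v v' s e h h' D : ℝ → ℝ} {a P K B : ℝ}
    (hσ : σ = I ∨ σ = -I) (hlt : l * t = 1) (ht : ‖t‖ ≤ 1) (hP : 0 ≤ P)
    (hu : ∀ θ, HasDerivAt u (σ * (l + s θ * t) * u θ + (v θ + σ * e θ * t) * w θ) θ)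
    (hw : ∀ θ, HasDerivAt w (-(σ * (l + s θ * t)) * w θ + (v θ - σ * e θ * t) * u θ) θ)
    (hv : ∀ θ, HasDerivAt v (v' θ) θ) (hh : ∀ θ, HasDerivAt h (h' θ) θ)
    (hh0 : ∀ θ, h θ = e θ / 2 - v' θ / 4)
    (hD : ∀ θ, HasDerivAt D (s θ - v θ ^ 2 / 2) θ)
    (hK : ∀ θ ∈ Icc a (a + P), |h θ * v θ - v θ / 2 * e θ| ≤ K ∧ |h θ * e θ| ≤ K ∧
      |h' θ - (2 * s θ - v θ ^ 2 / 2) * (v θ / 2)| ≤ K ∧ |(2 * s θ - v θ ^ 2 / 2) * h θ| ≤ K ∧
      |D θ| ≤ K)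
    (hB : ∀ θ ∈ Icc a (a + P), ‖u θ‖ ≤ B * Real.exp (|l.im| * (θ - a)) ∧
      ‖w θ‖ ≤ B * Real.exp (|l.im| * (θ - a))) :
    ‖u (a + P) + (-(σ * (v (a + P) / 2) * t) + h (a + P) * t ^ 2) * w (a + P) -
      cexp (σ * (l * P + (D (a + P) - D a : ℝ) * t)) *
        (u a + (-(σ * (v a / 2) * t) + h a * t ^ 2) * w a)‖ ≤
      4 * K * B * Real.exp (2 * K) * P * ‖t‖ ^ 2 * Real.exp (|l.im| * P) := by
  have hσ1 : ‖σ‖ = 1 := by rcases hσ with rfl | rfl <;> simp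
  have hσ2 : σ * σ = -1 := by rcases hσ with rfl | rfl <;> simp
  have hre : ∀ (x y : ℝ), 0 ≤ x → (σ * (l * x + y * t)).re ≤ |l.im| * x + |y| := by
    intro x y hx
    have h1 : (σ * l).re ≤ |l.im| := by
      rcases hσ with rfl | rfl <;> simp [neg_le_abs, le_abs_self]
    have h2 : (σ * y * t).re ≤ |y| := by
      refine (re_le_norm _).trans ?_
      rw [norm_mul, norm_mul, hσ1, one_mul, norm_real, Real.norm_eq_abs]
      exact mul_le_of_le_one_right (abs_nonneg _) ht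
    have h3 : σ * (l * x + y * t) = x * (σ * l) + σ * y * t := by ring
    rw [h3, add_re, re_ofReal_mul]
    nlinarith
  have hK0 : 0 ≤ K := (abs_nonneg _).trans (hK a ⟨le_rfl, by linarith⟩).1
  have key := voc (a := a) (b := a + P)
    (f := fun θ => u θ + (-(σ * (v θ / 2) * t) + h θ * t ^ 2) * w θ)
    (g := fun θ => t ^ 2 * (((h θ * v θ - v θ / 2 * e θ : ℝ) - σ * (h θ * e θ : ℝ) * t) * u θ +
      ((h' θ - (2 * s θ - v θ ^ 2 / 2) * (v θ / 2) : ℝ) -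
        σ * ((2 * s θ - v θ ^ 2 / 2) * h θ : ℝ) * t) * w θ))
    (m := fun θ => σ * (l + (s θ - v θ ^ 2 / 2 : ℝ) * t))
    (Ω := fun θ => σ * (l * θ + D θ * t))
    (B := 4 * K * B * Real.exp (2 * K) * ‖t‖ ^ 2 * Real.exp (|l.im| * P)) (by linarith) ?_ ?_ ?_
  · have e1 : σ * (l * (a + P : ℝ) + D (a + P) * t) - σ * (l * a + D a * t) =
        σ * (l * P + (D (a + P) - D a : ℝ) * t) := by
      push_cast
      ring
    simp only [e1] at key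
    refine key.trans (le_of_eq ?_)
    ring
  · intro θ
    refine ((hu θ).fun_add ((((((hv θ).ofReal_comp.div_const 2).const_mul σ).mul_const t).fun_neg.fun_add
      ((hh θ).ofReal_comp.mul_const (t ^ 2))).fun_mul (hw θ))).congr_deriv ?_
    have e0 : (v' θ : ℂ) = 2 * e θ - 4 * h θ := by
      rw [hh0 θ]
      push_cast
      ring
    rw [e0]
    push_cast
    linear_combination (v θ * l * t * w θ + (e θ * v θ / 2) * t ^ 2 * u θ +
      (2 * s θ - v θ ^ 2 / 2) * (v θ / 2) * t ^ 2 * w θ) * hσ2 -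
      (v θ * w θ + 2 * σ * h θ * t * w θ) * hlt
  · intro θ
    exact ((((hasDerivAt_id θ).ofReal_comp.const_mul l).fun_add
      ((hD θ).ofReal_comp.mul_const t)).const_mul σ).congr_deriv (by simp)
  · intro θ hθ
    obtain ⟨k1, k2, k3, k4, k5⟩ := hK θ hθ
    obtain ⟨b1, b2⟩ := hB θ hθ
    have k6 := (hK (a + P) ⟨by linarith, le_rfl⟩).2.2.2.2
    have e1 : σ * (l * (a + P : ℝ) + D (a + P) * t) - σ * (l * θ + D θ * t) =
        σ * (l * (a + P - θ : ℝ) + (D (a + P) - D θ : ℝ) * t) := by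
      push_cast
      ring
    have h1 : Real.exp (σ * (l * (a + P : ℝ) + D (a + P) * t) - σ * (l * θ + D θ * t)).re ≤
        Real.exp (|l.im| * (a + P - θ) + 2 * K) := by
      rw [e1, Real.exp_le_exp]
      refine (hre _ _ (by linarith [hθ.2])).trans ?_
      linarith [abs_sub (D (a + P)) (D θ)]
    have c1 := coef hσ1 ht k1 k2
    have c2 := coef hσ1 ht k3 k4
    have hB0 : 0 ≤ B * Real.exp (|l.im| * (θ - a)) := (norm_nonneg _).trans b1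
    have e2 : Real.exp (|l.im| * (θ - a)) * Real.exp (|l.im| * (a + P - θ) + 2 * K) =
        Real.exp (2 * K) * Real.exp (|l.im| * P) := by
      rw [← Real.exp_add, ← Real.exp_add]
      congr 1
      ring
    rw [norm_mul, norm_pow]
    calc _ ≤ ‖t‖ ^ 2 * (2 * K * (B * Real.exp (|l.im| * (θ - a))) +
          2 * K * (B * Real.exp (|l.im| * (θ - a)))) *
          Real.exp (|l.im| * (a + P - θ) + 2 * K) := by
          gcongr
          refine (norm_add_le _ _).trans ?_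
          rw [norm_mul, norm_mul]
          gcongr
      _ = 4 * K * B * ‖t‖ ^ 2 * (Real.exp (|l.im| * (θ - a)) *
          Real.exp (|l.im| * (a + P - θ) + 2 * K)) := by ring
      _ = _ := by rw [e2]; ring

/-- the system in the coordinates `y1 + I y2`, `y1 - I y2` -/
lemma diag {v A1 A2 : ℝ → ℝ} {l : ℂ} {y1 y2 : ℝ → ℂ} (h : SysY v A1 A2 l y1 y2) (θ : ℝ) :
    HasDerivAt (fun θ => y1 θ + I * y2 θ) (I * (l + ((A1 θ + A2 θ) / 2 : ℝ) * l⁻¹) *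
      (y1 θ + I * y2 θ) + (v θ + I * ((A2 θ - A1 θ) / 2 : ℝ) * l⁻¹) * (y1 θ - I * y2 θ)) θ ∧
    HasDerivAt (fun θ => y1 θ - I * y2 θ) (-(I * (l + ((A1 θ + A2 θ) / 2 : ℝ) * l⁻¹)) *
      (y1 θ - I * y2 θ) + (v θ - I * ((A2 θ - A1 θ) / 2 : ℝ) * l⁻¹) * (y1 θ + I * y2 θ)) θ := by
  refine ⟨((h θ).1.fun_add ((h θ).2.const_mul I)).congr_deriv ?_,
    ((h θ).1.fun_sub ((h θ).2.const_mul I)).congr_deriv ?_⟩
  · push_cast
    linear_combination (-(l + A1 θ * l⁻¹) * y2 θ) * I_mul_I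
  · push_cast
    linear_combination (-(l + A1 θ * l⁻¹) * y2 θ) * I_mul_I

lemma small {σ t : ℂ} {x y K : ℝ} (hσ : ‖σ‖ = 1) (ht : ‖t‖ ≤ 1) (hx : |x| ≤ K) (hy : |y| ≤ K) :
    ‖-(σ * (x / 2) * t) + y * t ^ 2‖ ≤ 2 * K * ‖t‖ := by
  have e : -(σ * (x / 2) * t) + y * t ^ 2 = -σ * t * (((x / 2 : ℝ) : ℂ) - σ⁻¹ * y * t) := by
    have : σ ≠ 0 := fun h => by simp [h] at hσ
    push_cast
    field_simp
    ring
  rw [e, norm_mul, norm_mul, norm_neg, hσ, one_mul, mul_comm]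
  refine mul_le_mul_of_nonneg_right (coef (by simp [hσ]) ht ?_ hy) (norm_nonneg _)
  rw [abs_div, abs_two]
  linarith [abs_nonneg x]

lemma fin {p1 p2 q1 q2 α β μ μ' S : ℂ} {K T X Y : ℝ} (hT : T ≤ 1) (hα : ‖α‖ ≤ 2 * K * T)
    (hβ : ‖β‖ ≤ 2 * K * T) (hK : 0 ≤ K) (hT0 : 0 ≤ T) (hS : S = (μ - μ') * (α - β))
    (a1 : ‖p1 + I * p2‖ ≤ X) (a2 : ‖p1 - I * p2‖ ≤ X) (a3 : ‖q1 + I * q2‖ ≤ X)
    (a4 : ‖q1 - I * q2‖ ≤ X)
    (b1 : ‖p1 + I * p2 + α * (p1 - I * p2) - μ * (1 + I * 0 + α * (1 - I * 0))‖ ≤ Y)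
    (b2 : ‖p1 - I * p2 + β * (p1 + I * p2) - μ' * (1 - I * 0 + β * (1 + I * 0))‖ ≤ Y)
    (b3 : ‖q1 + I * q2 + α * (q1 - I * q2) - μ * (0 + I * 1 + α * (0 - I * 1))‖ ≤ Y)
    (b4 : ‖q1 - I * q2 + β * (q1 + I * q2) - μ' * (0 - I * 1 + β * (0 + I * 1))‖ ≤ Y) :
    ‖p1 - q2 - S‖ ≤ 8 * K ^ 2 * T ^ 2 * X + 2 * (1 + 2 * K) * Y := by
  set e1 := p1 + I * p2 + α * (p1 - I * p2) - μ * (1 + I * 0 + α * (1 - I * 0)) with h1
  set e2 := p1 - I * p2 + β * (p1 + I * p2) - μ' * (1 - I * 0 + β * (1 + I * 0)) with h2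
  set e3 := q1 + I * q2 + α * (q1 - I * q2) - μ * (0 + I * 1 + α * (0 - I * 1)) with h3
  set e4 := q1 - I * q2 + β * (q1 + I * q2) - μ' * (0 - I * 1 + β * (0 + I * 1)) with h4
  have e : 2 * (p1 - q2 - S) = α * β * ((p1 + I * p2) + (p1 - I * p2) + I * (q1 + I * q2) -
      I * (q1 - I * q2)) + ((1 - β) * e1 + (1 - α) * e2 + (1 + β) * (I * e3) -
        (1 + α) * (I * e4)) := by
    rw [h1, h2, h3, h4, hS]
    linear_combination (-2 * q2 + μ * (1 - α) * (1 + β) + μ' * (1 - β) * (1 + α)) * I_mul_I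
  have hα' : ‖α‖ ≤ 2 * K := hα.trans (mul_le_of_le_one_right (by positivity) hT)
  have hβ' : ‖β‖ ≤ 2 * K := hβ.trans (mul_le_of_le_one_right (by positivity) hT)
  have c1 : ‖1 - β‖ ≤ 1 + 2 * K := (norm_sub_le _ _).trans (by simpa using hβ')
  have c2 : ‖1 - α‖ ≤ 1 + 2 * K := (norm_sub_le _ _).trans (by simpa using hα')
  have c3 : ‖1 + β‖ ≤ 1 + 2 * K := (norm_add_le _ _).trans (by simpa using hβ')
  have c4 : ‖1 + α‖ ≤ 1 + 2 * K := (norm_add_le _ _).trans (by simpa using hα')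
  have d1 : ‖(p1 + I * p2) + (p1 - I * p2) + I * (q1 + I * q2) - I * (q1 - I * q2)‖ ≤
      X + X + X + X := by
    refine (norm_sub_le _ _).trans (add_le_add (norm_add₃_le.trans ?_) (by simpa using a4))
    exact add_le_add (add_le_add a1 a2) (by simpa using a3)
  have d2 : ‖(1 - β) * e1 + (1 - α) * e2 + (1 + β) * (I * e3) - (1 + α) * (I * e4)‖ ≤
      (1 + 2 * K) * Y + (1 + 2 * K) * Y + (1 + 2 * K) * Y + (1 + 2 * K) * Y := by
    refine (norm_sub_le _ _).trans (add_le_add (norm_add₃_le.trans ?_) ?_)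
    · simp only [norm_mul, norm_I, one_mul]
      gcongr
    · simp only [norm_mul, norm_I, one_mul]
      gcongr
  have d3 : 2 * ‖p1 - q2 - S‖ ≤ 2 * K * T * (2 * K * T) * (X + X + X + X) +
      ((1 + 2 * K) * Y + (1 + 2 * K) * Y + (1 + 2 * K) * Y + (1 + 2 * K) * Y) := by
    have : 2 * ‖p1 - q2 - S‖ = ‖2 * (p1 - q2 - S)‖ := by simp
    rw [this, e]
    refine (norm_add_le _ _).trans (add_le_add ?_ d2)
    rw [norm_mul, norm_mul]
    gcongr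
  linarith

end Wkb

open Wkb in
theorem p_WKB :
    S_WKB := by
  intro P v A1 A2 hP hv h1 h2
  set s : ℝ → ℝ := fun θ => (A1 θ + A2 θ) / 2 with hs
  set e : ℝ → ℝ := fun θ => (A2 θ - A1 θ) / 2 with he
  set h : ℝ → ℝ := fun θ => e θ / 2 - deriv v θ / 4 with hh
  set h' : ℝ → ℝ := fun θ => (deriv A2 θ - deriv A1 θ) / 2 / 2 - deriv (deriv v) θ / 4 with hh'
  set D : ℝ → ℝ := fun θ => ∫ x in (0 : ℝ)..θ, (s x - v x ^ 2 / 2) with hD
  have c0 := hv.cont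
  have c1 := h1.cont
  have c2 := h2.cont
  have c3 := hv.deriv.cont
  have c4 := hv.deriv.deriv.cont
  have c5 := h1.deriv.cont
  have c6 := h2.deriv.cont
  have cd : Continuous fun x => s x - v x ^ 2 / 2 := by fun_prop
  have dD : ∀ θ, HasDerivAt D (s θ - v θ ^ 2 / 2) θ := fun θ =>
    (cd.integral_hasStrictDerivAt 0 θ).hasDerivAt
  have cD : Continuous D := continuous_iff_continuousAt.2 fun θ => (dD θ).continuousAt
  have dh : ∀ θ, HasDerivAt h (h' θ) θ := fun θ =>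
    ((((h2.hd θ).fun_sub (h1.hd θ)).div_const 2).div_const 2).fun_sub
      ((hv.deriv.hd θ).div_const 4)
  refine ⟨D P, fun a => ?_⟩
  have hDa : D (a + P) - D a = D P := by
    have hp : Function.Periodic (fun x => s x - v x ^ 2 / 2) P := fun x => by
      simp only [hs, hv.2 x, h1.2 x, h2.2 x]
    simp only [hD]
    rw [intervalIntegral.integral_interval_sub_left (cd.intervalIntegrable _ _)
      (cd.intervalIntegrable _ _), hp.intervalIntegral_add_eq a 0, zero_add]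
  have hha : h (a + P) = h a := by simp only [hh, he, h1.2 a, h2.2 a, hv.deriv.2 a]
  obtain ⟨K, hK⟩ := (isCompact_Icc (a := a) (b := a + P)).exists_bound_of_continuousOn
    (f := fun θ => |h θ * v θ - v θ / 2 * e θ| + |h θ * e θ| +
      |h' θ - (2 * s θ - v θ ^ 2 / 2) * (v θ / 2)| + |(2 * s θ - v θ ^ 2 / 2) * h θ| + |D θ| +
      |v θ| + |h θ| + |s θ| + |e θ|) (by fun_prop)
  have hK' : ∀ θ ∈ Icc a (a + P), (|h θ * v θ - v θ / 2 * e θ| ≤ K ∧ |h θ * e θ| ≤ K ∧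
      |h' θ - (2 * s θ - v θ ^ 2 / 2) * (v θ / 2)| ≤ K ∧ |(2 * s θ - v θ ^ 2 / 2) * h θ| ≤ K ∧
      |D θ| ≤ K) ∧ |v θ| ≤ K ∧ |h θ| ≤ K ∧ |s θ| ≤ K ∧ |e θ| ≤ K := fun θ hθ => by
    have := (le_abs_self _).trans (hK θ hθ)
    refine ⟨⟨?_, ?_, ?_, ?_, ?_⟩, ?_, ?_, ?_, ?_⟩ <;>
    linarith [abs_nonneg (h θ * v θ - v θ / 2 * e θ), abs_nonneg (h θ * e θ),
      abs_nonneg (h' θ - (2 * s θ - v θ ^ 2 / 2) * (v θ / 2)),
      abs_nonneg ((2 * s θ - v θ ^ 2 / 2) * h θ), abs_nonneg (D θ), abs_nonneg (v θ),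
      abs_nonneg (h θ), abs_nonneg (s θ), abs_nonneg (e θ)]
  have ha : a ∈ Icc a (a + P) := ⟨le_rfl, by linarith⟩
  have hb : a + P ∈ Icc a (a + P) := ⟨by linarith, le_rfl⟩
  have hK0 : 0 ≤ K := (abs_nonneg _).trans (hK' a ha).2.1
  set B := Real.exp (2 * (2 * K) * P)
  refine ⟨8 * K ^ 2 * B + 2 * (1 + 2 * K) * (4 * K * B * Real.exp (2 * K) * P), 1, one_pos,
    fun l hl p1 p2 q1 q2 hp hq e1 e2 e3 e4 => ?_⟩
  have hl0 : l ≠ 0 := fun h => by norm_num [h] at hl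
  have ht : ‖l⁻¹‖ ≤ 1 := by rw [norm_inv]; exact inv_le_one_of_one_le₀ hl
  have g := fun (y1 y2 : ℝ → ℂ) (hy : SysY v A1 A2 l y1 y2) =>
    gron (a := a) (P := P) (K := 2 * K) (l := l) (m := fun θ => I * s θ * l⁻¹)
      (b := fun θ => v θ + I * e θ * l⁻¹) (c := fun θ => v θ - I * e θ * l⁻¹)
      (fun θ => (diag hy θ).1.congr_deriv (by simp only [hs, he]; ring))
      (fun θ => (diag hy θ).2.congr_deriv (by simp only [hs, he]; ring))
      (fun θ hθ => by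
        obtain ⟨_, k1, _, k3, k4⟩ := hK' θ hθ
        refine ⟨?_, ?_, coef norm_I ht k1 k4⟩
        · simpa using coef (k := 0) norm_I ht (by simpa using hK0) k3
        · simpa using coef (σ := -I) (by simp) ht k1 k4)
      (by positivity)
  have s1 := fun (y1 y2 : ℝ → ℂ) (hy : SysY v A1 A2 l y1 y2) n1 n2 =>
    step (σ := I) (s := s) (e := e) (Or.inl rfl) (mul_inv_cancel₀ hl0) ht hP.le
      (fun θ => (diag hy θ).1) (fun θ => (diag hy θ).2) hv.hd dh (fun _ => rfl) dD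
      (fun θ hθ => (hK' θ hθ).1) (g y1 y2 hy n1 n2)
  have s2 := fun (y1 y2 : ℝ → ℂ) (hy : SysY v A1 A2 l y1 y2) n1 n2 =>
    step (σ := -I) (s := s) (e := e) (Or.inr rfl) (mul_inv_cancel₀ hl0) ht hP.le
      (fun θ => (diag hy θ).2.congr_deriv (by simp only [hs, he]; ring))
      (fun θ => (diag hy θ).1.congr_deriv (by simp only [hs, he]; ring))
      hv.hd dh (fun _ => rfl) dD (fun θ hθ => (hK' θ hθ).1) fun θ hθ =>
        (g y1 y2 hy n1 n2 θ hθ).symm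
  have n1 : ‖p1 a + I * p2 a‖ ≤ 1 := by simp [e1, e2]
  have n2 : ‖p1 a - I * p2 a‖ ≤ 1 := by simp [e1, e2]
  have n3 : ‖q1 a + I * q2 a‖ ≤ 1 := by simp [e3, e4]
  have n4 : ‖q1 a - I * q2 a‖ ≤ 1 := by simp [e3, e4]
  obtain ⟨a1, a2⟩ := g p1 p2 hp n1 n2 _ hb
  obtain ⟨a3, a4⟩ := g q1 q2 hq n3 n4 _ hb
  have b1 := s1 p1 p2 hp n1 n2
  have b2 := s2 p1 p2 hp n1 n2
  have b3 := s1 q1 q2 hq n3 n4
  have b4 := s2 q1 q2 hq n3 n4
  rw [hDa, hha, hv.2 a, e1, e2] at b1 b2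
  rw [hDa, hha, hv.2 a, e3, e4] at b3 b4
  refine (fin ht (small norm_I ht (hK' a ha).2.1 (hK' a ha).2.2.1)
    (small (by simp) ht (hK' a ha).2.1 (hK' a ha).2.2.1) hK0 (norm_nonneg _) ?_
    a1 a2 a3 a4 b1 b2 b3 b4).trans (le_of_eq ?_)
  · rw [Complex.sin, div_eq_mul_inv _ l, div_eq_mul_inv _ l, mul_comm I (l * P + _),
      neg_mul I, mul_comm I (l * P + _), neg_mul _ I]
    ring
  · rw [add_sub_cancel_left, norm_inv, inv_pow]
    ring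

end Pool.Agent.P.MP_785924_gt
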