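import Pool.Agent.P.MP_785924_gt.A.IfaceA
import Pool.Agent.P.MP_785924_gt.A.Tb

/-! Step WKBG of the free boundary annulus project. -/

namespace Pool.Agent.P.MP_785924_gt

open scoped ContDiff
open Set Filter Topology

namespace Wkbg

theorem gauge {ρ P : ℝ} {w : ℝ → ℝ} (hρ : 0 < ρ) (hw : Sm1 P w) {κ l : ℂ} (hl : l ≠ 0)
    (hκ : κ = 2 * (√ρ : ℝ) * l) {φ1 φ2 : ℝ → ℂ} (h : Sys2 ρ w κ φ1 φ2) (b : ℂ) :
    SysY (fun θ => -(deriv w θ / 2)) (fun θ => 1 / (4 * Real.exp (w θ) ^ 2))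
      (fun θ => Real.exp (w θ) ^ 2 / (4 * ρ ^ 2)) l
      (fun θ => b * (√ρ : ℝ) * (((Real.exp (w θ / 2))⁻¹ : ℝ) : ℂ) * φ1 θ)
      (fun θ => b * ((Real.exp (w θ / 2) : ℝ) : ℂ) * φ2 θ) := by
  intro θ
  have hE : HasDerivAt (fun θ => Real.exp (w θ / 2)) (Real.exp (w θ / 2) * (deriv w θ / 2)) θ :=
    ((hw.hd θ).div_const 2).exp
  have hE0 : Real.exp (w θ / 2) ≠ 0 := (Real.exp_pos _).ne'
  have hI : HasDerivAt (fun θ => (Real.exp (w θ / 2))⁻¹)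
      (-(deriv w θ / 2) * (Real.exp (w θ / 2))⁻¹) θ :=
    (hE.fun_inv hE0).congr_deriv (by field_simp)
  have hX : Real.exp (w θ) = Real.exp (w θ / 2) ^ 2 := by
    rw [← Real.exp_nat_mul]; congr 1; push_cast; ring
  have hs : ρ = √ρ ^ 2 := (Real.sq_sqrt hρ.le).symm
  have hs0 : √ρ ≠ 0 := (Real.sqrt_pos.2 hρ).ne'
  obtain ⟨h1, h2⟩ := h θ
  have e1 := ((hI.ofReal_comp.const_mul (b * (√ρ : ℝ))).fun_mul h1)
  have e2 := ((hE.ofReal_comp.const_mul b).fun_mul h2)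
  have hE0' : ((Real.exp (w θ / 2) : ℝ) : ℂ) ≠ 0 := by exact_mod_cast hE0
  have hs0' : ((√ρ : ℝ) : ℂ) ≠ 0 := by exact_mod_cast hs0
  have hρ' : (ρ : ℂ) = ((√ρ : ℝ) : ℂ) ^ 2 := by exact_mod_cast hs
  have hX' : ((Real.exp (w θ) : ℝ) : ℂ) = ((Real.exp (w θ / 2) : ℝ) : ℂ) ^ 2 := by
    exact_mod_cast hX
  refine ⟨e1.congr_deriv ?_, e2.congr_deriv ?_⟩
  · simp only [Complex.ofReal_mul, Complex.ofReal_neg, Complex.ofReal_div, Complex.ofReal_inv,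
      Complex.ofReal_pow, Complex.ofReal_one, Complex.ofReal_ofNat]
    rw [hX', hκ]
    generalize ((Real.exp (w θ / 2) : ℝ) : ℂ) = E at hE0' ⊢
    generalize ((√ρ : ℝ) : ℂ) = s at hs0' hρ' ⊢
    rw [hρ']
    field_simp
    ring
  · simp only [Complex.ofReal_mul, Complex.ofReal_neg, Complex.ofReal_div, Complex.ofReal_inv,
      Complex.ofReal_pow, Complex.ofReal_one, Complex.ofReal_ofNat]
    rw [hX', hκ]
    generalize ((Real.exp (w θ / 2) : ℝ) : ℂ) = E at hE0' ⊢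
    generalize ((√ρ : ℝ) : ℂ) = s at hs0' hρ' ⊢
    rw [hρ']
    field_simp
    ring

end Wkbg

theorem p_WKBG (hWKB : S_WKB) :
    S_WKBG := by
  intro ρ P w hρ hP hw
  have hv : Sm1 P (fun θ => -(deriv w θ / 2)) :=
    ⟨(hw.deriv.1.div_const 2).neg, fun θ => by simp only [hw.deriv.2 θ]⟩
  have hA1 : Sm1 P (fun θ => 1 / (4 * Real.exp (w θ) ^ 2)) :=
    ⟨contDiff_const.div (contDiff_const.mul (hw.1.exp.pow 2)) (fun θ => by positivity),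
      fun θ => by simp only [hw.2 θ]⟩
  have hA2 : Sm1 P (fun θ => Real.exp (w θ) ^ 2 / (4 * ρ ^ 2)) :=
    ⟨(hw.1.exp.pow 2).div_const _, fun θ => by simp only [hw.2 θ]⟩
  obtain ⟨d0, hd⟩ := hWKB P _ _ _ hP hv hA1 hA2
  refine ⟨d0, fun θ0 => ?_⟩
  obtain ⟨C, L, hL, hC⟩ := hd θ0
  have hs0 : 0 < √ρ := Real.sqrt_pos.2 hρ
  refine ⟨C * (2 * √ρ) ^ 2, 2 * √ρ * L, by positivity, ?_⟩
  intro κ l hκ hLκ p1 p2 q1 q2 hp hq e1 e2 e3 e4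
  have hn : ‖κ‖ = 2 * √ρ * ‖l‖ := by
    rw [hκ, norm_mul, norm_mul, Complex.norm_real, Real.norm_of_nonneg hs0.le]; simp
  have hLl : L ≤ ‖l‖ := by
    rw [hn] at hLκ
    exact le_of_mul_le_mul_left hLκ (by positivity)
  have hl0 : 0 < ‖l‖ := lt_of_lt_of_le hL hLl
  have hl : l ≠ 0 := norm_pos_iff.1 hl0
  have hE0' : ((Real.exp (w θ0 / 2) : ℝ) : ℂ) ≠ 0 := by exact_mod_cast (Real.exp_pos _).ne'
  have hs0' : ((√ρ : ℝ) : ℂ) ≠ 0 := by exact_mod_cast hs0.ne'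
  have gp := Wkbg.gauge hρ hw hl hκ hp (((Real.exp (w θ0 / 2) : ℝ) : ℂ) / (√ρ : ℝ))
  have gq := Wkbg.gauge hρ hw hl hκ hq (((Real.exp (w θ0 / 2) : ℝ) : ℂ))⁻¹
  have key := hC l hLl _ _ _ _ gp gq
    (by simp only [e1, Complex.ofReal_inv]; field_simp) (by simp only [e2, mul_zero])
    (by simp only [e3, mul_zero]) (by simp only [e4]; field_simp)
  simp only [hw.2 θ0, Complex.ofReal_inv] at key
  have r1 : ((Real.exp (w θ0 / 2) : ℝ) : ℂ) / (√ρ : ℝ) * (√ρ : ℝ) *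
      (((Real.exp (w θ0 / 2) : ℝ) : ℂ))⁻¹ * p1 (θ0 + P) = p1 (θ0 + P) := by field_simp
  have r2 : (((Real.exp (w θ0 / 2) : ℝ) : ℂ))⁻¹ * ((Real.exp (w θ0 / 2) : ℝ) : ℂ) * q2 (θ0 + P)
      = q2 (θ0 + P) := by field_simp
  rw [r1, r2] at key
  have r3 : p1 (θ0 + P) - q2 (θ0 + P) + Complex.sin (l * P + d0 / l) * ((deriv w θ0 : ℝ) : ℂ) / l
      = p1 (θ0 + P) - q2 (θ0 + P)
        - 2 * Complex.sin (l * P + d0 / l) * ((-(deriv w θ0 / 2) : ℝ) : ℂ) / l := by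
    push_cast; ring
  have r4 : C * (2 * √ρ) ^ 2 / ‖κ‖ ^ 2 = C / ‖l‖ ^ 2 := by
    rw [hn]; field_simp
  rw [r3, r4]
  exact key

end Pool.Agent.P.MP_785924_gt
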